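import Pool.Agent.Strip051.LC.E1.V3.Rw
import Pool.Agent.Strip051.LC.E0.Ch.Cell

/-! # Rests near the full period: certificate Cf1_2 -/

set_option maxRecDepth 100000

namespace Pool.Agent.Strip051.LC.E1.V3

open Pool.Agent.Strip051.PB
open Pool.Agent.Strip051.LC.E0.Ch (onCell Tree)

def x1f_t24 : T :=
  (.c (.b (.c (.b (.a (.l 5156) (.l 5156)) (.c (.l 5284) (.a (.l 5156) (.l 5156)))) (.b (.c (.a
      (.l 5156) (.l 5156)) (.a (.l 5156) (.l 5156))) (.c (.a (.l 5156) (.l 5156)) (.a (.l 5156)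
      (.l 5156))))) (.c (.b (.c (.a (.l 5284) (.l 5284)) (.a (.l 5156) (.l 5156))) (.a (.l 5156)
      (.l 5156))) (.a (.l 5156) (.l 5156)))) (.b (.c (.a (.l 5156) (.l 5156)) (.a (.l 5028) (.l
      5028))) (.a (.l 5028) (.l 5028))))

theorem x1f_h24 : chk3 (onCell 0 2684354560 0 1073741824 0 26843546 T1F) x1f_t24 86 91 63 = true := by decide +kernel

def x1f_t25 : T :=
  (.c (.b (.b (.l 5668) (.l 5668)) (.c (.b (.l 5668) (.l 5668)) (.b (.l 5668) (.c (.l 5668) (.l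
      5668))))) (.b (.b (.c (.l 5540) (.b (.l 5412) (.l 5412))) (.c (.b (.l 5540) (.l 5540)) (.b
      (.c (.l 5540) (.l 5412)) (.c (.l 5540) (.b (.l 5412) (.l 5412)))))) (.c (.b (.c (.l 5540)
      (.b (.l 5540) (.l 5540))) (.c (.b (.l 5540) (.l 5540)) (.a (.l 5540) (.l 5540)))) (.b (.c
      (.b (.l 5540) (.a (.l 5540) (.l 5540))) (.a (.l 5412) (.l 5412))) (.a (.l 5412) (.l
      5412))))))

theorem x1f_h25 : chk3 (onCell 0 2684354560 0 1073741824 0 26843546 T1F) x1f_t25 86 23 30 = true := by decide +kernel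

def x1f_t26 : T :=
  (.b (.c (.b (.c (.b (.c (.l 5412) (.a (.l 5284) (.l 5284))) (.c (.l 5412) (.b (.l 5284) (.c (.l
      5412) (.l 5284))))) (.b (.c (.b (.l 5284) (.c (.l 5284) (.l 5284))) (.b (.c (.a (.l 5284)
      (.l 5284)) (.a (.l 5284) (.l 5284))) (.a (.l 5284) (.l 5284)))) (.c (.a (.l 5284) (.l
      5284)) (.a (.l 5284) (.l 5284))))) (.c (.b (.c (.b (.l 5412) (.l 5412)) (.a (.l 5284) (.l
      5284))) (.c (.a (.l 5412) (.l 5412)) (.a (.l 5284) (.l 5284)))) (.a (.l 5284) (.l 5284))))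
      (.b (.c (.a (.l 5156) (.l 5156)) (.a (.l 5028) (.l 5028))) (.a (.l 5028) (.l 5028)))) (.c
      (.a (.l 5284) (.l 5284)) (.a (.l 5028) (.l 5028))))

theorem x1f_h26 : chk3 (onCell 0 2684354560 0 1073741824 0 26843546 T1F) x1f_t26 86 23 31 = true := by decide +kernel

def x1f_t27 : T :=
  (.c (.l 5412) (.b (.l 5028) (.l 5028)))

theorem x1f_h27 : chk3 (onCell 0 2684354560 0 1073741824 0 26843546 T1F) x1f_t27 87 11 15 = true := by decide +kernel

def x1f_t28 : T :=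
  (.a (.c (.a (.c (.l 8100) (.l 6820)) (.l 6820)) (.a (.l 5028) (.c (.l 5796) (.b (.l 5028) (.l
      5028))))) (.c (.a (.l 6820) (.b (.l 6820) (.l 6820))) (.c (.a (.l 5796) (.b (.l 5796) (.l
      5796))) (.a (.b (.l 5028) (.l 5028)) (.b (.l 5028) (.l 5028))))))

theorem x1f_h28 : chk3 (onCell 0 2684354560 0 1073741824 0 26843546 T1F) x1f_t28 22 4 3 = true := by decide +kernel

def x1f_t29 : T :=
  (.b (.c (.l 57213459108) (.l 5028)) (.c (.c (.a (.l 8100) (.b (.l 8100) (.l 8100))) (.a (.l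
      6820) (.b (.l 6820) (.l 6820)))) (.c (.l 5796) (.a (.l 5028) (.l 5028)))))

theorem x1f_h29 : chk3 (onCell 0 2684354560 0 1073741824 0 26843546 T1F) x1f_t29 92 4 3 = true := by decide +kernel

def x1f_t30 : T :=
  (.c (.c (.b (.l 8100) (.c (.l 9124) (.b (.l 8100) (.l 8100)))) (.b (.l 6820) (.c (.b (.l 7460)
      (.l 7460)) (.b (.l 6820) (.l 6820))))) (.c (.b (.l 48623523492) (.c (.b (.b (.l 6308) (.l
      6308)) (.l 6308)) (.b (.b (.l 5796) (.l 5796)) (.l 5796)))) (.b (.c (.l 45402297636) (.l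
      42181071780)) (.b (.c (.b (.l 5412) (.l 5412)) (.b (.a (.l 5028) (.l 5028)) (.l 5028))) (.l
      5028)))))

theorem x1f_h30 : chk3 (onCell 0 2684354560 0 1073741824 0 26843546 T1F) x1f_t30 186 4 3 = true := by decide +kernel

def x1f_t31 : T :=
  (.c (.c (.b (.l 8100) (.l 8100)) (.b (.l 6820) (.b (.l 6820) (.l 6820)))) (.c (.b (.l 5796) (.b
      (.c (.l 6308) (.b (.l 5796) (.l 5796))) (.l 5796))) (.b (.b (.l 5028) (.l 5028)) (.c (.b
      (.b (.a (.l 5412) (.l 5412)) (.l 5412)) (.l 5412)) (.b (.b (.a (.l 5028) (.l 5028)) (.l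
      5028)) (.l 5028))))))

theorem x1f_h31 : chk3 (onCell 0 2684354560 0 1073741824 0 26843546 T1F) x1f_t31 187 4 3 = true := by decide +kernel

def x1f_t32 : T :=
  (.a (.c (.c (.l 8100) (.b (.l 6820) (.l 6820))) (.c (.a (.b (.l 5796) (.b (.l 5796) (.l 5796)))
      (.b (.c (.l 6308) (.l 5796)) (.l 5796))) (.b (.c (.a (.l 5412) (.b (.l 5412) (.l 5412)))
      (.a (.l 5028) (.b (.l 5028) (.l 5028)))) (.a (.b (.c (.l 5412) (.b (.l 5028) (.l 5028)))
      (.l 5028)) (.b (.l 5028) (.l 5028)))))) (.c (.l 6822) (.c (.b (.c (.l 6308) (.l 5796)) (.l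
      5796)) (.b (.c (.a (.b (.l 5412) (.l 5412)) (.l 5412)) (.a (.b (.l 5028) (.c (.l 5284) (.l
      5028))) (.b (.l 5028) (.l 5028)))) (.l 5028)))))

theorem x1f_h32 : chk3 (onCell 0 2684354560 0 1073741824 0 26843546 T1F) x1f_t32 47 4 3 = true := by decide +kernel

def x1f_t33 : T :=
  (.a (.a (.c (.c (.l 8100) (.l 6820)) (.c (.b (.l 5796) (.l 5796)) (.b (.l 5028) (.c (.l 5412)
      (.l 5028))))) (.c (.c (.l 8100) (.l 6820)) (.c (.c (.l 6308) (.b (.l 5796) (.l 5796))) (.b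
      (.l 5028) (.l 5028))))) (.c (.c (.a (.l 8100) (.l 8100)) (.b (.l 6820) (.l 6820))) (.c (.b
      (.l 5796) (.l 5796)) (.b (.a (.l 5028) (.l 5028)) (.l 5028)))))

theorem x1f_h33 : chk3 (onCell 0 2684354560 0 1073741824 0 26843546 T1F) x1f_t33 22 5 3 = true := by decide +kernel

def x1f_t34 : T :=
  (.c (.a (.a (.c (.l 8100) (.l 6820)) (.c (.l 8100) (.l 6820))) (.b (.l 6820) (.c (.l 34) (.a
      (.l 6818) (.l 6818))))) (.a (.a (.c (.l 5796) (.b (.l 5028) (.l 5028))) (.c (.b (.l 5796)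
      (.l 5796)) (.c (.b (.l 45402297636) (.l 5412)) (.a (.b (.l 5028) (.l 5028)) (.b (.l 5028)
      (.l 5028)))))) (.b (.a (.c (.l 5796) (.b (.l 5028) (.a (.l 5028) (.l 5028)))) (.c (.l 5796)
      (.c (.l 5412) (.b (.l 5028) (.l 5028))))) (.c (.a (.l 32) (.c (.l 6306) (.l 32))) (.a (.a
      (.l 5028) (.l 32)) (.a (.b (.l 5028) (.l 5026)) (.c (.l 5410) (.l 5026))))))))

theorem x1f_h34 : chk3 (onCell 0 2684354560 0 1073741824 0 26843546 T1F) x1f_t34 23 5 3 = true := by decide +kernel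

def x1f_t35 : T :=
  (.b (.c (.a (.b (.c (.l 40868) (.l 20388)) (.c (.l 40868) (.l 20388))) (.b (.c (.l 40868) (.a
      (.l 20388) (.l 20388))) (.c (.l 40868) (.a (.l 20388) (.l 20388))))) (.a (.a (.l 10148) (.l
      10148)) (.a (.c (.a (.l 13604) (.l 13604)) (.a (.c (.l 11684) (.b (.l 10148) (.l 10148)))
      (.c (.l 11684) (.l 10148)))) (.c (.l 13604) (.a (.l 10148) (.l 10148)))))) (.c (.a (.b (.c
      (.l 40868) (.l 20388)) (.l 15)) (.b (.c (.l 40868) (.l 20388)) (.l 15))) (.a (.a (.l 10148)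
      (.l 10148)) (.b (.a (.c (.l 13604) (.l 15)) (.c (.l 13604) (.l 15))) (.l 15)))))

theorem x1f_h35 : chk3 (onCell 0 2684354560 0 1073741824 0 26843546 T1F) x1f_t35 10 3 2 = true := by decide +kernel

def x1f_t36 : T :=
  (.c (.l 40868) (.l 20388))

theorem x1f_h36 : chk3 (onCell 0 2684354560 0 1073741824 0 26843546 T1F) x1f_t36 22 12 4 = true := by decide +kernel

def x1f_t37 : T :=
  (.a (.l 40868) (.b (.a (.l 40868) (.c (.b (.l 81826) (.a (.l 81826) (.l 81826))) (.b (.l 40866)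
      (.a (.l 40866) (.l 40866))))) (.a (.c (.b (.a (.l 81828) (.l 81826)) (.a (.c (.b (.l
      163748) (.c (.a (.l 327588) (.l 327586)) (.l 32))) (.l 32)) (.c (.b (.a (.l 163746) (.l
      163746)) (.a (.l 163746) (.l 163746))) (.b (.l 32) (.l 32))))) (.b (.l 32) (.a (.l 32) (.l
      32)))) (.c (.b (.a (.c (.b (.l 163746) (.l 163746)) (.b (.l 81826) (.l 81826))) (.l 81826))
      (.a (.l 81826) (.l 81826))) (.b (.a (.l 32) (.l 40866)) (.l 32))))))

theorem x1f_h37 : chk3 (onCell 0 2684354560 0 1073741824 0 26843546 T1F) x1f_t37 22 13 8 = true := by decide +kernel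

def x1f_t38 : T :=
  (.a (.l 20388) (.b (.a (.l 20388) (.l 32)) (.a (.l 32) (.c (.b (.l 32) (.l 32)) (.l 32)))))

theorem x1f_h38 : chk3 (onCell 0 2684354560 0 1073741824 0 26843546 T1F) x1f_t38 22 13 9 = true := by decide +kernel

def x1f_t39 : T :=
  (.c (.a (.b (.a (.l 40868) (.l 40866)) (.a (.c (.b (.l 81826) (.l 81826)) (.a (.l 40866) (.l
      40866))) (.c (.l 81826) (.a (.l 40866) (.l 40866))))) (.b (.a (.l 40866) (.l 40866)) (.a
      (.l 40866) (.l 40866)))) (.a (.b (.a (.l 20388) (.l 20386)) (.a (.l 32) (.c (.l 34) (.l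
      32)))) (.b (.a (.l 20386) (.l 20386)) (.a (.l 20386) (.l 20386)))))

theorem x1f_h39 : chk3 (onCell 0 2684354560 0 1073741824 0 26843546 T1F) x1f_t39 23 12 4 = true := by decide +kernel

def x1f_t40 : T :=
  (.c (.a (.b (.a (.c (.b (.a (.l 81826) (.l 81826)) (.l 81826)) (.b (.a (.l 40866) (.l 40866))
      (.l 40866))) (.l 40866)) (.a (.c (.a (.l 81826) (.l 81826)) (.a (.l 40866) (.l 40866))) (.l
      40866))) (.a (.b (.l 40866) (.l 40866)) (.l 40866))) (.a (.b (.a (.c (.b (.l 32) (.l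
      27298)) (.l 32)) (.l 20386)) (.a (.c (.l 32) (.l 32)) (.l 20386))) (.a (.b (.l 20386) (.l
      20386)) (.l 20386))))

theorem x1f_h40 : chk3 (onCell 0 2684354560 0 1073741824 0 26843546 T1F) x1f_t40 23 13 4 = true := by decide +kernel

def x1f_t41 : T :=
  (.a (.b (.l 10148) (.c (.a (.l 13604) (.b (.l 32) (.a (.l 32) (.l 32)))) (.a (.l 10148) (.b (.l
      32) (.a (.l 32) (.l 32)))))) (.b (.a (.c (.b (.l 32) (.a (.l 13602) (.l 32))) (.b (.l 32)
      (.a (.l 10146) (.l 32)))) (.c (.b (.a (.l 13602) (.l 13602)) (.a (.l 13602) (.l 13602)))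
      (.b (.a (.l 10146) (.l 10146)) (.l 34)))) (.a (.c (.b (.a (.l 34) (.l 13602)) (.a (.l 32)
      (.l 13602))) (.b (.a (.l 32) (.l 10146)) (.a (.l 32) (.l 10146)))) (.c (.a (.b (.l 13602)
      (.l 13602)) (.l 13602)) (.a (.l 34) (.l 10146))))))

theorem x1f_h41 : chk3 (onCell 0 2684354560 0 1073741824 0 26843546 T1F) x1f_t41 11 6 5 = true := by decide +kernel

def x1f_t42 : T :=
  (.l 81828)

theorem x1f_h42 : chk3 (onCell 0 2684354560 0 1073741824 0 26843546 T1F) x1f_t42 88 28 16 = true := by decide +kernel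

def x1f_t43 : T :=
  (.c (.a (.l 163748) (.b (.l 163748) (.c (.a (.l 327588) (.b (.l 327586) (.c (.a (.l 512036) (.b
      (.l 512034) (.l 512034))) (.l 32)))) (.l 32)))) (.l 32))

theorem x1f_h43 : chk3 (onCell 0 2684354560 0 1073741824 0 26843546 T1F) x1f_t43 89 56 16 = true := by decide +kernel

def x1f_t44 : T :=
  (.b (.l 163748) (.c (.a (.l 327588) (.b (.l 327588) (.l 15))) (.l 15)))

theorem x1f_h44 : chk3 (onCell 0 2684354560 0 1073741824 0 26843546 T1F) x1f_t44 178 57 32 = true := by decide +kernel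

end Pool.Agent.Strip051.LC.E1.V3
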