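import Pool.Agent.Strip051.LC.E1.V3.Rw
import Pool.Agent.Strip051.LC.E0.Ch.Cell

/-! # Rests near the full period: certificate Cf1_3 -/

set_option maxRecDepth 100000

namespace Pool.Agent.Strip051.LC.E1.V3

open Pool.Agent.Strip051.PB
open Pool.Agent.Strip051.LC.E0.Ch (onCell Tree)

def x1f_t45 : T :=
  (.c (.a (.b (.l 327588) (.c (.a (.l 512036) (.b (.c (.a (.l 512036) (.l 512034)) (.l 32)) (.c
      (.a (.l 512036) (.b (.c (.a (.l 512034) (.l 512034)) (.a (.l 512034) (.l 512034))) (.c (.a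
      (.l 512034) (.l 512034)) (.a (.l 512034) (.l 512034))))) (.l 32)))) (.l 32))) (.b (.c (.a
      (.b (.l 512034) (.c (.a (.l 512034) (.l 512034)) (.l 32))) (.b (.l 512034) (.l 512034)))
      (.l 32)) (.c (.a (.b (.c (.a (.b (.l 512034) (.l 512034)) (.l 512034)) (.l 32)) (.c (.a (.l
      512034) (.l 512034)) (.l 32))) (.b (.l 512034) (.l 512034))) (.l 32)))) (.l 32))

theorem x1f_h45 : chk3 (onCell 0 2684354560 0 1073741824 0 26843546 T1F) x1f_t45 179 114 32 = true := by decide +kernel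

def x1f_t46 : T :=
  (.c (.a (.b (.l 512036) (.l 15)) (.b (.c (.a (.b (.c (.a (.l 512036) (.b (.l 512034) (.c (.a
      (.l 512034) (.l 512034)) (.a (.l 512034) (.l 512034))))) (.a (.l 512036) (.b (.l 512034)
      (.c (.a (.l 512034) (.l 512034)) (.l 512034))))) (.c (.a (.b (.l 512034) (.c (.a (.l
      512036) (.b (.l 512034) (.l 15))) (.l 15))) (.b (.c (.a (.l 512034) (.l 512034)) (.a (.l
      512034) (.l 512034))) (.l 512034))) (.a (.b (.l 512034) (.l 15)) (.b (.c (.a (.l 512034)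
      (.l 512034)) (.l 32)) (.l 15))))) (.b (.c (.a (.l 512034) (.l 512034)) (.a (.l 512034) (.l
      512034))) (.c (.a (.l 512034) (.l 512034)) (.a (.l 512034) (.l 512034))))) (.l 32)) (.l
      15))) (.l 32))

theorem x1f_h46 : chk3 (onCell 0 2684354560 0 1073741824 0 26843546 T1F) x1f_t46 358 230 64 = true := by decide +kernel

def x1f_t47 : T :=
  (.l 15)

theorem x1f_h47 : chk3 (onCell 0 2684354560 0 1073741824 0 26843546 T1F) x1f_t47 358 231 64 = true := by decide +kernel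

def x1f_t48 : T :=
  (.b (.c (.a (.b (.c (.a (.l 512034) (.l 512034)) (.l 32)) (.l 15)) (.b (.l 512034) (.l 15)))
      (.l 32)) (.l 15))

theorem x1f_h48 : chk3 (onCell 0 2684354560 0 1073741824 0 26843546 T1F) x1f_t48 359 115 64 = true := by decide +kernel

def x1f_t49 : T :=
  (.l 15)

theorem x1f_h49 : chk3 (onCell 0 2684354560 0 1073741824 0 26843546 T1F) x1f_t49 179 115 65 = true := by decide +kernel

def x1f_t50 : T :=
  (.a (.l 81828) (.l 32))

theorem x1f_h50 : chk3 (onCell 0 2684354560 0 1073741824 0 26843546 T1F) x1f_t50 89 57 33 = true := by decide +kernel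

def x1f_t51 : T :=
  (.a (.l 40868) (.l 32))

theorem x1f_h51 : chk3 (onCell 0 2684354560 0 1073741824 0 26843546 T1F) x1f_t51 44 28 17 = true := by decide +kernel

def x1f_t52 : T :=
  (.l 15)

theorem x1f_h52 : chk3 (onCell 0 2684354560 0 1073741824 0 26843546 T1F) x1f_t52 44 29 8 = true := by decide +kernel

def x1f_t53 : T :=
  (.a (.c (.b (.c (.a (.b (.l 327586) (.c (.a (.l 512034) (.l 512034)) (.l 32))) (.b (.l 327586)
      (.l 327586))) (.a (.l 32) (.l 32))) (.c (.a (.b (.c (.a (.l 512034) (.l 512034)) (.l 32))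
      (.c (.a (.l 512034) (.l 512034)) (.l 32))) (.l 327586)) (.a (.l 32) (.l 163746)))) (.b (.l
      32) (.l 32))) (.c (.b (.a (.l 163746) (.l 163746)) (.a (.l 163746) (.l 163746))) (.l 32)))

theorem x1f_h53 : chk3 (onCell 0 2684354560 0 1073741824 0 26843546 T1F) x1f_t53 90 56 16 = true := by decide +kernel

def x1f_t54 : T :=
  (.a (.c (.b (.c (.a (.b (.c (.a (.l 512034) (.l 512034)) (.l 32)) (.c (.a (.l 512034) (.l
      512034)) (.l 32))) (.l 327586)) (.l 32)) (.c (.a (.b (.c (.a (.l 512034) (.l 512034)) (.l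
      32)) (.l 15)) (.l 327586)) (.l 15))) (.l 32)) (.c (.b (.a (.l 163746) (.l 163746)) (.a (.l
      163746) (.l 163746))) (.l 32)))

theorem x1f_h54 : chk3 (onCell 0 2684354560 0 1073741824 0 26843546 T1F) x1f_t54 90 57 16 = true := by decide +kernel

def x1f_t55 : T :=
  (.b (.a (.l 32) (.l 32)) (.l 32))

theorem x1f_h55 : chk3 (onCell 0 2684354560 0 1073741824 0 26843546 T1F) x1f_t55 90 28 17 = true := by decide +kernel

def x1f_t56 : T :=
  (.c (.b (.a (.l 81826) (.l 81826)) (.a (.l 81826) (.l 81826))) (.b (.l 32) (.l 32)))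

theorem x1f_h56 : chk3 (onCell 0 2684354560 0 1073741824 0 26843546 T1F) x1f_t56 91 28 8 = true := by decide +kernel

def x1f_t57 : T :=
  (.l 15)

theorem x1f_h57 : chk3 (onCell 0 2684354560 0 1073741824 0 26843546 T1F) x1f_t57 45 29 8 = true := by decide +kernel

def x1f_t58 : T :=
  (.a (.b (.l 32) (.l 15)) (.b (.a (.c (.b (.l 32) (.l 15)) (.l 32)) (.l 32)) (.l 15)))

theorem x1f_h58 : chk3 (onCell 0 2684354560 0 1073741824 0 26843546 T1F) x1f_t58 22 14 9 = true := by decide +kernel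

def x1f_t59 : T :=
  (.l 15)

theorem x1f_h59 : chk3 (onCell 0 2684354560 0 1073741824 0 26843546 T1F) x1f_t59 22 15 4 = true := by decide +kernel

def x1f_t60 : T :=
  (.b (.c (.a (.b (.a (.c (.a (.l 81826) (.l 81826)) (.a (.l 40866) (.l 40866))) (.l 40866)) (.l
      15)) (.b (.a (.l 40866) (.l 40866)) (.l 15))) (.a (.b (.a (.c (.l 32) (.l 32)) (.l 20386))
      (.l 15)) (.b (.a (.l 20386) (.l 20386)) (.l 15)))) (.l 15))

theorem x1f_h60 : chk3 (onCell 0 2684354560 0 1073741824 0 26843546 T1F) x1f_t60 23 7 4 = true := by decide +kernel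

def x1f_t61 : T :=
  (.a (.b (.a (.c (.b (.l 15) (.l 15)) (.l 15)) (.c (.l 15) (.l 15))) (.l 15)) (.b (.a (.l 15)
      (.l 15)) (.l 15)))

theorem x1f_h61 : chk3 (onCell 0 2684354560 0 1073741824 0 26843546 T1F) x1f_t61 11 7 5 = true := by decide +kernel

def x1f_t62 : T :=
  (.b (.a (.a (.l 6820) (.l 6820)) (.a (.c (.a (.l 8100) (.c (.a (.l 9124) (.l 9124)) (.b (.l
      8100) (.l 8100)))) (.a (.l 6820) (.b (.c (.a (.l 7460) (.l 7460)) (.b (.l 6820) (.a (.l
      6820) (.l 6820)))) (.c (.a (.l 7460) (.l 7460)) (.a (.l 6820) (.l 6820)))))) (.c (.a (.c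
      (.l 9124) (.a (.c (.l 8612) (.l 8100)) (.l 8100))) (.l 8100)) (.a (.c (.a (.c (.b (.l 7716)
      (.l 7716)) (.b (.l 7460) (.l 7460))) (.l 7460)) (.a (.b (.l 6820) (.l 6820)) (.b (.l 6820)
      (.l 6820)))) (.l 6820))))) (.a (.l 15) (.l 15)))

theorem x1f_h62 : chk3 (onCell 0 2684354560 0 1073741824 0 26843546 T1F) x1f_t62 10 3 6 = true := by decide +kernel

def x1f_t63 : T :=
  (.b (.a (.b (.a (.l 6820) (.l 6820)) (.c (.a (.l 8100) (.b (.l 32) (.a (.l 32) (.l 32)))) (.a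
      (.l 6820) (.b (.l 32) (.l 15))))) (.b (.a (.c (.a (.l 32) (.c (.l 32) (.l 32))) (.a (.l 32)
      (.l 32))) (.c (.b (.a (.l 8098) (.l 8098)) (.l 34)) (.b (.a (.l 6818) (.l 6818)) (.a (.l
      6818) (.l 6818))))) (.a (.c (.b (.a (.l 32) (.l 8098)) (.l 15)) (.b (.a (.l 32) (.l 6818))
      (.l 15))) (.c (.a (.l 34) (.l 8098)) (.a (.l 32) (.l 6818)))))) (.l 15))

theorem x1f_h63 : chk3 (onCell 0 2684354560 0 1073741824 0 26843546 T1F) x1f_t63 11 3 6 = true := by decide +kernel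

def x1f_t64 : T :=
  (.c (.a (.l 5796) (.b (.l 5796) (.l 5796))) (.b (.a (.l 5028) (.l 5028)) (.c (.a (.l 5412) (.l
      5412)) (.b (.a (.l 5028) (.l 5028)) (.l 15)))))

theorem x1f_h64 : chk3 (onCell 0 2684354560 0 1073741824 0 26843546 T1F) x1f_t64 20 6 7 = true := by decide +kernel

def x1f_t65 : T :=
  (.c (.b (.c (.a (.l 6308) (.b (.a (.l 6308) (.l 6308)) (.l 6308))) (.a (.l 5796) (.b (.a (.l
      5796) (.l 5796)) (.l 5796)))) (.a (.l 5796) (.c (.l 6308) (.l 5796)))) (.b (.c (.b (.a (.l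
      5412) (.l 5412)) (.a (.l 5412) (.l 5412))) (.b (.a (.l 5028) (.l 5028)) (.a (.l 5028) (.a
      (.l 5028) (.l 5028))))) (.c (.a (.l 5412) (.a (.l 5412) (.l 5412))) (.a (.l 5028) (.b (.a
      (.l 5028) (.l 5028)) (.l 15))))))

theorem x1f_h65 : chk3 (onCell 0 2684354560 0 1073741824 0 26843546 T1F) x1f_t65 42 6 7 = true := by decide +kernel

def x1f_t66 : T :=
  (.a (.c (.b (.c (.a (.l 6564) (.l 6564)) (.b (.a (.l 6308) (.l 6308)) (.a (.l 6308) (.l
      6308)))) (.c (.a (.l 6564) (.l 6564)) (.c (.l 6436) (.l 6308)))) (.b (.a (.c (.b (.l 6052)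
      (.l 6052)) (.a (.l 5796) (.l 5796))) (.c (.b (.l 6052) (.l 6052)) (.b (.l 5796) (.l
      5796)))) (.c (.c (.l 6180) (.l 6052)) (.c (.l 5924) (.l 5796))))) (.c (.a (.l 6308) (.l
      6308)) (.a (.b (.l 5796) (.l 5796)) (.l 5796))))

theorem x1f_h66 : chk3 (onCell 0 2684354560 0 1073741824 0 26843546 T1F) x1f_t66 43 6 14 = true := by decide +kernel

def x1f_t67 : T :=
  (.b (.c (.a (.a (.l 5412) (.c (.l 5668) (.l 5412))) (.c (.b (.l 5668) (.l 5668)) (.b (.b (.l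
      5412) (.l 5412)) (.l 5412)))) (.b (.c (.a (.l 5284) (.b (.c (.l 5284) (.l 5284)) (.l
      5284))) (.a (.l 5028) (.b (.c (.b (.l 5156) (.l 5156)) (.b (.l 5028) (.a (.l 5028) (.l
      5028)))) (.c (.l 5156) (.l 5028))))) (.c (.a (.l 5284) (.l 5284)) (.a (.l 5028) (.l
      5028))))) (.c (.c (.l 5668) (.a (.l 5412) (.l 5412))) (.a (.l 5028) (.c (.l 5284) (.l
      5028)))))

theorem x1f_h67 : chk3 (onCell 0 2684354560 0 1073741824 0 26843546 T1F) x1f_t67 86 6 15 = true := by decide +kernel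

def x1f_t68 : T :=
  (.c (.b (.a (.c (.l 5668) (.l 5412)) (.l 5412)) (.a (.c (.b (.l 5668) (.l 15)) (.b (.l 5412)
      (.l 15))) (.c (.l 5668) (.b (.l 5412) (.l 15))))) (.b (.a (.c (.b (.l 5284) (.l 5284)) (.b
      (.a (.l 5028) (.l 5028)) (.a (.l 5028) (.l 5028)))) (.l 5028)) (.c (.a (.b (.l 5284) (.l
      15)) (.b (.l 5284) (.l 15))) (.b (.a (.c (.l 5156) (.l 15)) (.l 15)) (.l 15)))))

theorem x1f_h68 : chk3 (onCell 0 2684354560 0 1073741824 0 26843546 T1F) x1f_t68 87 6 15 = true := by decide +kernel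

def x1f_t69 : T :=
  (.l 15)

theorem x1f_h69 : chk3 (onCell 0 2684354560 0 1073741824 0 26843546 T1F) x1f_t69 10 7 7 = true := by decide +kernel

def x1f_t70 : T :=
  (.b (.a (.c (.l 5796) (.a (.l 5028) (.l 5028))) (.c (.l 5796) (.a (.l 5028) (.l 5028)))) (.c
      (.a (.l 5796) (.b (.l 32) (.l 15))) (.a (.c (.a (.l 5412) (.l 5412)) (.a (.b (.a (.l 5028)
      (.l 15)) (.l 15)) (.l 15))) (.b (.a (.l 5028) (.l 15)) (.l 15)))))

theorem x1f_h70 : chk3 (onCell 0 2684354560 0 1073741824 0 26843546 T1F) x1f_t70 22 6 7 = true := by decide +kernel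

def x1f_t71 : T :=
  (.b (.a (.c (.a (.l 32) (.b (.l 32) (.l 32))) (.a (.l 32) (.b (.l 32) (.c (.l 32) (.a (.l 5026)
      (.l 32)))))) (.c (.b (.a (.l 5794) (.l 5794)) (.a (.l 5794) (.l 5794))) (.b (.a (.c (.l
      5410) (.l 32)) (.c (.l 5410) (.a (.l 34) (.b (.l 5026) (.l 5026))))) (.a (.c (.l 5410) (.a
      (.b (.l 5026) (.l 15)) (.b (.l 32) (.l 15)))) (.c (.l 5410) (.a (.b (.l 34) (.l 15)) (.b
      (.l 5026) (.l 15)))))))) (.a (.c (.b (.a (.l 32) (.l 32)) (.l 15)) (.l 15)) (.c (.a (.b (.l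
      5794) (.l 15)) (.l 15)) (.l 15))))

theorem x1f_h71 : chk3 (onCell 0 2684354560 0 1073741824 0 26843546 T1F) x1f_t71 23 6 7 = true := by decide +kernel

def x1f_t72 : T :=
  (.l 15)

theorem x1f_h72 : chk3 (onCell 0 2684354560 0 1073741824 0 26843546 T1F) x1f_t72 11 7 7 = true := by decide +kernel

def x1f_t73 : T :=
  (.c (.a (.b (.c (.l 40870) (.l 20390)) (.c (.l 40866) (.l 20386))) (.b (.c (.l 40866) (.l
      20386)) (.c (.a (.b (.l 40866) (.l 40866)) (.b (.l 40866) (.l 40866))) (.a (.b (.l 20386)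
      (.l 20386)) (.b (.l 20386) (.l 20386)))))) (.a (.l 10178) (.b (.l 10146) (.a (.l 10146) (.b
      (.l 10146) (.l 10146))))))

theorem x1f_h73 : chk3 (onCell 0 2684354560 0 1073741824 0 26843546 T1F) x1f_t73 12 4 2 = true := by decide +kernel

end Pool.Agent.Strip051.LC.E1.V3
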