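import Pool.Agent.Strip051.LC.E1.V3.Rw
import Pool.Agent.Strip051.LC.E0.Ch.Cell

/-! # Rests near the full period: certificate Cf1_4 -/

set_option maxRecDepth 100000

namespace Pool.Agent.Strip051.LC.E1.V3

open Pool.Agent.Strip051.PB
open Pool.Agent.Strip051.LC.E0.Ch (onCell Tree)

def x1f_t74 : T :=
  (.a (.b (.c (.a (.l 40866) (.b (.l 40866) (.l 40866))) (.a (.l 20386) (.b (.l 20386) (.l
      20386)))) (.c (.a (.b (.a (.l 40866) (.l 40866)) (.l 40866)) (.l 40866)) (.a (.b (.a (.l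
      20386) (.l 20386)) (.l 20386)) (.l 20386)))) (.b (.c (.b (.a (.l 40866) (.l 40866)) (.l
      40866)) (.b (.a (.l 20386) (.l 20386)) (.l 20386))) (.c (.a (.l 40866) (.l 40866)) (.a (.l
      20386) (.l 20386)))))

theorem x1f_h74 : chk3 (onCell 0 2684354560 0 1073741824 0 26843546 T1F) x1f_t74 12 5 4 = true := by decide +kernel

def x1f_t75 : T :=
  (.a (.b (.a (.l 10146) (.c (.b (.l 13602) (.l 13602)) (.b (.l 10146) (.l 10146)))) (.a (.c (.b
      (.a (.l 13602) (.l 13602)) (.l 13602)) (.b (.l 10146) (.l 10146))) (.c (.l 13602) (.l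
      10146)))) (.a (.b (.c (.l 13602) (.l 34)) (.l 10146)) (.b (.l 10146) (.l 10146))))

theorem x1f_h75 : chk3 (onCell 0 2684354560 0 1073741824 0 26843546 T1F) x1f_t75 12 5 5 = true := by decide +kernel

def x1f_t76 : T :=
  (.a (.b (.c (.a (.b (.l 40866) (.l 40866)) (.b (.l 40866) (.l 40866))) (.a (.l 20386) (.b (.l
      20386) (.l 20386)))) (.c (.a (.b (.l 40866) (.l 40866)) (.b (.a (.l 40866) (.l 40866)) (.a
      (.l 40866) (.l 40866)))) (.a (.b (.l 20386) (.l 20386)) (.b (.a (.l 20386) (.l 20386)) (.a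
      (.l 20386) (.l 20386)))))) (.b (.c (.a (.l 40866) (.l 40866)) (.a (.l 20386) (.l 20386)))
      (.c (.a (.l 40866) (.l 40866)) (.a (.l 20386) (.l 20386)))))

theorem x1f_h76 : chk3 (onCell 0 2684354560 0 1073741824 0 26843546 T1F) x1f_t76 13 4 4 = true := by decide +kernel

def x1f_t77 : T :=
  (.a (.b (.a (.l 10146) (.b (.l 10146) (.l 10146))) (.a (.c (.a (.l 13602) (.l 13602)) (.b (.l
      10146) (.l 10146))) (.c (.b (.a (.l 13602) (.l 13602)) (.l 13602)) (.b (.l 10146) (.l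
      10146))))) (.b (.c (.a (.l 13602) (.l 13602)) (.a (.b (.l 10146) (.l 10146)) (.l 10146)))
      (.a (.c (.l 13602) (.l 10146)) (.l 10146))))

theorem x1f_h77 : chk3 (onCell 0 2684354560 0 1073741824 0 26843546 T1F) x1f_t77 13 4 5 = true := by decide +kernel

def x1f_t78 : T :=
  (.c (.a (.b (.c (.a (.l 40866) (.b (.l 40866) (.l 40866))) (.a (.l 20386) (.b (.l 20386) (.l
      20386)))) (.c (.a (.l 40866) (.b (.l 40866) (.l 40866))) (.a (.l 20386) (.b (.l 20386) (.l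
      20386))))) (.b (.c (.l 40866) (.l 20386)) (.c (.l 40866) (.l 20386)))) (.a (.b (.c (.a (.l
      13602) (.b (.l 13602) (.l 13602))) (.a (.l 10146) (.l 10146))) (.a (.l 10146) (.c (.l
      13602) (.l 10146)))) (.b (.c (.l 13602) (.l 34)) (.b (.l 10146) (.l 10146)))))

theorem x1f_h78 : chk3 (onCell 0 2684354560 0 1073741824 0 26843546 T1F) x1f_t78 13 5 2 = true := by decide +kernel

def x1f_t79 : T :=
  (.b (.a (.a (.l 57231284902) (.l 6822)) (.b (.l 6818) (.a (.l 6818) (.b (.l 6818) (.l 6818)))))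
      (.a (.b (.a (.l 6818) (.c (.b (.l 8098) (.l 8098)) (.a (.l 6818) (.l 6818)))) (.a (.c (.b
      (.l 8098) (.l 8098)) (.b (.l 6818) (.l 6818))) (.a (.l 6818) (.l 6818)))) (.a (.b (.c (.l
      34) (.l 34)) (.l 6818)) (.b (.l 6818) (.l 6818)))))

theorem x1f_h79 : chk3 (onCell 0 2684354560 0 1073741824 0 26843546 T1F) x1f_t79 12 2 6 = true := by decide +kernel

def x1f_t80 : T :=
  (.a (.a (.a (.c (.l 5798) (.b (.c (.l 5414) (.l 5030)) (.l 5030))) (.b (.c (.l 5798) (.l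
      42198897574)) (.c (.l 5798) (.a (.c (.l 5414) (.l 5030)) (.l 5030))))) (.a (.c (.l 5798)
      (.l 5030)) (.l 5062))) (.b (.l 5030) (.c (.a (.l 5794) (.b (.l 5794) (.l 5794))) (.b (.l
      42166391714) (.a (.l 5026) (.c (.l 5410) (.a (.l 5026) (.l 5026))))))))

theorem x1f_h80 : chk3 (onCell 0 2684354560 0 1073741824 0 26843546 T1F) x1f_t80 12 4 7 = true := by decide +kernel

def x1f_t81 : T :=
  (.a (.a (.a (.c (.l 5798) (.l 5030)) (.c (.l 5794) (.a (.l 5030) (.l 5026)))) (.c (.a (.l 5794)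
      (.l 5826)) (.a (.a (.l 5026) (.c (.l 5410) (.l 5026))) (.b (.l 5058) (.c (.l 5410) (.l
      5026)))))) (.c (.a (.b (.l 5794) (.l 5794)) (.l 5794)) (.b (.c (.a (.l 5410) (.l 5410)) (.a
      (.a (.l 5026) (.l 5026)) (.b (.a (.l 5026) (.l 5026)) (.l 34)))) (.a (.a (.c (.l 5410) (.l
      34)) (.c (.l 5410) (.l 34))) (.c (.l 34) (.l 34))))))

theorem x1f_h81 : chk3 (onCell 0 2684354560 0 1073741824 0 26843546 T1F) x1f_t81 12 10 7 = true := by decide +kernel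

def x1f_t82 : T :=
  (.c (.a (.b (.l 5794) (.a (.l 5794) (.l 5794))) (.a (.l 5794) (.l 5794))) (.b (.a (.a (.l 5026)
      (.c (.l 5410) (.l 5026))) (.a (.c (.l 5410) (.b (.l 5026) (.l 5026))) (.c (.l 5410) (.b (.l
      5026) (.l 5026))))) (.a (.a (.c (.l 5410) (.a (.l 5026) (.l 5026))) (.c (.l 5410) (.b (.l
      5026) (.a (.l 5026) (.l 5026))))) (.a (.c (.l 5410) (.b (.l 5026) (.l 5026))) (.c (.l 5410)
      (.l 5026))))))

theorem x1f_h82 : chk3 (onCell 0 2684354560 0 1073741824 0 26843546 T1F) x1f_t82 24 11 7 = true := by decide +kernel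

def x1f_t83 : T :=
  (.c (.a (.b (.l 5794) (.a (.l 5794) (.l 5794))) (.b (.a (.l 5794) (.l 5794)) (.a (.l 34) (.c
      (.l 6306) (.l 5794))))) (.a (.b (.c (.a (.l 5410) (.l 5410)) (.b (.l 34) (.l 5026))) (.c
      (.a (.l 5410) (.l 5410)) (.a (.l 5026) (.l 5026)))) (.c (.b (.l 34) (.l 5410)) (.b (.l 34)
      (.c (.l 5282) (.l 5026))))))

theorem x1f_h83 : chk3 (onCell 0 2684354560 0 1073741824 0 26843546 T1F) x1f_t83 25 11 7 = true := by decide +kernel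

def x1f_t84 : T :=
  (.a (.b (.b (.a (.l 6818) (.b (.l 6818) (.l 6818))) (.a (.c (.b (.l 8098) (.l 8098)) (.l 34))
      (.b (.l 6818) (.l 6818)))) (.b (.c (.a (.l 8098) (.l 8098)) (.a (.l 6818) (.l 6818))) (.a
      (.l 6818) (.c (.l 8098) (.l 6818))))) (.b (.b (.c (.a (.b (.l 8098) (.l 34)) (.l 8098)) (.a
      (.b (.l 6818) (.l 34)) (.l 6818))) (.c (.a (.l 34) (.l 8098)) (.a (.l 34) (.l 6818)))) (.b
      (.c (.l 34) (.b (.l 34) (.l 34))) (.c (.l 34) (.b (.a (.l 6818) (.l 34)) (.a (.l 34) (.b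
      (.l 34) (.l 34))))))))

theorem x1f_h84 : chk3 (onCell 0 2684354560 0 1073741824 0 26843546 T1F) x1f_t84 13 2 6 = true := by decide +kernel

def x1f_t85 : T :=
  (.a (.a (.c (.l 5794) (.l 42166391714)) (.c (.l 5794) (.b (.l 5026) (.c (.l 5410) (.b (.l 34)
      (.a (.l 5026) (.l 5026))))))) (.c (.b (.a (.l 5794) (.l 5794)) (.a (.l 5794) (.l 5794)))
      (.b (.a (.c (.l 5410) (.b (.l 5026) (.c (.l 5282) (.l 34)))) (.a (.b (.l 34) (.c (.l 5410)
      (.l 34))) (.c (.l 5410) (.b (.l 34) (.l 34))))) (.c (.a (.b (.l 5410) (.l 34)) (.l 34)) (.a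
      (.b (.c (.l 34) (.l 34)) (.a (.l 34) (.l 34))) (.a (.l 34) (.b (.l 34) (.c (.l 34) (.l
      34)))))))))

theorem x1f_h85 : chk3 (onCell 0 2684354560 0 1073741824 0 26843546 T1F) x1f_t85 13 8 7 = true := by decide +kernel

def x1f_t86 : T :=
  (.c (.a (.b (.l 5794) (.l 5794)) (.b (.l 5794) (.l 5794))) (.a (.b (.c (.l 5410) (.b (.a (.l
      5026) (.l 5026)) (.a (.l 5026) (.l 5026)))) (.c (.l 5410) (.b (.a (.l 5026) (.l 5026)) (.l
      34)))) (.b (.b (.c (.l 5410) (.a (.l 34) (.l 34))) (.c (.l 5410) (.l 34))) (.b (.c (.l 34)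
      (.l 34)) (.a (.c (.l 5410) (.l 5026)) (.c (.l 5410) (.l 34)))))))

theorem x1f_h86 : chk3 (onCell 0 2684354560 0 1073741824 0 26843546 T1F) x1f_t86 26 9 7 = true := by decide +kernel

def x1f_t87 : T :=
  (.a (.b (.c (.l 34) (.a (.b (.c (.l 5410) (.l 34)) (.c (.l 34) (.l 34))) (.b (.c (.l 34) (.l
      34)) (.c (.l 34) (.l 34))))) (.c (.a (.l 34) (.c (.l 6306) (.l 5794))) (.c (.a (.l 34) (.l
      34)) (.c (.l 34) (.l 34))))) (.c (.b (.a (.l 34) (.c (.l 6306) (.l 34))) (.a (.c (.l 6306)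
      (.l 34)) (.c (.l 6306) (.l 34)))) (.a (.b (.c (.l 34) (.c (.l 34) (.l 34))) (.c (.l 34) (.c
      (.l 34) (.l 34)))) (.b (.c (.l 34) (.c (.l 34) (.l 34))) (.c (.l 34) (.c (.l 34) (.l
      34)))))))

theorem x1f_h87 : chk3 (onCell 0 2684354560 0 1073741824 0 26843546 T1F) x1f_t87 27 9 7 = true := by decide +kernel

def x1f_t88 : T :=
  (.c (.b (.b (.a (.l 5794) (.l 34)) (.a (.c (.l 6306) (.l 5794)) (.c (.l 6306) (.l 34)))) (.a
      (.b (.c (.l 6306) (.l 34)) (.a (.c (.l 6306) (.l 5794)) (.c (.l 6306) (.l 5794)))) (.b (.c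
      (.l 6306) (.l 5794)) (.a (.c (.l 6306) (.l 5794)) (.c (.l 6306) (.l 5794)))))) (.b (.a (.b
      (.c (.l 34) (.a (.l 5026) (.l 34))) (.c (.l 34) (.l 34))) (.c (.b (.l 34) (.l 34)) (.b (.l
      34) (.l 34)))) (.a (.c (.b (.l 34) (.l 34)) (.b (.c (.l 5282) (.l 34)) (.c (.l 5282) (.l
      34)))) (.b (.c (.l 34) (.c (.l 34) (.l 34))) (.c (.l 34) (.b (.l 34) (.l 34)))))))

theorem x1f_h88 : chk3 (onCell 0 2684354560 0 1073741824 0 26843546 T1F) x1f_t88 26 5 7 = true := by decide +kernel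

def x1f_t89 : T :=
  (.b (.b (.a (.c (.l 6306) (.l 34)) (.c (.l 6306) (.l 34))) (.a (.c (.l 34) (.l 34)) (.c (.l
      6306) (.l 34)))) (.a (.b (.a (.c (.l 6306) (.l 5794)) (.c (.l 6306) (.l 5794))) (.c (.l
      6306) (.l 34))) (.b (.c (.l 6306) (.l 34)) (.c (.l 6306) (.l 34)))))

theorem x1f_h89 : chk3 (onCell 0 2684354560 0 1073741824 0 26843546 T1F) x1f_t89 27 5 14 = true := by decide +kernel

end Pool.Agent.Strip051.LC.E1.V3
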