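import Pool.Agent.Strip051.LC.E1.V3.Rw
import Pool.Agent.Strip051.LC.E0.Ch.Cell

/-! # Rests near the full period: certificate Cf1_5 -/

set_option maxRecDepth 100000

namespace Pool.Agent.Strip051.LC.E1.V3

open Pool.Agent.Strip051.PB
open Pool.Agent.Strip051.LC.E0.Ch (onCell Tree)

def x1f_t90 : T :=
  (.b (.b (.c (.a (.l 34) (.l 34)) (.a (.c (.l 34) (.l 34)) (.c (.l 34) (.l 34)))) (.c (.a (.l
      34) (.l 34)) (.a (.c (.l 34) (.l 34)) (.b (.c (.l 34) (.l 34)) (.c (.l 34) (.l 34)))))) (.c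
      (.b (.a (.l 34) (.l 34)) (.a (.b (.l 34) (.l 34)) (.b (.l 34) (.l 34)))) (.b (.a (.b (.l
      34) (.l 34)) (.b (.l 34) (.a (.l 34) (.l 34)))) (.a (.b (.a (.l 34) (.l 34)) (.a (.l 34)
      (.l 34))) (.b (.a (.l 34) (.l 34)) (.a (.l 34) (.l 34)))))))

theorem x1f_h90 : chk3 (onCell 0 2684354560 0 1073741824 0 26843546 T1F) x1f_t90 27 5 15 = true := by decide +kernel

def x1f_t91 : T :=
  (.c (.a (.b (.c (.a (.b (.l 40866) (.l 40866)) (.l 40866)) (.a (.b (.l 20386) (.l 20386)) (.l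
      20386))) (.c (.a (.a (.l 40866) (.l 40866)) (.l 40866)) (.a (.a (.l 20386) (.l 20386)) (.l
      20386)))) (.b (.c (.a (.l 40866) (.l 40866)) (.a (.l 20386) (.l 20386))) (.c (.a (.l 40866)
      (.l 40866)) (.a (.l 20386) (.l 20386))))) (.a (.a (.b (.c (.b (.l 13602) (.l 13602)) (.a
      (.l 10146) (.l 10146))) (.c (.a (.l 13602) (.l 13602)) (.a (.l 10146) (.l 10146)))) (.b (.l
      10146) (.c (.l 13602) (.l 10146)))) (.b (.a (.l 10146) (.l 10146)) (.a (.l 10146) (.l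
      10146)))))

theorem x1f_h91 : chk3 (onCell 0 2684354560 0 1073741824 0 26843546 T1F) x1f_t91 12 6 2 = true := by decide +kernel

def x1f_t92 : T :=
  (.c (.a (.b (.c (.a (.b (.l 40866) (.l 15)) (.l 40866)) (.a (.b (.l 20386) (.l 15)) (.b (.l
      20386) (.l 15)))) (.l 15)) (.b (.c (.a (.l 40866) (.l 40866)) (.a (.l 20386) (.l 20386)))
      (.l 15))) (.a (.b (.l 15) (.l 15)) (.l 15)))

theorem x1f_h92 : chk3 (onCell 0 2684354560 0 1073741824 0 26843546 T1F) x1f_t92 12 7 2 = true := by decide +kernel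

def x1f_t93 : T :=
  (.b (.c (.a (.b (.c (.a (.l 40866) (.l 40866)) (.a (.l 20386) (.l 20386))) (.c (.a (.l 40866)
      (.l 40866)) (.a (.l 20386) (.l 20386)))) (.b (.c (.l 40866) (.l 20386)) (.c (.l 40866) (.l
      20386)))) (.a (.b (.a (.l 10146) (.l 10146)) (.a (.l 10146) (.l 10146))) (.b (.a (.l 10146)
      (.l 10146)) (.b (.l 10146) (.l 10146))))) (.c (.a (.b (.c (.a (.l 40866) (.l 40866)) (.a
      (.l 20386) (.l 20386))) (.l 15)) (.b (.c (.l 40866) (.l 20386)) (.l 15))) (.a (.l 15) (.l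
      15))))

theorem x1f_h93 : chk3 (onCell 0 2684354560 0 1073741824 0 26843546 T1F) x1f_t93 13 3 2 = true := by decide +kernel

def x1f_t94 : T :=
  (.a (.b (.a (.b (.c (.a (.l 8098) (.l 8098)) (.a (.l 6818) (.l 6818))) (.c (.a (.l 8098) (.l
      8098)) (.a (.l 6818) (.l 6818)))) (.b (.c (.l 8098) (.l 6818)) (.c (.l 8098) (.b (.l 6818)
      (.l 15))))) (.l 15)) (.b (.b (.a (.c (.l 8098) (.l 6818)) (.c (.l 8098) (.l 6818))) (.a (.c
      (.l 8098) (.b (.l 6818) (.l 15))) (.c (.l 8098) (.l 15)))) (.l 15)))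

theorem x1f_h94 : chk3 (onCell 0 2684354560 0 1073741824 0 26843546 T1F) x1f_t94 12 3 6 = true := by decide +kernel

def x1f_t95 : T :=
  (.a (.b (.a (.l 5794) (.c (.l 6306) (.l 5794))) (.l 15)) (.b (.a (.b (.l 5794) (.c (.l 6306)
      (.l 5794))) (.b (.l 5794) (.c (.l 6306) (.l 5794)))) (.l 15)))

theorem x1f_h95 : chk3 (onCell 0 2684354560 0 1073741824 0 26843546 T1F) x1f_t95 24 6 14 = true := by decide +kernel

def x1f_t96 : T :=
  (.a (.b (.b (.a (.c (.l 5410) (.a (.b (.l 5026) (.l 5026)) (.b (.l 5026) (.l 5026)))) (.c (.l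
      5410) (.b (.a (.l 5026) (.l 5026)) (.c (.l 5282) (.l 5026))))) (.a (.c (.a (.l 5410) (.l
      5410)) (.a (.b (.l 5026) (.l 15)) (.c (.l 5282) (.l 5026)))) (.c (.a (.c (.l 5666) (.l
      5410)) (.c (.l 5666) (.l 5410))) (.a (.c (.l 5282) (.l 5026)) (.b (.l 5026) (.l 15))))))
      (.l 15)) (.b (.a (.b (.c (.a (.l 5410) (.l 5410)) (.a (.l 5026) (.l 5026))) (.c (.a (.l
      5410) (.l 5410)) (.b (.l 5026) (.l 15)))) (.b (.c (.l 5410) (.l 5026)) (.c (.l 5410) (.b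
      (.l 5026) (.l 15))))) (.l 15)))

theorem x1f_h96 : chk3 (onCell 0 2684354560 0 1073741824 0 26843546 T1F) x1f_t96 24 6 15 = true := by decide +kernel

def x1f_t97 : T :=
  (.c (.b (.a (.b (.a (.c (.l 6306) (.l 5794)) (.c (.l 6306) (.l 5794))) (.a (.c (.l 6306) (.l
      5794)) (.c (.l 6306) (.l 5794)))) (.b (.a (.c (.l 6306) (.l 5794)) (.c (.l 6306) (.l
      5794))) (.a (.c (.l 6306) (.l 5794)) (.c (.l 6306) (.l 5794))))) (.l 15)) (.b (.a (.b (.a
      (.c (.l 5410) (.l 5026)) (.c (.l 5410) (.l 5026))) (.a (.c (.l 5410) (.l 15)) (.c (.l 5410)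
      (.l 15)))) (.b (.c (.l 34) (.a (.l 34) (.b (.l 5026) (.l 5026)))) (.a (.b (.c (.l 5410) (.l
      15)) (.l 15)) (.l 15)))) (.l 15)))

theorem x1f_h97 : chk3 (onCell 0 2684354560 0 1073741824 0 26843546 T1F) x1f_t97 25 6 7 = true := by decide +kernel

def x1f_t98 : T :=
  (.l 15)

theorem x1f_h98 : chk3 (onCell 0 2684354560 0 1073741824 0 26843546 T1F) x1f_t98 12 7 7 = true := by decide +kernel

def x1f_t99 : T :=
  (.a (.b (.c (.a (.l 8098) (.l 8098)) (.a (.b (.l 6818) (.l 6818)) (.b (.l 34) (.a (.l 6818) (.b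
      (.l 6818) (.l 6818)))))) (.c (.a (.l 8098) (.l 8098)) (.l 15))) (.b (.c (.a (.l 8098) (.l
      8098)) (.a (.b (.a (.l 34) (.l 34)) (.a (.b (.l 6818) (.l 6818)) (.b (.l 6818) (.l 15))))
      (.b (.b (.c (.l 7458) (.l 6818)) (.a (.l 6818) (.l 6818))) (.a (.b (.l 6818) (.l 15)) (.b
      (.l 6818) (.l 15)))))) (.c (.a (.l 8098) (.b (.l 8098) (.l 15))) (.l 15))))

theorem x1f_h99 : chk3 (onCell 0 2684354560 0 1073741824 0 26843546 T1F) x1f_t99 13 6 6 = true := by decide +kernel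

def x1f_t100 : T :=
  (.c (.b (.a (.b (.a (.c (.l 6306) (.l 5794)) (.b (.c (.l 6306) (.l 5794)) (.l 5794))) (.a (.c
      (.l 6306) (.l 5794)) (.b (.l 5794) (.l 15)))) (.b (.a (.b (.l 34) (.l 5794)) (.b (.l 34)
      (.c (.l 6306) (.l 5794)))) (.a (.b (.l 5794) (.l 15)) (.b (.c (.l 6306) (.l 15)) (.l
      15))))) (.l 15)) (.b (.b (.a (.c (.l 34) (.b (.a (.l 34) (.l 34)) (.a (.l 5026) (.l
      5026)))) (.b (.c (.l 34) (.l 34)) (.c (.l 34) (.a (.l 5026) (.l 15))))) (.l 15)) (.l 15)))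

theorem x1f_h100 : chk3 (onCell 0 2684354560 0 1073741824 0 26843546 T1F) x1f_t100 26 6 7 = true := by decide +kernel

def x1f_t101 : T :=
  (.c (.b (.a (.b (.a (.b (.l 34) (.c (.l 6306) (.l 5794))) (.b (.c (.l 6306) (.l 5794)) (.c (.l
      6306) (.l 5794)))) (.a (.b (.c (.l 6306) (.l 15)) (.l 15)) (.b (.l 15) (.l 15)))) (.b (.b
      (.c (.l 6306) (.l 5794)) (.a (.c (.l 6306) (.l 5794)) (.c (.l 6306) (.l 5794)))) (.l 15)))
      (.l 15)) (.b (.b (.a (.b (.a (.c (.l 5410) (.l 5026)) (.c (.l 5410) (.l 34))) (.a (.c (.l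
      5410) (.l 15)) (.c (.l 5410) (.l 15)))) (.b (.a (.c (.l 5410) (.l 34)) (.c (.l 5410) (.b
      (.l 5026) (.l 15)))) (.l 15))) (.l 15)) (.l 15)))

theorem x1f_h101 : chk3 (onCell 0 2684354560 0 1073741824 0 26843546 T1F) x1f_t101 27 6 7 = true := by decide +kernel

def x1f_t102 : T :=
  (.l 15)

theorem x1f_h102 : chk3 (onCell 0 2684354560 0 1073741824 0 26843546 T1F) x1f_t102 13 7 3 = true := by decide +kernel

def x1f_t103 : T :=
  (.c (.a (.b (.c (.a (.l 40866) (.b (.l 40866) (.l 40866))) (.a (.l 20386) (.l 20386))) (.c (.b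
      (.l 40866) (.l 40866)) (.b (.l 20386) (.l 20386)))) (.b (.c (.b (.a (.c (.l 81826) (.l
      40866)) (.c (.b (.l 81826) (.l 81826)) (.l 40866))) (.a (.l 40866) (.l 40866))) (.b (.a (.l
      20386) (.l 20386)) (.a (.l 20386) (.l 20386)))) (.c (.b (.a (.l 40866) (.l 40866)) (.l
      40866)) (.b (.l 20386) (.l 20386))))) (.b (.a (.a (.l 10146) (.c (.l 13602) (.l 10146)))
      (.c (.b (.a (.l 13602) (.l 13602)) (.l 13602)) (.b (.l 10146) (.l 10146)))) (.a (.c (.b (.l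
      13602) (.l 13602)) (.l 10146)) (.b (.c (.l 13602) (.l 10146)) (.l 10146)))))

theorem x1f_h103 : chk3 (onCell 0 2684354560 0 1073741824 0 26843546 T1F) x1f_t103 14 4 2 = true := by decide +kernel

def x1f_t104 : T :=
  (.c (.a (.b (.c (.b (.l 40866) (.l 40866)) (.l 20386)) (.c (.l 40866) (.l 20386))) (.b (.c (.l
      40866) (.l 20386)) (.c (.l 40866) (.l 20386)))) (.b (.a (.b (.l 10146) (.l 10146)) (.b (.l
      10146) (.l 10146))) (.a (.l 10146) (.l 10146))))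

theorem x1f_h104 : chk3 (onCell 0 2684354560 0 1073741824 0 26843546 T1F) x1f_t104 14 5 2 = true := by decide +kernel

def x1f_t105 : T :=
  (.a (.b (.c (.b (.a (.b (.c (.a (.l 81826) (.l 81826)) (.l 40866)) (.l 40866)) (.b (.c (.a (.l
      81826) (.l 81826)) (.l 40866)) (.l 40866))) (.a (.l 40866) (.l 40866))) (.b (.a (.b (.l
      20386) (.l 20386)) (.b (.l 20386) (.l 20386))) (.a (.l 20386) (.l 20386)))) (.c (.b (.l
      40866) (.l 40866)) (.b (.l 20386) (.l 20386)))) (.b (.c (.b (.a (.b (.b (.c (.l 81826) (.l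
      40866)) (.l 40866)) (.l 40866)) (.b (.b (.l 40866) (.l 40866)) (.l 40866))) (.b (.l 40866)
      (.l 40866))) (.b (.a (.b (.l 20386) (.l 20386)) (.b (.l 20386) (.l 20386))) (.l 20386)))
      (.c (.l 40866) (.l 20386))))

theorem x1f_h105 : chk3 (onCell 0 2684354560 0 1073741824 0 26843546 T1F) x1f_t105 15 4 4 = true := by decide +kernel

def x1f_t106 : T :=
  (.b (.a (.b (.c (.a (.l 13602) (.l 13602)) (.l 34)) (.c (.l 13602) (.l 10146))) (.b (.c (.a (.l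
      13602) (.l 13602)) (.l 34)) (.a (.l 10146) (.l 10146)))) (.a (.b (.l 10146) (.l 10146)) (.b
      (.l 10146) (.l 10146))))

theorem x1f_h106 : chk3 (onCell 0 2684354560 0 1073741824 0 26843546 T1F) x1f_t106 15 4 5 = true := by decide +kernel

def x1f_t107 : T :=
  (.c (.a (.b (.c (.l 40866) (.l 20386)) (.c (.l 40866) (.l 20386))) (.b (.c (.l 40866) (.l
      20386)) (.c (.l 40866) (.l 20386)))) (.b (.a (.l 10146) (.l 10146)) (.a (.l 10146) (.l
      10146))))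

theorem x1f_h107 : chk3 (onCell 0 2684354560 0 1073741824 0 26843546 T1F) x1f_t107 15 5 2 = true := by decide +kernel

end Pool.Agent.Strip051.LC.E1.V3
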