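import Pool.Agent.Strip051.LC.E1.V3.Rw
import Pool.Agent.Strip051.LC.E0.Ch.Cell

/-! # Rests near the full period: certificate Cf1_6 -/

set_option maxRecDepth 100000

namespace Pool.Agent.Strip051.LC.E1.V3

open Pool.Agent.Strip051.PB
open Pool.Agent.Strip051.LC.E0.Ch (onCell Tree)

def x1f_t108 : T :=
  (.a (.c (.b (.l 34) (.l 8098)) (.b (.l 6818) (.b (.l 6818) (.l 34)))) (.b (.c (.l 34) (.a (.l
      57198779042) (.b (.l 34) (.l 57198779042)))) (.c (.l 8098) (.b (.a (.l 6818) (.b (.c (.l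
      7458) (.l 6818)) (.c (.l 7458) (.l 34)))) (.a (.b (.c (.l 7458) (.l 6818)) (.c (.l 7458)
      (.l 6818))) (.b (.c (.l 7458) (.l 34)) (.a (.c (.l 7458) (.l 6818)) (.c (.l 7458) (.l
      6818)))))))))

theorem x1f_h108 : chk3 (onCell 0 2684354560 0 1073741824 0 26843546 T1F) x1f_t108 14 4 6 = true := by decide +kernel

def x1f_t109 : T :=
  (.b (.a (.b (.l 5794) (.a (.l 34) (.c (.l 6306) (.l 34)))) (.b (.a (.l 34) (.b (.l 5794) (.l
      290455586))) (.a (.c (.l 6306) (.l 34)) (.c (.l 6306) (.l 34))))) (.a (.b (.a (.c (.l 6306)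
      (.l 34)) (.c (.l 6306) (.l 34))) (.c (.l 34) (.l 290455586))) (.b (.c (.l 290455586) (.a
      (.l 34) (.l 34))) (.b (.c (.l 34) (.l 34)) (.c (.l 6306) (.l 34))))))

theorem x1f_h109 : chk3 (onCell 0 2684354560 0 1073741824 0 26843546 T1F) x1f_t109 28 4 14 = true := by decide +kernel

def x1f_t110 : T :=
  (.a (.b (.c (.a (.l 34) (.l 34)) (.a (.b (.c (.l 34) (.l 34)) (.c (.l 34) (.l 34))) (.l 34)))
      (.c (.a (.l 34) (.b (.l 34) (.l 34))) (.c (.a (.b (.l 34) (.l 34)) (.l 34)) (.l 34)))) (.c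
      (.b (.a (.b (.c (.l 5666) (.l 34)) (.c (.l 34) (.c (.l 34) (.l 34)))) (.c (.l 34) (.l 34)))
      (.a (.c (.l 34) (.l 34)) (.c (.c (.l 34) (.l 34)) (.l 34)))) (.c (.b (.l 34) (.l 34)) (.l
      34))))

theorem x1f_h110 : chk3 (onCell 0 2684354560 0 1073741824 0 26843546 T1F) x1f_t110 28 8 15 = true := by decide +kernel

def x1f_t111 : T :=
  (.b (.a (.a (.c (.l 34) (.c (.l 34) (.l 34))) (.b (.c (.l 34) (.l 34)) (.c (.c (.l 34) (.l 34))
      (.l 34)))) (.b (.c (.c (.a (.l 34) (.l 34)) (.l 34)) (.c (.l 34) (.l 34))) (.c (.c (.l 34)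
      (.l 34)) (.c (.l 34) (.l 34))))) (.c (.a (.c (.l 34) (.l 34)) (.c (.l 34) (.l 34))) (.a (.c
      (.a (.l 34) (.l 34)) (.b (.l 34) (.l 34))) (.c (.l 34) (.l 34)))))

theorem x1f_h111 : chk3 (onCell 0 2684354560 0 1073741824 0 26843546 T1F) x1f_t111 28 9 15 = true := by decide +kernel

def x1f_t112 : T :=
  (.c (.b (.c (.l 6306) (.a (.b (.l 34) (.l 34)) (.c (.l 34) (.a (.l 34) (.l 34))))) (.c (.l
      290455586) (.a (.c (.l 34) (.l 34)) (.c (.l 34) (.c (.l 34) (.l 34)))))) (.b (.c (.a (.c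
      (.l 34) (.l 34)) (.c (.l 34) (.l 34))) (.c (.l 34) (.l 34))) (.c (.c (.a (.l 34) (.l 34))
      (.l 34)) (.c (.l 34) (.a (.l 34) (.b (.l 34) (.l 34)))))))

theorem x1f_h112 : chk3 (onCell 0 2684354560 0 1073741824 0 26843546 T1F) x1f_t112 58 8 7 = true := by decide +kernel

def x1f_t113 : T :=
  (.b (.c (.c (.l 34) (.a (.c (.l 34) (.c (.l 34) (.l 34))) (.c (.b (.l 34) (.l 34)) (.l 34))))
      (.c (.c (.l 34) (.l 34)) (.c (.l 34) (.a (.l 34) (.c (.b (.l 34) (.l 34)) (.b (.l 34) (.l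
      34))))))) (.c (.c (.a (.l 34) (.b (.l 34) (.l 34))) (.b (.c (.b (.l 34) (.l 34)) (.l 34))
      (.c (.l 34) (.l 34)))) (.c (.c (.l 34) (.l 34)) (.c (.b (.l 34) (.a (.l 34) (.l 34))) (.b
      (.a (.l 34) (.c (.l 34) (.l 34))) (.a (.l 34) (.l 34)))))))

theorem x1f_h113 : chk3 (onCell 0 2684354560 0 1073741824 0 26843546 T1F) x1f_t113 59 8 7 = true := by decide +kernel

def x1f_t114 : T :=
  (.b (.a (.c (.b (.l 34) (.l 34)) (.b (.a (.l 34) (.c (.l 34) (.l 34))) (.a (.l 34) (.c (.l 34)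
      (.l 34))))) (.b (.c (.l 34) (.c (.a (.l 34) (.l 34)) (.l 34))) (.c (.a (.l 34) (.l 34)) (.c
      (.l 34) (.l 34))))) (.a (.b (.a (.c (.l 6306) (.l 34)) (.c (.l 6306) (.c (.l 6050) (.l
      34)))) (.c (.l 6306) (.c (.l 6050) (.l 34)))) (.b (.c (.l 34) (.c (.l 34) (.l 34))) (.c (.l
      34) (.c (.l 34) (.l 34))))))

theorem x1f_h114 : chk3 (onCell 0 2684354560 0 1073741824 0 26843546 T1F) x1f_t114 29 9 14 = true := by decide +kernel

def x1f_t115 : T :=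
  (.b (.c (.a (.c (.l 34) (.b (.l 34) (.l 34))) (.c (.c (.l 34) (.l 34)) (.b (.l 34) (.l 34))))
      (.a (.c (.b (.l 34) (.l 34)) (.b (.l 34) (.l 34))) (.c (.b (.l 34) (.l 34)) (.b (.l 34) (.l
      34))))) (.c (.c (.a (.l 34) (.l 34)) (.b (.a (.l 34) (.l 34)) (.l 34))) (.b (.c (.a (.l 34)
      (.l 34)) (.l 34)) (.a (.b (.l 34) (.l 34)) (.l 34)))))

theorem x1f_h115 : chk3 (onCell 0 2684354560 0 1073741824 0 26843546 T1F) x1f_t115 29 9 15 = true := by decide +kernel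

def x1f_t116 : T :=
  (.a (.c (.l 8098) (.b (.a (.l 6818) (.b (.l 34) (.l 34))) (.a (.l 34) (.b (.a (.l 34) (.l 34))
      (.a (.l 34) (.l 34)))))) (.c (.l 8098) (.b (.a (.b (.a (.l 34) (.c (.l 7458) (.l 6818)))
      (.a (.l 290455586) (.c (.l 7458) (.l 6818)))) (.b (.a (.c (.l 7458) (.l 6818)) (.c (.l
      7458) (.l 6818))) (.a (.c (.l 7458) (.l 6818)) (.c (.l 7458) (.l 6818))))) (.a (.b (.a (.l
      290455586) (.c (.l 7458) (.l 6818))) (.a (.l 34) (.c (.l 7458) (.l 6818)))) (.b (.a (.c (.l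
      7458) (.l 6818)) (.c (.l 7458) (.l 6818))) (.a (.c (.l 7458) (.l 6818)) (.l 6818)))))))

theorem x1f_h116 : chk3 (onCell 0 2684354560 0 1073741824 0 26843546 T1F) x1f_t116 14 10 6 = true := by decide +kernel

def x1f_t117 : T :=
  (.a (.c (.l 8098) (.b (.a (.b (.l 34) (.l 34)) (.b (.a (.l 34) (.l 34)) (.l 34))) (.a (.b (.l
      34) (.a (.l 6818) (.l 6818))) (.b (.l 34) (.l 34))))) (.c (.b (.l 8098) (.l 8098)) (.b (.a
      (.b (.a (.l 34) (.l 34)) (.l 34)) (.b (.a (.l 6818) (.l 6818)) (.l 34))) (.a (.b (.l 6818)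
      (.l 6818)) (.b (.l 34) (.a (.l 6818) (.l 6818)))))))

theorem x1f_h117 : chk3 (onCell 0 2684354560 0 1073741824 0 26843546 T1F) x1f_t117 14 11 6 = true := by decide +kernel

def x1f_t118 : T :=
  (.a (.b (.a (.c (.l 34) (.l 34)) (.c (.l 34) (.l 34))) (.a (.c (.l 6306) (.l 34)) (.c (.l 6306)
      (.l 34)))) (.b (.a (.c (.l 34) (.c (.l 34) (.l 34))) (.c (.l 34) (.b (.c (.l 34) (.l 34))
      (.c (.l 34) (.l 34))))) (.a (.c (.l 34) (.b (.b (.l 34) (.l 34)) (.l 34))) (.b (.c (.l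
      6306) (.l 34)) (.c (.l 6306) (.l 34))))))

theorem x1f_h118 : chk3 (onCell 0 2684354560 0 1073741824 0 26843546 T1F) x1f_t118 14 10 14 = true := by decide +kernel

def x1f_t119 : T :=
  (.a (.b (.c (.a (.c (.l 34) (.l 34)) (.c (.l 34) (.l 34))) (.a (.c (.l 34) (.l 34)) (.b (.l 34)
      (.l 34)))) (.b (.c (.a (.c (.l 34) (.l 34)) (.c (.l 34) (.l 34))) (.a (.l 34) (.l 34))) (.a
      (.c (.l 34) (.l 34)) (.c (.l 34) (.l 34))))) (.b (.c (.b (.a (.l 34) (.l 34)) (.a (.l 34)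
      (.l 34))) (.a (.b (.l 34) (.l 34)) (.l 34))) (.c (.a (.l 34) (.l 34)) (.a (.l 34) (.l
      34)))))

theorem x1f_h119 : chk3 (onCell 0 2684354560 0 1073741824 0 26843546 T1F) x1f_t119 14 10 15 = true := by decide +kernel

def x1f_t120 : T :=
  (.b (.a (.c (.l 6306) (.l 34)) (.c (.l 6306) (.l 34))) (.a (.b (.c (.l 6306) (.l 34)) (.c (.l
      6306) (.l 5794))) (.b (.c (.l 6306) (.l 5794)) (.a (.c (.l 6306) (.l 5794)) (.c (.l 6306)
      (.l 5794))))))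

theorem x1f_h120 : chk3 (onCell 0 2684354560 0 1073741824 0 26843546 T1F) x1f_t120 28 11 14 = true := by decide +kernel

def x1f_t121 : T :=
  (.b (.a (.b (.c (.l 6306) (.l 34)) (.c (.l 6306) (.l 34))) (.b (.c (.l 6306) (.l 34)) (.a (.c
      (.l 6306) (.l 5794)) (.c (.l 6306) (.l 5794))))) (.a (.b (.a (.c (.l 6306) (.l 5794)) (.c
      (.l 6306) (.l 5794))) (.a (.c (.l 6306) (.l 5794)) (.b (.c (.l 6306) (.l 5794)) (.c (.l
      6306) (.l 5794))))) (.b (.a (.b (.c (.l 6306) (.l 5794)) (.c (.l 6306) (.l 5794))) (.b (.c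
      (.l 6306) (.l 5794)) (.a (.c (.l 6306) (.l 5794)) (.c (.l 6306) (.l 5794))))) (.a (.b (.a
      (.c (.l 6306) (.l 5794)) (.c (.l 6306) (.l 5794))) (.c (.l 6306) (.l 5794))) (.b (.c (.l
      6306) (.l 5794)) (.c (.l 6306) (.l 5794)))))))

theorem x1f_h121 : chk3 (onCell 0 2684354560 0 1073741824 0 26843546 T1F) x1f_t121 29 11 14 = true := by decide +kernel

def x1f_t122 : T :=
  (.a (.b (.c (.l 34) (.l 34)) (.a (.c (.l 34) (.l 34)) (.b (.c (.l 34) (.l 5026)) (.c (.l 34)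
      (.l 5026))))) (.b (.a (.c (.l 34) (.l 34)) (.b (.c (.l 34) (.l 34)) (.c (.l 34) (.l
      5026)))) (.a (.b (.c (.l 34) (.l 5026)) (.c (.l 34) (.l 5026))) (.b (.c (.l 34) (.l 5026))
      (.c (.l 5410) (.l 5026))))))

theorem x1f_h122 : chk3 (onCell 0 2684354560 0 1073741824 0 26843546 T1F) x1f_t122 28 22 15 = true := by decide +kernel

def x1f_t123 : T :=
  (.a (.b (.a (.b (.c (.l 5410) (.l 34)) (.c (.l 5410) (.l 5026))) (.b (.c (.l 34) (.l 5026)) (.c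
      (.l 5410) (.l 5026)))) (.a (.c (.l 5410) (.l 34)) (.c (.l 5410) (.l 5026)))) (.b (.a (.b
      (.c (.l 34) (.l 5026)) (.c (.l 5410) (.l 5026))) (.b (.c (.l 5410) (.l 5026)) (.c (.l 5410)
      (.l 5026)))) (.a (.c (.l 5410) (.l 5026)) (.c (.l 5410) (.l 5026)))))

theorem x1f_h123 : chk3 (onCell 0 2684354560 0 1073741824 0 26843546 T1F) x1f_t123 28 23 15 = true := by decide +kernel

end Pool.Agent.Strip051.LC.E1.V3
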