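import Pool.Agent.Strip051.LC.E1.V3.Rw
import Pool.Agent.Strip051.LC.E0.Ch.Cell

/-! # Rests near the full period: certificate Cf1_7 -/

set_option maxRecDepth 100000

namespace Pool.Agent.Strip051.LC.E1.V3

open Pool.Agent.Strip051.PB
open Pool.Agent.Strip051.LC.E0.Ch (onCell Tree)

def x1f_t124 : T :=
  (.a (.b (.a (.b (.c (.l 5410) (.l 5026)) (.c (.l 5410) (.l 5026))) (.b (.l 34) (.l 34))) (.a
      (.b (.c (.l 5410) (.l 5026)) (.c (.l 5410) (.l 5026))) (.b (.c (.l 5410) (.l 5026)) (.c (.l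
      5410) (.l 5026))))) (.b (.a (.b (.l 34) (.l 34)) (.c (.l 5410) (.l 5026))) (.a (.c (.l
      5410) (.l 5026)) (.c (.l 5410) (.l 5026)))))

theorem x1f_h124 : chk3 (onCell 0 2684354560 0 1073741824 0 26843546 T1F) x1f_t124 29 22 15 = true := by decide +kernel

def x1f_t125 : T :=
  (.a (.b (.a (.b (.c (.l 5410) (.l 5026)) (.c (.l 5410) (.l 5026))) (.c (.l 5410) (.l 5026)))
      (.a (.c (.l 5410) (.l 5026)) (.c (.l 5410) (.l 5026)))) (.b (.a (.c (.l 5410) (.l 5026))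
      (.c (.l 5410) (.l 5026))) (.a (.c (.l 5410) (.l 5026)) (.c (.l 5410) (.c (.l 5282) (.l
      5026))))))

theorem x1f_h125 : chk3 (onCell 0 2684354560 0 1073741824 0 26843546 T1F) x1f_t125 29 23 15 = true := by decide +kernel

def x1f_t126 : T :=
  (.c (.b (.b (.l 8098) (.l 8098)) (.l 8098)) (.b (.a (.b (.l 57198779042) (.l 34)) (.b (.c (.l
      62567488802) (.l 6818)) (.c (.l 7458) (.l 6818)))) (.a (.b (.c (.l 7458) (.l 57198779042))
      (.c (.l 7458) (.l 34))) (.b (.c (.l 7458) (.a (.l 6818) (.l 34))) (.c (.l 7458) (.l 34))))))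

theorem x1f_h126 : chk3 (onCell 0 2684354560 0 1073741824 0 26843546 T1F) x1f_t126 30 8 6 = true := by decide +kernel

def x1f_t127 : T :=
  (.c (.b (.b (.c (.l 9122) (.b (.c (.l 8610) (.l 67936198562)) (.l 290463650))) (.c (.l 9122)
      (.l 67936198562))) (.b (.c (.l 9122) (.l 67936198562)) (.c (.l 9122) (.l 34)))) (.a (.b (.c
      (.l 62567488802) (.a (.l 6818) (.c (.l 7074) (.b (.l 6818) (.l 6818))))) (.c (.l 7458) (.a
      (.l 34) (.c (.l 7074) (.l 34))))) (.b (.c (.l 62567488802) (.c (.l 7074) (.a (.b (.c (.l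
      6946) (.l 6818)) (.c (.l 6946) (.l 6818))) (.c (.l 6946) (.l 6818))))) (.c (.l 62567488802)
      (.c (.l 7074) (.a (.b (.l 34) (.l 34)) (.c (.l 34) (.l 6818))))))))

theorem x1f_h127 : chk3 (onCell 0 2684354560 0 1073741824 0 26843546 T1F) x1f_t127 31 16 6 = true := by decide +kernel

def x1f_t128 : T :=
  (.c (.b (.l 290463650) (.l 34)) (.a (.b (.c (.l 7458) (.a (.l 34) (.c (.l 7074) (.l 34)))) (.c
      (.l 7458) (.a (.l 34) (.l 34)))) (.b (.c (.l 62567488802) (.a (.c (.l 7074) (.c (.l 6946)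
      (.l 6818))) (.c (.l 7074) (.l 34)))) (.c (.l 7458) (.a (.b (.c (.l 7074) (.l 34)) (.l 34))
      (.b (.c (.l 7074) (.l 6818)) (.c (.l 7074) (.l 6818))))))))

theorem x1f_h128 : chk3 (onCell 0 2684354560 0 1073741824 0 26843546 T1F) x1f_t128 31 17 6 = true := by decide +kernel

def x1f_t129 : T :=
  (.c (.l 8098) (.b (.a (.b (.c (.l 7458) (.l 34)) (.a (.c (.l 7458) (.l 34)) (.c (.l 7458) (.l
      6818)))) (.b (.a (.c (.l 7458) (.l 34)) (.c (.l 7458) (.l 34))) (.a (.c (.l 7458) (.l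
      6818)) (.c (.l 7458) (.l 6818))))) (.a (.b (.a (.c (.l 7458) (.l 6818)) (.c (.l 7458) (.l
      6818))) (.a (.c (.l 7458) (.l 6818)) (.c (.l 7458) (.l 6818)))) (.b (.a (.c (.l 7458) (.l
      6818)) (.c (.l 7458) (.l 6818))) (.a (.c (.l 7458) (.l 6818)) (.c (.l 7458) (.l 6818)))))))

theorem x1f_h129 : chk3 (onCell 0 2684354560 0 1073741824 0 26843546 T1F) x1f_t129 30 9 6 = true := by decide +kernel

def x1f_t130 : T :=
  (.b (.l 67936198562) (.a (.l 8098) (.l 67936198562)))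

theorem x1f_h130 : chk3 (onCell 0 2684354560 0 1073741824 0 26843546 T1F) x1f_t130 31 9 12 = true := by decide +kernel

def x1f_t131 : T :=
  (.a (.b (.a (.c (.l 7458) (.l 34)) (.c (.l 7458) (.l 34))) (.a (.c (.l 7458) (.l 6818)) (.c (.l
      7458) (.l 34)))) (.b (.a (.c (.l 7458) (.b (.l 34) (.l 34))) (.c (.l 7458) (.b (.c (.l
      7074) (.l 6818)) (.c (.l 7074) (.l 6818))))) (.a (.c (.l 7458) (.c (.l 7074) (.l 6818)))
      (.c (.l 7458) (.c (.l 7074) (.l 6818))))))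

theorem x1f_h131 : chk3 (onCell 0 2684354560 0 1073741824 0 26843546 T1F) x1f_t131 31 18 13 = true := by decide +kernel

def x1f_t132 : T :=
  (.a (.b (.a (.c (.l 7458) (.l 6818)) (.b (.c (.l 7458) (.l 6818)) (.c (.l 7458) (.l 6818))))
      (.a (.c (.l 7458) (.l 6818)) (.c (.l 7458) (.l 6818)))) (.b (.a (.b (.c (.l 7458) (.l 34))
      (.c (.l 7458) (.l 6818))) (.b (.c (.l 7458) (.l 34)) (.c (.l 7458) (.l 6818)))) (.a (.c (.l
      7458) (.l 6818)) (.c (.l 7458) (.l 34)))))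

theorem x1f_h132 : chk3 (onCell 0 2684354560 0 1073741824 0 26843546 T1F) x1f_t132 31 19 13 = true := by decide +kernel

def x1f_t133 : T :=
  (.c (.a (.a (.c (.l 6562) (.l 34)) (.c (.l 34) (.b (.c (.l 6434) (.l 34)) (.l 34)))) (.c (.b
      (.a (.l 34) (.c (.l 6690) (.l 34))) (.a (.l 34) (.l 34))) (.a (.b (.c (.l 34) (.l 34)) (.c
      (.l 34) (.l 34))) (.c (.l 34) (.l 34))))) (.a (.c (.a (.c (.l 34) (.l 34)) (.l 34)) (.l
      34)) (.c (.l 34) (.l 34))))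

theorem x1f_h133 : chk3 (onCell 0 2684354560 0 1073741824 0 26843546 T1F) x1f_t133 30 16 14 = true := by decide +kernel

def x1f_t134 : T :=
  (.a (.c (.l 34) (.b (.l 34) (.l 34))) (.c (.c (.l 34) (.l 34)) (.c (.a (.l 34) (.b (.l 34) (.l
      34))) (.b (.b (.l 34) (.l 34)) (.a (.l 34) (.b (.l 34) (.l 34)))))))

theorem x1f_h134 : chk3 (onCell 0 2684354560 0 1073741824 0 26843546 T1F) x1f_t134 30 16 30 = true := by decide +kernel

def x1f_t135 : T :=
  (.a (.c (.l 34) (.b (.l 34) (.l 34))) (.c (.b (.l 34) (.l 34)) (.b (.l 34) (.b (.l 34) (.l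
      34)))))

theorem x1f_h135 : chk3 (onCell 0 2684354560 0 1073741824 0 26843546 T1F) x1f_t135 60 16 62 = true := by decide +kernel

def x1f_t136 : T :=
  (.a (.l 34) (.b (.l 34) (.b (.l 34) (.l 34))))

theorem x1f_h136 : chk3 (onCell 0 2684354560 0 1073741824 0 26843546 T1F) x1f_t136 61 32 124 = true := by decide +kernel

def x1f_t137 : T :=
  (.a (.b (.l 34) (.b (.l 34) (.l 34))) (.b (.c (.a (.l 34) (.b (.c (.l 34) (.b (.b (.l 34) (.l
      34)) (.l 34))) (.b (.l 34) (.l 34)))) (.b (.a (.c (.l 34) (.b (.b (.l 34) (.l 34)) (.l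
      34))) (.b (.c (.a (.l 34) (.l 34)) (.l 34)) (.a (.c (.l 34) (.l 34)) (.l 34)))) (.a (.b (.l
      34) (.l 34)) (.b (.a (.b (.b (.l 34) (.l 34)) (.c (.l 34) (.l 34))) (.l 34)) (.a (.l 34)
      (.l 34)))))) (.b (.c (.b (.l 34) (.l 34)) (.a (.l 34) (.b (.l 34) (.l 34)))) (.c (.l 34)
      (.a (.l 34) (.l 34))))))

theorem x1f_h137 : chk3 (onCell 0 2684354560 0 1073741824 0 26843546 T1F) x1f_t137 61 32 125 = true := by decide +kernel

def x1f_t138 : T :=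
  (.c (.a (.b (.l 34) (.l 34)) (.b (.l 34) (.l 34))) (.b (.a (.l 34) (.b (.c (.l 34) (.a (.l 34)
      (.l 34))) (.c (.l 34) (.l 34)))) (.a (.l 34) (.a (.l 34) (.l 34)))))

theorem x1f_h138 : chk3 (onCell 0 2684354560 0 1073741824 0 26843546 T1F) x1f_t138 61 33 62 = true := by decide +kernel

def x1f_t139 : T :=
  (.a (.c (.l 34) (.a (.l 34) (.b (.l 34) (.l 34)))) (.c (.a (.l 34) (.b (.l 34) (.l 34))) (.b
      (.a (.b (.l 34) (.l 34)) (.c (.b (.l 34) (.l 34)) (.b (.c (.a (.l 34) (.b (.l 34) (.l 34)))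
      (.b (.a (.l 34) (.l 34)) (.b (.b (.b (.c (.l 34) (.l 34)) (.c (.l 34) (.l 34))) (.a (.l 34)
      (.l 34))) (.a (.l 34) (.l 34))))) (.b (.c (.l 34) (.l 34)) (.b (.b (.c (.l 34) (.l 34)) (.c
      (.l 34) (.l 34))) (.c (.l 34) (.l 34))))))) (.c (.b (.l 34) (.l 34)) (.b (.a (.l 34) (.a
      (.l 34) (.l 34))) (.a (.l 34) (.l 34)))))))

theorem x1f_h139 : chk3 (onCell 0 2684354560 0 1073741824 0 26843546 T1F) x1f_t139 60 32 63 = true := by decide +kernel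

def x1f_t140 : T :=
  (.c (.a (.b (.l 34) (.l 34)) (.b (.l 34) (.l 34))) (.a (.b (.l 34) (.l 34)) (.b (.b (.c (.l 34)
      (.a (.l 34) (.l 34))) (.c (.l 34) (.l 34))) (.a (.l 34) (.l 34)))))

theorem x1f_h140 : chk3 (onCell 0 2684354560 0 1073741824 0 26843546 T1F) x1f_t140 60 33 63 = true := by decide +kernel

def x1f_t141 : T :=
  (.c (.a (.l 34) (.b (.b (.b (.l 34) (.l 34)) (.l 34)) (.l 34))) (.a (.b (.b (.l 34) (.l 34))
      (.l 34)) (.b (.b (.c (.a (.l 34) (.l 34)) (.a (.b (.l 34) (.l 34)) (.l 34))) (.c (.b (.b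
      (.a (.l 34) (.l 34)) (.a (.l 34) (.l 34))) (.b (.a (.l 34) (.l 34)) (.l 34))) (.l 34))) (.b
      (.c (.b (.l 34) (.l 34)) (.l 34)) (.a (.c (.l 34) (.l 34)) (.l 34))))))

theorem x1f_h141 : chk3 (onCell 0 2684354560 0 1073741824 0 26843546 T1F) x1f_t141 122 64 126 = true := by decide +kernel

def x1f_t142 : T :=
  (.b (.a (.c (.b (.c (.a (.l 34) (.l 34)) (.l 34)) (.a (.b (.b (.c (.l 34) (.l 34)) (.c (.l 34)
      (.l 34))) (.b (.c (.l 34) (.l 34)) (.c (.l 34) (.l 34)))) (.l 34))) (.l 34)) (.l 34)) (.a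
      (.c (.b (.a (.b (.l 34) (.c (.l 34) (.l 34))) (.l 34)) (.a (.l 34) (.l 34))) (.l 34)) (.l
      34)))

theorem x1f_h142 : chk3 (onCell 0 2684354560 0 1073741824 0 26843546 T1F) x1f_t142 123 64 126 = true := by decide +kernel

def x1f_t143 : T :=
  (.a (.b (.c (.a (.b (.c (.a (.l 34) (.l 34)) (.a (.l 34) (.l 34))) (.c (.b (.b (.b (.a (.l 34)
      (.l 34)) (.l 34)) (.l 34)) (.l 34)) (.a (.l 34) (.l 34)))) (.l 34)) (.l 34)) (.a (.c (.b
      (.c (.l 34) (.l 34)) (.c (.l 34) (.l 34))) (.l 34)) (.l 34))) (.l 34))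

theorem x1f_h143 : chk3 (onCell 0 2684354560 0 1073741824 0 26843546 T1F) x1f_t143 61 64 127 = true := by decide +kernel

def x1f_t144 : T :=
  (.c (.a (.c (.a (.l 34) (.l 34)) (.b (.a (.l 34) (.b (.a (.l 34) (.l 34)) (.l 34))) (.a (.l 34)
      (.l 34)))) (.a (.b (.a (.b (.c (.l 34) (.l 34)) (.l 34)) (.l 34)) (.c (.l 34) (.l 34))) (.l
      34))) (.a (.a (.b (.a (.b (.c (.l 34) (.l 34)) (.c (.l 34) (.l 34))) (.l 34)) (.a (.l 34)
      (.l 34))) (.l 34)) (.l 34)))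

theorem x1f_h144 : chk3 (onCell 0 2684354560 0 1073741824 0 26843546 T1F) x1f_t144 61 65 63 = true := by decide +kernel

end Pool.Agent.Strip051.LC.E1.V3
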