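import Pool.Agent.Strip051.LC.E1.V3.Rw
import Pool.Agent.Strip051.LC.E0.Ch.Cell

/-! # Rests near the full period: certificate Cf1_8 -/

set_option maxRecDepth 100000

namespace Pool.Agent.Strip051.LC.E1.V3

open Pool.Agent.Strip051.PB
open Pool.Agent.Strip051.LC.E0.Ch (onCell Tree)

def x1f_t145 : T :=
  (.b (.c (.a (.b (.c (.l 34) (.a (.l 34) (.l 34))) (.c (.l 34) (.l 34))) (.a (.l 34) (.l 34)))
      (.a (.a (.l 34) (.l 34)) (.l 34))) (.c (.a (.a (.l 34) (.l 34)) (.l 34)) (.a (.l 34) (.l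
      34))))

theorem x1f_h145 : chk3 (onCell 0 2684354560 0 1073741824 0 26843546 T1F) x1f_t145 61 33 63 = true := by decide +kernel

def x1f_t146 : T :=
  (.c (.a (.b (.c (.l 34) (.a (.l 34) (.c (.l 34) (.l 34)))) (.c (.l 34) (.l 34))) (.b (.c (.l
      34) (.c (.l 34) (.l 34))) (.a (.c (.l 34) (.l 34)) (.c (.l 34) (.l 34))))) (.c (.a (.a (.l
      34) (.l 34)) (.l 34)) (.a (.l 34) (.l 34))))

theorem x1f_h146 : chk3 (onCell 0 2684354560 0 1073741824 0 26843546 T1F) x1f_t146 30 17 14 = true := by decide +kernel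

def x1f_t147 : T :=
  (.c (.a (.l 34) (.b (.l 34) (.b (.l 34) (.l 34)))) (.a (.b (.l 34) (.c (.l 34) (.l 34))) (.b
      (.c (.b (.l 34) (.l 34)) (.b (.l 34) (.l 34))) (.b (.l 34) (.l 34)))))

theorem x1f_h147 : chk3 (onCell 0 2684354560 0 1073741824 0 26843546 T1F) x1f_t147 30 17 30 = true := by decide +kernel

def x1f_t148 : T :=
  (.b (.c (.a (.c (.b (.l 34) (.l 34)) (.a (.l 34) (.l 34))) (.b (.c (.l 34) (.a (.l 34) (.l
      34))) (.c (.l 34) (.l 34)))) (.a (.b (.c (.l 34) (.a (.l 34) (.l 34))) (.c (.l 34) (.a (.l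
      34) (.l 34)))) (.a (.b (.a (.b (.c (.l 34) (.l 34)) (.l 34)) (.l 34)) (.a (.l 34) (.l 34)))
      (.b (.l 34) (.l 34))))) (.c (.a (.c (.l 34) (.l 34)) (.b (.a (.l 34) (.l 34)) (.l 34))) (.a
      (.b (.a (.l 34) (.l 34)) (.l 34)) (.a (.l 34) (.l 34)))))

theorem x1f_h148 : chk3 (onCell 0 2684354560 0 1073741824 0 26843546 T1F) x1f_t148 30 17 31 = true := by decide +kernel

def x1f_t149 : T :=
  (.c (.a (.c (.b (.a (.c (.l 34) (.l 34)) (.l 34)) (.a (.c (.l 34) (.l 6562)) (.l 34))) (.l 34))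
      (.c (.l 34) (.l 34))) (.c (.a (.l 34) (.c (.l 34) (.l 34))) (.a (.c (.l 34) (.l 34)) (.b
      (.l 34) (.c (.l 34) (.b (.l 34) (.l 34)))))))

theorem x1f_h149 : chk3 (onCell 0 2684354560 0 1073741824 0 26843546 T1F) x1f_t149 31 16 14 = true := by decide +kernel

def x1f_t150 : T :=
  (.b (.c (.l 34) (.l 34)) (.c (.l 34) (.a (.l 34) (.l 34))))

theorem x1f_h150 : chk3 (onCell 0 2684354560 0 1073741824 0 26843546 T1F) x1f_t150 62 16 60 = true := by decide +kernel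

def x1f_t151 : T :=
  (.b (.c (.a (.l 34) (.b (.l 34) (.l 34))) (.b (.a (.l 34) (.c (.b (.l 34) (.l 34)) (.b (.a (.l
      34) (.b (.c (.l 34) (.b (.b (.a (.l 34) (.l 34)) (.a (.l 34) (.l 34))) (.b (.l 34) (.l
      34)))) (.c (.l 34) (.a (.l 34) (.l 34))))) (.a (.l 34) (.b (.b (.a (.l 34) (.l 34)) (.l
      34)) (.l 34)))))) (.a (.l 34) (.b (.c (.l 34) (.a (.l 34) (.b (.l 34) (.l 34)))) (.c (.l
      34) (.l 34)))))) (.c (.b (.l 34) (.l 34)) (.b (.a (.l 34) (.b (.l 34) (.l 34))) (.a (.l 34)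
      (.l 34)))))

theorem x1f_h151 : chk3 (onCell 0 2684354560 0 1073741824 0 26843546 T1F) x1f_t151 63 16 60 = true := by decide +kernel

def x1f_t152 : T :=
  (.c (.a (.l 34) (.b (.l 34) (.l 34))) (.a (.b (.l 34) (.b (.l 34) (.l 34))) (.b (.c (.a (.l 34)
      (.b (.c (.l 34) (.b (.l 34) (.l 34))) (.l 34))) (.b (.a (.c (.l 34) (.b (.b (.l 34) (.l
      34)) (.l 34))) (.b (.c (.a (.l 34) (.l 34)) (.l 34)) (.a (.b (.b (.c (.l 34) (.l 34)) (.c
      (.l 34) (.l 34))) (.b (.l 34) (.l 34))) (.l 34)))) (.a (.b (.l 34) (.l 34)) (.b (.a (.b (.l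
      34) (.c (.l 34) (.l 34))) (.l 34)) (.a (.l 34) (.l 34)))))) (.b (.c (.l 34) (.a (.l 34) (.l
      34))) (.c (.l 34) (.a (.l 34) (.l 34)))))))

theorem x1f_h152 : chk3 (onCell 0 2684354560 0 1073741824 0 26843546 T1F) x1f_t152 62 32 61 = true := by decide +kernel

def x1f_t153 : T :=
  (.a (.c (.a (.l 34) (.b (.b (.l 34) (.l 34)) (.l 34))) (.b (.a (.b (.l 34) (.l 34)) (.b (.c (.b
      (.b (.a (.l 34) (.l 34)) (.a (.l 34) (.l 34))) (.b (.a (.l 34) (.l 34)) (.l 34))) (.l 34))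
      (.a (.b (.l 34) (.l 34)) (.l 34)))) (.a (.l 34) (.b (.a (.l 34) (.l 34)) (.a (.l 34) (.l
      34)))))) (.b (.a (.c (.b (.c (.b (.b (.l 34) (.l 34)) (.l 34)) (.a (.l 34) (.l 34))) (.a
      (.l 34) (.b (.l 34) (.l 34)))) (.l 34)) (.l 34)) (.a (.c (.b (.a (.l 34) (.l 34)) (.b (.l
      34) (.a (.l 34) (.l 34)))) (.l 34)) (.l 34))))

theorem x1f_h153 : chk3 (onCell 0 2684354560 0 1073741824 0 26843546 T1F) x1f_t153 63 64 122 = true := by decide +kernel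

def x1f_t154 : T :=
  (.a (.b (.a (.c (.b (.c (.a (.l 34) (.l 34)) (.l 34)) (.a (.b (.b (.c (.l 34) (.l 34)) (.l 34))
      (.l 34)) (.l 34))) (.l 34)) (.l 34)) (.a (.c (.b (.a (.l 34) (.l 34)) (.a (.l 34) (.l 34)))
      (.l 34)) (.a (.l 34) (.l 34)))) (.l 34))

theorem x1f_h154 : chk3 (onCell 0 2684354560 0 1073741824 0 26843546 T1F) x1f_t154 63 64 123 = true := by decide +kernel

def x1f_t155 : T :=
  (.a (.c (.b (.c (.l 34) (.a (.l 34) (.l 34))) (.c (.l 34) (.b (.a (.l 34) (.l 34)) (.a (.l 34)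
      (.l 34))))) (.a (.b (.a (.b (.c (.l 34) (.l 34)) (.l 34)) (.l 34)) (.l 34)) (.l 34))) (.c
      (.a (.b (.a (.b (.a (.b (.c (.l 34) (.l 34)) (.l 34)) (.l 34)) (.l 34)) (.l 34)) (.c (.l
      34) (.l 34))) (.l 34)) (.l 34)))

theorem x1f_h155 : chk3 (onCell 0 2684354560 0 1073741824 0 26843546 T1F) x1f_t155 63 65 61 = true := by decide +kernel

def x1f_t156 : T :=
  (.a (.c (.b (.a (.l 34) (.l 34)) (.l 34)) (.b (.a (.l 34) (.b (.c (.l 34) (.l 34)) (.b (.l 34)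
      (.l 34)))) (.a (.l 34) (.b (.l 34) (.l 34))))) (.b (.a (.c (.b (.b (.a (.l 34) (.l 34)) (.l
      34)) (.l 34)) (.b (.l 34) (.l 34))) (.a (.b (.c (.l 34) (.l 34)) (.c (.l 34) (.l 34))) (.l
      34))) (.a (.c (.l 34) (.l 34)) (.a (.l 34) (.l 34)))))

theorem x1f_h156 : chk3 (onCell 0 2684354560 0 1073741824 0 26843546 T1F) x1f_t156 31 33 61 = true := by decide +kernel

def x1f_t157 : T :=
  (.c (.a (.l 34) (.b (.c (.l 34) (.b (.b (.l 34) (.l 34)) (.l 34))) (.b (.l 34) (.l 34)))) (.b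
      (.a (.c (.l 34) (.b (.b (.l 34) (.l 34)) (.l 34))) (.b (.c (.a (.l 34) (.l 34)) (.l 34))
      (.a (.c (.l 34) (.l 34)) (.l 34)))) (.a (.b (.l 34) (.l 34)) (.b (.a (.b (.b (.l 34) (.c
      (.l 34) (.l 34))) (.c (.l 34) (.l 34))) (.l 34)) (.a (.l 34) (.l 34))))))

theorem x1f_h157 : chk3 (onCell 0 2684354560 0 1073741824 0 26843546 T1F) x1f_t157 124 64 124 = true := by decide +kernel

def x1f_t158 : T :=
  (.b (.a (.c (.b (.c (.a (.l 34) (.l 34)) (.l 34)) (.a (.c (.l 34) (.l 34)) (.l 34))) (.l 34))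
      (.l 34)) (.a (.c (.b (.a (.b (.l 34) (.c (.l 34) (.l 34))) (.l 34)) (.a (.l 34) (.l 34)))
      (.l 34)) (.l 34)))

theorem x1f_h158 : chk3 (onCell 0 2684354560 0 1073741824 0 26843546 T1F) x1f_t158 125 64 124 = true := by decide +kernel

def x1f_t159 : T :=
  (.a (.b (.a (.c (.b (.c (.a (.l 34) (.l 34)) (.l 34)) (.a (.c (.l 34) (.l 34)) (.l 34))) (.l
      34)) (.l 34)) (.a (.c (.b (.a (.b (.b (.l 34) (.c (.l 34) (.l 34))) (.c (.l 34) (.l 34)))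
      (.l 34)) (.a (.l 34) (.l 34))) (.l 34)) (.l 34))) (.l 34))

theorem x1f_h159 : chk3 (onCell 0 2684354560 0 1073741824 0 26843546 T1F) x1f_t159 62 64 125 = true := by decide +kernel

def x1f_t160 : T :=
  (.c (.a (.b (.c (.b (.l 34) (.l 34)) (.a (.l 34) (.l 34))) (.c (.l 34) (.a (.l 34) (.l 34))))
      (.a (.b (.a (.b (.c (.l 34) (.l 34)) (.l 34)) (.l 34)) (.l 34)) (.l 34))) (.a (.a (.b (.a
      (.b (.c (.l 34) (.l 34)) (.l 34)) (.l 34)) (.l 34)) (.l 34)) (.l 34)))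

theorem x1f_h160 : chk3 (onCell 0 2684354560 0 1073741824 0 26843546 T1F) x1f_t160 62 65 62 = true := by decide +kernel

def x1f_t161 : T :=
  (.a (.b (.l 34) (.l 34)) (.b (.l 34) (.l 34)))

theorem x1f_h161 : chk3 (onCell 0 2684354560 0 1073741824 0 26843546 T1F) x1f_t161 62 32 63 = true := by decide +kernel

def x1f_t162 : T :=
  (.a (.b (.c (.l 34) (.l 34)) (.c (.l 34) (.l 34))) (.b (.c (.l 34) (.a (.l 34) (.b (.l 34) (.l
      34)))) (.c (.l 34) (.l 34))))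

theorem x1f_h162 : chk3 (onCell 0 2684354560 0 1073741824 0 26843546 T1F) x1f_t162 63 32 31 = true := by decide +kernel

def x1f_t163 : T :=
  (.a (.c (.b (.a (.c (.b (.c (.l 34) (.a (.l 34) (.l 34))) (.c (.l 34) (.l 34))) (.a (.l 34) (.l
      34))) (.a (.b (.c (.l 34) (.l 34)) (.c (.l 34) (.l 34))) (.l 34))) (.a (.c (.a (.l 34) (.l
      34)) (.l 34)) (.a (.l 34) (.l 34)))) (.a (.b (.a (.c (.l 34) (.l 34)) (.l 34)) (.l 34)) (.l
      34))) (.a (.b (.c (.a (.b (.l 34) (.l 34)) (.l 34)) (.l 34)) (.c (.l 34) (.l 34))) (.b (.l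
      34) (.l 34))))

theorem x1f_h163 : chk3 (onCell 0 2684354560 0 1073741824 0 26843546 T1F) x1f_t163 31 33 31 = true := by decide +kernel

def x1f_t164 : T :=
  (.a (.b (.c (.c (.c (.b (.l 34) (.l 34)) (.l 34)) (.l 34)) (.c (.l 34) (.l 34))) (.c (.c (.c
      (.l 34) (.l 6562)) (.l 34)) (.c (.l 34) (.l 34)))) (.c (.c (.l 34) (.l 34)) (.c (.b (.l 34)
      (.l 34)) (.b (.c (.l 34) (.l 34)) (.l 34)))))

theorem x1f_h164 : chk3 (onCell 0 2684354560 0 1073741824 0 26843546 T1F) x1f_t164 31 17 14 = true := by decide +kernel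

end Pool.Agent.Strip051.LC.E1.V3
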