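import Pool.Agent.Strip051.LC.E1.V3.Rw
import Pool.Agent.Strip051.LC.E0.Ch.Cell

/-! # Rests near the full period: certificate Cf1_9 -/

set_option maxRecDepth 100000

namespace Pool.Agent.Strip051.LC.E1.V3

open Pool.Agent.Strip051.PB
open Pool.Agent.Strip051.LC.E0.Ch (onCell Tree)

def x1f_t165 : T :=
  (.b (.c (.a (.c (.l 34) (.l 34)) (.b (.c (.l 34) (.l 34)) (.c (.l 34) (.l 34)))) (.a (.b (.c
      (.l 34) (.a (.l 34) (.l 34))) (.c (.l 34) (.l 34))) (.a (.b (.a (.c (.l 34) (.l 34)) (.l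
      34)) (.l 34)) (.l 34)))) (.a (.c (.l 34) (.b (.a (.l 34) (.l 34)) (.l 34))) (.c (.b (.l 34)
      (.l 34)) (.a (.l 34) (.l 34)))))

theorem x1f_h165 : chk3 (onCell 0 2684354560 0 1073741824 0 26843546 T1F) x1f_t165 31 17 30 = true := by decide +kernel

def x1f_t166 : T :=
  (.b (.a (.c (.a (.b (.a (.b (.l 34) (.l 34)) (.l 34)) (.c (.l 34) (.l 34))) (.l 34)) (.a (.l
      34) (.l 34))) (.a (.c (.l 34) (.l 34)) (.c (.l 34) (.l 34)))) (.a (.a (.b (.c (.l 34) (.l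
      34)) (.c (.l 34) (.l 34))) (.b (.c (.l 34) (.l 34)) (.l 34))) (.a (.c (.l 34) (.l 34)) (.l
      34))))

theorem x1f_h166 : chk3 (onCell 0 2684354560 0 1073741824 0 26843546 T1F) x1f_t166 31 17 31 = true := by decide +kernel

def x1f_t167 : T :=
  (.b (.a (.b (.c (.a (.l 34) (.b (.c (.l 6562) (.l 34)) (.c (.l 6562) (.l 34)))) (.c (.l 34) (.l
      34))) (.a (.c (.l 34) (.l 34)) (.c (.c (.l 6562) (.l 34)) (.l 34)))) (.b (.a (.c (.c (.l
      34) (.l 34)) (.c (.l 34) (.l 34))) (.c (.c (.l 34) (.l 34)) (.l 34))) (.c (.c (.l 34) (.l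
      34)) (.c (.l 34) (.l 34))))) (.a (.b (.c (.c (.l 6562) (.l 34)) (.c (.l 34) (.l 34))) (.c
      (.c (.l 6562) (.l 34)) (.c (.l 34) (.l 34)))) (.c (.c (.l 34) (.l 34)) (.b (.c (.l 34) (.l
      34)) (.l 34)))))

theorem x1f_h167 : chk3 (onCell 0 2684354560 0 1073741824 0 26843546 T1F) x1f_t167 30 9 14 = true := by decide +kernel

def x1f_t168 : T :=
  (.b (.c (.b (.c (.a (.l 34) (.l 34)) (.a (.l 34) (.l 34))) (.c (.a (.l 34) (.l 34)) (.a (.l 34)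
      (.l 34)))) (.b (.c (.a (.l 34) (.l 34)) (.a (.l 34) (.l 34))) (.c (.a (.l 34) (.l 34)) (.a
      (.l 34) (.l 34))))) (.c (.b (.c (.l 34) (.l 34)) (.a (.l 34) (.l 34))) (.b (.c (.a (.l 34)
      (.l 34)) (.a (.l 34) (.l 34))) (.a (.l 34) (.a (.l 34) (.l 34))))))

theorem x1f_h168 : chk3 (onCell 0 2684354560 0 1073741824 0 26843546 T1F) x1f_t168 30 9 15 = true := by decide +kernel

def x1f_t169 : T :=
  (.b (.c (.c (.b (.a (.l 34) (.l 6562)) (.l 34)) (.b (.b (.l 34) (.l 34)) (.l 34))) (.b (.c (.a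
      (.l 34) (.l 34)) (.a (.l 34) (.l 34))) (.a (.c (.l 34) (.l 34)) (.l 34)))) (.c (.b (.a (.c
      (.l 6562) (.l 34)) (.l 34)) (.a (.l 34) (.l 34))) (.b (.a (.l 34) (.l 34)) (.a (.l 34) (.l
      34)))))

theorem x1f_h169 : chk3 (onCell 0 2684354560 0 1073741824 0 26843546 T1F) x1f_t169 31 9 14 = true := by decide +kernel

def x1f_t170 : T :=
  (.b (.c (.b (.a (.c (.l 34) (.l 34)) (.c (.l 34) (.l 34))) (.a (.a (.l 34) (.l 34)) (.a (.b (.l
      34) (.l 34)) (.b (.l 34) (.l 34))))) (.a (.b (.a (.b (.c (.l 34) (.l 34)) (.l 34)) (.l 34))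
      (.a (.l 34) (.l 34))) (.b (.l 34) (.l 34)))) (.c (.b (.a (.l 34) (.a (.l 34) (.l 34))) (.a
      (.l 34) (.l 34))) (.a (.b (.l 34) (.l 34)) (.l 34))))

theorem x1f_h170 : chk3 (onCell 0 2684354560 0 1073741824 0 26843546 T1F) x1f_t170 31 9 15 = true := by decide +kernel

def x1f_t171 : T :=
  (.c (.b (.l 8098) (.l 34)) (.b (.a (.b (.a (.c (.l 7458) (.l 6818)) (.c (.l 7458) (.l 6818)))
      (.a (.c (.l 7458) (.l 6818)) (.c (.l 7458) (.l 6818)))) (.b (.a (.c (.l 7458) (.l 6818))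
      (.c (.l 7458) (.l 6818))) (.a (.c (.l 7458) (.l 6818)) (.c (.l 7458) (.l 6818))))) (.a (.b
      (.a (.c (.l 7458) (.l 6818)) (.l 6818)) (.a (.l 6818) (.l 6818))) (.b (.a (.l 34) (.l 34))
      (.c (.l 7458) (.l 6818))))))

theorem x1f_h171 : chk3 (onCell 0 2684354560 0 1073741824 0 26843546 T1F) x1f_t171 30 10 6 = true := by decide +kernel

def x1f_t172 : T :=
  (.c (.b (.a (.l 8098) (.l 67936198562)) (.a (.l 8098) (.l 8098))) (.b (.a (.b (.a (.c (.l 7458)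
      (.l 6818)) (.c (.l 7458) (.l 6818))) (.c (.l 7458) (.l 6818))) (.b (.a (.c (.l 7458) (.l
      6818)) (.c (.l 7458) (.l 6818))) (.c (.l 7458) (.l 34)))) (.a (.b (.c (.l 7458) (.l 6818))
      (.c (.l 7458) (.l 6818))) (.c (.l 7458) (.l 34)))))

theorem x1f_h172 : chk3 (onCell 0 2684354560 0 1073741824 0 26843546 T1F) x1f_t172 31 10 6 = true := by decide +kernel

def x1f_t173 : T :=
  (.c (.b (.a (.l 8098) (.l 8098)) (.a (.l 8098) (.l 8098))) (.b (.a (.b (.l 290455586) (.l 34))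
      (.b (.a (.l 6818) (.l 34)) (.a (.l 6818) (.l 34)))) (.a (.b (.a (.l 6818) (.l 6818)) (.a
      (.l 6818) (.l 6818))) (.b (.a (.l 6818) (.l 290455586)) (.a (.l 6818) (.l 6818))))))

theorem x1f_h173 : chk3 (onCell 0 2684354560 0 1073741824 0 26843546 T1F) x1f_t173 30 11 6 = true := by decide +kernel

def x1f_t174 : T :=
  (.b (.a (.l 8098) (.l 8098)) (.a (.l 8098) (.l 8098)))

theorem x1f_h174 : chk3 (onCell 0 2684354560 0 1073741824 0 26843546 T1F) x1f_t174 31 11 12 = true := by decide +kernel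

def x1f_t175 : T :=
  (.b (.a (.b (.a (.c (.l 7458) (.l 6818)) (.c (.l 7458) (.l 6818))) (.a (.l 290455586) (.c (.l
      7458) (.l 6818)))) (.b (.a (.c (.l 7458) (.l 6818)) (.c (.l 7458) (.l 6818))) (.a (.c (.l
      7458) (.l 6818)) (.c (.l 7458) (.l 6818))))) (.a (.b (.a (.c (.l 7458) (.l 6818)) (.c (.l
      7458) (.l 6818))) (.a (.b (.l 6818) (.l 6818)) (.b (.l 6818) (.l 6818)))) (.b (.a (.b (.c
      (.l 7458) (.l 6818)) (.c (.l 7458) (.l 6818))) (.b (.c (.l 7458) (.l 6818)) (.c (.l 7458)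
      (.l 6818)))) (.a (.b (.c (.l 7458) (.l 6818)) (.c (.l 7458) (.l 6818))) (.b (.c (.l 7458)
      (.l 6818)) (.c (.l 7458) (.l 6818)))))))

theorem x1f_h175 : chk3 (onCell 0 2684354560 0 1073741824 0 26843546 T1F) x1f_t175 31 11 13 = true := by decide +kernel

def x1f_t176 : T :=
  (.c (.b (.a (.b (.c (.l 34) (.l 34)) (.c (.l 34) (.l 34))) (.c (.b (.c (.l 6562) (.l 6306)) (.l
      34)) (.l 34))) (.a (.b (.c (.l 34) (.l 34)) (.c (.l 34) (.l 34))) (.b (.c (.l 34) (.l 34))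
      (.a (.c (.l 6306) (.l 5794)) (.c (.l 6306) (.l 5794)))))) (.b (.c (.a (.b (.l 34) (.l 34))
      (.l 34)) (.a (.l 34) (.b (.l 34) (.l 34)))) (.c (.a (.l 34) (.l 34)) (.a (.l 34) (.b (.l
      34) (.l 34))))))

theorem x1f_h176 : chk3 (onCell 0 2684354560 0 1073741824 0 26843546 T1F) x1f_t176 30 10 7 = true := by decide +kernel

def x1f_t177 : T :=
  (.c (.b (.c (.a (.b (.l 34) (.l 34)) (.l 34)) (.a (.l 34) (.l 34))) (.c (.a (.l 34) (.l 6306))
      (.a (.l 34) (.l 5794)))) (.b (.c (.a (.l 34) (.l 34)) (.a (.l 34) (.l 34))) (.a (.b (.c (.l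
      34) (.l 34)) (.c (.l 5410) (.l 34))) (.b (.c (.l 34) (.l 5026)) (.c (.l 34) (.l 5026))))))

theorem x1f_h177 : chk3 (onCell 0 2684354560 0 1073741824 0 26843546 T1F) x1f_t177 31 10 7 = true := by decide +kernel

def x1f_t178 : T :=
  (.a (.b (.a (.c (.l 6306) (.l 5794)) (.c (.l 6306) (.l 5794))) (.a (.b (.c (.l 6306) (.l 5794))
      (.c (.l 6306) (.l 5794))) (.b (.c (.l 6306) (.l 5794)) (.c (.l 6306) (.l 5794))))) (.b (.a
      (.b (.c (.l 6306) (.l 5794)) (.c (.l 6306) (.l 5794))) (.b (.c (.l 6306) (.l 5794)) (.c (.l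
      6306) (.l 5794)))) (.a (.b (.c (.l 6306) (.l 5794)) (.a (.c (.l 6306) (.l 5794)) (.c (.l
      6306) (.l 5794)))) (.b (.c (.l 6306) (.l 5794)) (.c (.l 6306) (.l 5794))))))

theorem x1f_h178 : chk3 (onCell 0 2684354560 0 1073741824 0 26843546 T1F) x1f_t178 30 22 14 = true := by decide +kernel

def x1f_t179 : T :=
  (.a (.b (.a (.b (.c (.l 6306) (.l 5794)) (.c (.l 6306) (.l 5794))) (.b (.c (.l 6306) (.l 5794))
      (.c (.l 6306) (.l 5794)))) (.a (.b (.c (.l 6306) (.l 5794)) (.c (.l 6306) (.l 5794))) (.b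
      (.c (.l 6306) (.l 5794)) (.c (.l 6306) (.l 5794))))) (.b (.a (.b (.c (.l 6306) (.l 5794))
      (.c (.l 6306) (.l 5794))) (.b (.c (.l 6306) (.l 5794)) (.c (.l 6306) (.l 5794)))) (.a (.c
      (.l 6306) (.l 5794)) (.c (.l 6306) (.l 5794)))))

theorem x1f_h179 : chk3 (onCell 0 2684354560 0 1073741824 0 26843546 T1F) x1f_t179 30 23 14 = true := by decide +kernel

def x1f_t180 : T :=
  (.b (.a (.b (.a (.c (.l 5410) (.l 5026)) (.c (.l 5410) (.l 5026))) (.a (.c (.l 5410) (.l 5026))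
      (.c (.l 5410) (.l 5026)))) (.b (.a (.c (.l 5410) (.l 5026)) (.c (.l 5410) (.l 5026))) (.c
      (.l 5410) (.a (.l 5026) (.c (.l 5282) (.l 5026)))))) (.a (.b (.a (.c (.l 5410) (.l 5026))
      (.c (.l 5410) (.c (.l 5282) (.l 5026)))) (.c (.l 5410) (.c (.l 5282) (.l 15)))) (.b (.c (.l
      5410) (.c (.l 5282) (.b (.l 5026) (.l 5026)))) (.c (.l 5410) (.l 15)))))

theorem x1f_h180 : chk3 (onCell 0 2684354560 0 1073741824 0 26843546 T1F) x1f_t180 30 11 15 = true := by decide +kernel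

def x1f_t181 : T :=
  (.b (.a (.b (.a (.b (.c (.l 6306) (.l 5794)) (.l 34)) (.l 34)) (.a (.b (.a (.l 34) (.l 5794))
      (.c (.l 6306) (.l 5794))) (.b (.l 5794) (.l 5794)))) (.b (.a (.l 34) (.l 34)) (.a (.b (.l
      5794) (.l 5794)) (.b (.l 5794) (.l 5794))))) (.a (.b (.a (.b (.c (.l 6306) (.l 5794)) (.c
      (.l 6306) (.l 5794))) (.c (.l 6306) (.l 5794))) (.a (.c (.l 6306) (.l 5794)) (.c (.l 6306)
      (.l 5794)))) (.b (.a (.c (.l 6306) (.l 5794)) (.c (.l 6306) (.l 5794))) (.a (.c (.l 6306)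
      (.l 5794)) (.c (.l 6306) (.l 5794))))))

theorem x1f_h181 : chk3 (onCell 0 2684354560 0 1073741824 0 26843546 T1F) x1f_t181 31 11 14 = true := by decide +kernel

end Pool.Agent.Strip051.LC.E1.V3
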