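import Pool.Agent.Strip051.LC.E1.V3.Cf1_1
import Pool.Agent.Strip051.LC.E1.V3.Cf1_2
import Pool.Agent.Strip051.LC.E1.V3.Cf1_3
import Pool.Agent.Strip051.LC.E1.V3.Cf1_4
import Pool.Agent.Strip051.LC.E1.V3.Cf1_5
import Pool.Agent.Strip051.LC.E1.V3.Cf1_6
import Pool.Agent.Strip051.LC.E1.V3.Cf1_7
import Pool.Agent.Strip051.LC.E1.V3.Cf1_8
import Pool.Agent.Strip051.LC.E1.V3.Cf1_9
import Pool.Agent.Strip051.LC.E1.V3.Cf1_10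

/-! # Rests near the full period: certificate f1 -/

set_option maxRecDepth 100000

namespace Pool.Agent.Strip051.LC.E1.V3

open Pool.Agent.Strip051.PB
open Pool.Agent.Strip051.LC.E0.Ch (onCell Tree)

theorem x1f : Tree 0 2684354560 0 1073741824 0 26843546 T1F :=
  ⟨_, (chk3_a (chk3_a (chk3_b (chk3_c x1f_h0 x1f_h1) (chk3_c (chk3_a x1f_h2 x1f_h3) (chk3_a
      x1f_h4 (chk3_b (chk3_a x1f_h5 (chk3_c x1f_h6 (chk3_c x1f_h7 (chk3_a x1f_h8 x1f_h9))))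
      x1f_h10)))) (chk3_b (chk3_c (chk3_a x1f_h11 (chk3_b x1f_h12 x1f_h13)) (chk3_a (chk3_b
      x1f_h14 (chk3_b x1f_h15 (chk3_c x1f_h16 (chk3_a x1f_h17 (chk3_a x1f_h18 (chk3_c x1f_h19
      (chk3_a (chk3_b (chk3_c x1f_h20 (chk3_b x1f_h21 (chk3_c x1f_h22 (chk3_b x1f_h23 x1f_h24))))
      (chk3_c x1f_h25 x1f_h26)) x1f_h27))))))) (chk3_b (chk3_a x1f_h28 (chk3_a (chk3_a x1f_h29
      (chk3_a x1f_h30 x1f_h31)) x1f_h32)) (chk3_a x1f_h33 x1f_h34)))) (chk3_c (chk3_a x1f_h35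
      (chk3_b (chk3_c (chk3_a (chk3_b x1f_h36 (chk3_c x1f_h37 x1f_h38)) (chk3_b x1f_h39 x1f_h40))
      x1f_h41) (chk3_c (chk3_a (chk3_b (chk3_c (chk3_a (chk3_b (chk3_c (chk3_a x1f_h42 (chk3_b
      x1f_h43 (chk3_c (chk3_a x1f_h44 (chk3_b x1f_h45 (chk3_c (chk3_a (chk3_b x1f_h46 x1f_h47)
      x1f_h48) x1f_h49))) x1f_h50))) x1f_h51) x1f_h52) (chk3_b (chk3_a (chk3_c (chk3_b x1f_h53
      x1f_h54) x1f_h55) x1f_h56) x1f_h57)) x1f_h58) x1f_h59) x1f_h60) x1f_h61))) (chk3_c (chk3_a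
      x1f_h62 x1f_h63) (chk3_a (chk3_b (chk3_a x1f_h64 (chk3_a x1f_h65 (chk3_c x1f_h66 (chk3_a
      x1f_h67 x1f_h68)))) x1f_h69) (chk3_b (chk3_a x1f_h70 x1f_h71) x1f_h72)))))) (chk3_a (chk3_b
      (chk3_c (chk3_a (chk3_b x1f_h73 (chk3_c x1f_h74 x1f_h75)) (chk3_b (chk3_c x1f_h76 x1f_h77)
      x1f_h78)) (chk3_a (chk3_c x1f_h79 (chk3_b x1f_h80 (chk3_b x1f_h81 (chk3_a x1f_h82
      x1f_h83)))) (chk3_c x1f_h84 (chk3_b (chk3_b x1f_h85 (chk3_a x1f_h86 x1f_h87)) (chk3_a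
      x1f_h88 (chk3_c x1f_h89 x1f_h90)))))) (chk3_c (chk3_a (chk3_b x1f_h91 x1f_h92) x1f_h93)
      (chk3_a (chk3_c x1f_h94 (chk3_b (chk3_a (chk3_c x1f_h95 x1f_h96) x1f_h97) x1f_h98)) (chk3_b
      (chk3_c x1f_h99 (chk3_a x1f_h100 x1f_h101)) x1f_h102)))) (chk3_b (chk3_c (chk3_a (chk3_b
      x1f_h103 x1f_h104) (chk3_b (chk3_c x1f_h105 x1f_h106) x1f_h107)) (chk3_a (chk3_b (chk3_c
      x1f_h108 (chk3_a (chk3_c x1f_h109 (chk3_b x1f_h110 x1f_h111)) (chk3_b (chk3_a x1f_h112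
      x1f_h113) (chk3_c x1f_h114 x1f_h115)))) (chk3_c (chk3_b x1f_h116 x1f_h117) (chk3_b (chk3_c
      x1f_h118 x1f_h119) (chk3_c (chk3_a x1f_h120 x1f_h121) (chk3_a (chk3_b x1f_h122 x1f_h123)
      (chk3_b x1f_h124 x1f_h125)))))) (chk3_b (chk3_c (chk3_b (chk3_a x1f_h126 (chk3_b x1f_h127
      x1f_h128)) (chk3_a x1f_h129 (chk3_c x1f_h130 (chk3_b x1f_h131 x1f_h132)))) (chk3_b (chk3_a
      (chk3_b (chk3_c x1f_h133 (chk3_c x1f_h134 (chk3_c (chk3_a x1f_h135 (chk3_b (chk3_c x1f_h136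
      x1f_h137) x1f_h138)) (chk3_a (chk3_b x1f_h139 x1f_h140) (chk3_b (chk3_b (chk3_c (chk3_a
      x1f_h141 x1f_h142) x1f_h143) x1f_h144) x1f_h145))))) (chk3_c x1f_h146 (chk3_c x1f_h147
      x1f_h148))) (chk3_b (chk3_c x1f_h149 (chk3_c (chk3_c (chk3_a x1f_h150 x1f_h151) (chk3_b
      (chk3_a x1f_h152 (chk3_b (chk3_c x1f_h153 x1f_h154) x1f_h155)) x1f_h156)) (chk3_b (chk3_a
      (chk3_c (chk3_b (chk3_c (chk3_a x1f_h157 x1f_h158) x1f_h159) x1f_h160) x1f_h161) x1f_h162)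
      x1f_h163))) (chk3_c x1f_h164 (chk3_c x1f_h165 x1f_h166)))) (chk3_a (chk3_c x1f_h167
      x1f_h168) (chk3_c x1f_h169 x1f_h170)))) (chk3_c (chk3_b (chk3_a x1f_h171 x1f_h172) (chk3_a
      x1f_h173 (chk3_c x1f_h174 x1f_h175))) (chk3_b (chk3_a x1f_h176 x1f_h177) (chk3_a (chk3_c
      (chk3_b x1f_h178 x1f_h179) x1f_h180) (chk3_c x1f_h181 x1f_h182))))))) (chk3_c (chk3_a
      x1f_h183 x1f_h184) (chk3_a (chk3_b (chk3_c x1f_h185 (chk3_b (chk3_a x1f_h186 x1f_h187)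
      x1f_h188)) x1f_h189) (chk3_b (chk3_c (chk3_b (chk3_a x1f_h190 x1f_h191) x1f_h192) x1f_h193)
      x1f_h194))))))⟩

end Pool.Agent.Strip051.LC.E1.V3
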