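import Pool.Agent.Strip051.LC.E1.V3.Rw
import Pool.Agent.Strip051.LC.E0.Ch.Cell

/-! # Rests near the full period: certificate Cf2_2 -/

set_option maxRecDepth 100000

namespace Pool.Agent.Strip051.LC.E1.V3

open Pool.Agent.Strip051.PB
open Pool.Agent.Strip051.LC.E0.Ch (onCell Tree)

def x2f_t14 : T :=
  (.c (.a (.b (.c (.a (.b (.c (.l 65442) (.l 32674)) (.c (.l 65442) (.l 32674))) (.b (.c (.l
      65442) (.l 32674)) (.c (.l 65442) (.l 32674)))) (.l 16290)) (.c (.a (.b (.c (.l 65442) (.l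
      32674)) (.c (.l 65442) (.l 32674))) (.b (.c (.l 65442) (.l 32674)) (.c (.l 65442) (.l
      32674)))) (.l 16290))) (.b (.c (.a (.b (.c (.l 65442) (.l 32674)) (.c (.l 65442) (.l
      32674))) (.b (.c (.l 65442) (.l 32674)) (.c (.l 65442) (.l 32674)))) (.l 16290)) (.c (.a
      (.b (.c (.l 65442) (.l 32674)) (.c (.l 65442) (.l 32674))) (.b (.c (.l 65442) (.l 32674))
      (.c (.l 65442) (.l 32674)))) (.l 16290)))) (.l 8098))

theorem x2f_h14 : chk3 (onCell 0 1073741824 0 429496730 0 67108864 T2F) x2f_t14 11 5 4 = true := by decide +kernel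

def x2f_t15 : T :=
  (.b (.a (.b (.l 4034) (.l 4034)) (.b (.a (.c (.l 5410) (.l 4002)) (.c (.l 5410) (.l 34))) (.a
      (.l 4034) (.c (.l 5410) (.l 4002))))) (.a (.l 4034) (.a (.l 4034) (.l 4034))))

theorem x2f_h15 : chk3 (onCell 0 1073741824 0 429496730 0 67108864 T2F) x2f_t15 5 2 5 = true := by decide +kernel

def x2f_t16 : T :=
  (.c (.a (.b (.c (.a (.b (.c (.l 65442) (.l 32674)) (.c (.l 65442) (.l 32674))) (.b (.c (.l
      65442) (.l 32674)) (.c (.l 65442) (.l 32674)))) (.l 16290)) (.c (.a (.b (.c (.l 65442) (.l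
      32674)) (.c (.l 65442) (.l 32674))) (.b (.c (.l 65442) (.l 32674)) (.c (.l 65442) (.l
      32674)))) (.l 16290))) (.b (.c (.a (.b (.c (.l 65442) (.l 32674)) (.c (.l 65442) (.l
      32674))) (.b (.c (.l 65442) (.l 32674)) (.c (.l 65442) (.l 32674)))) (.l 16290)) (.c (.a
      (.b (.c (.l 65442) (.l 32674)) (.c (.l 65442) (.l 32674))) (.b (.c (.l 65442) (.l 32674))
      (.c (.l 65442) (.l 32674)))) (.l 16290)))) (.l 8098))

theorem x2f_h16 : chk3 (onCell 0 1073741824 0 429496730 0 67108864 T2F) x2f_t16 10 6 4 = true := by decide +kernel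

def x2f_t17 : T :=
  (.c (.a (.b (.c (.a (.b (.c (.l 65442) (.l 32674)) (.c (.l 65442) (.l 32674))) (.b (.c (.l
      65442) (.l 32674)) (.c (.l 65442) (.l 32674)))) (.l 16290)) (.c (.a (.b (.c (.l 65442) (.l
      32674)) (.c (.l 65442) (.l 32674))) (.b (.c (.l 65442) (.l 32674)) (.c (.l 65442) (.l
      32674)))) (.l 16290))) (.b (.c (.a (.b (.c (.l 65442) (.l 32674)) (.c (.l 65442) (.l
      32674))) (.b (.c (.l 65442) (.l 32674)) (.c (.l 65442) (.l 32674)))) (.l 16290)) (.c (.a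
      (.b (.c (.l 65442) (.l 32674)) (.c (.l 65442) (.l 32674))) (.b (.c (.l 65442) (.l 32674))
      (.c (.l 65442) (.l 32674)))) (.l 16290)))) (.l 8098))

theorem x2f_h17 : chk3 (onCell 0 1073741824 0 429496730 0 67108864 T2F) x2f_t17 10 7 4 = true := by decide +kernel

def x2f_t18 : T :=
  (.c (.a (.b (.c (.a (.b (.c (.l 65442) (.l 32674)) (.c (.l 65442) (.l 32674))) (.b (.c (.l
      65442) (.l 32674)) (.c (.l 65442) (.l 32674)))) (.l 16290)) (.c (.a (.b (.c (.l 65442) (.l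
      32674)) (.c (.l 65442) (.l 32674))) (.b (.c (.l 65442) (.l 32674)) (.c (.l 65442) (.l
      32674)))) (.l 16290))) (.b (.c (.a (.b (.c (.l 65442) (.l 32674)) (.c (.l 65442) (.l
      32674))) (.b (.c (.l 65442) (.l 32674)) (.c (.l 65442) (.l 32674)))) (.l 16290)) (.c (.a
      (.b (.c (.l 65442) (.l 32674)) (.c (.l 65442) (.l 32674))) (.b (.c (.l 65442) (.l 32674))
      (.c (.l 65442) (.l 32674)))) (.l 16290)))) (.l 8098))

theorem x2f_h18 : chk3 (onCell 0 1073741824 0 429496730 0 67108864 T2F) x2f_t18 11 6 4 = true := by decide +kernel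

def x2f_t19 : T :=
  (.c (.a (.b (.c (.a (.b (.c (.l 65442) (.l 32674)) (.c (.l 65442) (.l 32674))) (.b (.c (.l
      65442) (.l 32674)) (.c (.l 65442) (.l 32674)))) (.l 16290)) (.c (.a (.b (.c (.l 65442) (.l
      32674)) (.c (.l 65442) (.l 32674))) (.b (.c (.l 65442) (.l 32674)) (.c (.l 65442) (.l
      32674)))) (.l 16290))) (.b (.c (.a (.b (.c (.l 65442) (.l 32674)) (.c (.l 65442) (.l
      32674))) (.b (.c (.l 65442) (.l 32674)) (.c (.l 65442) (.l 32674)))) (.l 16290)) (.c (.a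
      (.b (.c (.l 65442) (.l 32674)) (.c (.l 65442) (.l 32674))) (.b (.c (.l 65442) (.l 32674))
      (.c (.l 65442) (.l 32674)))) (.l 16290)))) (.l 8098))

theorem x2f_h19 : chk3 (onCell 0 1073741824 0 429496730 0 67108864 T2F) x2f_t19 11 7 4 = true := by decide +kernel

def x2f_t20 : T :=
  (.b (.b (.l 4034) (.a (.l 4002) (.l 4002))) (.b (.a (.l 4002) (.l 4002)) (.a (.l 4002) (.l
      4002))))

theorem x2f_h20 : chk3 (onCell 0 1073741824 0 429496730 0 67108864 T2F) x2f_t20 5 3 5 = true := by decide +kernel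

def x2f_t21 : T :=
  (.b (.c (.a (.c (.l 3234) (.l 34)) (.c (.l 3234) (.l 34))) (.c (.c (.l 34) (.l 34)) (.a (.b (.a
      (.l 34) (.l 34)) (.l 34)) (.a (.a (.l 34) (.c (.l 34) (.l 1954))) (.c (.l 34) (.l
      1954)))))) (.a (.c (.c (.l 3234) (.l 34)) (.c (.l 34) (.a (.l 34) (.l 34)))) (.c (.c (.l
      3234) (.l 34)) (.c (.l 34) (.a (.l 34) (.c (.l 34) (.l 1954)))))))

theorem x2f_h21 : chk3 (onCell 0 1073741824 0 429496730 0 67108864 T2F) x2f_t21 8 16 3 = true := by decide +kernel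

def x2f_t22 : T :=
  (.c (.a (.b (.c (.l 3234) (.l 34)) (.c (.l 3234) (.l 34))) (.b (.c (.l 34) (.a (.l 34) (.a (.l
      34) (.l 34)))) (.c (.l 34) (.a (.l 34) (.l 34))))) (.b (.c (.c (.a (.l 34) (.l 34)) (.a (.l
      34) (.l 34))) (.c (.l 34) (.l 34))) (.c (.a (.c (.l 34) (.l 34)) (.c (.l 34) (.l 34))) (.c
      (.l 34) (.l 34)))))

theorem x2f_h22 : chk3 (onCell 0 1073741824 0 429496730 0 67108864 T2F) x2f_t22 9 16 3 = true := by decide +kernel

def x2f_t23 : T :=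
  (.a (.a (.b (.c (.c (.l 3234) (.l 2722)) (.c (.l 34) (.l 34))) (.c (.c (.l 3234) (.l 2722)) (.c
      (.l 34) (.l 34)))) (.c (.c (.l 3266) (.l 34)) (.b (.c (.l 34) (.a (.l 34) (.l 34))) (.c (.l
      34) (.a (.l 34) (.l 34)))))) (.c (.a (.b (.c (.l 3234) (.l 34)) (.c (.l 3234) (.l 34))) (.b
      (.c (.l 34) (.a (.l 34) (.l 34))) (.c (.l 3234) (.l 34)))) (.b (.c (.a (.c (.l 34) (.l 34))
      (.c (.l 34) (.l 34))) (.c (.l 34) (.l 34))) (.c (.a (.c (.l 34) (.l 34)) (.c (.l 34) (.l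
      34))) (.a (.l 34) (.l 34))))))

theorem x2f_h23 : chk3 (onCell 0 1073741824 0 429496730 0 67108864 T2F) x2f_t23 4 17 3 = true := by decide +kernel

def x2f_t24 : T :=
  (.b (.a (.b (.c (.c (.l 3234) (.l 2722)) (.c (.l 2338) (.l 34))) (.c (.c (.l 3234) (.l 2722))
      (.c (.l 2338) (.l 34)))) (.c (.c (.l 3234) (.l 34)) (.b (.c (.l 34) (.l 34)) (.c (.l 34)
      (.l 34))))) (.a (.b (.c (.c (.l 3266) (.l 2722)) (.c (.l 2338) (.l 34))) (.c (.c (.l 3266)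
      (.l 2722)) (.c (.l 2338) (.l 34)))) (.c (.c (.l 3266) (.l 2722)) (.b (.c (.l 34) (.l 34))
      (.c (.l 2338) (.l 34))))))

theorem x2f_h24 : chk3 (onCell 0 1073741824 0 429496730 0 67108864 T2F) x2f_t24 8 9 3 = true := by decide +kernel

def x2f_t25 : T :=
  (.b (.c (.a (.c (.l 3234) (.l 34)) (.b (.c (.l 3234) (.l 34)) (.c (.l 3234) (.l 34)))) (.b (.a
      (.c (.l 34) (.l 34)) (.c (.c (.l 34) (.l 2338)) (.l 34))) (.a (.c (.l 34) (.l 34)) (.c (.c
      (.l 2466) (.l 2338)) (.l 34))))) (.c (.a (.c (.l 3266) (.l 34)) (.b (.c (.l 3234) (.l 34))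
      (.c (.l 3234) (.l 34)))) (.b (.a (.c (.l 34) (.l 34)) (.c (.c (.l 2466) (.l 2338)) (.l
      34))) (.a (.c (.l 34) (.l 34)) (.c (.l 34) (.l 34))))))

theorem x2f_h25 : chk3 (onCell 0 1073741824 0 429496730 0 67108864 T2F) x2f_t25 9 9 3 = true := by decide +kernel

def x2f_t26 : T :=
  (.a (.b (.c (.c (.l 3266) (.l 2722)) (.c (.l 2338) (.l 34))) (.c (.c (.l 3266) (.l 2722)) (.a
      (.c (.l 2338) (.l 1954)) (.c (.l 2338) (.l 1954))))) (.b (.c (.c (.l 3266) (.l 2722)) (.c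
      (.l 2338) (.l 34))) (.c (.c (.l 3266) (.l 2722)) (.b (.c (.l 2338) (.l 1954)) (.c (.l 2338)
      (.l 1954))))))

theorem x2f_h26 : chk3 (onCell 0 1073741824 0 429496730 0 67108864 T2F) x2f_t26 8 20 3 = true := by decide +kernel

def x2f_t27 : T :=
  (.a (.b (.c (.c (.l 3234) (.l 2722)) (.a (.c (.l 2338) (.l 1954)) (.c (.l 2338) (.l 1954))))
      (.c (.c (.l 3234) (.l 2722)) (.a (.c (.l 2338) (.l 1954)) (.c (.l 2338) (.l 1954))))) (.b
      (.c (.c (.l 3234) (.l 2722)) (.b (.c (.l 2338) (.l 1954)) (.c (.l 2338) (.l 1954)))) (.c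
      (.c (.l 3234) (.l 2722)) (.a (.c (.l 2338) (.l 1954)) (.c (.l 2338) (.l 1954))))))

theorem x2f_h27 : chk3 (onCell 0 1073741824 0 429496730 0 67108864 T2F) x2f_t27 8 21 3 = true := by decide +kernel

def x2f_t28 : T :=
  (.b (.c (.a (.c (.l 3266) (.l 2722)) (.b (.c (.l 3234) (.l 2722)) (.c (.l 3266) (.l 2722))))
      (.b (.a (.c (.l 34) (.l 34)) (.c (.l 34) (.l 34))) (.a (.b (.c (.l 2338) (.l 34)) (.c (.l
      2338) (.l 1954))) (.c (.l 34) (.l 34))))) (.a (.c (.c (.l 3234) (.l 2754)) (.b (.b (.c (.l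
      2338) (.l 1954)) (.c (.l 2338) (.l 1954))) (.a (.c (.l 2338) (.l 1954)) (.c (.l 2338) (.l
      1954))))) (.c (.b (.c (.l 3234) (.l 2722)) (.c (.l 3234) (.l 2722))) (.b (.c (.l 34) (.l
      1954)) (.c (.l 2338) (.l 1954))))))

theorem x2f_h28 : chk3 (onCell 0 1073741824 0 429496730 0 67108864 T2F) x2f_t28 9 10 3 = true := by decide +kernel

end Pool.Agent.Strip051.LC.E1.V3
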