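import Pool.Agent.Strip051.LC.E1.V3.Rw
import Pool.Agent.Strip051.LC.E0.Ch.Cell

/-! # Rests near the full period: certificate Cf2_3 -/

set_option maxRecDepth 100000

namespace Pool.Agent.Strip051.LC.E1.V3

open Pool.Agent.Strip051.PB
open Pool.Agent.Strip051.LC.E0.Ch (onCell Tree)

def x2f_t29 : T :=
  (.a (.c (.b (.c (.l 3234) (.l 2722)) (.c (.l 3234) (.l 2722))) (.b (.a (.c (.l 2338) (.l 1954))
      (.b (.c (.l 2338) (.l 1954)) (.c (.l 2338) (.l 1954)))) (.a (.b (.c (.l 2338) (.l 1954))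
      (.c (.l 2338) (.l 1954))) (.b (.c (.l 2338) (.l 1954)) (.c (.l 2338) (.l 1954)))))) (.b (.c
      (.c (.l 3234) (.l 2722)) (.a (.b (.c (.l 2338) (.l 1954)) (.c (.l 2338) (.l 1954))) (.b (.c
      (.l 2338) (.l 1954)) (.c (.l 2338) (.l 1954))))) (.c (.c (.l 3234) (.l 2722)) (.a (.b (.c
      (.l 2338) (.l 1954)) (.c (.l 2338) (.l 1954))) (.b (.c (.l 2338) (.l 1954)) (.c (.l 2338)
      (.l 1954)))))))

theorem x2f_h29 : chk3 (onCell 0 1073741824 0 429496730 0 67108864 T2F) x2f_t29 8 22 3 = true := by decide +kernel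

def x2f_t30 : T :=
  (.a (.c (.b (.c (.l 3234) (.l 2722)) (.c (.l 3234) (.l 2722))) (.b (.a (.c (.l 2338) (.l 1954))
      (.c (.l 2338) (.l 1954))) (.c (.l 2338) (.l 1954)))) (.c (.c (.l 3234) (.l 2722)) (.b (.a
      (.c (.l 2338) (.l 1954)) (.c (.l 2338) (.l 1954))) (.c (.l 2338) (.l 1954)))))

theorem x2f_h30 : chk3 (onCell 0 1073741824 0 429496730 0 67108864 T2F) x2f_t30 8 23 3 = true := by decide +kernel

def x2f_t31 : T :=
  (.a (.c (.c (.l 3234) (.l 2722)) (.b (.a (.c (.l 2338) (.l 1954)) (.c (.l 2338) (.l 1954))) (.a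
      (.b (.c (.l 2338) (.l 1954)) (.c (.l 2338) (.l 1954))) (.b (.c (.l 2338) (.l 1954)) (.c (.l
      2338) (.l 1954)))))) (.c (.b (.c (.l 3234) (.l 2722)) (.c (.l 3234) (.l 2722))) (.b (.a (.c
      (.l 2338) (.l 1954)) (.c (.l 2338) (.l 1954))) (.a (.c (.l 2338) (.l 1954)) (.c (.l 2338)
      (.l 1954))))))

theorem x2f_h31 : chk3 (onCell 0 1073741824 0 429496730 0 67108864 T2F) x2f_t31 9 22 3 = true := by decide +kernel

def x2f_t32 : T :=
  (.a (.b (.c (.c (.l 3234) (.l 2722)) (.a (.b (.c (.l 2338) (.l 1954)) (.c (.l 2338) (.l 1954)))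
      (.b (.c (.l 2338) (.l 1954)) (.c (.l 2338) (.l 1954))))) (.c (.c (.l 3234) (.l 2722)) (.a
      (.c (.l 2338) (.l 1954)) (.b (.c (.l 2338) (.l 1954)) (.c (.l 2338) (.l 1954)))))) (.b (.c
      (.c (.l 3234) (.l 2722)) (.a (.b (.c (.l 2338) (.l 1954)) (.c (.l 2338) (.l 1954))) (.c (.l
      2338) (.l 1954)))) (.c (.c (.l 3234) (.l 2722)) (.a (.b (.c (.l 2338) (.l 1954)) (.c (.l
      2338) (.l 1954))) (.b (.c (.l 2338) (.l 1954)) (.c (.l 2338) (.l 1954)))))))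

theorem x2f_h32 : chk3 (onCell 0 1073741824 0 429496730 0 67108864 T2F) x2f_t32 9 23 3 = true := by decide +kernel

def x2f_t33 : T :=
  (.a (.c (.b (.c (.l 3234) (.l 2722)) (.c (.l 3234) (.a (.l 2722) (.l 2722)))) (.b (.c (.l 2338)
      (.a (.l 1954) (.l 1954))) (.c (.l 2338) (.a (.l 1954) (.l 1954))))) (.c (.c (.l 3234) (.a
      (.l 2722) (.l 2722))) (.b (.c (.l 2338) (.l 1954)) (.c (.l 2338) (.l 1954)))))

theorem x2f_h33 : chk3 (onCell 0 1073741824 0 429496730 0 67108864 T2F) x2f_t33 8 24 3 = true := by decide +kernel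

def x2f_t34 : T :=
  (.c (.a (.c (.l 3234) (.a (.b (.l 2722) (.l 34)) (.b (.l 2722) (.l 2722)))) (.c (.l 3234) (.a
      (.l 2722) (.l 2722)))) (.a (.c (.l 2338) (.a (.b (.a (.b (.l 1954) (.l 1954)) (.l 1954))
      (.a (.b (.a (.l 1954) (.l 1954)) (.a (.b (.l 1954) (.l 1954)) (.l 1954))) (.b (.l 1954) (.l
      1954)))) (.b (.l 1954) (.a (.l 1954) (.l 1954))))) (.b (.c (.l 2338) (.l 1954)) (.c (.l
      2338) (.a (.l 1954) (.l 1954))))))

theorem x2f_h34 : chk3 (onCell 0 1073741824 0 429496730 0 67108864 T2F) x2f_t34 8 25 3 = true := by decide +kernel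

def x2f_t35 : T :=
  (.b (.a (.c (.c (.l 3234) (.l 2722)) (.b (.a (.c (.l 2338) (.l 1954)) (.c (.l 2338) (.l 1954)))
      (.c (.l 2338) (.l 1954)))) (.c (.b (.c (.l 3234) (.l 2722)) (.c (.l 3234) (.l 2722))) (.b
      (.a (.b (.c (.l 2338) (.l 1954)) (.c (.l 2338) (.l 1954))) (.b (.c (.l 2338) (.l 1954)) (.c
      (.l 2338) (.l 1954)))) (.a (.c (.l 2338) (.l 1954)) (.b (.c (.l 2338) (.l 1954)) (.c (.l
      2338) (.l 1954))))))) (.c (.a (.c (.l 3234) (.l 2722)) (.c (.l 3234) (.l 2722))) (.a (.b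
      (.c (.l 2338) (.l 1954)) (.c (.l 2338) (.l 1954))) (.b (.a (.c (.l 2338) (.l 1954)) (.c (.l
      2338) (.l 1954))) (.c (.l 2338) (.l 1954))))))

theorem x2f_h35 : chk3 (onCell 0 1073741824 0 429496730 0 67108864 T2F) x2f_t35 9 12 3 = true := by decide +kernel

def x2f_t36 : T :=
  (.a (.b (.c (.l 3234) (.a (.b (.a (.l 34) (.l 2722)) (.a (.b (.l 34) (.l 34)) (.l 34))) (.c (.l
      2978) (.l 2722)))) (.a (.c (.l 3234) (.b (.a (.b (.l 34) (.a (.l 34) (.l 34))) (.b (.l 34)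
      (.l 34))) (.a (.b (.a (.b (.l 34) (.l 34)) (.l 34)) (.a (.c (.l 2978) (.l 2722)) (.c (.l
      2978) (.l 2722)))) (.b (.l 34) (.a (.l 34) (.l 34)))))) (.c (.l 3234) (.b (.a (.l 34) (.l
      2722)) (.a (.b (.l 34) (.l 34)) (.l 34)))))) (.b (.c (.l 3234) (.a (.b (.l 2722) (.l 2722))
      (.b (.l 2722) (.l 2722)))) (.c (.l 3234) (.a (.c (.l 2978) (.l 2722)) (.c (.l 2978) (.l
      2722))))))

theorem x2f_h36 : chk3 (onCell 0 1073741824 0 429496730 0 67108864 T2F) x2f_t36 8 13 6 = true := by decide +kernel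

def x2f_t37 : T :=
  (.l 2338)

theorem x2f_h37 : chk3 (onCell 0 1073741824 0 429496730 0 67108864 T2F) x2f_t37 16 26 14 = true := by decide +kernel

def x2f_t38 : T :=
  (.a (.a (.b (.a (.b (.a (.l 1954) (.l 1954)) (.a (.c (.l 2210) (.l 1954)) (.c (.l 2210) (.l
      1954)))) (.b (.l 1954) (.l 1954))) (.a (.b (.a (.c (.l 2210) (.l 1954)) (.c (.l 2210) (.l
      1954))) (.a (.c (.l 2210) (.l 1954)) (.c (.l 2210) (.l 1954)))) (.b (.a (.c (.l 2210) (.l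
      1954)) (.l 1954)) (.a (.c (.l 2210) (.l 1954)) (.c (.l 2210) (.l 1954)))))) (.b (.a (.l
      1954) (.l 1954)) (.a (.b (.l 1954) (.l 1954)) (.l 1954)))) (.a (.b (.l 1954) (.l 1954)) (.l
      1954)))

theorem x2f_h38 : chk3 (onCell 0 1073741824 0 429496730 0 67108864 T2F) x2f_t38 16 52 15 = true := by decide +kernel

def x2f_t39 : T :=
  (.c (.l 2210) (.l 1954))

theorem x2f_h39 : chk3 (onCell 0 1073741824 0 429496730 0 67108864 T2F) x2f_t39 32 53 15 = true := by decide +kernel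

def x2f_t40 : T :=
  (.a (.b (.a (.b (.l 1954) (.l 1954)) (.l 1954)) (.a (.b (.a (.b (.l 1954) (.l 1954)) (.l 1954))
      (.a (.b (.a (.b (.l 1954) (.c (.l 2210) (.l 1954))) (.b (.l 1954) (.l 1954))) (.a (.b (.c
      (.l 2210) (.l 1954)) (.c (.l 2210) (.l 1954))) (.b (.a (.c (.l 2210) (.l 1954)) (.c (.l
      2210) (.l 1954))) (.a (.c (.l 2210) (.l 1954)) (.c (.l 2210) (.l 1954)))))) (.b (.l 1954)
      (.a (.b (.l 1954) (.a (.c (.l 2210) (.l 1954)) (.c (.l 2210) (.l 1954)))) (.b (.l 1954) (.l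
      1954)))))) (.b (.l 1954) (.a (.b (.l 1954) (.a (.l 1954) (.l 1954))) (.l 1954))))) (.b (.l
      1954) (.a (.b (.l 1954) (.l 1954)) (.l 1954))))

theorem x2f_h40 : chk3 (onCell 0 1073741824 0 429496730 0 67108864 T2F) x2f_t40 33 53 15 = true := by decide +kernel

def x2f_t41 : T :=
  (.c (.l 2338) (.b (.a (.l 1954) (.l 1954)) (.a (.a (.b (.l 1954) (.l 1954)) (.c (.l 2210) (.l
      1954))) (.a (.l 1954) (.l 1954)))))

theorem x2f_h41 : chk3 (onCell 0 1073741824 0 429496730 0 67108864 T2F) x2f_t41 17 26 7 = true := by decide +kernel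

def x2f_t42 : T :=
  (.c (.a (.a (.l 2338) (.l 2338)) (.a (.l 2338) (.l 2338))) (.a (.b (.a (.c (.l 2210) (.l 1954))
      (.c (.l 2210) (.l 1954))) (.a (.c (.l 2210) (.l 1954)) (.c (.l 2210) (.l 1954)))) (.b (.a
      (.c (.l 2210) (.l 1954)) (.a (.c (.l 2210) (.l 1954)) (.b (.l 1954) (.l 1954)))) (.a (.c
      (.l 2210) (.l 1954)) (.b (.a (.c (.l 2210) (.l 1954)) (.c (.l 2210) (.l 1954))) (.a (.c (.l
      2210) (.l 1954)) (.c (.l 2210) (.l 1954))))))))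

theorem x2f_h42 : chk3 (onCell 0 1073741824 0 429496730 0 67108864 T2F) x2f_t42 8 27 7 = true := by decide +kernel

def x2f_t43 : T :=
  (.c (.b (.a (.c (.l 3234) (.l 2722)) (.c (.l 3234) (.l 2722))) (.a (.c (.l 3234) (.a (.l 2722)
      (.l 2722))) (.c (.l 3234) (.l 2722)))) (.b (.a (.c (.l 2338) (.a (.l 1954) (.l 1954))) (.b
      (.c (.l 2338) (.l 1954)) (.c (.l 2338) (.l 1954)))) (.a (.c (.a (.l 2338) (.l 2338)) (.b
      (.a (.l 1954) (.l 1954)) (.a (.c (.l 2210) (.l 1954)) (.l 1954)))) (.c (.l 2338) (.a (.l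
      1954) (.l 1954))))))

theorem x2f_h43 : chk3 (onCell 0 1073741824 0 429496730 0 67108864 T2F) x2f_t43 9 13 3 = true := by decide +kernel

def x2f_t44 : T :=
  (.a (.c (.l 27134004386) (.c (.l 2978) (.a (.b (.l 2722) (.l 34)) (.l 2722)))) (.c (.l 3234)
      (.c (.l 2978) (.l 2722))))

theorem x2f_h44 : chk3 (onCell 0 1073741824 0 429496730 0 67108864 T2F) x2f_t44 16 28 6 = true := by decide +kernel

def x2f_t45 : T :=
  (.c (.a (.a (.b (.l 34) (.l 290458786)) (.l 290458786)) (.l 34)) (.a (.b (.c (.l 2978) (.a (.a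
      (.b (.l 34) (.c (.l 2850) (.l 2722))) (.b (.l 2722) (.l 34))) (.a (.l 34) (.l 2722)))) (.a
      (.c (.l 2978) (.a (.c (.l 2850) (.l 2722)) (.b (.c (.l 2850) (.l 2722)) (.c (.l 2850) (.l
      2722))))) (.c (.l 2978) (.a (.b (.l 34) (.c (.l 2850) (.l 2722))) (.b (.l 2722) (.a (.l 34)
      (.l 2722))))))) (.b (.c (.l 2978) (.l 2722)) (.a (.c (.l 2978) (.a (.l 34) (.l 2722))) (.c
      (.l 2978) (.l 2722))))))

theorem x2f_h45 : chk3 (onCell 0 1073741824 0 429496730 0 67108864 T2F) x2f_t45 16 29 6 = true := by decide +kernel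

def x2f_t46 : T :=
  (.b (.c (.l 3234) (.a (.c (.l 2978) (.l 2722)) (.c (.l 2978) (.l 2722)))) (.c (.l 3234) (.a (.b
      (.c (.l 2978) (.l 2722)) (.a (.c (.l 2978) (.l 2722)) (.c (.l 2978) (.l 2722)))) (.b (.c
      (.l 2978) (.l 2722)) (.c (.l 2978) (.l 2722))))))

theorem x2f_h46 : chk3 (onCell 0 1073741824 0 429496730 0 67108864 T2F) x2f_t46 17 14 6 = true := by decide +kernel

end Pool.Agent.Strip051.LC.E1.V3
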