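import Pool.Agent.Strip051.LC.E1.V3.Rw
import Pool.Agent.Strip051.LC.E0.Ch.Cell

/-! # Rests near the full period: certificate Cf2_4 -/

set_option maxRecDepth 100000

namespace Pool.Agent.Strip051.LC.E1.V3

open Pool.Agent.Strip051.PB
open Pool.Agent.Strip051.LC.E0.Ch (onCell Tree)

def x2f_t47 : T :=
  (.c (.a (.a (.a (.b (.l 290458786) (.c (.l 3618) (.l 27134004386))) (.b (.l 290458786) (.l
      290458786))) (.b (.l 34) (.l 290458786))) (.l 290458786)) (.a (.b (.c (.l 2978) (.a (.c (.l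
      2850) (.l 2722)) (.c (.l 2850) (.l 2722)))) (.c (.l 2978) (.c (.l 2850) (.l 2722)))) (.b
      (.c (.l 2978) (.a (.a (.b (.a (.l 34) (.l 2722)) (.a (.c (.l 2850) (.l 2722)) (.c (.l 2850)
      (.l 2722)))) (.b (.l 2722) (.a (.l 34) (.l 2722)))) (.a (.b (.l 2722) (.l 2722)) (.l
      2722)))) (.c (.l 2978) (.a (.c (.l 2850) (.l 2722)) (.c (.l 2850) (.l 2722)))))))

theorem x2f_h47 : chk3 (onCell 0 1073741824 0 429496730 0 67108864 T2F) x2f_t47 16 30 6 = true := by decide +kernel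

def x2f_t48 : T :=
  (.c (.a (.a (.c (.l 3618) (.a (.l 290458786) (.l 27134004386))) (.a (.c (.l 3618) (.l
      27134004386)) (.c (.l 3618) (.l 34)))) (.a (.l 290458786) (.l 27134004386))) (.a (.c (.l
      2978) (.b (.c (.l 2850) (.l 2722)) (.c (.l 2850) (.l 2722)))) (.c (.l 2978) (.b (.c (.l
      2850) (.l 2722)) (.c (.l 2850) (.l 2722))))))

theorem x2f_h48 : chk3 (onCell 0 1073741824 0 429496730 0 67108864 T2F) x2f_t48 16 31 6 = true := by decide +kernel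

def x2f_t49 : T :=
  (.b (.c (.l 34) (.a (.b (.c (.l 2978) (.a (.l 2722) (.l 2722))) (.c (.l 2978) (.a (.c (.l 2850)
      (.l 2722)) (.l 2722)))) (.b (.a (.c (.l 2978) (.l 2722)) (.c (.l 2978) (.l 2722))) (.c (.l
      2978) (.c (.l 2850) (.l 2722)))))) (.c (.l 27134004386) (.a (.c (.l 2978) (.b (.a (.c (.l
      2850) (.l 2722)) (.c (.l 2850) (.l 2722))) (.c (.l 2850) (.l 2722)))) (.b (.c (.l 2978) (.c
      (.l 2850) (.l 2722))) (.c (.l 2978) (.c (.l 2850) (.l 2722)))))))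

theorem x2f_h49 : chk3 (onCell 0 1073741824 0 429496730 0 67108864 T2F) x2f_t49 17 15 6 = true := by decide +kernel

def x2f_t50 : T :=
  (.a (.b (.c (.l 3234) (.a (.c (.l 2978) (.l 2722)) (.l 2722))) (.c (.l 3234) (.a (.c (.l 2978)
      (.l 2722)) (.c (.l 2978) (.l 2722))))) (.b (.c (.l 3234) (.l 2722)) (.c (.l 3234) (.a (.c
      (.l 2978) (.l 2722)) (.c (.l 2978) (.l 2722))))))

theorem x2f_h50 : chk3 (onCell 0 1073741824 0 429496730 0 67108864 T2F) x2f_t50 9 14 6 = true := by decide +kernel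

def x2f_t51 : T :=
  (.b (.c (.l 3234) (.a (.b (.a (.c (.l 2978) (.l 2722)) (.c (.l 2978) (.l 2722))) (.a (.c (.l
      2978) (.l 2722)) (.c (.l 2978) (.l 2722)))) (.b (.c (.l 2978) (.l 2722)) (.a (.c (.l 2978)
      (.l 2722)) (.b (.c (.l 2978) (.l 2722)) (.c (.l 2978) (.l 2722))))))) (.c (.l 3234) (.a (.b
      (.c (.l 2978) (.c (.l 2850) (.l 2722))) (.c (.l 2978) (.c (.l 2850) (.l 2722)))) (.b (.a
      (.c (.l 2978) (.l 2722)) (.b (.c (.l 2978) (.l 2722)) (.c (.l 2978) (.l 2722)))) (.a (.c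
      (.l 2978) (.l 34)) (.c (.l 2978) (.l 2722)))))))

theorem x2f_h51 : chk3 (onCell 0 1073741824 0 429496730 0 67108864 T2F) x2f_t51 18 15 6 = true := by decide +kernel

def x2f_t52 : T :=
  (.b (.c (.l 3234) (.a (.b (.c (.l 2978) (.l 2722)) (.a (.b (.c (.l 2978) (.l 2722)) (.c (.l
      2978) (.l 2722))) (.c (.l 2978) (.l 2722)))) (.b (.c (.l 2978) (.l 2722)) (.c (.l 2978) (.l
      2722))))) (.c (.l 27134004386) (.a (.b (.a (.c (.l 2978) (.l 2722)) (.c (.l 2978) (.l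
      2722))) (.a (.c (.l 2978) (.l 2722)) (.c (.l 2978) (.l 2722)))) (.b (.c (.l 2978) (.l
      2722)) (.c (.l 2978) (.l 2722))))))

theorem x2f_h52 : chk3 (onCell 0 1073741824 0 429496730 0 67108864 T2F) x2f_t52 19 15 6 = true := by decide +kernel

def x2f_t53 : T :=
  (.b (.a (.c (.l 2466) (.l 34)) (.c (.l 2466) (.l 2338))) (.a (.c (.l 34) (.b (.l 34) (.a (.l
      34) (.l 34)))) (.c (.l 2466) (.b (.l 34) (.l 34)))))

theorem x2f_h53 : chk3 (onCell 0 1073741824 0 429496730 0 67108864 T2F) x2f_t53 8 14 14 = true := by decide +kernel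

def x2f_t54 : T :=
  (.a (.b (.c (.a (.b (.c (.l 2210) (.l 2210)) (.c (.l 2210) (.l 2210))) (.l 34)) (.a (.l 1954)
      (.l 1954))) (.c (.a (.c (.l 34) (.l 34)) (.b (.l 34) (.c (.l 2210) (.l 2210)))) (.a (.a (.l
      34) (.l 1954)) (.l 1954)))) (.b (.a (.c (.l 2210) (.l 1954)) (.a (.b (.c (.l 2210) (.l
      1954)) (.c (.l 2210) (.l 1954))) (.b (.c (.l 2210) (.l 1954)) (.c (.l 2210) (.l 1954)))))
      (.a (.c (.l 34) (.l 1954)) (.a (.b (.c (.l 2210) (.l 1954)) (.c (.l 2210) (.l 1954))) (.b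
      (.c (.l 2210) (.l 1954)) (.c (.l 2210) (.l 1954)))))))

theorem x2f_h54 : chk3 (onCell 0 1073741824 0 429496730 0 67108864 T2F) x2f_t54 8 28 15 = true := by decide +kernel

def x2f_t55 : T :=
  (.a (.c (.b (.a (.c (.l 34) (.l 34)) (.c (.l 34) (.l 34))) (.a (.c (.l 34) (.l 34)) (.c (.l 34)
      (.l 34)))) (.a (.b (.a (.b (.l 34) (.l 34)) (.l 34)) (.a (.b (.a (.l 34) (.l 34)) (.c (.l
      34) (.l 34))) (.l 34))) (.l 34))) (.b (.a (.c (.b (.l 34) (.l 34)) (.l 1954)) (.a (.b (.c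
      (.l 2210) (.l 1954)) (.c (.l 34) (.l 1954))) (.b (.c (.l 2210) (.l 1954)) (.c (.l 2210) (.l
      1954))))) (.c (.a (.c (.l 34) (.l 34)) (.l 34)) (.l 34))))

theorem x2f_h55 : chk3 (onCell 0 1073741824 0 429496730 0 67108864 T2F) x2f_t55 8 29 15 = true := by decide +kernel

def x2f_t56 : T :=
  (.a (.c (.b (.a (.l 2338) (.l 2338)) (.c (.l 2466) (.l 2338))) (.a (.b (.a (.b (.c (.l 2210)
      (.l 1954)) (.c (.l 2210) (.l 1954))) (.c (.l 2210) (.l 1954))) (.a (.b (.c (.l 2210) (.l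
      1954)) (.c (.l 2210) (.l 1954))) (.b (.c (.l 2210) (.l 1954)) (.c (.l 2210) (.l 1954)))))
      (.b (.c (.l 2210) (.l 1954)) (.a (.b (.l 1954) (.c (.l 2210) (.l 1954))) (.l 1954))))) (.c
      (.b (.l 2338) (.a (.l 2338) (.l 2338))) (.a (.b (.l 1954) (.l 1954)) (.l 1954))))

theorem x2f_h56 : chk3 (onCell 0 1073741824 0 429496730 0 67108864 T2F) x2f_t56 9 28 7 = true := by decide +kernel

def x2f_t57 : T :=
  (.c (.a (.c (.l 2466) (.l 34)) (.b (.a (.c (.l 2466) (.l 2338)) (.l 2338)) (.c (.l 2466) (.l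
      2338)))) (.a (.a (.b (.a (.b (.c (.l 2210) (.l 1954)) (.c (.l 2210) (.l 1954))) (.b (.c (.l
      2210) (.l 1954)) (.c (.l 2210) (.l 1954)))) (.a (.c (.l 2210) (.l 1954)) (.c (.l 2210) (.l
      1954)))) (.b (.a (.c (.l 2210) (.l 1954)) (.c (.l 2210) (.l 1954))) (.c (.l 2210) (.l
      1954)))) (.a (.b (.c (.l 2210) (.l 1954)) (.c (.l 2210) (.l 1954))) (.b (.l 34) (.c (.l
      2210) (.l 1954))))))

theorem x2f_h57 : chk3 (onCell 0 1073741824 0 429496730 0 67108864 T2F) x2f_t57 9 29 7 = true := by decide +kernel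

def x2f_t58 : T :=
  (.c (.b (.a (.c (.l 34) (.l 34)) (.l 34)) (.a (.c (.l 34) (.a (.l 34) (.l 34))) (.l 34))) (.b
      (.a (.c (.l 34) (.b (.a (.l 34) (.l 34)) (.a (.l 34) (.l 34)))) (.b (.a (.l 34) (.l 34))
      (.a (.l 34) (.l 34)))) (.a (.c (.b (.l 34) (.l 34)) (.b (.a (.l 34) (.l 34)) (.a (.l 34)
      (.l 34)))) (.a (.c (.l 34) (.l 34)) (.b (.l 34) (.c (.l 34) (.l 34)))))))

theorem x2f_h58 : chk3 (onCell 0 1073741824 0 429496730 0 67108864 T2F) x2f_t58 8 15 14 = true := by decide +kernel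

def x2f_t59 : T :=
  (.c (.a (.b (.c (.b (.a (.l 34) (.l 34)) (.a (.a (.l 34) (.l 34)) (.l 34))) (.l 34)) (.c (.b
      (.a (.c (.l 34) (.l 34)) (.l 34)) (.a (.c (.l 34) (.a (.l 34) (.l 34))) (.a (.l 34) (.l
      34)))) (.a (.l 34) (.l 34)))) (.b (.c (.l 34) (.l 34)) (.c (.l 34) (.l 34)))) (.a (.b (.a
      (.b (.c (.l 34) (.l 34)) (.c (.l 34) (.l 34))) (.l 34)) (.a (.c (.l 34) (.a (.a (.l 34) (.l
      34)) (.l 34))) (.a (.a (.l 34) (.l 34)) (.l 34)))) (.b (.l 34) (.l 34))))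

theorem x2f_h59 : chk3 (onCell 0 1073741824 0 429496730 0 67108864 T2F) x2f_t59 16 30 15 = true := by decide +kernel

def x2f_t60 : T :=
  (.c (.a (.c (.l 34) (.b (.a (.a (.l 34) (.l 34)) (.l 34)) (.a (.a (.a (.b (.l 34) (.a (.b (.l
      34) (.a (.b (.l 34) (.a (.l 34) (.l 34))) (.l 34))) (.l 34))) (.b (.l 34) (.l 34))) (.l
      34)) (.l 34)))) (.b (.c (.l 34) (.l 34)) (.c (.l 34) (.l 34)))) (.a (.l 34) (.l 34)))

theorem x2f_h60 : chk3 (onCell 0 1073741824 0 429496730 0 67108864 T2F) x2f_t60 32 62 30 = true := by decide +kernel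

def x2f_t61 : T :=
  (.a (.l 34) (.l 34))

theorem x2f_h61 : chk3 (onCell 0 1073741824 0 429496730 0 67108864 T2F) x2f_t61 32 63 120 = true := by decide +kernel

def x2f_t62 : T :=
  (.a (.b (.a (.b (.c (.l 34) (.l 34)) (.c (.l 34) (.l 34))) (.b (.l 34) (.c (.l 34) (.l 34))))
      (.a (.b (.c (.l 34) (.l 34)) (.c (.l 34) (.l 34))) (.b (.c (.l 34) (.l 34)) (.c (.l 34) (.l
      34))))) (.b (.a (.l 34) (.l 34)) (.a (.b (.a (.c (.l 34) (.l 34)) (.l 34)) (.a (.c (.l 34)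
      (.l 34)) (.b (.l 34) (.c (.l 34) (.l 34))))) (.b (.l 34) (.a (.b (.l 34) (.l 34)) (.l
      34))))))

theorem x2f_h62 : chk3 (onCell 0 1073741824 0 429496730 0 67108864 T2F) x2f_t62 1024 504 121 = true := by decide +kernel

def x2f_t63 : T :=
  (.b (.a (.b (.c (.l 34) (.l 34)) (.c (.l 34) (.l 34))) (.b (.c (.l 34) (.l 34)) (.c (.l 34) (.l
      34)))) (.a (.b (.c (.l 34) (.l 34)) (.c (.l 34) (.l 34))) (.b (.c (.l 34) (.l 34)) (.c (.l
      34) (.l 34)))))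

theorem x2f_h63 : chk3 (onCell 0 1073741824 0 429496730 0 67108864 T2F) x2f_t63 2048 505 121 = true := by decide +kernel

end Pool.Agent.Strip051.LC.E1.V3
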