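import Pool.Agent.Strip051.LC.E1.V3.Rw
import Pool.Agent.Strip051.LC.E0.Ch.Cell

/-! # Rests near the full period: certificate Cf2_5 -/

set_option maxRecDepth 100000

namespace Pool.Agent.Strip051.LC.E1.V3

open Pool.Agent.Strip051.PB
open Pool.Agent.Strip051.LC.E0.Ch (onCell Tree)

def x2f_t64 : T :=
  (.a (.b (.a (.c (.l 34) (.l 34)) (.b (.c (.l 34) (.l 34)) (.c (.l 34) (.l 34)))) (.a (.c (.l
      34) (.l 34)) (.b (.c (.l 34) (.l 34)) (.c (.l 34) (.l 34))))) (.b (.a (.b (.c (.l 34) (.l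
      34)) (.c (.l 34) (.l 34))) (.b (.c (.l 34) (.l 34)) (.c (.l 34) (.l 34)))) (.a (.b (.c (.l
      34) (.l 34)) (.c (.l 34) (.l 34))) (.b (.c (.l 34) (.l 34)) (.c (.l 34) (.l 34))))))

theorem x2f_h64 : chk3 (onCell 0 1073741824 0 429496730 0 67108864 T2F) x2f_t64 2049 1010 121 = true := by decide +kernel

def x2f_t65 : T :=
  (.a (.b (.a (.c (.l 34) (.l 34)) (.b (.c (.l 34) (.l 34)) (.c (.l 34) (.l 34)))) (.a (.c (.l
      34) (.l 34)) (.b (.c (.l 34) (.l 34)) (.c (.l 34) (.l 34))))) (.b (.a (.b (.c (.l 34) (.l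
      34)) (.c (.l 34) (.l 34))) (.b (.c (.l 34) (.l 34)) (.c (.l 34) (.l 34)))) (.a (.b (.c (.l
      34) (.l 34)) (.c (.l 34) (.l 34))) (.c (.l 34) (.l 34)))))

theorem x2f_h65 : chk3 (onCell 0 1073741824 0 429496730 0 67108864 T2F) x2f_t65 2049 1011 121 = true := by decide +kernel

def x2f_t66 : T :=
  (.b (.a (.b (.l 34) (.a (.l 34) (.l 34))) (.l 34)) (.a (.b (.a (.b (.a (.c (.l 34) (.l 34)) (.l
      34)) (.a (.c (.l 34) (.l 34)) (.c (.l 34) (.l 34)))) (.b (.l 34) (.c (.l 34) (.l 34)))) (.a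
      (.b (.a (.c (.l 34) (.l 34)) (.c (.l 34) (.l 34))) (.a (.c (.l 34) (.l 34)) (.c (.l 34) (.l
      34)))) (.b (.c (.l 34) (.l 34)) (.c (.l 34) (.l 34))))) (.b (.a (.c (.l 34) (.l 34)) (.l
      34)) (.a (.c (.l 34) (.l 34)) (.c (.l 34) (.l 34))))))

theorem x2f_h66 : chk3 (onCell 0 1073741824 0 429496730 0 67108864 T2F) x2f_t66 1025 252 121 = true := by decide +kernel

def x2f_t67 : T :=
  (.a (.b (.l 34) (.a (.b (.l 34) (.c (.l 34) (.l 34))) (.b (.l 34) (.l 34)))) (.b (.l 34) (.a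
      (.l 34) (.l 34))))

theorem x2f_h67 : chk3 (onCell 0 1073741824 0 429496730 0 67108864 T2F) x2f_t67 513 252 121 = true := by decide +kernel

def x2f_t68 : T :=
  (.a (.a (.l 34) (.l 34)) (.l 34))

theorem x2f_h68 : chk3 (onCell 0 1073741824 0 429496730 0 67108864 T2F) x2f_t68 257 252 121 = true := by decide +kernel

def x2f_t69 : T :=
  (.c (.l 34) (.l 34))

theorem x2f_h69 : chk3 (onCell 0 1073741824 0 429496730 0 67108864 T2F) x2f_t69 128 253 121 = true := by decide +kernel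

def x2f_t70 : T :=
  (.a (.l 34) (.l 34))

theorem x2f_h70 : chk3 (onCell 0 1073741824 0 429496730 0 67108864 T2F) x2f_t70 129 126 121 = true := by decide +kernel

def x2f_t71 : T :=
  (.a (.c (.l 34) (.l 34)) (.a (.a (.b (.l 34) (.c (.l 34) (.l 34))) (.c (.l 34) (.l 34))) (.l
      34)))

theorem x2f_h71 : chk3 (onCell 0 1073741824 0 429496730 0 67108864 T2F) x2f_t71 64 127 121 = true := by decide +kernel

def x2f_t72 : T :=
  (.a (.a (.l 34) (.l 34)) (.l 34))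

theorem x2f_h72 : chk3 (onCell 0 1073741824 0 429496730 0 67108864 T2F) x2f_t72 65 63 121 = true := by decide +kernel

def x2f_t73 : T :=
  (.a (.l 34) (.l 34))

theorem x2f_h73 : chk3 (onCell 0 1073741824 0 429496730 0 67108864 T2F) x2f_t73 32 63 61 = true := by decide +kernel

def x2f_t74 : T :=
  (.b (.c (.a (.l 34) (.l 34)) (.l 34)) (.c (.a (.b (.a (.l 34) (.l 34)) (.a (.c (.l 34) (.l 34))
      (.l 34))) (.c (.l 34) (.l 34))) (.l 34)))

theorem x2f_h74 : chk3 (onCell 0 1073741824 0 429496730 0 67108864 T2F) x2f_t74 33 31 30 = true := by decide +kernel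

def x2f_t75 : T :=
  (.a (.b (.a (.c (.l 34) (.a (.a (.l 34) (.l 34)) (.l 34))) (.c (.l 34) (.l 34))) (.a (.c (.l
      34) (.a (.a (.l 34) (.l 34)) (.l 34))) (.c (.l 34) (.l 34)))) (.b (.l 34) (.l 34)))

theorem x2f_h75 : chk3 (onCell 0 1073741824 0 429496730 0 67108864 T2F) x2f_t75 16 31 31 = true := by decide +kernel

def x2f_t76 : T :=
  (.b (.c (.a (.b (.c (.l 34) (.l 34)) (.c (.l 34) (.l 34))) (.b (.a (.l 34) (.l 34)) (.a (.b (.l
      34) (.c (.l 34) (.l 34))) (.l 34)))) (.a (.l 34) (.l 34))) (.c (.a (.b (.c (.l 34) (.l 34))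
      (.c (.l 34) (.l 34))) (.b (.a (.b (.a (.c (.l 34) (.l 34)) (.l 34)) (.a (.c (.l 34) (.l
      34)) (.l 34))) (.l 34)) (.a (.b (.a (.c (.l 34) (.l 34)) (.c (.l 34) (.l 34))) (.c (.l 34)
      (.l 34))) (.b (.l 34) (.c (.l 34) (.l 34)))))) (.a (.l 34) (.l 34))))

theorem x2f_h76 : chk3 (onCell 0 1073741824 0 429496730 0 67108864 T2F) x2f_t76 17 15 15 = true := by decide +kernel

def x2f_t77 : T :=
  (.c (.b (.a (.c (.l 34) (.l 34)) (.c (.l 2466) (.l 34))) (.a (.c (.a (.l 34) (.l 34)) (.a (.l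
      34) (.l 34))) (.c (.l 34) (.l 34)))) (.a (.b (.a (.b (.c (.l 34) (.l 1954)) (.c (.l 34) (.l
      34))) (.b (.c (.l 34) (.l 1954)) (.c (.l 34) (.l 1954)))) (.a (.c (.b (.l 34) (.c (.l 34)
      (.l 34))) (.l 34)) (.c (.l 34) (.l 34)))) (.b (.a (.b (.c (.l 2210) (.l 1954)) (.c (.l 34)
      (.l 1954))) (.b (.c (.l 2210) (.l 1954)) (.c (.l 2210) (.l 1954)))) (.a (.c (.l 34) (.l
      34)) (.c (.l 34) (.l 1954))))))

theorem x2f_h77 : chk3 (onCell 0 1073741824 0 429496730 0 67108864 T2F) x2f_t77 9 15 7 = true := by decide +kernel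

def x2f_t78 : T :=
  (.a (.b (.a (.c (.c (.l 3618) (.l 34)) (.c (.l 34) (.l 34))) (.c (.c (.l 3618) (.l 34)) (.c (.l
      34) (.l 34)))) (.a (.c (.c (.l 3618) (.l 3234)) (.a (.c (.l 2978) (.l 34)) (.c (.l 2978)
      (.l 34)))) (.c (.c (.l 3618) (.l 34)) (.c (.l 34) (.l 34))))) (.c (.a (.a (.c (.l 34) (.l
      34)) (.c (.l 34) (.l 34))) (.c (.l 34) (.l 34))) (.c (.a (.l 34) (.b (.a (.l 34) (.l 34))
      (.l 34))) (.a (.a (.l 34) (.l 34)) (.b (.a (.l 34) (.l 34)) (.l 34))))))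

theorem x2f_h78 : chk3 (onCell 0 1073741824 0 429496730 0 67108864 T2F) x2f_t78 5 16 6 = true := by decide +kernel

def x2f_t79 : T :=
  (.c (.a (.c (.a (.l 34) (.l 34)) (.l 34)) (.a (.b (.c (.l 34) (.l 34)) (.c (.l 34) (.l 34)))
      (.b (.c (.l 34) (.l 34)) (.a (.c (.l 34) (.l 34)) (.c (.l 34) (.l 34)))))) (.a (.a (.c (.l
      34) (.l 34)) (.c (.l 34) (.l 34))) (.a (.c (.l 34) (.l 34)) (.b (.c (.a (.l 34) (.l 15))
      (.l 34)) (.a (.c (.l 34) (.l 34)) (.l 15))))))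

theorem x2f_h79 : chk3 (onCell 0 1073741824 0 429496730 0 67108864 T2F) x2f_t79 5 16 7 = true := by decide +kernel

def x2f_t80 : T :=
  (.a (.b (.a (.c (.c (.l 3618) (.l 3234)) (.a (.c (.l 2978) (.l 34)) (.c (.l 2978) (.l 34))))
      (.c (.c (.l 3618) (.l 3234)) (.c (.l 34) (.l 34)))) (.a (.c (.l 34) (.a (.c (.l 2978) (.l
      34)) (.c (.l 2978) (.l 34)))) (.c (.c (.l 3618) (.l 3234)) (.c (.l 34) (.l 34))))) (.c (.a
      (.a (.c (.l 3618) (.l 3234)) (.c (.l 3618) (.l 34))) (.c (.l 34) (.l 34))) (.a (.c (.l 34)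
      (.l 34)) (.b (.a (.c (.l 34) (.l 34)) (.c (.l 34) (.l 34))) (.a (.c (.l 34) (.l 34)) (.c
      (.l 34) (.l 34)))))))

theorem x2f_h80 : chk3 (onCell 0 1073741824 0 429496730 0 67108864 T2F) x2f_t80 5 17 6 = true := by decide +kernel

def x2f_t81 : T :=
  (.a (.c (.c (.l 34) (.l 34)) (.a (.c (.l 34) (.l 34)) (.c (.l 34) (.l 34)))) (.c (.a (.b (.c
      (.l 34) (.l 34)) (.c (.l 34) (.l 34))) (.b (.a (.c (.l 34) (.l 34)) (.c (.l 34) (.l 34)))
      (.a (.c (.l 34) (.l 34)) (.c (.l 34) (.l 34))))) (.a (.c (.l 34) (.l 34)) (.a (.b (.c (.l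
      34) (.l 34)) (.c (.l 34) (.l 34))) (.l 15)))))

theorem x2f_h81 : chk3 (onCell 0 1073741824 0 429496730 0 67108864 T2F) x2f_t81 5 17 7 = true := by decide +kernel

def x2f_t82 : T :=
  (.a (.b (.a (.c (.l 34) (.a (.l 34) (.c (.l 2978) (.l 34)))) (.c (.c (.l 3618) (.l 3234)) (.c
      (.l 34) (.l 34)))) (.a (.c (.l 34) (.a (.l 34) (.c (.l 2978) (.l 34)))) (.c (.a (.l 34) (.c
      (.l 3618) (.l 3234))) (.c (.l 2978) (.l 34))))) (.c (.a (.a (.c (.l 3618) (.l 3234)) (.c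
      (.l 3618) (.l 3234))) (.c (.l 34) (.l 34))) (.a (.c (.l 34) (.l 34)) (.b (.a (.c (.l 34)
      (.l 34)) (.c (.l 34) (.l 34))) (.a (.c (.l 34) (.l 34)) (.c (.l 34) (.l 34)))))))

theorem x2f_h82 : chk3 (onCell 0 1073741824 0 429496730 0 67108864 T2F) x2f_t82 5 18 6 = true := by decide +kernel

def x2f_t83 : T :=
  (.a (.b (.c (.a (.l 34) (.a (.l 34) (.l 34))) (.a (.a (.l 34) (.l 34)) (.c (.l 34) (.l 1954))))
      (.c (.a (.l 34) (.l 34)) (.a (.l 34) (.c (.l 34) (.l 1954))))) (.c (.a (.b (.a (.l 34) (.l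
      34)) (.a (.l 34) (.l 34))) (.b (.a (.c (.l 34) (.l 34)) (.c (.l 34) (.l 34))) (.a (.c (.l
      34) (.l 34)) (.c (.l 34) (.l 34))))) (.a (.a (.c (.l 34) (.l 1954)) (.c (.l 34) (.l 34)))
      (.a (.b (.c (.l 34) (.l 34)) (.c (.l 34) (.l 1954))) (.l 15)))))

theorem x2f_h83 : chk3 (onCell 0 1073741824 0 429496730 0 67108864 T2F) x2f_t83 5 18 7 = true := by decide +kernel

def x2f_t84 : T :=
  (.a (.a (.b (.c (.l 34) (.a (.l 34) (.c (.l 2978) (.l 2722)))) (.c (.l 3234) (.a (.l 34) (.c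
      (.l 2978) (.l 2722))))) (.b (.c (.a (.l 34) (.c (.l 3618) (.l 3234))) (.c (.l 2978) (.l
      34))) (.c (.a (.l 34) (.l 34)) (.c (.l 2978) (.l 34))))) (.c (.a (.a (.c (.l 3618) (.l
      3234)) (.l 290455586)) (.c (.l 3618) (.l 3234))) (.a (.a (.c (.l 2978) (.l 34)) (.b (.c (.l
      2978) (.l 34)) (.c (.l 2978) (.l 2722)))) (.a (.b (.c (.l 34) (.l 34)) (.c (.l 2978) (.l
      34))) (.b (.c (.l 34) (.l 34)) (.c (.l 2978) (.l 34)))))))

theorem x2f_h84 : chk3 (onCell 0 1073741824 0 429496730 0 67108864 T2F) x2f_t84 5 19 6 = true := by decide +kernel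

end Pool.Agent.Strip051.LC.E1.V3
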