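import Pool.Agent.Strip051.LC.E1.V3.Rw
import Pool.Agent.Strip051.LC.E0.Ch.Cell

/-! # Rests near the full period: certificate Cf2_6 -/

set_option maxRecDepth 100000

namespace Pool.Agent.Strip051.LC.E1.V3

open Pool.Agent.Strip051.PB
open Pool.Agent.Strip051.LC.E0.Ch (onCell Tree)

def x2f_t85 : T :=
  (.a (.b (.c (.a (.l 34) (.l 34)) (.a (.l 34) (.c (.l 34) (.l 1954)))) (.a (.c (.l 34) (.l 34))
      (.c (.l 34) (.a (.l 34) (.l 34))))) (.c (.a (.b (.a (.l 34) (.l 34)) (.a (.l 34) (.l 34)))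
      (.b (.a (.l 34) (.c (.l 34) (.l 34))) (.a (.l 34) (.c (.l 2466) (.l 34))))) (.a (.a (.c (.l
      34) (.l 1954)) (.c (.l 34) (.l 1954))) (.a (.b (.c (.l 34) (.l 1954)) (.c (.l 2210) (.l
      1954))) (.l 15)))))

theorem x2f_h85 : chk3 (onCell 0 1073741824 0 429496730 0 67108864 T2F) x2f_t85 5 19 7 = true := by decide +kernel

def x2f_t86 : T :=
  (.a (.a (.b (.c (.l 3234) (.a (.l 34) (.c (.l 2978) (.l 2722)))) (.c (.l 3234) (.a (.l 34) (.c
      (.l 2978) (.l 2722))))) (.b (.c (.a (.l 3234) (.l 34)) (.c (.l 2978) (.l 2722))) (.c (.l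
      66) (.a (.c (.l 2978) (.l 2722)) (.c (.l 2978) (.l 2722)))))) (.c (.a (.a (.c (.l 3618) (.l
      3234)) (.l 34)) (.c (.l 3618) (.l 3234))) (.a (.a (.c (.l 2978) (.l 2722)) (.b (.c (.l
      2978) (.l 2722)) (.c (.l 2978) (.l 2722)))) (.a (.b (.c (.l 2978) (.l 2722)) (.c (.l 2978)
      (.l 2722))) (.b (.c (.l 2978) (.l 34)) (.c (.l 2978) (.l 2722)))))))

theorem x2f_h86 : chk3 (onCell 0 1073741824 0 429496730 0 67108864 T2F) x2f_t86 5 20 6 = true := by decide +kernel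

def x2f_t87 : T :=
  (.a (.b (.a (.c (.l 34) (.l 34)) (.c (.l 34) (.a (.l 34) (.l 34)))) (.a (.c (.l 34) (.l 34))
      (.c (.l 34) (.a (.l 34) (.l 34))))) (.c (.a (.a (.l 34) (.l 34)) (.a (.b (.l 34) (.l 34))
      (.b (.c (.l 2466) (.l 2338)) (.c (.l 2466) (.l 2338))))) (.a (.a (.b (.c (.l 2210) (.l
      1954)) (.l 34)) (.b (.c (.l 2210) (.l 1954)) (.c (.l 2210) (.l 1954)))) (.a (.b (.c (.l
      2210) (.l 1954)) (.c (.l 2210) (.l 1954))) (.l 15)))))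

theorem x2f_h87 : chk3 (onCell 0 1073741824 0 429496730 0 67108864 T2F) x2f_t87 5 20 7 = true := by decide +kernel

def x2f_t88 : T :=
  (.a (.a (.b (.c (.l 3234) (.l 34)) (.c (.l 3234) (.l 34))) (.b (.c (.l 66) (.a (.c (.l 2978)
      (.l 2722)) (.c (.l 2978) (.l 2722)))) (.c (.l 3266) (.a (.c (.l 2978) (.l 2722)) (.c (.l
      2978) (.l 2722)))))) (.c (.a (.a (.l 34) (.l 3234)) (.a (.l 3234) (.l 34))) (.a (.a (.c (.l
      2978) (.l 2722)) (.b (.c (.l 2978) (.l 2722)) (.c (.l 2978) (.l 2722)))) (.a (.b (.c (.l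
      2978) (.l 2722)) (.c (.l 2978) (.l 2722))) (.b (.c (.l 2978) (.l 2722)) (.c (.l 2978) (.l
      2722)))))))

theorem x2f_h88 : chk3 (onCell 0 1073741824 0 429496730 0 67108864 T2F) x2f_t88 5 21 6 = true := by decide +kernel

def x2f_t89 : T :=
  (.a (.b (.a (.c (.l 34) (.l 34)) (.c (.l 34) (.a (.l 34) (.l 34)))) (.a (.c (.l 2338) (.l 34))
      (.c (.l 2338) (.a (.l 1954) (.l 34))))) (.b (.c (.a (.l 34) (.a (.l 34) (.c (.l 2466) (.l
      2338)))) (.a (.a (.l 34) (.c (.l 2210) (.l 1954))) (.a (.c (.l 2210) (.l 1954)) (.l 15))))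
      (.a (.c (.l 34) (.a (.l 34) (.l 34))) (.c (.a (.l 34) (.c (.l 2466) (.l 2338))) (.a (.a (.l
      34) (.c (.l 2210) (.l 15))) (.l 15))))))

theorem x2f_h89 : chk3 (onCell 0 1073741824 0 429496730 0 67108864 T2F) x2f_t89 5 21 7 = true := by decide +kernel

def x2f_t90 : T :=
  (.c (.a (.b (.c (.l 3234) (.l 34)) (.c (.l 3234) (.l 2722))) (.b (.c (.l 3266) (.a (.c (.l
      2978) (.l 2722)) (.c (.l 2978) (.l 2722)))) (.c (.l 3266) (.a (.c (.l 2978) (.l 2722)) (.c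
      (.l 2978) (.l 2722)))))) (.a (.b (.c (.l 2338) (.l 1954)) (.c (.l 2338) (.l 1954))) (.b (.c
      (.l 2338) (.a (.l 1954) (.l 1954))) (.a (.c (.l 2338) (.l 1954)) (.c (.l 2338) (.l
      1954))))))

theorem x2f_h90 : chk3 (onCell 0 1073741824 0 429496730 0 67108864 T2F) x2f_t90 10 22 3 = true := by decide +kernel

def x2f_t91 : T :=
  (.a (.b (.c (.a (.l 3234) (.l 3234)) (.a (.c (.l 2978) (.l 2722)) (.c (.l 2978) (.l 2722))))
      (.c (.a (.l 3234) (.l 3234)) (.a (.c (.l 2978) (.l 2722)) (.c (.l 2978) (.l 2722))))) (.c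
      (.a (.l 3234) (.l 3234)) (.a (.b (.c (.l 2978) (.l 2722)) (.c (.l 2978) (.l 2722))) (.b (.a
      (.c (.l 2978) (.l 2722)) (.c (.l 2978) (.l 2722))) (.a (.c (.l 2978) (.l 2722)) (.c (.l
      2978) (.l 2722)))))))

theorem x2f_h91 : chk3 (onCell 0 1073741824 0 429496730 0 67108864 T2F) x2f_t91 11 22 6 = true := by decide +kernel

def x2f_t92 : T :=
  (.a (.b (.c (.l 34) (.a (.l 34) (.l 34))) (.c (.l 2338) (.a (.l 1954) (.l 1954)))) (.b (.c (.a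
      (.l 2338) (.a (.l 2338) (.l 34))) (.a (.a (.l 1954) (.l 1954)) (.l 15))) (.c (.a (.l 2338)
      (.c (.l 2466) (.l 2338))) (.a (.c (.l 2210) (.l 1954)) (.l 15)))))

theorem x2f_h92 : chk3 (onCell 0 1073741824 0 429496730 0 67108864 T2F) x2f_t92 11 22 7 = true := by decide +kernel

def x2f_t93 : T :=
  (.c (.a (.b (.c (.l 3234) (.l 2722)) (.c (.l 3234) (.l 2722))) (.b (.a (.c (.l 3266) (.l 34))
      (.c (.l 3266) (.c (.l 2978) (.l 2722)))) (.a (.c (.l 3234) (.l 2722)) (.c (.l 3234) (.l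
      34))))) (.a (.b (.a (.c (.l 2338) (.l 1954)) (.c (.l 2338) (.l 1954))) (.a (.b (.c (.l
      2338) (.l 1954)) (.c (.l 2338) (.l 1954))) (.c (.l 2338) (.l 1954)))) (.b (.a (.c (.l 2338)
      (.l 1954)) (.c (.l 2338) (.l 1954))) (.a (.c (.l 2338) (.l 1954)) (.c (.l 2338) (.l
      1954))))))

theorem x2f_h93 : chk3 (onCell 0 1073741824 0 429496730 0 67108864 T2F) x2f_t93 10 23 3 = true := by decide +kernel

def x2f_t94 : T :=
  (.a (.b (.c (.l 3234) (.a (.c (.l 2978) (.l 2722)) (.c (.l 2978) (.l 2722)))) (.c (.l 3234) (.a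
      (.c (.l 2978) (.l 2722)) (.c (.l 2978) (.l 2722))))) (.c (.a (.l 3234) (.l 3234)) (.a (.b
      (.c (.l 2978) (.l 2722)) (.a (.l 34) (.l 34))) (.b (.a (.c (.l 2978) (.l 2722)) (.c (.l
      2978) (.l 2722))) (.a (.l 34) (.c (.l 2978) (.l 2722)))))))

theorem x2f_h94 : chk3 (onCell 0 1073741824 0 429496730 0 67108864 T2F) x2f_t94 11 23 6 = true := by decide +kernel

def x2f_t95 : T :=
  (.a (.b (.c (.l 2338) (.a (.l 1954) (.l 1954))) (.a (.b (.c (.l 2338) (.l 1954)) (.c (.l 2338)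
      (.l 1954))) (.c (.l 2338) (.l 1954)))) (.b (.c (.a (.l 2338) (.l 34)) (.a (.c (.l 2210) (.l
      1954)) (.l 15))) (.c (.a (.l 2338) (.l 2338)) (.a (.c (.l 2210) (.l 1954)) (.l 15)))))

theorem x2f_h95 : chk3 (onCell 0 1073741824 0 429496730 0 67108864 T2F) x2f_t95 11 23 7 = true := by decide +kernel

def x2f_t96 : T :=
  (.c (.a (.b (.c (.l 3234) (.l 2722)) (.c (.l 3234) (.l 2722))) (.b (.a (.c (.l 3234) (.l 2722))
      (.c (.l 3234) (.l 2722))) (.a (.c (.l 3234) (.l 2722)) (.c (.l 3234) (.l 2722))))) (.a (.b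
      (.a (.b (.c (.l 2338) (.l 1954)) (.c (.l 2338) (.l 1954))) (.b (.c (.l 2338) (.l 1954)) (.c
      (.l 2338) (.l 1954)))) (.a (.b (.c (.l 2338) (.l 1954)) (.c (.l 2338) (.l 1954))) (.b (.c
      (.l 2338) (.l 1954)) (.c (.l 2338) (.l 1954))))) (.b (.a (.c (.l 2338) (.l 1954)) (.c (.l
      2338) (.l 1954))) (.a (.b (.c (.l 2338) (.l 1954)) (.c (.l 2338) (.l 1954))) (.b (.c (.l
      2338) (.l 1954)) (.c (.l 2338) (.l 1954)))))))

theorem x2f_h96 : chk3 (onCell 0 1073741824 0 429496730 0 67108864 T2F) x2f_t96 10 24 3 = true := by decide +kernel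

def x2f_t97 : T :=
  (.c (.a (.c (.l 3234) (.a (.c (.l 2978) (.l 2722)) (.c (.l 2978) (.l 2722)))) (.c (.l 3234) (.a
      (.a (.l 2722) (.l 2722)) (.a (.l 2722) (.l 2722))))) (.a (.a (.b (.c (.l 2338) (.l 1954))
      (.c (.l 2338) (.l 1954))) (.b (.c (.l 2338) (.l 1954)) (.c (.l 2338) (.l 1954)))) (.c (.a
      (.l 2338) (.l 2338)) (.a (.c (.l 2210) (.l 1954)) (.l 15)))))

theorem x2f_h97 : chk3 (onCell 0 1073741824 0 429496730 0 67108864 T2F) x2f_t97 11 48 3 = true := by decide +kernel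

def x2f_t98 : T :=
  (.c (.a (.c (.l 3234) (.a (.l 2722) (.a (.l 2722) (.l 2722)))) (.c (.l 3234) (.a (.a (.l 2722)
      (.l 2722)) (.a (.l 2722) (.l 2722))))) (.a (.a (.b (.c (.l 2338) (.l 1954)) (.c (.l 2338)
      (.l 1954))) (.b (.c (.l 2338) (.l 1954)) (.c (.l 2338) (.l 1954)))) (.a (.b (.c (.l 2338)
      (.l 1954)) (.c (.l 2338) (.l 1954))) (.b (.c (.l 2338) (.l 15)) (.c (.l 2338) (.l 15))))))

theorem x2f_h98 : chk3 (onCell 0 1073741824 0 429496730 0 67108864 T2F) x2f_t98 11 49 3 = true := by decide +kernel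

def x2f_t99 : T :=
  (.a (.c (.b (.c (.l 3234) (.l 2722)) (.c (.l 3234) (.l 2722))) (.b (.a (.b (.c (.l 2338) (.l
      1954)) (.c (.l 2338) (.l 1954))) (.b (.c (.l 2338) (.l 1954)) (.c (.l 2338) (.l 1954))))
      (.a (.c (.l 2338) (.l 1954)) (.c (.l 2338) (.l 1954))))) (.c (.b (.a (.b (.c (.l 3234) (.l
      2722)) (.c (.l 3234) (.l 2722))) (.c (.l 3234) (.l 2722))) (.a (.b (.c (.l 3234) (.l 2722))
      (.c (.l 3234) (.l 2722))) (.c (.l 3234) (.l 2722)))) (.b (.a (.b (.c (.l 2338) (.l 1954))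
      (.c (.l 2338) (.l 1954))) (.b (.c (.l 2338) (.l 1954)) (.c (.l 2338) (.l 1954)))) (.c (.l
      2338) (.l 1954)))))

theorem x2f_h99 : chk3 (onCell 0 1073741824 0 429496730 0 67108864 T2F) x2f_t99 10 25 3 = true := by decide +kernel

end Pool.Agent.Strip051.LC.E1.V3
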