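import Pool.Agent.Strip051.LC.E1.V3.Rw
import Pool.Agent.Strip051.LC.E0.Ch.Cell

/-! # Rests near the full period: certificate Cf2_7 -/

set_option maxRecDepth 100000

namespace Pool.Agent.Strip051.LC.E1.V3

open Pool.Agent.Strip051.PB
open Pool.Agent.Strip051.LC.E0.Ch (onCell Tree)

def x2f_t100 : T :=
  (.b (.a (.c (.c (.l 3234) (.a (.l 2722) (.l 2722))) (.a (.c (.l 2338) (.l 1954)) (.b (.c (.l
      2338) (.l 1954)) (.c (.l 2338) (.l 1954))))) (.c (.c (.l 3234) (.a (.l 2722) (.l 2722)))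
      (.a (.b (.c (.l 2338) (.l 1954)) (.c (.l 2338) (.l 1954))) (.c (.l 2338) (.l 15))))) (.c
      (.a (.a (.c (.l 3234) (.l 2722)) (.c (.l 3234) (.l 2722))) (.c (.l 3234) (.a (.l 2722) (.l
      2722)))) (.a (.a (.c (.l 2338) (.l 1954)) (.c (.l 2338) (.l 1954))) (.a (.b (.c (.l 2338)
      (.c (.l 2210) (.l 1954))) (.c (.l 2338) (.c (.l 2210) (.l 1954)))) (.c (.l 2338) (.l
      15))))))

theorem x2f_h100 : chk3 (onCell 0 1073741824 0 429496730 0 67108864 T2F) x2f_t100 11 25 3 = true := by decide +kernel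

def x2f_t101 : T :=
  (.a (.c (.b (.c (.l 3234) (.l 2722)) (.c (.l 3234) (.l 2722))) (.b (.a (.c (.l 2338) (.l 1954))
      (.c (.l 2338) (.l 1954))) (.c (.l 2338) (.l 1954)))) (.c (.b (.a (.c (.l 3234) (.l 2722))
      (.c (.l 3234) (.l 2722))) (.a (.c (.l 3234) (.l 2722)) (.c (.l 3234) (.l 2722)))) (.b (.c
      (.l 2338) (.l 1954)) (.c (.l 2338) (.a (.l 1954) (.l 1954))))))

theorem x2f_h101 : chk3 (onCell 0 1073741824 0 429496730 0 67108864 T2F) x2f_t101 10 26 3 = true := by decide +kernel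

def x2f_t102 : T :=
  (.c (.a (.c (.l 3234) (.l 2722)) (.b (.a (.c (.l 3234) (.l 2722)) (.c (.l 3234) (.l 2722))) (.a
      (.c (.l 3234) (.l 2722)) (.c (.l 3234) (.l 2722))))) (.a (.b (.c (.l 2338) (.l 1954)) (.c
      (.l 2338) (.l 1954))) (.c (.l 2338) (.a (.l 1954) (.c (.l 2210) (.l 1954))))))

theorem x2f_h102 : chk3 (onCell 0 1073741824 0 429496730 0 67108864 T2F) x2f_t102 10 27 3 = true := by decide +kernel

def x2f_t103 : T :=
  (.c (.a (.b (.a (.c (.l 3234) (.l 2722)) (.c (.l 3234) (.l 2722))) (.a (.c (.l 3234) (.l 2722))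
      (.c (.l 3234) (.l 2722)))) (.b (.c (.l 3234) (.a (.l 2722) (.l 2722))) (.a (.c (.l 3234)
      (.l 2722)) (.c (.l 3234) (.l 2722))))) (.a (.b (.c (.l 2338) (.a (.l 1954) (.l 1954))) (.c
      (.l 2338) (.a (.l 1954) (.c (.l 2210) (.l 1954))))) (.b (.a (.b (.c (.l 2338) (.c (.l 2210)
      (.l 1954))) (.c (.l 2338) (.c (.l 2210) (.l 1954)))) (.c (.l 2338) (.l 15))) (.a (.b (.c
      (.l 2338) (.c (.l 2210) (.l 1954))) (.c (.l 2338) (.c (.l 2210) (.l 1954)))) (.c (.l 2338)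
      (.l 15))))))

theorem x2f_h103 : chk3 (onCell 0 1073741824 0 429496730 0 67108864 T2F) x2f_t103 11 26 3 = true := by decide +kernel

def x2f_t104 : T :=
  (.c (.a (.b (.a (.c (.l 3234) (.l 2722)) (.c (.l 3234) (.l 2722))) (.a (.c (.l 3234) (.l 2722))
      (.c (.l 3234) (.l 2722)))) (.b (.a (.c (.l 3234) (.l 2722)) (.c (.l 3234) (.l 2722))) (.a
      (.c (.l 3234) (.l 2722)) (.c (.l 3234) (.l 2722))))) (.a (.c (.l 2338) (.a (.c (.l 2210)
      (.l 1954)) (.c (.l 2210) (.l 1954)))) (.b (.c (.a (.l 2338) (.l 2338)) (.c (.l 2210) (.l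
      1954))) (.c (.a (.l 2338) (.l 2338)) (.c (.l 2210) (.l 34))))))

theorem x2f_h104 : chk3 (onCell 0 1073741824 0 429496730 0 67108864 T2F) x2f_t104 11 27 3 = true := by decide +kernel

def x2f_t105 : T :=
  (.b (.a (.c (.l 3234) (.l 2722)) (.b (.a (.c (.l 3234) (.l 2722)) (.c (.l 3234) (.l 2722))) (.c
      (.l 3234) (.l 2722)))) (.a (.c (.l 3234) (.a (.l 2722) (.b (.l 2722) (.l 2722)))) (.c (.l
      3234) (.b (.l 2722) (.a (.l 2722) (.l 2722))))))

theorem x2f_h105 : chk3 (onCell 0 1073741824 0 429496730 0 67108864 T2F) x2f_t105 10 14 6 = true := by decide +kernel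

def x2f_t106 : T :=
  (.b (.c (.a (.l 2338) (.l 2338)) (.a (.a (.l 1954) (.l 1954)) (.a (.c (.l 2210) (.l 1954)) (.c
      (.l 2210) (.l 1954))))) (.c (.a (.b (.l 2338) (.a (.l 2338) (.l 2338))) (.l 2338)) (.a (.a
      (.b (.l 1954) (.l 34)) (.b (.l 1954) (.c (.l 2210) (.l 1954)))) (.a (.b (.c (.l 2210) (.l
      1954)) (.c (.l 2210) (.l 1954))) (.b (.c (.l 2210) (.l 1954)) (.c (.l 2210) (.l 1954)))))))

theorem x2f_h106 : chk3 (onCell 0 1073741824 0 429496730 0 67108864 T2F) x2f_t106 10 14 7 = true := by decide +kernel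

def x2f_t107 : T :=
  (.c (.b (.a (.b (.a (.c (.l 3234) (.l 2722)) (.c (.l 3234) (.l 2722))) (.c (.l 3234) (.l
      2722))) (.b (.a (.c (.l 3234) (.l 2722)) (.c (.l 3234) (.l 2722))) (.c (.l 3234) (.l
      2722)))) (.a (.c (.l 3234) (.l 2722)) (.c (.l 3234) (.a (.l 2722) (.l 2722))))) (.b (.a (.c
      (.l 2338) (.a (.c (.l 2210) (.l 1954)) (.c (.l 2210) (.l 1954)))) (.c (.a (.l 2338) (.c (.l
      2466) (.l 2338))) (.a (.c (.l 2210) (.l 1954)) (.l 15)))) (.c (.a (.l 2338) (.a (.l 2338)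
      (.c (.l 2466) (.l 2338)))) (.a (.a (.c (.l 2210) (.l 1954)) (.c (.l 2210) (.l 1954))) (.a
      (.c (.l 2210) (.l 1954)) (.l 15))))))

theorem x2f_h107 : chk3 (onCell 0 1073741824 0 429496730 0 67108864 T2F) x2f_t107 11 14 3 = true := by decide +kernel

def x2f_t108 : T :=
  (.a (.b (.c (.l 3234) (.a (.b (.l 2722) (.c (.l 2978) (.l 2722))) (.b (.c (.l 2978) (.l 2722))
      (.c (.l 2978) (.l 2722))))) (.c (.l 3234) (.a (.b (.c (.l 2978) (.l 2722)) (.c (.l 2978)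
      (.l 2722))) (.b (.c (.l 2978) (.l 2722)) (.c (.l 2978) (.l 2722)))))) (.b (.c (.l 3234) (.b
      (.a (.l 2722) (.l 2722)) (.a (.c (.l 2978) (.l 2722)) (.c (.l 2978) (.l 2722))))) (.c (.l
      3234) (.a (.b (.c (.l 2978) (.l 2722)) (.c (.l 2978) (.l 2722))) (.b (.c (.l 2978) (.l
      2722)) (.c (.l 2978) (.l 2722)))))))

theorem x2f_h108 : chk3 (onCell 0 1073741824 0 429496730 0 67108864 T2F) x2f_t108 10 15 6 = true := by decide +kernel

def x2f_t109 : T :=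
  (.a (.b (.c (.l 3234) (.b (.l 2722) (.a (.l 2722) (.l 2722)))) (.c (.l 3234) (.b (.a (.c (.l
      2978) (.l 2722)) (.b (.l 2722) (.l 2722))) (.a (.c (.l 2978) (.l 2722)) (.c (.l 2978) (.l
      2722)))))) (.b (.c (.l 3234) (.b (.a (.l 2722) (.l 2722)) (.a (.l 2722) (.l 2722)))) (.c
      (.l 3234) (.b (.a (.l 2722) (.c (.l 2978) (.l 2722))) (.a (.a (.l 2722) (.l 2722)) (.c (.l
      2978) (.l 2722)))))))

theorem x2f_h109 : chk3 (onCell 0 1073741824 0 429496730 0 67108864 T2F) x2f_t109 11 15 6 = true := by decide +kernel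

def x2f_t110 : T :=
  (.b (.a (.a (.b (.l 34) (.c (.l 2466) (.l 2338))) (.b (.l 2338) (.l 34))) (.a (.l 34) (.l
      2338))) (.a (.a (.b (.c (.l 2466) (.l 2338)) (.c (.l 2466) (.l 2338))) (.b (.a (.l 34) (.l
      34)) (.a (.c (.l 2466) (.l 2338)) (.l 34)))) (.a (.b (.l 34) (.a (.l 34) (.l 34))) (.b (.l
      2338) (.l 34)))))

theorem x2f_h110 : chk3 (onCell 0 1073741824 0 429496730 0 67108864 T2F) x2f_t110 10 15 14 = true := by decide +kernel

def x2f_t111 : T :=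
  (.a (.b (.a (.b (.l 34) (.c (.l 2210) (.l 1954))) (.b (.c (.l 2210) (.l 1954)) (.c (.l 2210)
      (.l 1954)))) (.a (.c (.l 34) (.l 1954)) (.c (.l 2210) (.l 1954)))) (.b (.a (.b (.c (.l
      2210) (.l 1954)) (.c (.l 2210) (.l 1954))) (.c (.l 2210) (.l 1954))) (.a (.c (.l 2210) (.l
      1954)) (.c (.l 2210) (.l 1954)))))

theorem x2f_h111 : chk3 (onCell 0 1073741824 0 429496730 0 67108864 T2F) x2f_t111 10 15 15 = true := by decide +kernel

def x2f_t112 : T :=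
  (.c (.a (.b (.a (.l 2338) (.l 2338)) (.a (.b (.l 2338) (.l 2338)) (.b (.l 2338) (.l 2338))))
      (.b (.a (.c (.l 2466) (.l 2338)) (.c (.l 2466) (.l 2338))) (.a (.c (.l 2466) (.l 2338)) (.c
      (.l 2466) (.l 2338))))) (.a (.b (.a (.c (.l 2210) (.l 1954)) (.c (.l 2210) (.l 1954))) (.a
      (.c (.l 2210) (.l 1954)) (.c (.l 2210) (.c (.l 2082) (.l 1954))))) (.b (.a (.c (.l 2210)
      (.c (.l 2082) (.l 1954))) (.l 15)) (.a (.c (.c (.l 2210) (.l 2210)) (.c (.l 2082) (.l 34)))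
      (.l 15)))))

theorem x2f_h112 : chk3 (onCell 0 1073741824 0 429496730 0 67108864 T2F) x2f_t112 11 15 7 = true := by decide +kernel

def x2f_t113 : T :=
  (.a (.b (.c (.a (.b (.c (.l 65442) (.l 32674)) (.c (.l 65442) (.l 32674))) (.b (.c (.l 65442)
      (.l 32674)) (.c (.l 65442) (.l 32674)))) (.l 16290)) (.c (.a (.b (.c (.l 65442) (.l 32674))
      (.c (.l 65442) (.l 32674))) (.b (.c (.l 65442) (.l 32674)) (.c (.l 65442) (.l 32674)))) (.l
      16290))) (.b (.c (.a (.b (.c (.l 65442) (.l 32674)) (.c (.l 65442) (.l 32674))) (.b (.c (.l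
      65442) (.l 32674)) (.c (.l 65442) (.l 32674)))) (.l 16290)) (.c (.a (.b (.c (.l 65442) (.l
      32674)) (.c (.l 65442) (.l 32674))) (.b (.c (.l 65442) (.l 32674)) (.c (.l 65442) (.l
      32674)))) (.l 16290))))

theorem x2f_h113 : chk3 (onCell 0 1073741824 0 429496730 0 67108864 T2F) x2f_t113 12 4 8 = true := by decide +kernel

def x2f_t114 : T :=
  (.b (.a (.l 8130) (.b (.c (.l 10914) (.l 8098)) (.l 8130))) (.l 8098))

theorem x2f_h114 : chk3 (onCell 0 1073741824 0 429496730 0 67108864 T2F) x2f_t114 12 4 9 = true := by decide +kernel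

def x2f_t115 : T :=
  (.c (.a (.b (.c (.a (.b (.c (.l 65442) (.l 32674)) (.c (.l 65442) (.l 32674))) (.b (.c (.l
      65442) (.l 32674)) (.c (.l 65442) (.l 32674)))) (.l 16290)) (.c (.a (.b (.c (.l 65442) (.l
      32674)) (.c (.l 65442) (.l 32674))) (.b (.c (.l 65442) (.l 32674)) (.c (.l 65442) (.l
      32674)))) (.l 16290))) (.b (.c (.a (.b (.c (.l 65442) (.l 32674)) (.c (.l 65442) (.l
      32674))) (.b (.c (.l 65442) (.l 32674)) (.c (.l 65442) (.l 32674)))) (.l 16290)) (.c (.a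
      (.b (.c (.l 65442) (.l 32674)) (.c (.l 65442) (.l 32674))) (.b (.c (.l 65442) (.l 32674))
      (.c (.l 65442) (.l 32674)))) (.l 16290)))) (.l 8098))

theorem x2f_h115 : chk3 (onCell 0 1073741824 0 429496730 0 67108864 T2F) x2f_t115 12 5 4 = true := by decide +kernel

end Pool.Agent.Strip051.LC.E1.V3
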