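import Pool.Agent.Strip051.LC.E1.V3.Rw
import Pool.Agent.Strip051.LC.E0.Ch.Cell

/-! # Rests near the full period: certificate Cf2_8 -/

set_option maxRecDepth 100000

namespace Pool.Agent.Strip051.LC.E1.V3

open Pool.Agent.Strip051.PB
open Pool.Agent.Strip051.LC.E0.Ch (onCell Tree)

def x2f_t116 : T :=
  (.a (.b (.c (.a (.b (.c (.l 65442) (.l 32674)) (.c (.l 65442) (.l 32674))) (.b (.c (.l 65442)
      (.l 32674)) (.c (.l 65442) (.l 32674)))) (.l 16290)) (.c (.a (.b (.c (.l 65442) (.l 32674))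
      (.c (.l 65442) (.l 32674))) (.b (.c (.l 65442) (.l 32674)) (.c (.l 65442) (.l 32674)))) (.l
      16290))) (.b (.c (.a (.b (.c (.l 65442) (.l 32674)) (.c (.l 65442) (.l 32674))) (.b (.c (.l
      65442) (.l 32674)) (.c (.l 65442) (.l 32674)))) (.b (.a (.l 16322) (.b (.c (.l 21794) (.l
      34)) (.l 16290))) (.l 16290))) (.c (.a (.b (.c (.l 65442) (.l 32674)) (.c (.l 65442) (.l
      32674))) (.b (.c (.l 65442) (.l 32674)) (.c (.l 65442) (.l 32674)))) (.l 16290))))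

theorem x2f_h116 : chk3 (onCell 0 1073741824 0 429496730 0 67108864 T2F) x2f_t116 13 4 8 = true := by decide +kernel

def x2f_t117 : T :=
  (.b (.a (.b (.c (.l 34) (.l 34)) (.c (.l 10914) (.l 8098))) (.b (.c (.a (.l 34) (.l 34)) (.a
      (.l 34) (.l 15))) (.c (.l 34) (.l 34)))) (.a (.l 8098) (.b (.c (.l 10914) (.l 34)) (.l
      8098))))

theorem x2f_h117 : chk3 (onCell 0 1073741824 0 429496730 0 67108864 T2F) x2f_t117 13 4 9 = true := by decide +kernel

def x2f_t118 : T :=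
  (.c (.a (.b (.c (.a (.b (.c (.l 65442) (.l 32674)) (.c (.l 65442) (.l 32674))) (.b (.c (.l
      65442) (.l 32674)) (.c (.l 65442) (.l 32674)))) (.l 16290)) (.c (.a (.b (.c (.l 65442) (.l
      32674)) (.c (.l 65442) (.l 32674))) (.b (.c (.l 65442) (.l 32674)) (.c (.l 65442) (.l
      32674)))) (.l 16290))) (.b (.c (.a (.b (.c (.l 65442) (.l 32674)) (.c (.l 65442) (.l
      32674))) (.b (.c (.l 65442) (.l 32674)) (.c (.l 65442) (.l 32674)))) (.l 16290)) (.c (.a
      (.b (.c (.l 65442) (.l 32674)) (.c (.l 65442) (.l 32674))) (.b (.c (.l 65442) (.l 32674))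
      (.c (.l 65442) (.l 32674)))) (.l 16290)))) (.b (.l 8098) (.l 8098)))

theorem x2f_h118 : chk3 (onCell 0 1073741824 0 429496730 0 67108864 T2F) x2f_t118 13 5 4 = true := by decide +kernel

def x2f_t119 : T :=
  (.b (.a (.c (.a (.l 34) (.b (.l 34) (.l 34))) (.a (.b (.c (.l 34) (.l 34)) (.c (.l 4642) (.l
      34))) (.b (.c (.l 34) (.a (.l 34) (.l 15))) (.c (.l 34) (.a (.l 34) (.l 15)))))) (.b (.c
      (.a (.c (.l 34) (.l 34)) (.l 15)) (.l 15)) (.c (.a (.l 34) (.l 15)) (.l 15)))) (.a (.a (.c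
      (.l 5410) (.b (.l 34) (.l 34))) (.c (.l 5410) (.b (.c (.l 4642) (.l 34)) (.a (.c (.l 4642)
      (.l 4002)) (.c (.l 4642) (.l 15)))))) (.b (.c (.a (.l 34) (.l 15)) (.l 15)) (.c (.a (.l
      5410) (.l 15)) (.l 15)))))

theorem x2f_h119 : chk3 (onCell 0 1073741824 0 429496730 0 67108864 T2F) x2f_t119 6 4 5 = true := by decide +kernel

def x2f_t120 : T :=
  (.b (.a (.b (.a (.c (.l 5410) (.l 4002)) (.c (.l 5410) (.a (.l 34) (.c (.l 4642) (.l 15)))))
      (.a (.c (.l 5410) (.l 4002)) (.c (.l 5410) (.a (.l 4002) (.c (.l 4642) (.l 15)))))) (.b (.c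
      (.a (.l 5410) (.l 15)) (.l 15)) (.c (.l 5410) (.l 15)))) (.a (.b (.a (.c (.l 5410) (.l
      4002)) (.c (.l 5410) (.a (.l 4002) (.c (.l 4642) (.l 15))))) (.a (.c (.l 5410) (.l 4002))
      (.c (.l 5410) (.l 4002)))) (.b (.c (.l 5410) (.l 15)) (.c (.l 5410) (.l 15)))))

theorem x2f_h120 : chk3 (onCell 0 1073741824 0 429496730 0 67108864 T2F) x2f_t120 6 5 5 = true := by decide +kernel

def x2f_t121 : T :=
  (.c (.a (.b (.c (.a (.b (.c (.l 65442) (.l 32674)) (.c (.l 65442) (.l 32674))) (.b (.c (.l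
      65442) (.l 32674)) (.c (.l 65442) (.l 32674)))) (.l 16290)) (.c (.a (.b (.c (.l 65442) (.l
      32674)) (.c (.l 65442) (.l 32674))) (.b (.c (.l 65442) (.l 32674)) (.c (.l 65442) (.l
      32674)))) (.l 16290))) (.b (.c (.a (.b (.c (.l 65442) (.l 32674)) (.c (.l 65442) (.l
      32674))) (.b (.c (.l 65442) (.l 32674)) (.c (.l 65442) (.l 32674)))) (.l 16290)) (.c (.a
      (.b (.c (.l 65442) (.l 32674)) (.c (.l 65442) (.l 32674))) (.b (.c (.l 65442) (.l 32674))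
      (.c (.l 65442) (.l 32674)))) (.l 16290)))) (.l 8098))

theorem x2f_h121 : chk3 (onCell 0 1073741824 0 429496730 0 67108864 T2F) x2f_t121 12 6 4 = true := by decide +kernel

def x2f_t122 : T :=
  (.c (.a (.b (.c (.a (.b (.c (.l 65442) (.l 32674)) (.c (.l 65442) (.l 32674))) (.b (.c (.l
      65442) (.l 32674)) (.c (.l 65442) (.l 32674)))) (.l 16290)) (.c (.a (.b (.c (.l 65442) (.l
      32674)) (.c (.l 65442) (.l 32674))) (.b (.c (.l 65442) (.l 32674)) (.c (.l 65442) (.l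
      32674)))) (.l 16290))) (.b (.c (.a (.b (.c (.l 65442) (.l 32674)) (.c (.l 65442) (.l
      32674))) (.b (.c (.l 65442) (.l 32674)) (.c (.l 65442) (.l 32674)))) (.l 16290)) (.c (.a
      (.b (.c (.l 65442) (.l 32674)) (.c (.l 65442) (.l 32674))) (.b (.c (.l 65442) (.l 32674))
      (.c (.l 65442) (.l 32674)))) (.l 16290)))) (.l 8098))

theorem x2f_h122 : chk3 (onCell 0 1073741824 0 429496730 0 67108864 T2F) x2f_t122 12 7 4 = true := by decide +kernel

def x2f_t123 : T :=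
  (.c (.a (.b (.c (.a (.b (.c (.l 65442) (.l 32674)) (.c (.l 65442) (.l 32674))) (.b (.c (.l
      65442) (.l 32674)) (.c (.l 65442) (.l 32674)))) (.l 16290)) (.c (.a (.b (.c (.l 65442) (.l
      32674)) (.c (.l 65442) (.l 32674))) (.b (.c (.l 65442) (.l 32674)) (.c (.l 65442) (.l
      32674)))) (.l 16290))) (.b (.c (.a (.b (.c (.l 65442) (.l 32674)) (.c (.l 65442) (.l
      32674))) (.b (.c (.l 65442) (.l 32674)) (.c (.l 65442) (.l 32674)))) (.l 16290)) (.c (.a
      (.b (.c (.l 65442) (.l 32674)) (.c (.l 65442) (.l 32674))) (.b (.c (.l 65442) (.l 32674))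
      (.c (.l 65442) (.l 32674)))) (.l 16290)))) (.l 8098))

theorem x2f_h123 : chk3 (onCell 0 1073741824 0 429496730 0 67108864 T2F) x2f_t123 13 6 4 = true := by decide +kernel

def x2f_t124 : T :=
  (.c (.a (.b (.c (.a (.b (.c (.l 65442) (.l 32674)) (.c (.l 65442) (.l 32674))) (.b (.c (.l
      65442) (.l 32674)) (.c (.l 65442) (.l 32674)))) (.l 16290)) (.c (.a (.b (.c (.l 65442) (.l
      32674)) (.c (.l 65442) (.l 32674))) (.b (.c (.l 65442) (.l 32674)) (.c (.l 65442) (.l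
      32674)))) (.l 16290))) (.b (.c (.a (.b (.c (.l 65442) (.l 32674)) (.c (.l 65442) (.l
      32674))) (.b (.c (.l 65442) (.l 32674)) (.c (.l 65442) (.l 32674)))) (.l 16290)) (.c (.a
      (.b (.c (.l 65442) (.l 32674)) (.c (.l 65442) (.l 32674))) (.b (.c (.l 65442) (.l 32674))
      (.c (.l 65442) (.l 32674)))) (.l 16290)))) (.l 8098))

theorem x2f_h124 : chk3 (onCell 0 1073741824 0 429496730 0 67108864 T2F) x2f_t124 13 7 4 = true := by decide +kernel

def x2f_t125 : T :=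
  (.b (.b (.a (.b (.a (.c (.l 5410) (.l 4002)) (.c (.l 5410) (.l 4002))) (.a (.c (.l 5410) (.l
      4002)) (.c (.l 5410) (.l 4002)))) (.c (.l 5410) (.l 15))) (.a (.b (.a (.c (.l 5410) (.l
      4002)) (.c (.l 5410) (.l 4002))) (.a (.l 4002) (.c (.l 5410) (.l 4002)))) (.c (.l 5410) (.l
      15)))) (.b (.a (.b (.a (.l 4002) (.c (.l 5410) (.l 4002))) (.a (.l 4002) (.c (.l 5410) (.l
      4002)))) (.c (.l 5410) (.l 15))) (.a (.b (.a (.l 4002) (.c (.l 5410) (.l 4002))) (.a (.c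
      (.l 5410) (.l 4002)) (.c (.l 5410) (.l 4002)))) (.c (.l 5410) (.l 15)))))

theorem x2f_h125 : chk3 (onCell 0 1073741824 0 429496730 0 67108864 T2F) x2f_t125 6 3 5 = true := by decide +kernel

def x2f_t126 : T :=
  (.c (.a (.b (.c (.a (.b (.c (.l 65442) (.l 32674)) (.c (.l 65442) (.l 32674))) (.b (.c (.b (.l
      65442) (.l 65442)) (.b (.a (.c (.l 15) (.l 15)) (.l 15)) (.l 32674))) (.c (.l 65442) (.l
      32674)))) (.b (.a (.b (.c (.l 34) (.l 15)) (.c (.l 21794) (.l 15))) (.l 15)) (.a (.l 16290)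
      (.l 15)))) (.c (.a (.b (.c (.l 65442) (.l 32674)) (.c (.l 65442) (.l 32674))) (.b (.c (.l
      65442) (.l 32674)) (.c (.l 65442) (.l 32674)))) (.l 16290))) (.l 15)) (.l 15))

theorem x2f_h126 : chk3 (onCell 0 1073741824 0 429496730 0 67108864 T2F) x2f_t126 14 4 4 = true := by decide +kernel

def x2f_t127 : T :=
  (.c (.a (.b (.c (.a (.b (.c (.l 65442) (.l 32674)) (.c (.l 65442) (.l 32674))) (.b (.c (.l
      65442) (.l 32674)) (.c (.l 65442) (.l 32674)))) (.l 16290)) (.c (.a (.b (.c (.l 65442) (.l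
      32674)) (.c (.l 65442) (.l 32674))) (.b (.c (.l 65442) (.l 32674)) (.c (.l 65442) (.l
      32674)))) (.l 16290))) (.l 15)) (.l 15))

theorem x2f_h127 : chk3 (onCell 0 1073741824 0 429496730 0 67108864 T2F) x2f_t127 14 5 4 = true := by decide +kernel

def x2f_t128 : T :=
  (.l 15)

theorem x2f_h128 : chk3 (onCell 0 1073741824 0 429496730 0 67108864 T2F) x2f_t128 15 2 4 = true := by decide +kernel

def x2f_t129 : T :=
  (.l 15)

theorem x2f_h129 : chk3 (onCell 0 1073741824 0 429496730 0 67108864 T2F) x2f_t129 7 2 5 = true := by decide +kernel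

def x2f_t130 : T :=
  (.b (.c (.a (.b (.c (.a (.b (.c (.l 65442) (.l 32674)) (.c (.l 65442) (.l 32674))) (.b (.c (.l
      65442) (.l 32674)) (.c (.l 65442) (.l 32674)))) (.l 16290)) (.c (.a (.b (.c (.l 65442) (.l
      32674)) (.c (.l 65442) (.l 32674))) (.b (.c (.l 65442) (.l 32674)) (.c (.l 65442) (.l
      32674)))) (.l 16290))) (.l 15)) (.l 15)) (.c (.a (.b (.c (.a (.b (.c (.l 65442) (.l 32674))
      (.c (.l 65442) (.l 32674))) (.b (.c (.l 65442) (.l 32674)) (.c (.l 65442) (.l 32674)))) (.l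
      16290)) (.c (.a (.b (.c (.l 65442) (.l 32674)) (.c (.l 65442) (.l 32674))) (.b (.c (.l
      65442) (.l 32674)) (.c (.l 65442) (.l 32674)))) (.l 16290))) (.l 15)) (.l 15)))

theorem x2f_h130 : chk3 (onCell 0 1073741824 0 429496730 0 67108864 T2F) x2f_t130 14 3 4 = true := by decide +kernel

def x2f_t131 : T :=
  (.l 15)

theorem x2f_h131 : chk3 (onCell 0 1073741824 0 429496730 0 67108864 T2F) x2f_t131 15 3 4 = true := by decide +kernel

def x2f_t132 : T :=
  (.l 15)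

theorem x2f_h132 : chk3 (onCell 0 1073741824 0 429496730 0 67108864 T2F) x2f_t132 7 3 5 = true := by decide +kernel

end Pool.Agent.Strip051.LC.E1.V3
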