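import Pool.Agent.Strip051.LC.E1.V3.Rw
import Pool.Agent.Strip051.LC.E0.Ch.Cell

/-! # Rests near the full period: certificate Cf2_9 -/

set_option maxRecDepth 100000

namespace Pool.Agent.Strip051.LC.E1.V3

open Pool.Agent.Strip051.PB
open Pool.Agent.Strip051.LC.E0.Ch (onCell Tree)

def x2f_t133 : T :=
  (.b (.c (.c (.a (.a (.c (.l 34) (.a (.l 34) (.l 34))) (.c (.a (.l 34) (.l 15)) (.l 15))) (.l
      15)) (.a (.a (.a (.c (.l 34) (.l 34)) (.l 15)) (.l 15)) (.l 15))) (.c (.a (.l 15) (.l 15))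
      (.l 15))) (.c (.c (.a (.a (.c (.l 34) (.a (.l 34) (.l 34))) (.c (.l 34) (.l 15))) (.l 15))
      (.a (.a (.a (.c (.l 34) (.l 34)) (.l 15)) (.l 15)) (.l 15))) (.c (.a (.l 15) (.l 15)) (.l
      15))))

theorem x2f_h133 : chk3 (onCell 0 1073741824 0 429496730 0 67108864 T2F) x2f_t133 6 16 3 = true := by decide +kernel

def x2f_t134 : T :=
  (.c (.c (.a (.a (.c (.l 34) (.a (.l 34) (.l 34))) (.c (.l 34) (.l 15))) (.l 15)) (.a (.a (.b
      (.a (.c (.l 34) (.l 34)) (.l 15)) (.a (.c (.l 34) (.l 34)) (.l 15))) (.l 15)) (.l 15))) (.c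
      (.a (.l 15) (.l 15)) (.l 15)))

theorem x2f_h134 : chk3 (onCell 0 1073741824 0 429496730 0 67108864 T2F) x2f_t134 6 17 3 = true := by decide +kernel

def x2f_t135 : T :=
  (.b (.c (.c (.a (.a (.c (.l 34) (.l 34)) (.c (.l 34) (.l 15))) (.l 15)) (.a (.a (.b (.a (.c (.l
      34) (.l 34)) (.l 15)) (.a (.c (.l 34) (.l 34)) (.l 15))) (.l 15)) (.l 15))) (.c (.a (.l 15)
      (.l 15)) (.l 15))) (.c (.c (.a (.a (.c (.l 34) (.l 34)) (.c (.l 34) (.l 15))) (.l 15)) (.a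
      (.a (.a (.b (.c (.l 34) (.l 34)) (.c (.l 34) (.l 34))) (.l 15)) (.l 15)) (.l 15))) (.c (.a
      (.l 15) (.l 15)) (.l 15))))

theorem x2f_h135 : chk3 (onCell 0 1073741824 0 429496730 0 67108864 T2F) x2f_t135 6 9 3 = true := by decide +kernel

def x2f_t136 : T :=
  (.b (.c (.a (.c (.a (.c (.l 3618) (.l 34)) (.c (.l 34) (.l 15))) (.a (.a (.b (.c (.l 2978) (.l
      34)) (.c (.l 2978) (.l 2722))) (.l 15)) (.l 15))) (.l 15)) (.a (.a (.l 15) (.l 15)) (.l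
      15))) (.c (.a (.c (.a (.c (.l 3618) (.l 3234)) (.a (.c (.l 3618) (.l 15)) (.l 15))) (.a (.a
      (.b (.c (.l 2978) (.l 2722)) (.a (.c (.l 2978) (.l 2722)) (.c (.l 2978) (.l 15)))) (.l 15))
      (.l 15))) (.l 15)) (.a (.a (.l 15) (.l 15)) (.l 15))))

theorem x2f_h136 : chk3 (onCell 0 1073741824 0 429496730 0 67108864 T2F) x2f_t136 6 10 3 = true := by decide +kernel

def x2f_t137 : T :=
  (.b (.c (.a (.c (.a (.a (.l 34) (.c (.l 3618) (.l 3234))) (.a (.c (.l 3618) (.l 15)) (.l 15)))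
      (.a (.a (.b (.a (.c (.l 2978) (.l 2722)) (.c (.l 2978) (.l 15))) (.a (.c (.l 2978) (.l
      2722)) (.c (.l 2978) (.l 15)))) (.l 15)) (.l 15))) (.l 15)) (.a (.a (.l 15) (.l 15)) (.l
      15))) (.c (.a (.c (.a (.a (.l 3234) (.c (.l 3618) (.l 3234))) (.a (.c (.l 3618) (.l 15))
      (.l 15))) (.a (.a (.b (.a (.c (.l 2978) (.l 2722)) (.c (.l 2978) (.l 15))) (.a (.c (.l
      2978) (.l 2722)) (.c (.l 2978) (.l 15)))) (.l 15)) (.l 15))) (.l 15)) (.a (.a (.l 15) (.l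
      15)) (.l 15))))

theorem x2f_h137 : chk3 (onCell 0 1073741824 0 429496730 0 67108864 T2F) x2f_t137 6 11 3 = true := by decide +kernel

def x2f_t138 : T :=
  (.c (.a (.b (.a (.c (.a (.l 3234) (.c (.l 3618) (.l 3234))) (.a (.b (.a (.c (.l 2978) (.l
      2722)) (.c (.l 2978) (.l 15))) (.a (.l 2722) (.l 2722))) (.l 15))) (.b (.c (.a (.c (.l
      3618) (.l 15)) (.l 15)) (.l 15)) (.c (.a (.c (.l 3618) (.l 15)) (.l 15)) (.l 15)))) (.a (.b
      (.c (.l 3234) (.a (.a (.l 2722) (.l 2722)) (.l 15))) (.c (.l 3234) (.a (.l 2722) (.l 15))))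
      (.b (.c (.a (.c (.l 3618) (.l 15)) (.l 15)) (.l 15)) (.c (.a (.l 3234) (.l 15)) (.l 15)))))
      (.l 15)) (.a (.b (.a (.l 15) (.l 15)) (.a (.l 15) (.l 15))) (.l 15)))

theorem x2f_h138 : chk3 (onCell 0 1073741824 0 429496730 0 67108864 T2F) x2f_t138 6 12 3 = true := by decide +kernel

def x2f_t139 : T :=
  (.c (.a (.b (.a (.b (.c (.l 3234) (.a (.l 2722) (.l 15))) (.a (.c (.l 3234) (.l 2722)) (.c (.l
      3234) (.l 15)))) (.b (.a (.c (.l 3234) (.l 15)) (.l 15)) (.a (.c (.l 3234) (.l 15)) (.l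
      15)))) (.a (.b (.a (.c (.l 3234) (.l 2722)) (.c (.l 3234) (.l 15))) (.a (.c (.l 3234) (.l
      2722)) (.c (.l 3234) (.l 15)))) (.b (.c (.a (.l 3234) (.l 15)) (.l 15)) (.c (.a (.l 3234)
      (.l 15)) (.l 15))))) (.l 15)) (.a (.b (.a (.l 15) (.l 15)) (.a (.l 15) (.l 15))) (.l 15)))

theorem x2f_h139 : chk3 (onCell 0 1073741824 0 429496730 0 67108864 T2F) x2f_t139 6 13 3 = true := by decide +kernel

def x2f_t140 : T :=
  (.c (.a (.b (.a (.b (.c (.l 3234) (.a (.l 2722) (.l 15))) (.c (.l 3234) (.a (.l 2722) (.l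
      15)))) (.c (.a (.l 3234) (.l 15)) (.l 15))) (.a (.c (.l 3234) (.a (.c (.l 2978) (.l 2722))
      (.l 15))) (.c (.a (.l 3234) (.l 15)) (.l 15)))) (.l 15)) (.a (.b (.a (.l 15) (.l 15)) (.a
      (.l 15) (.l 15))) (.l 15)))

theorem x2f_h140 : chk3 (onCell 0 1073741824 0 429496730 0 67108864 T2F) x2f_t140 6 14 3 = true := by decide +kernel

def x2f_t141 : T :=
  (.c (.a (.c (.b (.a (.l 3234) (.a (.l 3234) (.l 15))) (.a (.l 3234) (.a (.l 3234) (.l 15))))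
      (.b (.a (.a (.c (.l 2978) (.l 2722)) (.l 15)) (.l 15)) (.a (.b (.a (.c (.l 2978) (.l 2722))
      (.l 15)) (.a (.c (.l 2978) (.l 2722)) (.l 15))) (.l 15)))) (.l 15)) (.a (.a (.l 15) (.l
      15)) (.l 15)))

theorem x2f_h141 : chk3 (onCell 0 1073741824 0 429496730 0 67108864 T2F) x2f_t141 6 15 3 = true := by decide +kernel

def x2f_t142 : T :=
  (.l 15)

theorem x2f_h142 : chk3 (onCell 0 1073741824 0 429496730 0 67108864 T2F) x2f_t142 7 1 3 = true := by decide +kernel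

end Pool.Agent.Strip051.LC.E1.V3
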