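import Pool.Agent.Strip051.LC.E1.V3.Cf2_1
import Pool.Agent.Strip051.LC.E1.V3.Cf2_2
import Pool.Agent.Strip051.LC.E1.V3.Cf2_3
import Pool.Agent.Strip051.LC.E1.V3.Cf2_4
import Pool.Agent.Strip051.LC.E1.V3.Cf2_5
import Pool.Agent.Strip051.LC.E1.V3.Cf2_6
import Pool.Agent.Strip051.LC.E1.V3.Cf2_7
import Pool.Agent.Strip051.LC.E1.V3.Cf2_8
import Pool.Agent.Strip051.LC.E1.V3.Cf2_9

/-! # Rests near the full period: certificate f2 -/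

set_option maxRecDepth 100000

namespace Pool.Agent.Strip051.LC.E1.V3

open Pool.Agent.Strip051.PB
open Pool.Agent.Strip051.LC.E0.Ch (onCell Tree)

theorem x2f : Tree 0 1073741824 0 429496730 0 67108864 T2F :=
  ⟨_, (chk3_a (chk3_c (chk3_a (chk3_b (chk3_c (chk3_a (chk3_b x2f_h0 x2f_h1) (chk3_b x2f_h2
      x2f_h3)) x2f_h4) (chk3_c (chk3_a (chk3_b x2f_h5 (chk3_c x2f_h6 x2f_h7)) (chk3_b x2f_h8
      x2f_h9)) x2f_h10)) (chk3_b (chk3_c (chk3_a (chk3_b x2f_h11 x2f_h12) (chk3_b x2f_h13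
      x2f_h14)) x2f_h15) (chk3_c (chk3_a (chk3_b x2f_h16 x2f_h17) (chk3_b x2f_h18 x2f_h19))
      x2f_h20))) (chk3_a (chk3_b (chk3_b (chk3_b (chk3_b (chk3_a x2f_h21 x2f_h22) x2f_h23)
      (chk3_a x2f_h24 x2f_h25)) (chk3_b (chk3_a (chk3_b x2f_h26 x2f_h27) x2f_h28) (chk3_a (chk3_b
      x2f_h29 x2f_h30) (chk3_b x2f_h31 x2f_h32)))) (chk3_b (chk3_b (chk3_a (chk3_b x2f_h33
      x2f_h34) x2f_h35) (chk3_a (chk3_c x2f_h36 (chk3_b (chk3_a (chk3_c x2f_h37 (chk3_b x2f_h38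
      (chk3_a x2f_h39 x2f_h40))) x2f_h41) x2f_h42)) x2f_h43)) (chk3_c (chk3_a (chk3_b (chk3_a
      (chk3_b x2f_h44 x2f_h45) x2f_h46) (chk3_a (chk3_b x2f_h47 x2f_h48) x2f_h49)) (chk3_b
      x2f_h50 (chk3_a x2f_h51 x2f_h52))) (chk3_b (chk3_a (chk3_c x2f_h53 (chk3_b x2f_h54
      x2f_h55)) (chk3_b x2f_h56 x2f_h57)) (chk3_a (chk3_c x2f_h58 (chk3_a (chk3_b x2f_h59 (chk3_c
      (chk3_a (chk3_b x2f_h60 (chk3_c (chk3_c x2f_h61 (chk3_a (chk3_b (chk3_a (chk3_b (chk3_a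
      (chk3_a (chk3_a (chk3_b x2f_h62 (chk3_a x2f_h63 (chk3_b x2f_h64 x2f_h65))) x2f_h66)
      x2f_h67) x2f_h68) x2f_h69) x2f_h70) x2f_h71) x2f_h72)) x2f_h73)) x2f_h74) x2f_h75))
      x2f_h76)) x2f_h77))))) (chk3_b (chk3_b (chk3_b (chk3_b (chk3_c x2f_h78 x2f_h79) (chk3_c
      x2f_h80 x2f_h81)) (chk3_b (chk3_c x2f_h82 x2f_h83) (chk3_c x2f_h84 x2f_h85))) (chk3_b
      (chk3_b (chk3_c x2f_h86 x2f_h87) (chk3_c x2f_h88 x2f_h89)) (chk3_b (chk3_a x2f_h90 (chk3_c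
      x2f_h91 x2f_h92)) (chk3_a x2f_h93 (chk3_c x2f_h94 x2f_h95))))) (chk3_b (chk3_b (chk3_b
      (chk3_a x2f_h96 (chk3_b x2f_h97 x2f_h98)) (chk3_a x2f_h99 x2f_h100)) (chk3_a (chk3_b
      x2f_h101 x2f_h102) (chk3_b x2f_h103 x2f_h104))) (chk3_b (chk3_a (chk3_c x2f_h105 x2f_h106)
      x2f_h107) (chk3_c (chk3_a x2f_h108 x2f_h109) (chk3_a (chk3_c x2f_h110 x2f_h111)
      x2f_h112))))))) (chk3_c (chk3_a (chk3_b (chk3_c (chk3_a (chk3_b (chk3_c x2f_h113 x2f_h114)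
      x2f_h115) (chk3_b (chk3_c x2f_h116 x2f_h117) x2f_h118)) (chk3_b x2f_h119 x2f_h120)) (chk3_c
      (chk3_a (chk3_b x2f_h121 x2f_h122) (chk3_b x2f_h123 x2f_h124)) x2f_h125)) (chk3_b (chk3_c
      (chk3_a (chk3_b x2f_h126 x2f_h127) x2f_h128) x2f_h129) (chk3_c (chk3_a x2f_h130 x2f_h131)
      x2f_h132))) (chk3_a (chk3_b (chk3_b (chk3_b (chk3_b x2f_h133 x2f_h134) x2f_h135) (chk3_b
      x2f_h136 x2f_h137)) (chk3_b (chk3_b x2f_h138 x2f_h139) (chk3_b x2f_h140 x2f_h141)))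
      x2f_h142)))⟩

end Pool.Agent.Strip051.LC.E1.V3
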