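import Pool.Agent.Strip051.LC.E1.V3.Rw
import Pool.Agent.Strip051.LC.E0.Ch.Cell

/-! # Rests near the full period: certificate Cn1_2 -/

set_option maxRecDepth 100000

namespace Pool.Agent.Strip051.LC.E1.V3

open Pool.Agent.Strip051.PB
open Pool.Agent.Strip051.LC.E0.Ch (onCell Tree)

def x1n_t20 : T :=
  (.a (.c (.a (.l 32) (.a (.c (.a (.l 32) (.l 64)) (.a (.l 32) (.l 32))) (.a (.c (.l 65) (.l 64))
      (.l 65)))) (.a (.l 32) (.a (.c (.a (.l 32) (.l 32)) (.a (.l 32) (.l 32))) (.a (.l 64) (.l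
      65))))) (.a (.a (.c (.l 0) (.a (.l 65) (.l 0))) (.l 0)) (.l 0)))

theorem x1n_h20 : chk3 (onCell 0 2684354560 0 1073741824 0 26843546 T1N) x1n_t20 23 37 7 = true := by decide +kernel

def x1n_t21 : T :=
  (.c (.a (.a (.a (.l 32) (.b (.l 65) (.a (.l 32) (.l 65)))) (.a (.a (.b (.l 65) (.l 65)) (.b (.l
      65) (.l 65))) (.l 66))) (.l 0)) (.b (.a (.a (.l 32) (.a (.a (.l 64) (.c (.l 64) (.l 64)))
      (.a (.a (.l 65) (.l 66)) (.l 0)))) (.l 0)) (.a (.a (.l 32) (.a (.a (.l 64) (.l 64)) (.a (.c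
      (.l 64) (.l 64)) (.l 66)))) (.l 0))))

theorem x1n_h21 : chk3 (onCell 0 2684354560 0 1073741824 0 26843546 T1N) x1n_t21 23 19 6 = true := by decide +kernel

def x1n_t22 : T :=
  (.a (.c (.b (.a (.l 32) (.a (.a (.l 32) (.l 64)) (.a (.l 64) (.a (.l 65) (.l 66))))) (.a (.l
      32) (.a (.a (.l 32) (.l 64)) (.a (.l 64) (.l 65))))) (.b (.c (.a (.l 32) (.a (.a (.l 32)
      (.l 32)) (.l 64))) (.a (.l 32) (.a (.l 32) (.l 64)))) (.a (.l 32) (.a (.a (.l 32) (.l 32))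
      (.l 64))))) (.c (.a (.a (.a (.a (.l 66) (.l 66)) (.l 0)) (.l 0)) (.l 0)) (.a (.a (.b (.a
      (.a (.l 66) (.l 66)) (.l 66)) (.a (.l 66) (.l 66))) (.l 66)) (.l 0))))

theorem x1n_h22 : chk3 (onCell 0 2684354560 0 1073741824 0 26843546 T1N) x1n_t22 23 19 7 = true := by decide +kernel

def x1n_t23 : T :=
  (.c (.b (.a (.l 64) (.a (.l 64) (.l 32))) (.c (.a (.l 64) (.a (.l 64) (.l 32))) (.a (.l 64) (.a
      (.l 64) (.l 32))))) (.b (.a (.l 64) (.a (.l 64) (.c (.l 32) (.l 32)))) (.a (.l 64) (.a (.l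
      64) (.a (.c (.l 32) (.l 32)) (.l 32))))))

theorem x1n_h23 : chk3 (onCell 0 2684354560 0 1073741824 0 26843546 T1N) x1n_t23 10 10 3 = true := by decide +kernel

def x1n_t24 : T :=
  (.c (.c (.a (.l 64) (.b (.a (.l 64) (.l 32)) (.a (.l 64) (.l 32)))) (.a (.l 64) (.b (.a (.l 64)
      (.l 32)) (.a (.a (.l 64) (.l 64)) (.l 32))))) (.a (.l 64) (.b (.a (.c (.a (.l 64) (.l 64))
      (.a (.l 32) (.l 64))) (.a (.c (.l 32) (.a (.l 32) (.l 32))) (.l 32))) (.a (.a (.l 64) (.a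
      (.c (.l 64) (.l 64)) (.l 32))) (.a (.a (.l 32) (.l 32)) (.l 32))))))

theorem x1n_h24 : chk3 (onCell 0 2684354560 0 1073741824 0 26843546 T1N) x1n_t24 10 11 3 = true := by decide +kernel

def x1n_t25 : T :=
  (.b (.a (.l 32) (.l 32)) (.a (.l 32) (.l 32)))

theorem x1n_h25 : chk3 (onCell 0 2684354560 0 1073741824 0 26843546 T1N) x1n_t25 22 10 6 = true := by decide +kernel

def x1n_t26 : T :=
  (.b (.c (.a (.a (.a (.l 32) (.a (.l 32) (.c (.l 32) (.l 32)))) (.a (.a (.l 64) (.c (.l 66) (.l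
      64))) (.a (.a (.l 66) (.l 66)) (.l 0)))) (.l 0)) (.a (.a (.l 32) (.a (.a (.l 64) (.l 64))
      (.a (.c (.l 64) (.l 64)) (.a (.l 66) (.l 66))))) (.a (.a (.l 66) (.l 0)) (.l 0)))) (.c (.c
      (.a (.a (.a (.l 32) (.l 32)) (.a (.l 64) (.l 66))) (.l 0)) (.a (.a (.l 32) (.a (.l 64) (.a
      (.l 64) (.l 66)))) (.l 66))) (.a (.a (.l 32) (.a (.a (.l 32) (.l 64)) (.a (.l 64) (.l
      66)))) (.a (.a (.a (.l 66) (.l 66)) (.l 0)) (.l 0)))))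

theorem x1n_h26 : chk3 (onCell 0 2684354560 0 1073741824 0 26843546 T1N) x1n_t26 23 10 6 = true := by decide +kernel

def x1n_t27 : T :=
  (.a (.a (.l 32) (.l 32)) (.l 32))

theorem x1n_h27 : chk3 (onCell 0 2684354560 0 1073741824 0 26843546 T1N) x1n_t27 22 11 6 = true := by decide +kernel

def x1n_t28 : T :=
  (.b (.c (.a (.a (.l 32) (.a (.l 64) (.l 66))) (.l 0)) (.b (.a (.a (.l 32) (.a (.l 64) (.l 64)))
      (.l 66)) (.a (.a (.l 32) (.a (.l 64) (.l 64))) (.a (.l 66) (.l 0))))) (.c (.a (.a (.l 32)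
      (.a (.l 64) (.l 64))) (.l 66)) (.b (.a (.a (.l 32) (.l 64)) (.a (.l 66) (.l 0))) (.a (.a
      (.l 32) (.l 64)) (.a (.l 66) (.l 0))))))

theorem x1n_h28 : chk3 (onCell 0 2684354560 0 1073741824 0 26843546 T1N) x1n_t28 23 11 12 = true := by decide +kernel

def x1n_t29 : T :=
  (.b (.b (.a (.a (.l 32) (.a (.l 64) (.l 64))) (.a (.a (.l 66) (.l 0)) (.l 0))) (.c (.a (.a (.l
      32) (.l 64)) (.a (.l 66) (.l 0))) (.a (.a (.l 32) (.l 64)) (.a (.l 66) (.l 0))))) (.c (.b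
      (.a (.a (.l 32) (.l 64)) (.a (.l 66) (.l 0))) (.a (.a (.l 32) (.l 64)) (.a (.l 66) (.l
      0)))) (.b (.a (.a (.l 32) (.l 64)) (.a (.l 66) (.l 0))) (.a (.a (.l 32) (.l 64)) (.a (.l
      66) (.l 0))))))

theorem x1n_h29 : chk3 (onCell 0 2684354560 0 1073741824 0 26843546 T1N) x1n_t29 23 11 13 = true := by decide +kernel

def x1n_t30 : T :=
  (.b (.b (.a (.l 32) (.c (.l 32) (.l 32))) (.a (.l 32) (.l 32))) (.a (.a (.l 32) (.l 32)) (.c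
      (.l 32) (.l 32))))

theorem x1n_h30 : chk3 (onCell 0 2684354560 0 1073741824 0 26843546 T1N) x1n_t30 22 5 7 = true := by decide +kernel

def x1n_t31 : T :=
  (.a (.c (.b (.a (.l 32) (.a (.a (.l 32) (.l 32)) (.l 64))) (.a (.l 32) (.a (.a (.l 32) (.l 32))
      (.l 64)))) (.b (.a (.l 32) (.a (.a (.l 32) (.l 32)) (.l 64))) (.a (.l 32) (.a (.l 32) (.l
      64))))) (.c (.a (.a (.a (.c (.l 66) (.l 64)) (.l 66)) (.l 0)) (.l 0)) (.a (.a (.a (.l 64)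
      (.l 66)) (.a (.l 66) (.l 66))) (.l 0))))

theorem x1n_h31 : chk3 (onCell 0 2684354560 0 1073741824 0 26843546 T1N) x1n_t31 23 20 7 = true := by decide +kernel

def x1n_t32 : T :=
  (.a (.c (.b (.a (.l 32) (.a (.l 32) (.l 64))) (.a (.l 32) (.a (.l 32) (.l 64)))) (.b (.a (.l
      32) (.a (.l 32) (.l 64))) (.c (.a (.l 32) (.a (.l 32) (.l 32))) (.a (.l 32) (.a (.l 32) (.l
      32)))))) (.c (.a (.a (.a (.l 64) (.l 66)) (.l 66)) (.l 0)) (.a (.b (.a (.l 64) (.l 66)) (.a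
      (.l 64) (.l 66))) (.l 66))))

theorem x1n_h32 : chk3 (onCell 0 2684354560 0 1073741824 0 26843546 T1N) x1n_t32 23 21 7 = true := by decide +kernel

def x1n_t33 : T :=
  (.c (.a (.b (.a (.l 32) (.a (.l 32) (.l 64))) (.a (.l 32) (.a (.l 32) (.l 64)))) (.b (.a (.a
      (.l 64) (.l 66)) (.l 0)) (.a (.a (.l 64) (.l 66)) (.l 66)))) (.a (.b (.c (.a (.l 32) (.a
      (.l 32) (.l 32))) (.a (.l 32) (.a (.l 32) (.l 32)))) (.c (.a (.l 32) (.a (.l 32) (.l 32)))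
      (.a (.l 32) (.a (.l 32) (.l 32))))) (.a (.a (.l 64) (.l 66)) (.b (.l 66) (.l 66)))))

theorem x1n_h33 : chk3 (onCell 0 2684354560 0 1073741824 0 26843546 T1N) x1n_t33 23 22 7 = true := by decide +kernel

def x1n_t34 : T :=
  (.c (.a (.b (.a (.l 32) (.a (.l 32) (.l 64))) (.a (.l 32) (.a (.l 32) (.l 64)))) (.b (.a (.l
      66) (.l 66)) (.a (.l 66) (.l 66)))) (.a (.a (.l 32) (.a (.l 32) (.l 32))) (.a (.a (.l 64)
      (.l 66)) (.l 66))))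

theorem x1n_h34 : chk3 (onCell 0 2684354560 0 1073741824 0 26843546 T1N) x1n_t34 23 23 7 = true := by decide +kernel

def x1n_t35 : T :=
  (.b (.c (.a (.b (.c (.l 64) (.l 64)) (.c (.l 64) (.l 64))) (.b (.c (.l 64) (.a (.l 64) (.l
      32))) (.c (.l 64) (.a (.l 32) (.l 32))))) (.b (.c (.a (.l 64) (.a (.l 64) (.l 32))) (.a (.l
      64) (.a (.a (.l 64) (.l 32)) (.l 32)))) (.c (.a (.l 64) (.a (.l 32) (.l 32))) (.a (.l 64)
      (.a (.a (.l 32) (.l 32)) (.l 32)))))) (.c (.a (.b (.c (.l 64) (.l 64)) (.l 15)) (.b (.c (.l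
      32) (.l 32)) (.l 15))) (.c (.b (.a (.a (.l 32) (.l 32)) (.a (.l 32) (.l 32))) (.l 15)) (.b
      (.a (.a (.l 15) (.l 15)) (.l 15)) (.l 15)))))

theorem x1n_h35 : chk3 (onCell 0 2684354560 0 1073741824 0 26843546 T1N) x1n_t35 10 3 2 = true := by decide +kernel

def x1n_t36 : T :=
  (.a (.b (.c (.l 32) (.l 32)) (.c (.l 32) (.l 32))) (.b (.c (.a (.l 66) (.l 66)) (.a (.a (.a (.b
      (.l 64) (.l 64)) (.l 66)) (.l 66)) (.l 0))) (.c (.a (.l 66) (.l 66)) (.a (.a (.a (.a (.l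
      32) (.b (.l 64) (.c (.l 64) (.l 32)))) (.l 66)) (.l 66)) (.l 0)))))

theorem x1n_h36 : chk3 (onCell 0 2684354560 0 1073741824 0 26843546 T1N) x1n_t36 11 6 4 = true := by decide +kernel

def x1n_t37 : T :=
  (.a (.b (.l 32) (.l 32)) (.c (.l 32) (.l 32)))

theorem x1n_h37 : chk3 (onCell 0 2684354560 0 1073741824 0 26843546 T1N) x1n_t37 22 6 5 = true := by decide +kernel

def x1n_t38 : T :=
  (.c (.a (.a (.a (.l 32) (.b (.a (.l 64) (.c (.l 64) (.l 64))) (.a (.l 64) (.l 64)))) (.a (.a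
      (.b (.c (.l 64) (.l 64)) (.c (.l 64) (.l 64))) (.b (.l 66) (.c (.l 64) (.l 64)))) (.l 66)))
      (.l 0)) (.b (.c (.a (.a (.a (.l 32) (.l 64)) (.a (.l 64) (.l 66))) (.l 0)) (.a (.a (.l 32)
      (.a (.l 64) (.l 64))) (.l 66))) (.a (.a (.a (.l 32) (.l 64)) (.a (.l 64) (.a (.l 64) (.l
      66)))) (.a (.l 66) (.l 0)))))

theorem x1n_h38 : chk3 (onCell 0 2684354560 0 1073741824 0 26843546 T1N) x1n_t38 23 12 5 = true := by decide +kernel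

def x1n_t39 : T :=
  (.c (.a (.c (.a (.a (.l 32) (.l 64)) (.l 66)) (.a (.a (.l 32) (.l 64)) (.a (.l 64) (.l 66))))
      (.l 66)) (.b (.a (.a (.a (.l 32) (.l 32)) (.a (.l 64) (.l 66))) (.a (.a (.l 66) (.l 0)) (.l
      0))) (.c (.a (.a (.l 32) (.l 64)) (.l 66)) (.a (.a (.l 32) (.l 64)) (.a (.l 66) (.l 15))))))

theorem x1n_h39 : chk3 (onCell 0 2684354560 0 1073741824 0 26843546 T1N) x1n_t39 23 13 5 = true := by decide +kernel

end Pool.Agent.Strip051.LC.E1.V3
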