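import Pool.Agent.Strip051.LC.E1.V3.Rw
import Pool.Agent.Strip051.LC.E0.Ch.Cell

/-! # Rests near the full period: certificate Cn1_3 -/

set_option maxRecDepth 100000

namespace Pool.Agent.Strip051.LC.E1.V3

open Pool.Agent.Strip051.PB
open Pool.Agent.Strip051.LC.E0.Ch (onCell Tree)

def x1n_t40 : T :=
  (.c (.a (.b (.c (.c (.a (.l 32) (.l 32)) (.a (.l 32) (.l 32))) (.a (.l 32) (.l 32))) (.l 15))
      (.b (.c (.a (.l 66) (.l 66)) (.a (.a (.a (.a (.l 32) (.b (.l 64) (.l 15))) (.l 66)) (.l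
      66)) (.l 0))) (.l 15))) (.a (.a (.b (.l 32) (.l 15)) (.c (.b (.l 15) (.l 15)) (.l 15))) (.c
      (.l 15) (.l 15))))

theorem x1n_h40 : chk3 (onCell 0 2684354560 0 1073741824 0 26843546 T1N) x1n_t40 11 7 2 = true := by decide +kernel

def x1n_t41 : T :=
  (.b (.a (.l 64) (.a (.b (.a (.l 64) (.l 32)) (.a (.l 64) (.l 32))) (.a (.b (.l 32) (.c (.l 32)
      (.l 32))) (.l 32)))) (.a (.c (.l 64) (.a (.l 32) (.l 64))) (.a (.b (.a (.l 32) (.l 32)) (.a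
      (.l 32) (.l 32))) (.a (.c (.l 32) (.l 32)) (.l 32)))))

theorem x1n_h41 : chk3 (onCell 0 2684354560 0 1073741824 0 26843546 T1N) x1n_t41 10 6 6 = true := by decide +kernel

def x1n_t42 : T :=
  (.b (.a (.l 64) (.a (.b (.a (.l 64) (.a (.l 32) (.l 32))) (.a (.l 32) (.a (.l 32) (.l 32))))
      (.a (.b (.a (.l 32) (.l 32)) (.a (.l 32) (.l 32))) (.c (.l 32) (.l 32))))) (.a (.b (.l 64)
      (.a (.l 32) (.l 32))) (.a (.b (.a (.l 32) (.a (.l 32) (.l 32))) (.l 15)) (.a (.a (.l 32)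
      (.c (.l 32) (.l 32))) (.c (.l 32) (.b (.l 32) (.l 15)))))))

theorem x1n_h42 : chk3 (onCell 0 2684354560 0 1073741824 0 26843546 T1N) x1n_t42 10 6 7 = true := by decide +kernel

def x1n_t43 : T :=
  (.a (.c (.l 15) (.l 15)) (.b (.l 15) (.l 15)))

theorem x1n_h43 : chk3 (onCell 0 2684354560 0 1073741824 0 26843546 T1N) x1n_t43 10 7 3 = true := by decide +kernel

def x1n_t44 : T :=
  (.b (.a (.b (.l 32) (.l 32)) (.b (.l 32) (.l 32))) (.l 15))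

theorem x1n_h44 : chk3 (onCell 0 2684354560 0 1073741824 0 26843546 T1N) x1n_t44 22 3 6 = true := by decide +kernel

def x1n_t45 : T :=
  (.b (.c (.b (.a (.a (.l 32) (.l 64)) (.l 66)) (.a (.a (.l 32) (.l 64)) (.a (.l 66) (.l 0))))
      (.b (.a (.a (.l 32) (.l 64)) (.a (.l 66) (.l 0))) (.a (.a (.l 32) (.l 64)) (.a (.l 66) (.l
      0))))) (.c (.a (.a (.l 32) (.l 64)) (.a (.l 66) (.l 0))) (.b (.a (.a (.l 32) (.l 64)) (.a
      (.l 66) (.l 0))) (.a (.a (.l 32) (.l 64)) (.a (.l 66) (.l 0))))))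

theorem x1n_h45 : chk3 (onCell 0 2684354560 0 1073741824 0 26843546 T1N) x1n_t45 23 12 12 = true := by decide +kernel

def x1n_t46 : T :=
  (.c (.b (.a (.a (.l 32) (.l 64)) (.a (.l 66) (.l 0))) (.c (.a (.a (.l 32) (.l 64)) (.a (.l 64)
      (.l 0))) (.a (.a (.l 32) (.l 64)) (.a (.l 64) (.l 0))))) (.b (.a (.a (.l 32) (.l 64)) (.a
      (.l 64) (.l 0))) (.a (.a (.l 32) (.l 64)) (.a (.l 64) (.l 0)))))

theorem x1n_h46 : chk3 (onCell 0 2684354560 0 1073741824 0 26843546 T1N) x1n_t46 23 24 13 = true := by decide +kernel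

def x1n_t47 : T :=
  (.c (.b (.a (.a (.l 32) (.l 64)) (.a (.l 64) (.l 0))) (.a (.a (.l 32) (.l 64)) (.a (.l 64) (.l
      0)))) (.b (.c (.a (.a (.l 32) (.l 64)) (.a (.l 64) (.l 0))) (.b (.a (.a (.l 32) (.l 32))
      (.l 66)) (.a (.a (.l 32) (.l 32)) (.l 66)))) (.a (.a (.l 32) (.l 64)) (.a (.l 64) (.l 0)))))

theorem x1n_h47 : chk3 (onCell 0 2684354560 0 1073741824 0 26843546 T1N) x1n_t47 23 25 13 = true := by decide +kernel

def x1n_t48 : T :=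
  (.c (.b (.c (.a (.a (.l 32) (.l 64)) (.a (.l 66) (.l 0))) (.b (.a (.a (.l 32) (.l 64)) (.a (.l
      64) (.l 0))) (.a (.a (.l 32) (.l 64)) (.a (.l 64) (.l 0))))) (.c (.l 15) (.l 15))) (.b (.c
      (.b (.a (.a (.l 32) (.l 64)) (.a (.l 64) (.l 0))) (.a (.a (.l 32) (.l 15)) (.l 15))) (.b
      (.a (.a (.l 32) (.l 32)) (.l 66)) (.l 15))) (.l 15)))

theorem x1n_h48 : chk3 (onCell 0 2684354560 0 1073741824 0 26843546 T1N) x1n_t48 23 13 6 = true := by decide +kernel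

def x1n_t49 : T :=
  (.l 15)

theorem x1n_h49 : chk3 (onCell 0 2684354560 0 1073741824 0 26843546 T1N) x1n_t49 23 7 6 = true := by decide +kernel

def x1n_t50 : T :=
  (.b (.b (.a (.a (.l 32) (.l 32)) (.a (.l 32) (.l 32))) (.a (.a (.c (.l 32) (.l 32)) (.l 32))
      (.a (.c (.l 32) (.l 32)) (.c (.l 32) (.l 15))))) (.l 15))

theorem x1n_h50 : chk3 (onCell 0 2684354560 0 1073741824 0 26843546 T1N) x1n_t50 22 3 7 = true := by decide +kernel

def x1n_t51 : T :=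
  (.c (.b (.a (.c (.a (.l 32) (.l 64)) (.a (.l 32) (.l 32))) (.a (.l 66) (.l 66))) (.a (.a (.l
      32) (.a (.l 32) (.l 32))) (.a (.l 64) (.l 66)))) (.b (.a (.a (.l 32) (.a (.l 32) (.l 32)))
      (.a (.l 64) (.l 66))) (.c (.a (.a (.l 32) (.l 32)) (.l 66)) (.a (.a (.l 32) (.l 32)) (.l
      66)))))

theorem x1n_h51 : chk3 (onCell 0 2684354560 0 1073741824 0 26843546 T1N) x1n_t51 23 24 7 = true := by decide +kernel

def x1n_t52 : T :=
  (.c (.b (.a (.a (.l 32) (.a (.l 32) (.l 32))) (.a (.l 64) (.l 66))) (.a (.a (.l 32) (.a (.l 32)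
      (.l 32))) (.a (.l 64) (.l 66)))) (.b (.c (.a (.a (.l 32) (.l 32)) (.l 66)) (.a (.a (.l 32)
      (.l 32)) (.l 66))) (.a (.c (.a (.l 32) (.l 32)) (.a (.l 32) (.l 32))) (.a (.l 64) (.l
      66)))))

theorem x1n_h52 : chk3 (onCell 0 2684354560 0 1073741824 0 26843546 T1N) x1n_t52 23 25 7 = true := by decide +kernel

def x1n_t53 : T :=
  (.b (.c (.a (.a (.l 32) (.a (.l 32) (.l 32))) (.a (.l 66) (.l 15))) (.l 15)) (.l 15))

theorem x1n_h53 : chk3 (onCell 0 2684354560 0 1073741824 0 26843546 T1N) x1n_t53 23 13 7 = true := by decide +kernel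

def x1n_t54 : T :=
  (.l 15)

theorem x1n_h54 : chk3 (onCell 0 2684354560 0 1073741824 0 26843546 T1N) x1n_t54 23 7 7 = true := by decide +kernel

def x1n_t55 : T :=
  (.c (.a (.b (.c (.l 66) (.l 66)) (.c (.l 66) (.l 66))) (.b (.c (.l 34) (.l 34)) (.c (.l 34) (.l
      34)))) (.b (.b (.l 65) (.a (.a (.a (.a (.c (.l 66) (.l 2)) (.l 65)) (.l 66)) (.l 34)) (.l
      34))) (.a (.b (.a (.a (.c (.l 66) (.l 66)) (.l 66)) (.l 34)) (.a (.a (.c (.l 66) (.l 66))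
      (.l 66)) (.l 34))) (.l 34))))

theorem x1n_h55 : chk3 (onCell 0 2684354560 0 1073741824 0 26843546 T1N) x1n_t55 12 4 2 = true := by decide +kernel

def x1n_t56 : T :=
  (.c (.a (.b (.c (.l 66) (.l 66)) (.c (.a (.l 66) (.l 34)) (.a (.l 66) (.l 34)))) (.b (.c (.l
      34) (.l 34)) (.c (.l 34) (.l 34)))) (.b (.a (.b (.a (.a (.l 66) (.l 66)) (.l 34)) (.a (.a
      (.l 66) (.l 66)) (.l 66))) (.l 34)) (.a (.a (.b (.a (.l 66) (.l 66)) (.c (.l 66) (.l 66)))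
      (.b (.a (.l 66) (.l 34)) (.l 66))) (.l 34))))

theorem x1n_h56 : chk3 (onCell 0 2684354560 0 1073741824 0 26843546 T1N) x1n_t56 12 5 2 = true := by decide +kernel

def x1n_t57 : T :=
  (.b (.c (.a (.b (.c (.l 34) (.l 34)) (.c (.l 34) (.l 34))) (.b (.c (.l 34) (.l 34)) (.c (.l 34)
      (.l 34)))) (.b (.b (.l 34) (.l 34)) (.b (.l 34) (.a (.l 34) (.l 34))))) (.c (.a (.b (.c (.l
      34) (.l 34)) (.c (.l 34) (.l 34))) (.b (.c (.l 34) (.l 34)) (.c (.l 34) (.l 34)))) (.b (.a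
      (.l 34) (.l 34)) (.a (.l 34) (.l 34)))))

theorem x1n_h57 : chk3 (onCell 0 2684354560 0 1073741824 0 26843546 T1N) x1n_t57 13 2 2 = true := by decide +kernel

def x1n_t58 : T :=
  (.c (.b (.l 65) (.a (.l 65) (.l 34))) (.a (.b (.l 65) (.b (.l 65) (.a (.c (.l 65) (.l 65)) (.l
      65)))) (.a (.l 66) (.l 65))))

theorem x1n_h58 : chk3 (onCell 0 2684354560 0 1073741824 0 26843546 T1N) x1n_t58 12 16 3 = true := by decide +kernel

def x1n_t59 : T :=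
  (.a (.b (.a (.a (.a (.l 2) (.l 65)) (.l 65)) (.l 34)) (.a (.a (.a (.l 2) (.c (.l 66) (.l 2)))
      (.c (.l 66) (.l 66))) (.l 34))) (.l 34))

theorem x1n_h59 : chk3 (onCell 0 2684354560 0 1073741824 0 26843546 T1N) x1n_t59 12 17 6 = true := by decide +kernel

def x1n_t60 : T :=
  (.a (.b (.a (.b (.c (.l 65) (.a (.l 2) (.a (.l 65) (.l 66)))) (.c (.a (.l 2) (.l 65)) (.a (.l
      2) (.a (.l 65) (.l 66))))) (.a (.c (.l 34) (.l 65)) (.l 34))) (.a (.c (.a (.l 2) (.a (.a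
      (.l 2) (.l 66)) (.l 66))) (.b (.a (.l 2) (.a (.l 2) (.l 66))) (.a (.l 2) (.a (.l 2) (.l
      66))))) (.a (.c (.l 66) (.l 66)) (.l 66)))) (.a (.l 66) (.a (.a (.l 66) (.l 66)) (.c (.l
      34) (.l 66)))))

theorem x1n_h60 : chk3 (onCell 0 2684354560 0 1073741824 0 26843546 T1N) x1n_t60 12 17 7 = true := by decide +kernel

def x1n_t61 : T :=
  (.c (.b (.a (.a (.a (.l 2) (.c (.l 66) (.l 2))) (.c (.l 66) (.l 66))) (.l 66)) (.a (.a (.a (.l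
      2) (.c (.l 66) (.l 2))) (.c (.l 66) (.l 66))) (.a (.l 66) (.l 34)))) (.b (.a (.c (.a (.l 2)
      (.a (.l 66) (.l 66))) (.a (.l 2) (.a (.l 2) (.l 66)))) (.c (.l 66) (.a (.a (.l 66) (.l 66))
      (.l 66)))) (.a (.c (.a (.l 2) (.a (.l 66) (.l 66))) (.b (.a (.l 2) (.a (.l 2) (.l 66))) (.a
      (.l 2) (.a (.l 2) (.l 2))))) (.a (.c (.l 66) (.a (.c (.l 66) (.l 66)) (.c (.l 66) (.l
      66)))) (.l 66)))))

theorem x1n_h61 : chk3 (onCell 0 2684354560 0 1073741824 0 26843546 T1N) x1n_t61 24 18 3 = true := by decide +kernel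

def x1n_t62 : T :=
  (.c (.l 34) (.a (.l 66) (.c (.l 66) (.b (.l 66) (.l 66)))))

theorem x1n_h62 : chk3 (onCell 0 2684354560 0 1073741824 0 26843546 T1N) x1n_t62 25 18 3 = true := by decide +kernel

def x1n_t63 : T :=
  (.c (.a (.c (.a (.l 66) (.l 66)) (.a (.l 2) (.l 66))) (.a (.l 66) (.l 34))) (.a (.b (.c (.a (.l
      2) (.a (.l 2) (.l 66))) (.b (.a (.l 2) (.a (.l 2) (.l 2))) (.a (.l 2) (.a (.l 2) (.l 2)))))
      (.c (.a (.l 2) (.a (.l 2) (.l 66))) (.b (.a (.l 2) (.a (.l 2) (.l 2))) (.a (.l 2) (.a (.l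
      2) (.l 2)))))) (.b (.a (.c (.l 66) (.b (.c (.l 66) (.l 66)) (.a (.l 66) (.l 66)))) (.l 66))
      (.a (.c (.l 66) (.b (.a (.l 66) (.l 66)) (.a (.l 66) (.l 66)))) (.c (.l 34) (.l 66))))))

theorem x1n_h63 : chk3 (onCell 0 2684354560 0 1073741824 0 26843546 T1N) x1n_t63 24 19 3 = true := by decide +kernel

end Pool.Agent.Strip051.LC.E1.V3
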