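import Pool.Agent.Strip051.LC.E1.V3.Rw
import Pool.Agent.Strip051.LC.E0.Ch.Cell

/-! # Rests near the full period: certificate Cn1_4 -/

set_option maxRecDepth 100000

namespace Pool.Agent.Strip051.LC.E1.V3

open Pool.Agent.Strip051.PB
open Pool.Agent.Strip051.LC.E0.Ch (onCell Tree)

def x1n_t64 : T :=
  (.c (.l 34) (.a (.l 66) (.b (.c (.l 66) (.a (.l 66) (.l 66))) (.a (.l 66) (.c (.l 66) (.b (.l
      66) (.a (.l 66) (.l 66))))))))

theorem x1n_h64 : chk3 (onCell 0 2684354560 0 1073741824 0 26843546 T1N) x1n_t64 25 19 3 = true := by decide +kernel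

def x1n_t65 : T :=
  (.a (.b (.a (.c (.a (.l 2) (.l 66)) (.a (.l 2) (.l 66))) (.a (.l 66) (.l 34))) (.a (.c (.l 66)
      (.a (.l 2) (.l 66))) (.c (.l 66) (.l 66)))) (.l 34))

theorem x1n_h65 : chk3 (onCell 0 2684354560 0 1073741824 0 26843546 T1N) x1n_t65 12 10 6 = true := by decide +kernel

def x1n_t66 : T :=
  (.a (.b (.a (.b (.a (.l 2) (.l 66)) (.a (.l 2) (.l 66))) (.a (.l 66) (.l 66))) (.a (.b (.a (.l
      2) (.l 66)) (.a (.l 2) (.l 2))) (.b (.a (.l 66) (.l 66)) (.a (.l 66) (.l 66))))) (.b (.l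
      66) (.a (.l 66) (.l 66))))

theorem x1n_h66 : chk3 (onCell 0 2684354560 0 1073741824 0 26843546 T1N) x1n_t66 12 10 14 = true := by decide +kernel

def x1n_t67 : T :=
  (.a (.b (.a (.b (.b (.a (.l 2) (.l 66)) (.a (.l 2) (.l 2))) (.b (.c (.l 66) (.l 2)) (.c (.l 2)
      (.l 2)))) (.b (.a (.b (.l 66) (.l 66)) (.b (.l 66) (.l 66))) (.a (.l 66) (.l 66)))) (.a (.b
      (.c (.l 2) (.l 2)) (.l 2)) (.b (.a (.l 66) (.l 66)) (.c (.l 66) (.l 66))))) (.a (.b (.b (.l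
      66) (.l 66)) (.b (.c (.l 66) (.l 66)) (.c (.l 66) (.l 66)))) (.b (.a (.l 66) (.b (.c (.l 2)
      (.l 66)) (.c (.l 2) (.l 66)))) (.b (.c (.l 66) (.l 66)) (.c (.l 2) (.l 66))))))

theorem x1n_h67 : chk3 (onCell 0 2684354560 0 1073741824 0 26843546 T1N) x1n_t67 12 10 15 = true := by decide +kernel

def x1n_t68 : T :=
  (.c (.a (.a (.c (.l 66) (.b (.a (.l 2) (.l 66)) (.a (.l 2) (.l 2)))) (.c (.l 66) (.l 66))) (.a
      (.l 66) (.l 66))) (.c (.a (.a (.b (.b (.a (.l 2) (.l 2)) (.c (.l 2) (.l 2))) (.l 66)) (.b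
      (.a (.l 66) (.l 66)) (.a (.l 66) (.l 66)))) (.a (.b (.l 66) (.l 66)) (.l 66))) (.a (.a (.b
      (.c (.l 2) (.l 2)) (.c (.l 2) (.l 2))) (.c (.b (.l 66) (.l 66)) (.l 66))) (.a (.c (.b (.l
      66) (.l 66)) (.b (.l 66) (.l 66))) (.c (.l 2) (.l 66))))))

theorem x1n_h68 : chk3 (onCell 0 2684354560 0 1073741824 0 26843546 T1N) x1n_t68 12 22 3 = true := by decide +kernel

def x1n_t69 : T :=
  (.c (.a (.a (.c (.l 66) (.b (.a (.l 2) (.l 2)) (.a (.l 2) (.l 2)))) (.c (.l 66) (.l 66))) (.a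
      (.l 66) (.l 66))) (.c (.a (.a (.b (.l 66) (.l 66)) (.a (.l 66) (.l 66))) (.a (.c (.l 66)
      (.l 66)) (.l 66))) (.a (.a (.c (.b (.l 2) (.l 2)) (.b (.c (.l 2) (.l 2)) (.c (.l 2) (.l
      2)))) (.a (.l 2) (.l 2))) (.a (.b (.c (.l 66) (.l 66)) (.c (.l 66) (.l 66))) (.c (.l 66)
      (.a (.l 66) (.l 66)))))))

theorem x1n_h69 : chk3 (onCell 0 2684354560 0 1073741824 0 26843546 T1N) x1n_t69 12 23 3 = true := by decide +kernel

def x1n_t70 : T :=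
  (.b (.c (.l 34) (.a (.a (.a (.l 66) (.l 66)) (.a (.l 66) (.l 66))) (.b (.a (.l 66) (.l 66)) (.a
      (.l 66) (.b (.l 66) (.l 66)))))) (.a (.c (.l 34) (.b (.a (.a (.l 66) (.l 66)) (.a (.l 66)
      (.l 66))) (.a (.a (.l 66) (.l 66)) (.c (.l 66) (.l 66))))) (.c (.l 66) (.b (.a (.c (.l 66)
      (.l 66)) (.b (.c (.l 66) (.l 34)) (.c (.l 66) (.l 34)))) (.a (.c (.l 66) (.l 66)) (.b (.c
      (.l 66) (.l 34)) (.c (.l 66) (.l 66))))))))

theorem x1n_h70 : chk3 (onCell 0 2684354560 0 1073741824 0 26843546 T1N) x1n_t70 13 8 3 = true := by decide +kernel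

def x1n_t71 : T :=
  (.c (.l 34) (.a (.b (.a (.l 66) (.c (.l 66) (.l 66))) (.a (.c (.l 66) (.l 66)) (.c (.l 66) (.l
      66)))) (.b (.a (.c (.l 66) (.l 66)) (.c (.l 66) (.b (.l 66) (.l 66)))) (.a (.c (.l 66) (.c
      (.l 66) (.l 66))) (.c (.l 66) (.b (.l 66) (.l 66)))))))

theorem x1n_h71 : chk3 (onCell 0 2684354560 0 1073741824 0 26843546 T1N) x1n_t71 26 18 3 = true := by decide +kernel

def x1n_t72 : T :=
  (.c (.l 66) (.a (.b (.a (.c (.l 66) (.b (.l 66) (.l 66))) (.c (.l 66) (.c (.l 66) (.l 66))))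
      (.a (.c (.l 66) (.b (.c (.l 2) (.l 66)) (.c (.l 2) (.l 66)))) (.c (.l 66) (.b (.a (.c (.l
      2) (.l 66)) (.l 66)) (.a (.l 66) (.l 66)))))) (.b (.a (.c (.l 66) (.b (.a (.l 66) (.l 66))
      (.a (.l 66) (.l 66)))) (.c (.l 66) (.b (.l 66) (.l 66)))) (.a (.c (.l 66) (.b (.a (.l 66)
      (.l 66)) (.a (.l 66) (.l 66)))) (.c (.l 66) (.b (.l 66) (.l 66)))))))

theorem x1n_h72 : chk3 (onCell 0 2684354560 0 1073741824 0 26843546 T1N) x1n_t72 26 19 3 = true := by decide +kernel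

def x1n_t73 : T :=
  (.c (.b (.l 66) (.l 66)) (.b (.a (.b (.c (.l 66) (.a (.l 66) (.l 66))) (.c (.l 66) (.a (.l 66)
      (.l 66)))) (.b (.c (.l 66) (.l 66)) (.a (.c (.l 66) (.l 66)) (.c (.l 66) (.l 34))))) (.a
      (.b (.a (.c (.l 66) (.l 66)) (.c (.l 66) (.l 66))) (.a (.c (.l 66) (.l 66)) (.c (.l 66) (.l
      66)))) (.b (.a (.c (.l 66) (.l 66)) (.c (.l 66) (.l 34))) (.a (.c (.l 66) (.l 66)) (.c (.b
      (.l 66) (.l 66)) (.a (.c (.l 34) (.l 34)) (.l 34))))))))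

theorem x1n_h73 : chk3 (onCell 0 2684354560 0 1073741824 0 26843546 T1N) x1n_t73 27 9 3 = true := by decide +kernel

def x1n_t74 : T :=
  (.b (.a (.b (.l 66) (.l 66)) (.b (.l 66) (.a (.l 66) (.l 66)))) (.a (.a (.l 66) (.b (.l 66) (.l
      66))) (.b (.a (.l 66) (.b (.l 66) (.l 66))) (.a (.b (.l 66) (.l 66)) (.b (.a (.l 66) (.l
      66)) (.a (.l 66) (.c (.l 66) (.l 66))))))))

theorem x1n_h74 : chk3 (onCell 0 2684354560 0 1073741824 0 26843546 T1N) x1n_t74 13 5 6 = true := by decide +kernel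

def x1n_t75 : T :=
  (.b (.a (.b (.c (.l 66) (.c (.l 2) (.l 66))) (.c (.l 66) (.c (.l 2) (.l 66)))) (.b (.c (.l 66)
      (.a (.b (.l 66) (.l 66)) (.b (.l 66) (.l 66)))) (.c (.l 66) (.a (.b (.l 66) (.l 66)) (.c
      (.l 66) (.l 66)))))) (.a (.b (.c (.l 66) (.c (.l 2) (.l 66))) (.c (.l 66) (.a (.c (.l 2)
      (.l 66)) (.c (.l 2) (.l 66))))) (.b (.c (.l 66) (.a (.b (.l 66) (.l 66)) (.c (.l 2) (.l
      66)))) (.c (.l 66) (.a (.b (.l 66) (.l 66)) (.c (.l 2) (.l 66)))))))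

theorem x1n_h75 : chk3 (onCell 0 2684354560 0 1073741824 0 26843546 T1N) x1n_t75 52 10 7 = true := by decide +kernel

def x1n_t76 : T :=
  (.b (.b (.a (.c (.l 66) (.a (.c (.l 66) (.l 66)) (.l 66))) (.c (.l 66) (.c (.l 66) (.l 66))))
      (.a (.c (.l 66) (.c (.l 66) (.l 66))) (.c (.l 66) (.c (.l 66) (.l 66))))) (.a (.b (.a (.c
      (.l 66) (.c (.l 66) (.l 66))) (.c (.l 66) (.l 66))) (.c (.l 66) (.c (.l 66) (.l 66)))) (.b
      (.a (.c (.l 66) (.l 66)) (.c (.l 66) (.l 66))) (.c (.l 66) (.c (.l 66) (.l 66))))))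

theorem x1n_h76 : chk3 (onCell 0 2684354560 0 1073741824 0 26843546 T1N) x1n_t76 53 10 7 = true := by decide +kernel

def x1n_t77 : T :=
  (.c (.b (.l 66) (.l 66)) (.a (.b (.b (.a (.l 66) (.c (.l 2) (.l 66))) (.a (.l 66) (.c (.l 2)
      (.l 66)))) (.c (.l 2) (.l 66))) (.b (.a (.b (.b (.l 66) (.a (.l 66) (.l 66))) (.a (.c (.l
      2) (.l 66)) (.c (.l 2) (.l 66)))) (.b (.c (.l 2) (.l 66)) (.c (.l 2) (.l 66)))) (.a (.b (.c
      (.l 2) (.l 66)) (.c (.l 2) (.l 66))) (.b (.c (.l 2) (.l 66)) (.a (.c (.l 2) (.l 66)) (.c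
      (.l 2) (.l 66))))))))

theorem x1n_h77 : chk3 (onCell 0 2684354560 0 1073741824 0 26843546 T1N) x1n_t77 52 11 7 = true := by decide +kernel

def x1n_t78 : T :=
  (.c (.b (.l 66) (.l 66)) (.a (.b (.c (.l 66) (.l 66)) (.a (.c (.l 66) (.l 66)) (.c (.l 66) (.l
      66)))) (.b (.c (.l 66) (.l 66)) (.c (.l 66) (.l 66)))))

theorem x1n_h78 : chk3 (onCell 0 2684354560 0 1073741824 0 26843546 T1N) x1n_t78 53 11 7 = true := by decide +kernel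

def x1n_t79 : T :=
  (.b (.b (.a (.c (.l 66) (.l 66)) (.c (.l 66) (.l 66))) (.a (.c (.l 66) (.l 66)) (.c (.c (.l 2)
      (.l 66)) (.l 66)))) (.a (.b (.c (.l 66) (.l 66)) (.c (.l 66) (.c (.l 66) (.l 66)))) (.b (.c
      (.l 66) (.c (.l 66) (.l 34))) (.c (.l 66) (.c (.l 66) (.l 34))))))

theorem x1n_h79 : chk3 (onCell 0 2684354560 0 1073741824 0 26843546 T1N) x1n_t79 54 10 7 = true := by decide +kernel

def x1n_t80 : T :=
  (.b (.b (.a (.c (.b (.l 66) (.l 66)) (.c (.l 66) (.l 34))) (.c (.b (.l 66) (.l 66)) (.c (.l 66)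
      (.l 34)))) (.a (.c (.c (.l 2) (.l 66)) (.c (.l 66) (.l 34))) (.b (.c (.l 66) (.c (.l 66)
      (.l 34))) (.c (.l 66) (.c (.l 66) (.l 34)))))) (.c (.b (.a (.l 66) (.l 66)) (.a (.l 66) (.l
      66))) (.a (.c (.l 66) (.l 34)) (.c (.l 66) (.l 34)))))

theorem x1n_h80 : chk3 (onCell 0 2684354560 0 1073741824 0 26843546 T1N) x1n_t80 55 10 7 = true := by decide +kernel

end Pool.Agent.Strip051.LC.E1.V3
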