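import Pool.Agent.Strip051.LC.E1.V3.Rw
import Pool.Agent.Strip051.LC.E0.Ch.Cell

/-! # Rests near the full period: certificate Cn1_5 -/

set_option maxRecDepth 100000

namespace Pool.Agent.Strip051.LC.E1.V3

open Pool.Agent.Strip051.PB
open Pool.Agent.Strip051.LC.E0.Ch (onCell Tree)

def x1n_t81 : T :=
  (.c (.a (.b (.c (.l 2) (.l 66)) (.c (.l 2) (.l 66))) (.c (.l 2) (.b (.l 66) (.l 66)))) (.a (.a
      (.b (.c (.l 66) (.l 66)) (.c (.l 66) (.l 34))) (.b (.c (.l 66) (.b (.l 34) (.l 34))) (.c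
      (.l 66) (.l 34)))) (.a (.b (.c (.l 66) (.l 34)) (.c (.l 66) (.l 34))) (.b (.c (.l 66) (.l
      34)) (.c (.l 34) (.l 34))))))

theorem x1n_h81 : chk3 (onCell 0 2684354560 0 1073741824 0 26843546 T1N) x1n_t81 27 11 7 = true := by decide +kernel

def x1n_t82 : T :=
  (.b (.c (.a (.b (.c (.l 66) (.a (.l 66) (.l 34))) (.c (.l 66) (.a (.l 66) (.l 34)))) (.b (.c
      (.l 34) (.l 34)) (.c (.l 34) (.l 34)))) (.a (.b (.a (.c (.l 66) (.b (.l 66) (.l 66))) (.b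
      (.l 66) (.c (.l 66) (.l 66)))) (.a (.c (.l 66) (.b (.l 66) (.l 66))) (.c (.l 66) (.l 66))))
      (.b (.l 34) (.a (.l 66) (.l 34))))) (.c (.a (.b (.c (.a (.l 66) (.l 34)) (.a (.l 66) (.l
      66))) (.l 15)) (.b (.c (.l 34) (.l 34)) (.l 15))) (.a (.a (.l 15) (.l 15)) (.l 15))))

theorem x1n_h82 : chk3 (onCell 0 2684354560 0 1073741824 0 26843546 T1N) x1n_t82 12 3 2 = true := by decide +kernel

def x1n_t83 : T :=
  (.b (.c (.a (.b (.c (.l 34) (.l 34)) (.c (.l 34) (.l 34))) (.b (.c (.l 34) (.l 34)) (.c (.l 34)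
      (.l 34)))) (.a (.b (.l 34) (.l 34)) (.b (.l 34) (.l 34)))) (.c (.a (.b (.c (.l 34) (.l 34))
      (.l 15)) (.b (.c (.l 34) (.l 34)) (.l 15))) (.a (.l 15) (.l 15))))

theorem x1n_h83 : chk3 (onCell 0 2684354560 0 1073741824 0 26843546 T1N) x1n_t83 13 3 2 = true := by decide +kernel

def x1n_t84 : T :=
  (.c (.a (.b (.a (.b (.l 66) (.l 66)) (.b (.l 66) (.l 66))) (.a (.b (.a (.l 2) (.l 2)) (.l 15))
      (.b (.l 66) (.l 15)))) (.b (.a (.l 66) (.l 34)) (.a (.b (.l 66) (.l 15)) (.l 34)))) (.a (.a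
      (.b (.b (.b (.a (.l 2) (.l 2)) (.l 2)) (.b (.l 66) (.l 66))) (.b (.b (.c (.l 2) (.l 66))
      (.l 15)) (.l 15))) (.b (.b (.a (.l 66) (.l 66)) (.a (.l 66) (.l 66))) (.b (.l 66) (.l
      15)))) (.b (.a (.b (.l 66) (.b (.l 66) (.l 66))) (.l 66)) (.a (.b (.b (.l 66) (.l 15)) (.l
      15)) (.l 15)))))

theorem x1n_h84 : chk3 (onCell 0 2684354560 0 1073741824 0 26843546 T1N) x1n_t84 12 6 6 = true := by decide +kernel

def x1n_t85 : T :=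
  (.c (.a (.b (.b (.b (.b (.l 66) (.l 66)) (.b (.a (.l 2) (.l 2)) (.a (.l 2) (.l 2)))) (.b (.a
      (.l 2) (.l 2)) (.a (.l 2) (.l 2)))) (.l 15)) (.b (.b (.a (.l 2) (.l 66)) (.l 66)) (.l 15)))
      (.b (.a (.c (.b (.b (.l 66) (.c (.l 66) (.l 66))) (.a (.l 2) (.l 2))) (.b (.b (.c (.l 66)
      (.l 66)) (.a (.l 2) (.l 2))) (.a (.l 2) (.l 2)))) (.b (.a (.l 2) (.l 2)) (.a (.l 2) (.l
      2)))) (.l 15)))

theorem x1n_h85 : chk3 (onCell 0 2684354560 0 1073741824 0 26843546 T1N) x1n_t85 24 6 7 = true := by decide +kernel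

def x1n_t86 : T :=
  (.c (.b (.a (.b (.c (.l 66) (.l 66)) (.c (.l 66) (.l 66))) (.c (.l 66) (.b (.l 66) (.l 66))))
      (.l 15)) (.c (.a (.b (.b (.l 66) (.l 66)) (.l 15)) (.b (.b (.l 66) (.l 66)) (.l 15))) (.a
      (.b (.b (.l 66) (.l 2)) (.l 15)) (.b (.b (.b (.l 66) (.c (.l 66) (.l 66))) (.l 15)) (.l
      15)))))

theorem x1n_h86 : chk3 (onCell 0 2684354560 0 1073741824 0 26843546 T1N) x1n_t86 25 6 7 = true := by decide +kernel

def x1n_t87 : T :=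
  (.l 15)

theorem x1n_h87 : chk3 (onCell 0 2684354560 0 1073741824 0 26843546 T1N) x1n_t87 12 7 3 = true := by decide +kernel

def x1n_t88 : T :=
  (.a (.b (.a (.b (.l 66) (.a (.l 66) (.l 66))) (.b (.l 66) (.c (.l 34) (.l 66)))) (.a (.c (.l
      34) (.l 15)) (.c (.l 66) (.l 15)))) (.b (.a (.b (.a (.c (.l 34) (.l 66)) (.c (.l 34) (.l
      66))) (.c (.l 66) (.l 66))) (.b (.c (.l 66) (.l 66)) (.c (.l 66) (.l 66)))) (.c (.l 66) (.l
      15))))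

theorem x1n_h88 : chk3 (onCell 0 2684354560 0 1073741824 0 26843546 T1N) x1n_t88 13 6 6 = true := by decide +kernel

def x1n_t89 : T :=
  (.b (.c (.a (.c (.l 66) (.a (.l 2) (.l 2))) (.c (.l 66) (.a (.l 66) (.c (.l 66) (.l 66))))) (.c
      (.a (.a (.b (.l 2) (.l 15)) (.c (.l 66) (.l 66))) (.a (.a (.l 66) (.l 66)) (.c (.l 66) (.l
      34)))) (.a (.a (.c (.b (.l 66) (.l 15)) (.b (.l 66) (.l 15))) (.c (.l 66) (.l 66))) (.a (.c
      (.l 34) (.c (.l 34) (.l 34))) (.c (.b (.l 34) (.l 15)) (.c (.l 34) (.l 34))))))) (.l 15))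

theorem x1n_h89 : chk3 (onCell 0 2684354560 0 1073741824 0 26843546 T1N) x1n_t89 13 6 7 = true := by decide +kernel

def x1n_t90 : T :=
  (.l 15)

theorem x1n_h90 : chk3 (onCell 0 2684354560 0 1073741824 0 26843546 T1N) x1n_t90 13 7 3 = true := by decide +kernel

def x1n_t91 : T :=
  (.b (.c (.a (.b (.c (.l 34) (.l 34)) (.c (.l 34) (.l 34))) (.b (.c (.l 34) (.l 34)) (.c (.l 34)
      (.l 34)))) (.b (.l 34) (.l 34))) (.c (.a (.b (.c (.l 34) (.l 34)) (.c (.l 34) (.l 34))) (.b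
      (.c (.l 34) (.l 34)) (.c (.l 34) (.l 34)))) (.b (.l 34) (.a (.l 34) (.l 34)))))

theorem x1n_h91 : chk3 (onCell 0 2684354560 0 1073741824 0 26843546 T1N) x1n_t91 14 2 2 = true := by decide +kernel

def x1n_t92 : T :=
  (.b (.c (.a (.b (.c (.l 34) (.l 34)) (.c (.l 34) (.l 34))) (.b (.c (.l 34) (.l 34)) (.c (.l 34)
      (.l 34)))) (.b (.l 34) (.l 34))) (.c (.a (.b (.c (.l 34) (.l 34)) (.c (.l 34) (.l 34))) (.b
      (.c (.l 34) (.l 34)) (.c (.l 34) (.l 34)))) (.b (.b (.l 66) (.l 66)) (.b (.l 66) (.l 66)))))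

theorem x1n_h92 : chk3 (onCell 0 2684354560 0 1073741824 0 26843546 T1N) x1n_t92 15 2 2 = true := by decide +kernel

def x1n_t93 : T :=
  (.b (.b (.a (.l 66) (.l 66)) (.a (.l 66) (.b (.l 66) (.l 66)))) (.b (.a (.b (.l 66) (.l 66))
      (.b (.a (.l 66) (.l 66)) (.a (.l 66) (.b (.l 66) (.l 66))))) (.a (.b (.l 66) (.l 66)) (.b
      (.a (.b (.l 66) (.l 66)) (.b (.a (.l 66) (.l 66)) (.a (.l 66) (.l 66)))) (.a (.b (.a (.l
      66) (.l 66)) (.a (.l 66) (.c (.l 66) (.l 66)))) (.c (.l 66) (.l 66)))))))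

theorem x1n_h93 : chk3 (onCell 0 2684354560 0 1073741824 0 26843546 T1N) x1n_t93 14 4 6 = true := by decide +kernel

def x1n_t94 : T :=
  (.b (.c (.l 66) (.a (.l 34) (.l 34))) (.a (.a (.b (.c (.l 66) (.l 34)) (.c (.l 66) (.l 34)))
      (.b (.c (.l 66) (.l 34)) (.c (.l 66) (.l 34)))) (.c (.l 66) (.l 34))))

theorem x1n_h94 : chk3 (onCell 0 2684354560 0 1073741824 0 26843546 T1N) x1n_t94 14 16 7 = true := by decide +kernel

def x1n_t95 : T :=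
  (.a (.b (.a (.b (.c (.l 66) (.l 34)) (.a (.c (.l 66) (.l 34)) (.c (.l 66) (.l 34)))) (.b (.c
      (.l 66) (.l 34)) (.c (.l 66) (.l 34)))) (.a (.b (.a (.c (.l 66) (.l 34)) (.c (.l 66) (.l
      34))) (.a (.c (.l 66) (.l 34)) (.c (.l 66) (.l 34)))) (.b (.a (.c (.l 66) (.l 34)) (.c (.l
      66) (.l 34))) (.a (.c (.l 66) (.l 34)) (.c (.l 66) (.l 34)))))) (.b (.c (.a (.l 66) (.l
      34)) (.c (.l 34) (.l 34))) (.c (.a (.l 66) (.l 34)) (.c (.l 34) (.l 34)))))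

theorem x1n_h95 : chk3 (onCell 0 2684354560 0 1073741824 0 26843546 T1N) x1n_t95 14 17 7 = true := by decide +kernel

def x1n_t96 : T :=
  (.a (.b (.a (.b (.a (.c (.l 66) (.l 34)) (.c (.l 66) (.l 34))) (.a (.c (.l 66) (.l 34)) (.c (.l
      66) (.l 34)))) (.b (.a (.c (.l 66) (.l 34)) (.c (.l 66) (.l 34))) (.a (.c (.l 66) (.l 34))
      (.c (.l 66) (.l 34))))) (.a (.a (.c (.l 66) (.l 34)) (.b (.c (.l 66) (.l 34)) (.c (.l 66)
      (.l 34)))) (.b (.a (.c (.l 66) (.l 34)) (.c (.l 66) (.l 34))) (.a (.c (.l 66) (.l 34)) (.c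
      (.l 66) (.l 34)))))) (.b (.a (.c (.l 66) (.l 34)) (.c (.l 66) (.l 34))) (.a (.c (.l 66) (.l
      34)) (.c (.l 66) (.l 34)))))

theorem x1n_h96 : chk3 (onCell 0 2684354560 0 1073741824 0 26843546 T1N) x1n_t96 14 18 7 = true := by decide +kernel

def x1n_t97 : T :=
  (.a (.a (.b (.a (.c (.l 66) (.l 34)) (.b (.c (.l 66) (.l 34)) (.c (.l 66) (.l 34)))) (.a (.c
      (.c (.l 66) (.l 66)) (.c (.l 34) (.l 34))) (.b (.c (.l 66) (.l 34)) (.c (.l 66) (.l 34)))))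
      (.b (.a (.b (.c (.l 66) (.l 34)) (.c (.l 66) (.l 34))) (.c (.l 66) (.l 34))) (.c (.c (.l
      66) (.l 66)) (.a (.b (.l 34) (.l 34)) (.l 34))))) (.b (.a (.c (.l 66) (.l 34)) (.c (.l 66)
      (.l 34))) (.c (.a (.l 66) (.c (.l 66) (.l 34))) (.a (.b (.l 34) (.l 34)) (.l 34)))))

theorem x1n_h97 : chk3 (onCell 0 2684354560 0 1073741824 0 26843546 T1N) x1n_t97 14 19 7 = true := by decide +kernel

def x1n_t98 : T :=
  (.a (.b (.a (.l 66) (.b (.l 66) (.l 66))) (.a (.b (.l 66) (.l 66)) (.b (.l 66) (.c (.l 66) (.l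
      66))))) (.b (.a (.b (.c (.l 66) (.l 66)) (.c (.l 66) (.l 66))) (.b (.c (.l 66) (.l 66)) (.c
      (.l 66) (.l 66)))) (.a (.c (.l 66) (.b (.l 66) (.b (.l 66) (.l 66)))) (.c (.l 66) (.b (.l
      66) (.b (.l 66) (.l 66)))))))

theorem x1n_h98 : chk3 (onCell 0 2684354560 0 1073741824 0 26843546 T1N) x1n_t98 14 10 6 = true := by decide +kernel

end Pool.Agent.Strip051.LC.E1.V3
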