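import Pool.Agent.Strip051.LC.E1.V3.Rw
import Pool.Agent.Strip051.LC.E0.Ch.Cell

/-! # Rests near the full period: certificate Cn1_6 -/

set_option maxRecDepth 100000

namespace Pool.Agent.Strip051.LC.E1.V3

open Pool.Agent.Strip051.PB
open Pool.Agent.Strip051.LC.E0.Ch (onCell Tree)

def x1n_t99 : T :=
  (.a (.b (.a (.b (.c (.l 66) (.l 66)) (.c (.l 66) (.l 66))) (.b (.c (.l 66) (.l 66)) (.c (.l 66)
      (.l 66)))) (.a (.c (.l 66) (.l 66)) (.c (.l 66) (.l 66)))) (.b (.a (.c (.l 66) (.b (.l 66)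
      (.l 66))) (.c (.l 66) (.c (.l 2) (.l 66)))) (.c (.l 66) (.a (.l 66) (.c (.l 2) (.l 66))))))

theorem x1n_h99 : chk3 (onCell 0 2684354560 0 1073741824 0 26843546 T1N) x1n_t99 14 11 6 = true := by decide +kernel

def x1n_t100 : T :=
  (.a (.b (.a (.b (.c (.l 66) (.l 34)) (.c (.l 66) (.c (.l 34) (.l 34)))) (.c (.c (.l 66) (.l
      66)) (.c (.l 34) (.l 34)))) (.a (.c (.b (.l 66) (.l 66)) (.c (.l 34) (.l 34))) (.c (.l 66)
      (.c (.l 34) (.l 34))))) (.c (.b (.c (.l 66) (.l 66)) (.c (.l 66) (.l 66))) (.a (.b (.b (.l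
      34) (.l 34)) (.c (.l 34) (.l 34))) (.b (.l 34) (.l 34)))))

theorem x1n_h100 : chk3 (onCell 0 2684354560 0 1073741824 0 26843546 T1N) x1n_t100 28 20 7 = true := by decide +kernel

def x1n_t101 : T :=
  (.a (.c (.b (.a (.l 66) (.l 66)) (.a (.l 66) (.l 66))) (.a (.b (.a (.c (.l 34) (.l 34)) (.c (.l
      34) (.l 34))) (.a (.b (.c (.l 34) (.l 34)) (.c (.l 34) (.l 34))) (.b (.c (.l 34) (.l 34))
      (.c (.l 34) (.l 34))))) (.b (.a (.c (.l 34) (.l 34)) (.c (.l 34) (.l 34))) (.a (.c (.l 34)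
      (.l 34)) (.c (.l 34) (.l 34)))))) (.c (.b (.c (.l 66) (.l 66)) (.a (.l 66) (.l 66))) (.a
      (.b (.c (.l 34) (.l 34)) (.c (.l 34) (.l 34))) (.b (.l 34) (.l 34)))))

theorem x1n_h101 : chk3 (onCell 0 2684354560 0 1073741824 0 26843546 T1N) x1n_t101 28 21 7 = true := by decide +kernel

def x1n_t102 : T :=
  (.c (.a (.b (.a (.b (.l 66) (.l 66)) (.b (.l 66) (.l 66))) (.a (.b (.a (.l 66) (.l 66)) (.a (.l
      66) (.l 66))) (.b (.c (.l 66) (.l 66)) (.a (.l 66) (.l 66))))) (.b (.a (.b (.l 66) (.c (.l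
      66) (.l 34))) (.b (.l 66) (.c (.l 66) (.l 34)))) (.a (.b (.c (.l 66) (.l 34)) (.c (.l 66)
      (.l 34))) (.c (.l 66) (.l 34))))) (.a (.a (.b (.c (.l 66) (.l 34)) (.c (.l 34) (.l 34)))
      (.b (.c (.l 34) (.l 34)) (.c (.l 34) (.l 34)))) (.b (.a (.c (.l 34) (.l 34)) (.c (.l 34)
      (.l 34))) (.c (.a (.l 34) (.l 34)) (.l 34)))))

theorem x1n_h102 : chk3 (onCell 0 2684354560 0 1073741824 0 26843546 T1N) x1n_t102 28 11 7 = true := by decide +kernel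

def x1n_t103 : T :=
  (.b (.c (.a (.b (.c (.l 66) (.l 34)) (.c (.l 66) (.l 34))) (.b (.c (.l 66) (.l 34)) (.c (.l 66)
      (.l 34)))) (.a (.b (.b (.l 34) (.l 34)) (.l 34)) (.b (.b (.l 34) (.l 34)) (.l 34)))) (.c
      (.a (.b (.a (.l 66) (.c (.l 66) (.l 34))) (.a (.l 66) (.c (.l 66) (.l 34)))) (.b (.a (.c
      (.l 66) (.l 34)) (.c (.l 66) (.l 34))) (.a (.c (.l 66) (.l 34)) (.c (.l 66) (.l 34))))) (.a
      (.a (.b (.l 34) (.l 34)) (.l 34)) (.c (.l 34) (.l 34)))))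

theorem x1n_h103 : chk3 (onCell 0 2684354560 0 1073741824 0 26843546 T1N) x1n_t103 29 10 7 = true := by decide +kernel

def x1n_t104 : T :=
  (.c (.a (.b (.a (.c (.l 66) (.l 66)) (.b (.c (.l 66) (.l 34)) (.c (.l 66) (.l 34)))) (.a (.c
      (.l 66) (.l 34)) (.c (.l 66) (.l 34)))) (.b (.a (.b (.c (.l 66) (.l 34)) (.c (.l 66) (.l
      34))) (.b (.c (.l 66) (.l 34)) (.c (.l 66) (.l 34)))) (.a (.c (.l 66) (.l 34)) (.b (.c (.l
      34) (.l 34)) (.c (.l 34) (.l 34)))))) (.a (.c (.a (.b (.l 34) (.l 34)) (.l 34)) (.l 34))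
      (.c (.l 34) (.l 34))))

theorem x1n_h104 : chk3 (onCell 0 2684354560 0 1073741824 0 26843546 T1N) x1n_t104 29 11 7 = true := by decide +kernel

def x1n_t105 : T :=
  (.b (.b (.a (.l 66) (.l 66)) (.a (.l 66) (.l 66))) (.a (.b (.l 66) (.a (.l 66) (.l 66))) (.b
      (.b (.l 66) (.a (.l 66) (.l 66))) (.a (.c (.l 66) (.l 66)) (.c (.l 66) (.l 66))))))

theorem x1n_h105 : chk3 (onCell 0 2684354560 0 1073741824 0 26843546 T1N) x1n_t105 15 8 6 = true := by decide +kernel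

def x1n_t106 : T :=
  (.a (.b (.a (.l 66) (.b (.l 66) (.l 66))) (.a (.b (.l 66) (.a (.l 66) (.l 66))) (.b (.a (.l 66)
      (.l 66)) (.a (.l 66) (.c (.l 66) (.l 66)))))) (.b (.a (.b (.l 66) (.a (.l 66) (.l 66))) (.b
      (.c (.l 66) (.l 66)) (.a (.c (.l 66) (.l 66)) (.c (.l 66) (.l 66))))) (.a (.b (.a (.l 66)
      (.c (.l 66) (.l 66))) (.c (.l 66) (.l 66))) (.b (.c (.l 66) (.l 66)) (.c (.l 66) (.l
      66))))))

theorem x1n_h106 : chk3 (onCell 0 2684354560 0 1073741824 0 26843546 T1N) x1n_t106 15 18 6 = true := by decide +kernel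

def x1n_t107 : T :=
  (.a (.b (.a (.c (.l 66) (.l 66)) (.b (.c (.l 66) (.l 66)) (.c (.l 66) (.l 66)))) (.a (.c (.l
      66) (.l 66)) (.c (.l 66) (.l 66)))) (.b (.a (.b (.c (.l 66) (.l 66)) (.c (.l 66) (.l 66)))
      (.b (.c (.l 66) (.l 66)) (.c (.l 66) (.l 66)))) (.a (.c (.l 66) (.l 66)) (.b (.c (.l 66)
      (.l 66)) (.c (.l 66) (.l 66))))))

theorem x1n_h107 : chk3 (onCell 0 2684354560 0 1073741824 0 26843546 T1N) x1n_t107 15 19 6 = true := by decide +kernel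

def x1n_t108 : T :=
  (.b (.c (.b (.a (.l 34) (.l 34)) (.a (.l 34) (.l 34))) (.b (.c (.l 34) (.a (.l 34) (.l 34)))
      (.c (.l 34) (.b (.a (.l 34) (.l 34)) (.a (.l 34) (.l 34)))))) (.b (.c (.a (.l 34) (.l 34))
      (.c (.l 34) (.b (.a (.l 34) (.l 34)) (.a (.l 34) (.l 34))))) (.c (.a (.l 34) (.c (.l 34)
      (.l 34))) (.c (.a (.l 34) (.l 34)) (.b (.a (.l 34) (.l 34)) (.a (.l 34) (.l 34)))))))

theorem x1n_h108 : chk3 (onCell 0 2684354560 0 1073741824 0 26843546 T1N) x1n_t108 15 8 7 = true := by decide +kernel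

def x1n_t109 : T :=
  (.b (.c (.a (.b (.l 34) (.a (.l 34) (.l 34))) (.b (.c (.l 34) (.l 34)) (.a (.l 34) (.l 34))))
      (.b (.c (.a (.l 34) (.l 34)) (.a (.l 34) (.l 34))) (.a (.c (.l 34) (.l 34)) (.c (.l 34) (.l
      34))))) (.c (.a (.a (.b (.l 34) (.c (.l 34) (.l 34))) (.b (.b (.l 34) (.l 34)) (.b (.l 34)
      (.l 34)))) (.b (.a (.l 34) (.l 34)) (.a (.l 34) (.l 34)))) (.a (.b (.c (.l 34) (.l 34)) (.c
      (.l 34) (.l 34))) (.b (.c (.l 34) (.l 34)) (.c (.l 34) (.l 34))))))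

theorem x1n_h109 : chk3 (onCell 0 2684354560 0 1073741824 0 26843546 T1N) x1n_t109 15 9 7 = true := by decide +kernel

def x1n_t110 : T :=
  (.a (.b (.b (.a (.c (.l 66) (.l 66)) (.c (.l 66) (.l 66))) (.a (.c (.l 66) (.l 66)) (.c (.l 66)
      (.l 66)))) (.a (.b (.c (.l 66) (.b (.l 66) (.l 66))) (.c (.l 66) (.l 66))) (.b (.c (.l 66)
      (.l 66)) (.c (.l 66) (.l 66))))) (.b (.b (.a (.c (.l 66) (.l 66)) (.c (.l 66) (.l 66))) (.a
      (.c (.l 66) (.l 66)) (.c (.l 66) (.l 66)))) (.a (.b (.c (.l 66) (.l 66)) (.c (.l 66) (.l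
      66))) (.b (.c (.l 66) (.l 66)) (.c (.l 66) (.l 66))))))

theorem x1n_h110 : chk3 (onCell 0 2684354560 0 1073741824 0 26843546 T1N) x1n_t110 15 10 6 = true := by decide +kernel

def x1n_t111 : T :=
  (.a (.b (.a (.c (.l 66) (.b (.l 66) (.l 66))) (.c (.l 66) (.b (.l 66) (.l 66)))) (.c (.l 66)
      (.a (.a (.b (.l 66) (.l 66)) (.b (.l 66) (.l 66))) (.a (.b (.l 66) (.l 66)) (.b (.l 66) (.l
      66)))))) (.b (.c (.l 66) (.a (.b (.l 66) (.l 66)) (.b (.l 66) (.c (.l 66) (.l 66))))) (.c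
      (.l 66) (.a (.b (.l 66) (.l 66)) (.b (.l 66) (.l 66))))))

theorem x1n_h111 : chk3 (onCell 0 2684354560 0 1073741824 0 26843546 T1N) x1n_t111 15 11 6 = true := by decide +kernel

def x1n_t112 : T :=
  (.a (.b (.a (.b (.a (.b (.l 34) (.l 34)) (.l 34)) (.a (.b (.l 34) (.c (.l 34) (.l 34))) (.b (.l
      34) (.l 34)))) (.b (.b (.l 34) (.l 34)) (.b (.l 34) (.l 34)))) (.a (.b (.a (.b (.c (.l 34)
      (.l 34)) (.c (.l 34) (.l 34))) (.b (.l 34) (.l 34))) (.a (.c (.l 34) (.l 34)) (.c (.l 34)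
      (.l 34)))) (.b (.b (.l 34) (.l 34)) (.c (.l 34) (.l 34))))) (.b (.b (.a (.l 34) (.l 34))
      (.a (.l 34) (.l 34))) (.a (.b (.l 34) (.l 34)) (.l 34))))

theorem x1n_h112 : chk3 (onCell 0 2684354560 0 1073741824 0 26843546 T1N) x1n_t112 15 10 14 = true := by decide +kernel

def x1n_t113 : T :=
  (.a (.a (.b (.b (.a (.c (.l 34) (.l 34)) (.c (.l 34) (.l 34))) (.a (.c (.l 34) (.l 34)) (.c (.l
      34) (.l 34)))) (.a (.b (.c (.l 34) (.l 34)) (.a (.l 66) (.l 66))) (.b (.c (.l 34) (.l 34))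
      (.a (.l 66) (.c (.l 34) (.l 34)))))) (.b (.b (.a (.c (.l 34) (.l 34)) (.l 34)) (.c (.l 34)
      (.l 34))) (.a (.c (.l 34) (.l 34)) (.c (.l 34) (.l 34))))) (.a (.c (.b (.l 34) (.l 34)) (.l
      34)) (.c (.l 34) (.l 34))))

theorem x1n_h113 : chk3 (onCell 0 2684354560 0 1073741824 0 26843546 T1N) x1n_t113 15 11 14 = true := by decide +kernel

end Pool.Agent.Strip051.LC.E1.V3
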