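import Pool.Agent.Strip051.LC.E1.V3.Rw
import Pool.Agent.Strip051.LC.E0.Ch.Cell

/-! # Rests near the full period: certificate Cn1_7 -/

set_option maxRecDepth 100000

namespace Pool.Agent.Strip051.LC.E1.V3

open Pool.Agent.Strip051.PB
open Pool.Agent.Strip051.LC.E0.Ch (onCell Tree)

def x1n_t114 : T :=
  (.b (.b (.a (.b (.a (.b (.l 34) (.l 34)) (.b (.l 34) (.l 34))) (.a (.b (.l 34) (.l 34)) (.c (.l
      34) (.l 34)))) (.b (.c (.l 34) (.l 34)) (.c (.l 34) (.l 34)))) (.a (.a (.c (.l 34) (.l 34))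
      (.c (.l 34) (.l 34))) (.c (.l 34) (.l 34)))) (.a (.c (.a (.l 34) (.l 34)) (.c (.a (.l 34)
      (.l 34)) (.a (.l 34) (.l 34)))) (.c (.c (.l 34) (.l 34)) (.c (.l 34) (.l 34)))))

theorem x1n_h114 : chk3 (onCell 0 2684354560 0 1073741824 0 26843546 T1N) x1n_t114 15 5 15 = true := by decide +kernel

def x1n_t115 : T :=
  (.b (.c (.a (.b (.c (.l 34) (.l 34)) (.c (.l 34) (.l 34))) (.b (.c (.l 34) (.l 34)) (.c (.l 34)
      (.l 34)))) (.a (.b (.l 34) (.l 66)) (.b (.l 66) (.l 66)))) (.c (.a (.b (.c (.l 34) (.l 34))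
      (.l 15)) (.b (.c (.l 34) (.l 34)) (.l 15))) (.l 15)))

theorem x1n_h115 : chk3 (onCell 0 2684354560 0 1073741824 0 26843546 T1N) x1n_t115 14 3 2 = true := by decide +kernel

def x1n_t116 : T :=
  (.b (.c (.a (.b (.c (.l 34) (.l 34)) (.c (.l 34) (.l 34))) (.b (.c (.l 34) (.l 34)) (.c (.l 34)
      (.l 34)))) (.b (.a (.l 66) (.b (.l 66) (.c (.l 34) (.l 66)))) (.c (.l 34) (.a (.l 66) (.l
      66))))) (.c (.a (.b (.c (.l 34) (.l 15)) (.l 15)) (.b (.c (.l 34) (.l 15)) (.l 15))) (.l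
      15)))

theorem x1n_h116 : chk3 (onCell 0 2684354560 0 1073741824 0 26843546 T1N) x1n_t116 15 3 2 = true := by decide +kernel

def x1n_t117 : T :=
  (.c (.a (.b (.l 66) (.l 15)) (.b (.l 66) (.l 15))) (.a (.b (.a (.c (.l 66) (.l 2)) (.c (.l 66)
      (.l 2))) (.l 15)) (.c (.b (.l 66) (.l 15)) (.a (.b (.l 66) (.l 15)) (.a (.b (.l 66) (.l
      15)) (.b (.l 66) (.l 15)))))))

theorem x1n_h117 : chk3 (onCell 0 2684354560 0 1073741824 0 26843546 T1N) x1n_t117 14 6 6 = true := by decide +kernel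

def x1n_t118 : T :=
  (.a (.a (.a (.c (.l 2) (.l 66)) (.b (.b (.a (.l 66) (.l 66)) (.c (.l 66) (.l 66))) (.l 15)))
      (.a (.b (.b (.c (.l 66) (.l 66)) (.a (.c (.l 66) (.l 15)) (.c (.l 66) (.l 15)))) (.l 15))
      (.b (.c (.l 66) (.l 66)) (.l 15)))) (.a (.a (.b (.c (.l 66) (.l 34)) (.l 15)) (.c (.l 66)
      (.l 66))) (.a (.c (.l 66) (.l 34)) (.c (.l 66) (.l 34)))))

theorem x1n_h118 : chk3 (onCell 0 2684354560 0 1073741824 0 26843546 T1N) x1n_t118 28 12 14 = true := by decide +kernel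

def x1n_t119 : T :=
  (.a (.a (.a (.c (.l 66) (.l 34)) (.c (.l 66) (.l 34))) (.a (.c (.l 66) (.l 34)) (.c (.l 66) (.l
      34)))) (.a (.a (.c (.l 66) (.l 34)) (.b (.c (.l 34) (.l 34)) (.l 15))) (.a (.b (.c (.l 34)
      (.l 34)) (.l 15)) (.b (.c (.l 34) (.l 34)) (.l 15)))))

theorem x1n_h119 : chk3 (onCell 0 2684354560 0 1073741824 0 26843546 T1N) x1n_t119 29 12 14 = true := by decide +kernel

def x1n_t120 : T :=
  (.a (.a (.a (.b (.a (.c (.l 34) (.l 34)) (.c (.l 34) (.l 34))) (.l 15)) (.b (.a (.c (.l 34) (.l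
      34)) (.c (.l 34) (.l 34))) (.l 15))) (.a (.b (.c (.l 34) (.l 15)) (.l 15)) (.b (.c (.l 34)
      (.l 15)) (.l 15)))) (.a (.a (.c (.c (.l 34) (.l 15)) (.l 15)) (.c (.c (.l 34) (.l 15)) (.l
      15))) (.c (.c (.l 15) (.l 15)) (.l 15))))

theorem x1n_h120 : chk3 (onCell 0 2684354560 0 1073741824 0 26843546 T1N) x1n_t120 14 12 15 = true := by decide +kernel

def x1n_t121 : T :=
  (.l 15)

theorem x1n_h121 : chk3 (onCell 0 2684354560 0 1073741824 0 26843546 T1N) x1n_t121 14 13 7 = true := by decide +kernel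

def x1n_t122 : T :=
  (.l 15)

theorem x1n_h122 : chk3 (onCell 0 2684354560 0 1073741824 0 26843546 T1N) x1n_t122 14 7 3 = true := by decide +kernel

def x1n_t123 : T :=
  (.c (.a (.b (.l 66) (.l 15)) (.b (.b (.l 66) (.l 66)) (.l 15))) (.a (.c (.a (.b (.l 66) (.l
      15)) (.b (.l 66) (.l 15))) (.a (.a (.b (.l 66) (.l 15)) (.b (.l 66) (.l 15))) (.a (.b (.l
      66) (.l 15)) (.b (.l 66) (.l 15))))) (.c (.a (.a (.b (.l 66) (.l 15)) (.b (.l 66) (.l 15)))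
      (.a (.b (.l 66) (.l 15)) (.b (.l 66) (.l 15)))) (.a (.a (.b (.l 66) (.l 15)) (.b (.l 66)
      (.l 15))) (.b (.l 66) (.l 15))))))

theorem x1n_h123 : chk3 (onCell 0 2684354560 0 1073741824 0 26843546 T1N) x1n_t123 15 6 6 = true := by decide +kernel

def x1n_t124 : T :=
  (.c (.a (.b (.a (.a (.a (.b (.b (.l 66) (.l 15)) (.l 15)) (.b (.b (.l 66) (.l 15)) (.l 15)))
      (.a (.b (.b (.l 66) (.l 15)) (.l 15)) (.c (.l 34) (.l 34)))) (.a (.c (.l 34) (.l 34)) (.c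
      (.l 34) (.l 15)))) (.l 15)) (.b (.a (.c (.c (.l 34) (.l 34)) (.l 15)) (.c (.c (.l 34) (.l
      15)) (.l 15))) (.l 15))) (.b (.c (.l 15) (.l 15)) (.l 15)))

theorem x1n_h124 : chk3 (onCell 0 2684354560 0 1073741824 0 26843546 T1N) x1n_t124 15 6 7 = true := by decide +kernel

def x1n_t125 : T :=
  (.l 15)

theorem x1n_h125 : chk3 (onCell 0 2684354560 0 1073741824 0 26843546 T1N) x1n_t125 15 7 3 = true := by decide +kernel

end Pool.Agent.Strip051.LC.E1.V3
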