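import Pool.Agent.Strip051.LC.E1.V3.Cn1_1
import Pool.Agent.Strip051.LC.E1.V3.Cn1_2
import Pool.Agent.Strip051.LC.E1.V3.Cn1_3
import Pool.Agent.Strip051.LC.E1.V3.Cn1_4
import Pool.Agent.Strip051.LC.E1.V3.Cn1_5
import Pool.Agent.Strip051.LC.E1.V3.Cn1_6
import Pool.Agent.Strip051.LC.E1.V3.Cn1_7

/-! # Rests near the full period: certificate n1 -/

set_option maxRecDepth 100000

namespace Pool.Agent.Strip051.LC.E1.V3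

open Pool.Agent.Strip051.PB
open Pool.Agent.Strip051.LC.E0.Ch (onCell Tree)

theorem x1n : Tree 0 2684354560 0 1073741824 0 26843546 T1N :=
  ⟨_, (chk3_a (chk3_a (chk3_b (chk3_c x1n_h0 x1n_h1) (chk3_c (chk3_a x1n_h2 x1n_h3) x1n_h4))
      (chk3_b (chk3_c (chk3_a x1n_h5 (chk3_b (chk3_c x1n_h6 x1n_h7) (chk3_c x1n_h8 (chk3_a x1n_h9
      (chk3_b x1n_h10 x1n_h11))))) (chk3_b (chk3_b (chk3_a x1n_h12 (chk3_c x1n_h13 (chk3_b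
      x1n_h14 x1n_h15))) (chk3_a x1n_h16 (chk3_a x1n_h17 (chk3_b (chk3_c x1n_h18 (chk3_b x1n_h19
      x1n_h20)) (chk3_c x1n_h21 x1n_h22))))) (chk3_a (chk3_b x1n_h23 x1n_h24) (chk3_c (chk3_b
      (chk3_a x1n_h25 x1n_h26) (chk3_a x1n_h27 (chk3_c x1n_h28 x1n_h29))) (chk3_a x1n_h30 (chk3_b
      (chk3_b x1n_h31 x1n_h32) (chk3_b x1n_h33 x1n_h34))))))) (chk3_c (chk3_a x1n_h35 (chk3_b
      (chk3_c x1n_h36 (chk3_a x1n_h37 (chk3_b x1n_h38 x1n_h39))) x1n_h40)) (chk3_a (chk3_b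
      (chk3_c x1n_h41 x1n_h42) x1n_h43) (chk3_c (chk3_a x1n_h44 (chk3_b (chk3_b (chk3_c x1n_h45
      (chk3_b x1n_h46 x1n_h47)) x1n_h48) x1n_h49)) (chk3_a x1n_h50 (chk3_b (chk3_b (chk3_b
      x1n_h51 x1n_h52) x1n_h53) x1n_h54))))))) (chk3_a (chk3_b (chk3_c (chk3_a (chk3_b x1n_h55
      x1n_h56) x1n_h57) (chk3_a (chk3_b (chk3_b (chk3_b x1n_h58 (chk3_c x1n_h59 x1n_h60)) (chk3_b
      (chk3_a x1n_h61 x1n_h62) (chk3_a x1n_h63 x1n_h64))) (chk3_b (chk3_c x1n_h65 (chk3_c x1n_h66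
      x1n_h67)) (chk3_b x1n_h68 x1n_h69))) (chk3_b (chk3_b x1n_h70 (chk3_a (chk3_b x1n_h71
      x1n_h72) x1n_h73)) (chk3_c x1n_h74 (chk3_a (chk3_b (chk3_a x1n_h75 x1n_h76) (chk3_a x1n_h77
      x1n_h78)) (chk3_b (chk3_a x1n_h79 x1n_h80) x1n_h81)))))) (chk3_c (chk3_a x1n_h82 x1n_h83)
      (chk3_a (chk3_b (chk3_c x1n_h84 (chk3_a x1n_h85 x1n_h86)) x1n_h87) (chk3_b (chk3_c x1n_h88
      x1n_h89) x1n_h90)))) (chk3_b (chk3_c (chk3_a x1n_h91 x1n_h92) (chk3_a (chk3_b (chk3_c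
      x1n_h93 (chk3_b (chk3_b x1n_h94 x1n_h95) (chk3_b x1n_h96 x1n_h97))) (chk3_c (chk3_b x1n_h98
      x1n_h99) (chk3_a (chk3_b (chk3_b x1n_h100 x1n_h101) x1n_h102) (chk3_b x1n_h103 x1n_h104))))
      (chk3_b (chk3_c (chk3_b x1n_h105 (chk3_b x1n_h106 x1n_h107)) (chk3_b x1n_h108 x1n_h109))
      (chk3_c (chk3_b x1n_h110 x1n_h111) (chk3_c (chk3_b x1n_h112 x1n_h113) x1n_h114))))) (chk3_c
      (chk3_a x1n_h115 x1n_h116) (chk3_a (chk3_b (chk3_c x1n_h117 (chk3_b (chk3_c (chk3_a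
      x1n_h118 x1n_h119) x1n_h120) x1n_h121)) x1n_h122) (chk3_b (chk3_c x1n_h123 x1n_h124)
      x1n_h125))))))⟩

end Pool.Agent.Strip051.LC.E1.V3
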