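import Pool.Agent.Strip051.LC.E1.V3.Rw
import Pool.Agent.Strip051.LC.E0.Ch.Cell

/-! # Rests near the full period: certificate Cn2_2 -/

set_option maxRecDepth 100000

namespace Pool.Agent.Strip051.LC.E1.V3

open Pool.Agent.Strip051.PB
open Pool.Agent.Strip051.LC.E0.Ch (onCell Tree)

def x2n_t13 : T :=
  (.c (.a (.b (.c (.a (.b (.c (.l 34) (.l 34)) (.c (.l 34) (.l 34))) (.b (.c (.l 34) (.l 34)) (.c
      (.l 34) (.l 34)))) (.l 34)) (.c (.a (.b (.c (.l 34) (.l 34)) (.c (.l 34) (.l 34))) (.b (.c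
      (.l 34) (.l 34)) (.c (.l 34) (.l 34)))) (.l 34))) (.b (.c (.a (.b (.c (.l 34) (.l 34)) (.c
      (.l 34) (.l 34))) (.b (.c (.l 34) (.l 34)) (.c (.l 34) (.l 34)))) (.l 34)) (.c (.a (.b (.c
      (.l 34) (.l 34)) (.c (.l 34) (.l 34))) (.b (.c (.l 34) (.l 34)) (.c (.l 34) (.l 34)))) (.l
      34)))) (.l 66))

theorem x2n_h13 : chk3 (onCell 0 1073741824 0 429496730 0 67108864 T2N) x2n_t13 11 5 4 = true := by decide +kernel

def x2n_t14 : T :=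
  (.b (.l 66) (.a (.l 66) (.l 66)))

theorem x2n_h14 : chk3 (onCell 0 1073741824 0 429496730 0 67108864 T2N) x2n_t14 5 2 5 = true := by decide +kernel

def x2n_t15 : T :=
  (.c (.a (.b (.c (.a (.b (.c (.l 34) (.l 34)) (.c (.l 34) (.l 34))) (.b (.c (.l 34) (.l 34)) (.c
      (.l 34) (.l 34)))) (.l 34)) (.c (.a (.b (.c (.l 34) (.l 34)) (.c (.l 34) (.l 34))) (.b (.c
      (.l 34) (.l 34)) (.c (.l 34) (.l 34)))) (.l 34))) (.b (.c (.a (.b (.c (.l 34) (.l 34)) (.c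
      (.l 34) (.l 34))) (.b (.c (.l 34) (.l 34)) (.c (.l 34) (.l 34)))) (.l 34)) (.c (.a (.b (.c
      (.l 34) (.l 34)) (.c (.l 34) (.l 34))) (.b (.c (.l 34) (.l 34)) (.c (.l 34) (.l 34)))) (.l
      34)))) (.l 34))

theorem x2n_h15 : chk3 (onCell 0 1073741824 0 429496730 0 67108864 T2N) x2n_t15 10 6 4 = true := by decide +kernel

def x2n_t16 : T :=
  (.c (.a (.b (.c (.a (.b (.c (.l 34) (.l 34)) (.c (.l 34) (.l 34))) (.b (.c (.l 34) (.l 34)) (.c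
      (.l 34) (.l 34)))) (.l 34)) (.c (.a (.b (.c (.l 34) (.l 34)) (.c (.l 34) (.l 34))) (.b (.c
      (.l 34) (.l 34)) (.c (.l 34) (.l 34)))) (.l 34))) (.b (.c (.a (.b (.c (.l 34) (.l 34)) (.c
      (.l 34) (.l 34))) (.b (.c (.l 34) (.l 34)) (.c (.l 34) (.l 34)))) (.l 34)) (.c (.a (.b (.c
      (.l 34) (.l 34)) (.c (.l 34) (.l 34))) (.b (.c (.l 34) (.l 34)) (.c (.l 34) (.l 34)))) (.l
      34)))) (.l 34))

theorem x2n_h16 : chk3 (onCell 0 1073741824 0 429496730 0 67108864 T2N) x2n_t16 10 7 4 = true := by decide +kernel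

def x2n_t17 : T :=
  (.c (.a (.b (.c (.a (.b (.c (.l 34) (.l 34)) (.c (.l 34) (.l 34))) (.b (.c (.l 34) (.l 34)) (.c
      (.l 34) (.l 34)))) (.l 34)) (.c (.a (.b (.c (.l 34) (.l 34)) (.c (.l 34) (.l 34))) (.b (.c
      (.l 34) (.l 34)) (.c (.l 34) (.l 34)))) (.l 34))) (.b (.c (.a (.b (.c (.l 34) (.l 34)) (.c
      (.l 34) (.l 34))) (.b (.c (.l 34) (.l 34)) (.c (.l 34) (.l 34)))) (.l 34)) (.c (.a (.b (.c
      (.l 34) (.l 34)) (.c (.l 34) (.l 34))) (.b (.c (.l 34) (.l 34)) (.c (.l 34) (.l 34)))) (.l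
      34)))) (.l 34))

theorem x2n_h17 : chk3 (onCell 0 1073741824 0 429496730 0 67108864 T2N) x2n_t17 11 6 4 = true := by decide +kernel

def x2n_t18 : T :=
  (.c (.a (.b (.c (.a (.b (.c (.l 34) (.l 34)) (.c (.l 34) (.l 34))) (.b (.c (.l 34) (.l 34)) (.c
      (.l 34) (.l 34)))) (.l 34)) (.c (.a (.b (.c (.l 34) (.l 34)) (.c (.l 34) (.l 34))) (.b (.c
      (.l 34) (.l 34)) (.c (.l 34) (.l 34)))) (.l 34))) (.b (.c (.a (.b (.c (.l 34) (.l 34)) (.c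
      (.l 34) (.l 34))) (.b (.c (.l 34) (.l 34)) (.c (.l 34) (.l 34)))) (.l 34)) (.c (.a (.b (.c
      (.l 34) (.l 34)) (.c (.l 34) (.l 34))) (.b (.c (.l 34) (.l 34)) (.c (.l 34) (.l 34)))) (.l
      34)))) (.l 34))

theorem x2n_h18 : chk3 (onCell 0 1073741824 0 429496730 0 67108864 T2N) x2n_t18 11 7 4 = true := by decide +kernel

def x2n_t19 : T :=
  (.b (.a (.l 66) (.l 66)) (.a (.b (.l 66) (.l 66)) (.b (.l 66) (.l 66))))

theorem x2n_h19 : chk3 (onCell 0 1073741824 0 429496730 0 67108864 T2N) x2n_t19 5 3 5 = true := by decide +kernel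

def x2n_t20 : T :=
  (.b (.b (.a (.b (.c (.l 66) (.l 66)) (.c (.l 66) (.l 34))) (.c (.l 66) (.l 34))) (.a (.b (.c
      (.l 66) (.l 34)) (.c (.l 66) (.l 34))) (.c (.l 66) (.l 34)))) (.b (.b (.a (.c (.l 66) (.l
      66)) (.c (.l 66) (.l 34))) (.a (.c (.l 66) (.l 66)) (.c (.l 66) (.l 34)))) (.b (.c (.a (.l
      66) (.l 66)) (.a (.l 66) (.l 34))) (.c (.a (.l 66) (.l 66)) (.a (.l 66) (.l 34))))))

theorem x2n_h20 : chk3 (onCell 0 1073741824 0 429496730 0 67108864 T2N) x2n_t20 4 4 3 = true := by decide +kernel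

def x2n_t21 : T :=
  (.b (.b (.b (.c (.a (.l 66) (.l 66)) (.a (.l 66) (.a (.l 34) (.l 34)))) (.c (.a (.l 66) (.l
      66)) (.a (.l 66) (.a (.l 34) (.l 34))))) (.a (.c (.l 66) (.a (.l 66) (.l 34))) (.c (.a (.l
      66) (.l 66)) (.a (.l 34) (.l 34))))) (.b (.a (.c (.l 66) (.a (.l 66) (.l 34))) (.c (.a (.l
      66) (.l 66)) (.a (.l 34) (.l 34)))) (.c (.a (.l 66) (.a (.l 66) (.l 66))) (.a (.a (.l 66)
      (.l 34)) (.a (.a (.l 34) (.l 34)) (.a (.l 34) (.l 34)))))))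

theorem x2n_h21 : chk3 (onCell 0 1073741824 0 429496730 0 67108864 T2N) x2n_t21 4 5 3 = true := by decide +kernel

def x2n_t22 : T :=
  (.c (.a (.a (.l 66) (.l 66)) (.a (.b (.l 66) (.l 66)) (.b (.l 66) (.l 66)))) (.a (.a (.a (.l
      66) (.l 66)) (.a (.b (.l 34) (.l 34)) (.b (.l 34) (.l 34)))) (.a (.b (.a (.l 34) (.l 34))
      (.a (.l 34) (.c (.l 34) (.l 34)))) (.b (.a (.l 34) (.l 34)) (.c (.l 34) (.l 34))))))

theorem x2n_h22 : chk3 (onCell 0 1073741824 0 429496730 0 67108864 T2N) x2n_t22 4 12 3 = true := by decide +kernel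

def x2n_t23 : T :=
  (.c (.a (.a (.l 66) (.b (.l 66) (.l 66))) (.a (.b (.l 66) (.a (.l 66) (.l 66))) (.b (.a (.l 66)
      (.l 66)) (.a (.l 66) (.l 66))))) (.a (.a (.a (.c (.l 34) (.l 34)) (.c (.l 34) (.l 34))) (.a
      (.c (.l 34) (.l 34)) (.c (.l 34) (.l 34)))) (.a (.b (.a (.c (.l 34) (.l 34)) (.c (.l 34)
      (.l 34))) (.a (.c (.l 34) (.l 34)) (.c (.l 34) (.l 34)))) (.b (.c (.l 34) (.l 34)) (.c (.l
      34) (.l 34))))))

theorem x2n_h23 : chk3 (onCell 0 1073741824 0 429496730 0 67108864 T2N) x2n_t23 4 13 3 = true := by decide +kernel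

def x2n_t24 : T :=
  (.a (.b (.l 66) (.a (.l 66) (.l 66))) (.b (.a (.l 66) (.b (.l 66) (.l 66))) (.a (.b (.l 66) (.l
      66)) (.b (.l 66) (.c (.l 66) (.l 66))))))

theorem x2n_h24 : chk3 (onCell 0 1073741824 0 429496730 0 67108864 T2N) x2n_t24 8 7 6 = true := by decide +kernel

def x2n_t25 : T :=
  (.a (.a (.b (.l 66) (.l 66)) (.b (.l 66) (.b (.l 66) (.l 66)))) (.b (.a (.b (.l 66) (.l 66))
      (.b (.l 66) (.l 66))) (.a (.b (.l 66) (.a (.l 66) (.l 66))) (.b (.a (.l 66) (.l 66)) (.a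
      (.l 66) (.c (.l 66) (.l 66)))))))

theorem x2n_h25 : chk3 (onCell 0 1073741824 0 429496730 0 67108864 T2N) x2n_t25 9 14 6 = true := by decide +kernel

def x2n_t26 : T :=
  (.a (.b (.b (.l 66) (.a (.l 66) (.l 66))) (.a (.b (.l 66) (.c (.l 66) (.l 66))) (.b (.c (.l 66)
      (.l 66)) (.c (.l 66) (.l 66))))) (.b (.b (.a (.l 66) (.l 66)) (.a (.l 66) (.b (.l 66) (.l
      66)))) (.a (.b (.c (.l 66) (.l 66)) (.c (.l 66) (.l 66))) (.b (.c (.l 66) (.l 66)) (.c (.l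
      66) (.l 66))))))

theorem x2n_h26 : chk3 (onCell 0 1073741824 0 429496730 0 67108864 T2N) x2n_t26 18 15 6 = true := by decide +kernel

def x2n_t27 : T :=
  (.b (.a (.b (.a (.l 66) (.b (.l 66) (.l 66))) (.a (.c (.l 66) (.l 66)) (.c (.l 66) (.l 66))))
      (.b (.c (.l 66) (.l 66)) (.a (.c (.l 66) (.l 66)) (.c (.l 66) (.l 66))))) (.a (.b (.a (.c
      (.l 66) (.l 66)) (.c (.l 66) (.l 66))) (.a (.c (.l 66) (.l 66)) (.c (.l 66) (.l 66)))) (.b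
      (.a (.c (.l 66) (.l 66)) (.c (.l 66) (.l 66))) (.a (.c (.l 66) (.l 66)) (.c (.l 66) (.l
      66))))))

theorem x2n_h27 : chk3 (onCell 0 1073741824 0 429496730 0 67108864 T2N) x2n_t27 19 15 6 = true := by decide +kernel

def x2n_t28 : T :=
  (.a (.b (.c (.l 34) (.a (.l 34) (.l 34))) (.c (.l 34) (.a (.c (.l 34) (.l 34)) (.b (.l 34) (.c
      (.l 34) (.l 34)))))) (.b (.c (.l 34) (.a (.l 34) (.b (.l 34) (.l 34)))) (.c (.l 34) (.a (.b
      (.c (.l 34) (.l 34)) (.c (.l 34) (.l 34))) (.b (.c (.l 34) (.l 34)) (.c (.l 34) (.l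
      34)))))))

theorem x2n_h28 : chk3 (onCell 0 1073741824 0 429496730 0 67108864 T2N) x2n_t28 8 7 7 = true := by decide +kernel

def x2n_t29 : T :=
  (.a (.b (.c (.l 34) (.b (.l 34) (.a (.l 34) (.l 34)))) (.c (.b (.l 34) (.l 34)) (.a (.b (.l 34)
      (.a (.l 34) (.l 34))) (.b (.l 34) (.a (.l 34) (.l 34)))))) (.b (.c (.l 34) (.a (.l 34) (.l
      34))) (.c (.b (.l 34) (.l 34)) (.b (.a (.l 34) (.l 34)) (.c (.l 34) (.l 34))))))

theorem x2n_h29 : chk3 (onCell 0 1073741824 0 429496730 0 67108864 T2N) x2n_t29 9 7 7 = true := by decide +kernel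

end Pool.Agent.Strip051.LC.E1.V3
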