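import Pool.Agent.Strip051.LC.E1.V3.Rw
import Pool.Agent.Strip051.LC.E0.Ch.Cell

/-! # Rests near the full period: certificate Cn2_3 -/

set_option maxRecDepth 100000

namespace Pool.Agent.Strip051.LC.E1.V3

open Pool.Agent.Strip051.PB
open Pool.Agent.Strip051.LC.E0.Ch (onCell Tree)

def x2n_t30 : T :=
  (.b (.c (.b (.a (.l 66) (.l 66)) (.a (.l 66) (.b (.l 66) (.l 66)))) (.b (.a (.l 34) (.b (.l 34)
      (.l 34))) (.a (.b (.l 34) (.l 34)) (.b (.l 34) (.c (.l 34) (.l 34)))))) (.c (.b (.a (.l 66)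
      (.b (.l 66) (.a (.l 66) (.l 66)))) (.a (.b (.l 66) (.l 66)) (.b (.a (.l 66) (.l 66)) (.a
      (.l 66) (.b (.l 66) (.l 66)))))) (.b (.a (.b (.l 34) (.l 34)) (.b (.c (.l 34) (.l 34)) (.c
      (.l 34) (.l 34)))) (.a (.b (.c (.l 34) (.l 34)) (.c (.l 34) (.l 34))) (.b (.c (.l 34) (.l
      34)) (.c (.l 34) (.l 34)))))))

theorem x2n_h30 : chk3 (onCell 0 1073741824 0 429496730 0 67108864 T2N) x2n_t30 10 2 3 = true := by decide +kernel

def x2n_t31 : T :=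
  (.b (.a (.b (.l 66) (.l 66)) (.b (.a (.l 66) (.l 66)) (.a (.l 66) (.l 66)))) (.a (.b (.a (.l
      66) (.l 66)) (.a (.l 66) (.l 66))) (.b (.a (.l 66) (.b (.l 66) (.l 66))) (.a (.b (.l 66)
      (.l 66)) (.b (.l 66) (.l 66))))))

theorem x2n_h31 : chk3 (onCell 0 1073741824 0 429496730 0 67108864 T2N) x2n_t31 11 4 6 = true := by decide +kernel

def x2n_t32 : T :=
  (.a (.b (.a (.l 66) (.l 66)) (.a (.l 66) (.b (.l 66) (.l 66)))) (.b (.a (.b (.l 66) (.l 66))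
      (.b (.c (.l 66) (.l 66)) (.c (.l 66) (.l 66)))) (.a (.b (.a (.l 66) (.l 66)) (.a (.l 66)
      (.l 66))) (.b (.c (.l 66) (.l 66)) (.c (.l 66) (.l 66))))))

theorem x2n_h32 : chk3 (onCell 0 1073741824 0 429496730 0 67108864 T2N) x2n_t32 11 10 6 = true := by decide +kernel

def x2n_t33 : T :=
  (.b (.a (.b (.l 66) (.l 66)) (.b (.a (.l 66) (.l 66)) (.a (.l 66) (.l 66)))) (.a (.b (.l 66)
      (.a (.l 66) (.l 66))) (.b (.a (.l 66) (.l 66)) (.a (.l 66) (.b (.l 66) (.l 66))))))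

theorem x2n_h33 : chk3 (onCell 0 1073741824 0 429496730 0 67108864 T2N) x2n_t33 22 11 6 = true := by decide +kernel

def x2n_t34 : T :=
  (.a (.b (.a (.l 66) (.b (.l 66) (.l 66))) (.a (.l 66) (.b (.l 66) (.l 66)))) (.b (.c (.l 66)
      (.l 66)) (.a (.b (.c (.l 66) (.l 66)) (.c (.l 66) (.l 66))) (.c (.l 66) (.l 66)))))

theorem x2n_h34 : chk3 (onCell 0 1073741824 0 429496730 0 67108864 T2N) x2n_t34 23 22 6 = true := by decide +kernel

def x2n_t35 : T :=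
  (.a (.b (.a (.b (.l 66) (.l 66)) (.b (.c (.l 66) (.l 66)) (.c (.l 66) (.l 66)))) (.a (.b (.l
      66) (.a (.l 66) (.l 66))) (.b (.c (.l 66) (.l 66)) (.c (.l 66) (.l 66))))) (.b (.a (.b (.c
      (.l 66) (.l 66)) (.c (.l 66) (.l 66))) (.b (.c (.l 66) (.l 66)) (.c (.l 66) (.l 66)))) (.a
      (.b (.c (.l 66) (.l 66)) (.c (.l 66) (.l 66))) (.b (.c (.l 66) (.l 66)) (.c (.l 66) (.l
      66))))))

theorem x2n_h35 : chk3 (onCell 0 1073741824 0 429496730 0 67108864 T2N) x2n_t35 23 23 6 = true := by decide +kernel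

def x2n_t36 : T :=
  (.b (.b (.b (.c (.l 34) (.l 34)) (.c (.l 34) (.l 34))) (.b (.c (.l 34) (.l 34)) (.c (.l 34) (.l
      34)))) (.b (.b (.c (.l 34) (.l 34)) (.c (.l 34) (.l 34))) (.b (.c (.l 34) (.l 34)) (.c (.l
      34) (.l 34)))))

theorem x2n_h36 : chk3 (onCell 0 1073741824 0 429496730 0 67108864 T2N) x2n_t36 11 2 7 = true := by decide +kernel

def x2n_t37 : T :=
  (.b (.a (.b (.a (.l 66) (.l 66)) (.a (.l 66) (.l 66))) (.b (.a (.l 66) (.b (.l 66) (.l 66)))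
      (.a (.b (.l 66) (.l 66)) (.b (.a (.l 66) (.l 66)) (.c (.l 66) (.l 66)))))) (.a (.b (.a (.l
      66) (.b (.l 66) (.l 66))) (.a (.b (.l 66) (.l 66)) (.b (.a (.l 66) (.l 66)) (.a (.l 66) (.l
      66))))) (.b (.a (.b (.a (.l 66) (.l 66)) (.c (.l 66) (.l 66))) (.b (.c (.l 66) (.l 66)) (.c
      (.l 66) (.l 66)))) (.a (.b (.c (.l 66) (.l 66)) (.c (.l 66) (.l 66))) (.b (.c (.l 66) (.l
      66)) (.c (.l 66) (.l 66)))))))

theorem x2n_h37 : chk3 (onCell 0 1073741824 0 429496730 0 67108864 T2N) x2n_t37 10 6 6 = true := by decide +kernel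

def x2n_t38 : T :=
  (.b (.a (.b (.a (.l 66) (.l 66)) (.a (.l 66) (.l 66))) (.b (.a (.b (.l 66) (.l 66)) (.b (.l 66)
      (.c (.l 66) (.l 66)))) (.a (.b (.l 66) (.l 66)) (.b (.c (.l 66) (.l 66)) (.c (.l 66) (.l
      66)))))) (.a (.b (.a (.l 66) (.b (.l 66) (.l 66))) (.a (.c (.l 66) (.l 66)) (.c (.l 66) (.l
      66)))) (.b (.a (.b (.c (.l 66) (.l 66)) (.c (.l 66) (.l 66))) (.b (.c (.l 66) (.l 66)) (.c
      (.l 66) (.l 66)))) (.a (.c (.l 66) (.l 66)) (.b (.c (.l 66) (.l 66)) (.c (.l 66) (.l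
      66)))))))

theorem x2n_h38 : chk3 (onCell 0 1073741824 0 429496730 0 67108864 T2N) x2n_t38 22 12 6 = true := by decide +kernel

def x2n_t39 : T :=
  (.b (.a (.b (.a (.l 66) (.l 66)) (.a (.l 66) (.b (.l 66) (.l 66)))) (.b (.c (.l 66) (.l 66))
      (.a (.b (.l 66) (.l 66)) (.c (.l 66) (.l 66))))) (.a (.b (.a (.l 66) (.b (.l 66) (.l 66)))
      (.c (.l 66) (.l 66))) (.b (.a (.b (.c (.l 66) (.l 66)) (.c (.l 66) (.l 66))) (.b (.c (.l
      66) (.l 66)) (.c (.l 66) (.l 66)))) (.a (.c (.l 66) (.l 66)) (.b (.c (.l 66) (.l 66)) (.c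
      (.l 66) (.l 66)))))))

theorem x2n_h39 : chk3 (onCell 0 1073741824 0 429496730 0 67108864 T2N) x2n_t39 46 24 6 = true := by decide +kernel

def x2n_t40 : T :=
  (.b (.a (.b (.c (.l 66) (.l 66)) (.c (.l 66) (.l 66))) (.b (.c (.l 66) (.l 66)) (.c (.l 66) (.l
      66)))) (.b (.a (.a (.b (.c (.l 66) (.l 66)) (.c (.l 66) (.l 66))) (.b (.c (.l 66) (.l 66))
      (.c (.l 66) (.l 66)))) (.c (.l 66) (.l 66))) (.a (.a (.b (.c (.l 66) (.l 66)) (.c (.l 66)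
      (.l 66))) (.b (.c (.l 66) (.l 66)) (.c (.l 66) (.l 66)))) (.b (.a (.c (.l 66) (.l 66)) (.c
      (.l 66) (.l 66))) (.a (.c (.l 66) (.l 66)) (.c (.l 66) (.l 66)))))))

theorem x2n_h40 : chk3 (onCell 0 1073741824 0 429496730 0 67108864 T2N) x2n_t40 47 24 6 = true := by decide +kernel

def x2n_t41 : T :=
  (.a (.b (.a (.b (.c (.l 66) (.l 66)) (.c (.l 66) (.l 66))) (.b (.c (.l 66) (.l 66)) (.c (.l 66)
      (.l 66)))) (.a (.b (.c (.l 66) (.l 66)) (.c (.l 66) (.l 66))) (.b (.c (.l 66) (.l 66)) (.c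
      (.l 66) (.l 66))))) (.b (.b (.a (.c (.l 66) (.l 66)) (.b (.a (.c (.l 66) (.l 66)) (.c (.l
      66) (.l 66))) (.c (.l 66) (.l 66)))) (.a (.c (.l 66) (.l 66)) (.c (.l 66) (.l 66)))) (.b
      (.a (.c (.l 66) (.l 66)) (.c (.l 66) (.l 66))) (.a (.c (.l 66) (.l 66)) (.c (.l 66) (.l
      66))))))

theorem x2n_h41 : chk3 (onCell 0 1073741824 0 429496730 0 67108864 T2N) x2n_t41 23 25 6 = true := by decide +kernel

def x2n_t42 : T :=
  (.a (.b (.a (.b (.c (.l 66) (.l 66)) (.c (.l 66) (.l 66))) (.b (.c (.l 66) (.l 66)) (.c (.l 66)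
      (.l 66)))) (.a (.b (.c (.l 66) (.l 66)) (.c (.l 66) (.l 66))) (.b (.c (.l 66) (.l 66)) (.c
      (.l 66) (.l 66))))) (.b (.b (.a (.c (.l 66) (.l 66)) (.b (.a (.c (.l 66) (.l 66)) (.c (.l
      66) (.l 66))) (.c (.l 66) (.l 66)))) (.a (.c (.l 66) (.l 66)) (.c (.l 66) (.l 66)))) (.b
      (.a (.c (.l 66) (.l 66)) (.c (.l 66) (.l 66))) (.a (.c (.l 66) (.l 66)) (.c (.l 66) (.l
      66))))))

theorem x2n_h42 : chk3 (onCell 0 1073741824 0 429496730 0 67108864 T2N) x2n_t42 11 13 6 = true := by decide +kernel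

def x2n_t43 : T :=
  (.a (.b (.a (.b (.a (.l 66) (.l 66)) (.a (.l 66) (.l 66))) (.b (.c (.l 66) (.l 66)) (.c (.l 66)
      (.l 66)))) (.a (.b (.a (.l 66) (.b (.l 66) (.l 66))) (.c (.l 66) (.l 66))) (.b (.c (.l 66)
      (.l 66)) (.c (.l 66) (.l 66))))) (.b (.a (.b (.c (.l 66) (.l 66)) (.c (.l 66) (.l 66))) (.b
      (.c (.l 66) (.l 66)) (.c (.l 66) (.l 66)))) (.a (.b (.c (.l 66) (.l 66)) (.c (.l 66) (.l
      66))) (.b (.c (.l 66) (.l 66)) (.c (.l 66) (.l 66))))))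

theorem x2n_h43 : chk3 (onCell 0 1073741824 0 429496730 0 67108864 T2N) x2n_t43 10 14 6 = true := by decide +kernel

def x2n_t44 : T :=
  (.a (.b (.a (.b (.c (.l 66) (.l 66)) (.c (.l 66) (.l 66))) (.b (.c (.l 66) (.l 66)) (.c (.l 66)
      (.l 66)))) (.a (.b (.c (.l 66) (.l 66)) (.a (.c (.l 66) (.l 66)) (.c (.l 66) (.l 66)))) (.b
      (.c (.l 66) (.l 66)) (.c (.l 66) (.l 66))))) (.b (.a (.b (.c (.l 66) (.l 66)) (.c (.l 66)
      (.l 66))) (.b (.c (.l 66) (.l 66)) (.c (.l 66) (.l 66)))) (.a (.b (.c (.l 66) (.l 66)) (.c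
      (.l 66) (.l 66))) (.b (.c (.l 66) (.l 66)) (.c (.l 66) (.l 66))))))

theorem x2n_h44 : chk3 (onCell 0 1073741824 0 429496730 0 67108864 T2N) x2n_t44 10 15 6 = true := by decide +kernel

def x2n_t45 : T :=
  (.b (.a (.a (.b (.c (.l 66) (.l 66)) (.c (.l 66) (.l 66))) (.b (.c (.l 66) (.l 66)) (.c (.l 66)
      (.l 66)))) (.b (.a (.c (.l 66) (.l 66)) (.c (.l 66) (.l 66))) (.a (.c (.l 66) (.l 66)) (.c
      (.l 66) (.l 66))))) (.a (.a (.b (.c (.l 66) (.l 66)) (.c (.l 66) (.l 66))) (.b (.c (.l 66)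
      (.l 66)) (.c (.l 66) (.l 66)))) (.c (.l 66) (.l 66))))

theorem x2n_h45 : chk3 (onCell 0 1073741824 0 429496730 0 67108864 T2N) x2n_t45 11 14 6 = true := by decide +kernel

end Pool.Agent.Strip051.LC.E1.V3
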