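import Pool.Agent.Strip051.LC.E1.V3.Rw
import Pool.Agent.Strip051.LC.E0.Ch.Cell

/-! # Rests near the full period: certificate Cn2_4 -/

set_option maxRecDepth 100000

namespace Pool.Agent.Strip051.LC.E1.V3

open Pool.Agent.Strip051.PB
open Pool.Agent.Strip051.LC.E0.Ch (onCell Tree)

def x2n_t46 : T :=
  (.b (.a (.a (.b (.c (.l 66) (.l 66)) (.c (.l 66) (.l 66))) (.b (.c (.l 66) (.l 66)) (.c (.l 66)
      (.l 66)))) (.c (.l 66) (.l 66))) (.a (.c (.l 66) (.a (.l 66) (.l 66))) (.c (.l 66) (.a (.l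
      66) (.l 66)))))

theorem x2n_h46 : chk3 (onCell 0 1073741824 0 429496730 0 67108864 T2N) x2n_t46 11 15 6 = true := by decide +kernel

def x2n_t47 : T :=
  (.b (.a (.a (.b (.c (.l 34) (.l 34)) (.c (.l 34) (.l 34))) (.b (.c (.l 34) (.l 34)) (.c (.l 34)
      (.l 34)))) (.b (.c (.l 34) (.l 34)) (.c (.l 34) (.l 34)))) (.a (.a (.b (.c (.l 34) (.l 34))
      (.c (.l 34) (.l 34))) (.b (.c (.l 34) (.l 34)) (.c (.l 34) (.l 34)))) (.b (.c (.l 34) (.l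
      34)) (.c (.l 34) (.c (.l 34) (.l 34))))))

theorem x2n_h47 : chk3 (onCell 0 1073741824 0 429496730 0 67108864 T2N) x2n_t47 5 6 7 = true := by decide +kernel

def x2n_t48 : T :=
  (.b (.a (.a (.b (.c (.l 34) (.l 34)) (.c (.l 34) (.l 34))) (.b (.c (.l 34) (.l 34)) (.c (.l 34)
      (.l 34)))) (.b (.c (.l 34) (.c (.l 34) (.l 34))) (.c (.l 34) (.c (.l 34) (.l 34))))) (.a
      (.a (.c (.b (.l 34) (.l 34)) (.b (.l 34) (.a (.l 34) (.l 34)))) (.b (.c (.l 34) (.l 34))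
      (.c (.l 34) (.c (.l 34) (.l 34))))) (.b (.c (.a (.l 34) (.l 34)) (.c (.l 34) (.l 34))) (.c
      (.b (.a (.l 34) (.l 34)) (.c (.l 34) (.l 34))) (.c (.l 34) (.l 34))))))

theorem x2n_h48 : chk3 (onCell 0 1073741824 0 429496730 0 67108864 T2N) x2n_t48 5 7 7 = true := by decide +kernel

def x2n_t49 : T :=
  (.c (.a (.b (.c (.a (.b (.c (.l 66) (.l 66)) (.c (.l 34) (.l 66))) (.b (.c (.l 66) (.l 66)) (.c
      (.l 34) (.l 66)))) (.l 66)) (.c (.a (.b (.c (.l 34) (.l 34)) (.c (.l 34) (.l 34))) (.b (.c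
      (.l 34) (.l 34)) (.c (.l 34) (.l 34)))) (.l 66))) (.b (.c (.a (.b (.c (.l 66) (.l 66)) (.c
      (.l 34) (.l 66))) (.b (.c (.l 66) (.l 66)) (.c (.l 34) (.l 66)))) (.l 66)) (.c (.a (.b (.c
      (.l 34) (.l 34)) (.c (.l 34) (.l 34))) (.b (.c (.l 34) (.l 34)) (.c (.l 34) (.l 34)))) (.l
      66)))) (.l 66))

theorem x2n_h49 : chk3 (onCell 0 1073741824 0 429496730 0 67108864 T2N) x2n_t49 12 4 4 = true := by decide +kernel

def x2n_t50 : T :=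
  (.c (.a (.b (.c (.a (.b (.c (.l 34) (.l 34)) (.c (.l 34) (.l 34))) (.b (.c (.l 34) (.l 34)) (.c
      (.l 34) (.l 34)))) (.l 34)) (.c (.a (.b (.c (.l 34) (.l 34)) (.c (.l 34) (.l 34))) (.b (.c
      (.l 34) (.l 34)) (.c (.l 34) (.l 34)))) (.l 34))) (.b (.c (.a (.b (.c (.l 34) (.l 34)) (.c
      (.l 34) (.l 34))) (.b (.c (.l 34) (.l 34)) (.c (.l 34) (.l 34)))) (.l 34)) (.c (.a (.b (.c
      (.l 34) (.l 34)) (.c (.l 34) (.l 34))) (.b (.c (.l 34) (.l 34)) (.c (.l 34) (.l 34)))) (.l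
      34)))) (.l 66))

theorem x2n_h50 : chk3 (onCell 0 1073741824 0 429496730 0 67108864 T2N) x2n_t50 12 5 4 = true := by decide +kernel

def x2n_t51 : T :=
  (.c (.a (.b (.c (.a (.b (.c (.l 66) (.l 66)) (.c (.l 34) (.l 66))) (.b (.c (.l 66) (.l 66)) (.c
      (.l 34) (.l 66)))) (.l 66)) (.c (.a (.b (.c (.l 34) (.l 34)) (.c (.l 34) (.l 34))) (.b (.c
      (.l 34) (.l 34)) (.c (.l 34) (.l 34)))) (.l 66))) (.b (.c (.a (.b (.c (.l 66) (.l 66)) (.c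
      (.l 34) (.l 66))) (.b (.c (.l 66) (.l 66)) (.c (.l 34) (.l 66)))) (.l 66)) (.c (.a (.b (.c
      (.l 34) (.l 34)) (.c (.l 34) (.l 34))) (.b (.c (.l 34) (.l 34)) (.c (.l 34) (.l 34)))) (.l
      66)))) (.l 66))

theorem x2n_h51 : chk3 (onCell 0 1073741824 0 429496730 0 67108864 T2N) x2n_t51 13 4 4 = true := by decide +kernel

def x2n_t52 : T :=
  (.c (.a (.b (.c (.a (.b (.c (.l 34) (.l 34)) (.c (.l 34) (.l 34))) (.b (.c (.l 34) (.l 34)) (.c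
      (.l 34) (.l 34)))) (.l 34)) (.c (.a (.b (.c (.l 34) (.l 34)) (.c (.l 34) (.l 34))) (.b (.c
      (.l 34) (.l 34)) (.c (.l 34) (.l 34)))) (.l 34))) (.b (.c (.a (.b (.c (.l 34) (.l 34)) (.c
      (.l 34) (.l 34))) (.b (.c (.l 34) (.l 34)) (.c (.l 34) (.l 34)))) (.l 34)) (.c (.a (.b (.c
      (.l 34) (.l 34)) (.c (.l 34) (.l 34))) (.b (.c (.l 34) (.l 34)) (.c (.l 34) (.l 34)))) (.l
      34)))) (.l 66))

theorem x2n_h52 : chk3 (onCell 0 1073741824 0 429496730 0 67108864 T2N) x2n_t52 13 5 4 = true := by decide +kernel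

def x2n_t53 : T :=
  (.b (.b (.a (.l 66) (.b (.a (.l 66) (.l 15)) (.a (.l 66) (.l 15)))) (.a (.l 66) (.b (.c (.l 34)
      (.l 15)) (.c (.l 66) (.l 15))))) (.b (.a (.l 66) (.b (.c (.l 66) (.l 15)) (.c (.l 66) (.l
      15)))) (.a (.l 66) (.c (.l 66) (.l 15)))))

theorem x2n_h53 : chk3 (onCell 0 1073741824 0 429496730 0 67108864 T2N) x2n_t53 6 2 5 = true := by decide +kernel

def x2n_t54 : T :=
  (.c (.a (.b (.c (.a (.b (.c (.l 34) (.l 34)) (.c (.l 34) (.l 34))) (.b (.c (.l 34) (.l 34)) (.c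
      (.l 34) (.l 34)))) (.l 34)) (.c (.a (.b (.c (.l 34) (.l 34)) (.c (.l 34) (.l 34))) (.b (.c
      (.l 34) (.l 34)) (.c (.l 34) (.l 34)))) (.l 34))) (.b (.c (.a (.b (.c (.l 34) (.l 34)) (.c
      (.l 34) (.l 34))) (.b (.c (.l 34) (.l 34)) (.c (.l 34) (.l 34)))) (.l 34)) (.c (.a (.b (.c
      (.l 34) (.l 34)) (.c (.l 34) (.l 34))) (.b (.c (.l 34) (.l 34)) (.c (.l 34) (.l 34)))) (.l
      34)))) (.l 34))

theorem x2n_h54 : chk3 (onCell 0 1073741824 0 429496730 0 67108864 T2N) x2n_t54 12 6 4 = true := by decide +kernel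

def x2n_t55 : T :=
  (.c (.a (.b (.c (.a (.b (.c (.l 34) (.l 34)) (.c (.l 34) (.l 34))) (.b (.c (.l 34) (.l 34)) (.c
      (.l 34) (.l 34)))) (.l 34)) (.c (.a (.b (.c (.l 34) (.l 34)) (.c (.l 34) (.l 34))) (.b (.c
      (.l 34) (.l 34)) (.c (.l 34) (.l 34)))) (.l 34))) (.b (.c (.a (.b (.c (.l 34) (.l 34)) (.c
      (.l 34) (.l 34))) (.b (.c (.l 34) (.l 34)) (.c (.l 34) (.l 34)))) (.l 34)) (.c (.a (.b (.c
      (.l 34) (.l 34)) (.c (.l 34) (.l 34))) (.b (.c (.l 34) (.l 34)) (.c (.l 34) (.l 34)))) (.l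
      34)))) (.l 34))

theorem x2n_h55 : chk3 (onCell 0 1073741824 0 429496730 0 67108864 T2N) x2n_t55 12 7 4 = true := by decide +kernel

def x2n_t56 : T :=
  (.c (.a (.b (.c (.a (.b (.c (.l 34) (.l 34)) (.c (.l 34) (.l 34))) (.b (.c (.l 34) (.l 34)) (.c
      (.l 34) (.l 34)))) (.l 34)) (.c (.a (.b (.c (.l 34) (.l 34)) (.c (.l 34) (.l 34))) (.b (.c
      (.l 34) (.l 34)) (.c (.l 34) (.l 34)))) (.l 34))) (.b (.c (.a (.b (.c (.l 34) (.l 34)) (.c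
      (.l 34) (.l 34))) (.b (.c (.l 34) (.l 34)) (.c (.l 34) (.l 34)))) (.l 34)) (.c (.a (.b (.c
      (.l 34) (.l 34)) (.c (.l 34) (.l 34))) (.b (.c (.l 34) (.l 34)) (.c (.l 34) (.l 34)))) (.l
      34)))) (.l 34))

theorem x2n_h56 : chk3 (onCell 0 1073741824 0 429496730 0 67108864 T2N) x2n_t56 13 6 4 = true := by decide +kernel

def x2n_t57 : T :=
  (.c (.a (.b (.c (.a (.b (.c (.l 34) (.l 34)) (.c (.l 34) (.l 34))) (.b (.c (.l 34) (.l 34)) (.c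
      (.l 34) (.l 34)))) (.l 34)) (.c (.a (.b (.c (.l 34) (.l 34)) (.c (.l 34) (.l 34))) (.b (.c
      (.l 34) (.l 34)) (.c (.l 34) (.l 34)))) (.l 34))) (.b (.c (.a (.b (.c (.l 34) (.l 34)) (.c
      (.l 34) (.l 34))) (.b (.c (.l 34) (.l 34)) (.c (.l 34) (.l 34)))) (.l 34)) (.c (.a (.b (.c
      (.l 34) (.l 34)) (.c (.l 34) (.l 34))) (.b (.c (.l 34) (.l 34)) (.c (.l 34) (.l 34)))) (.l
      34)))) (.l 34))

theorem x2n_h57 : chk3 (onCell 0 1073741824 0 429496730 0 67108864 T2N) x2n_t57 13 7 4 = true := by decide +kernel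

def x2n_t58 : T :=
  (.b (.b (.a (.l 66) (.c (.l 66) (.l 15))) (.a (.b (.l 66) (.l 66)) (.c (.l 34) (.l 15)))) (.b
      (.a (.b (.a (.l 66) (.l 66)) (.a (.l 66) (.l 66))) (.c (.l 34) (.l 15))) (.a (.b (.a (.l
      66) (.l 66)) (.a (.l 66) (.l 66))) (.c (.l 34) (.l 15)))))

theorem x2n_h58 : chk3 (onCell 0 1073741824 0 429496730 0 67108864 T2N) x2n_t58 6 3 5 = true := by decide +kernel

def x2n_t59 : T :=
  (.b (.c (.a (.b (.c (.a (.b (.c (.l 66) (.l 66)) (.c (.l 34) (.l 66))) (.b (.c (.l 66) (.l 66))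
      (.c (.l 34) (.l 66)))) (.l 66)) (.c (.a (.b (.c (.l 34) (.l 34)) (.c (.l 34) (.l 34))) (.b
      (.c (.l 34) (.l 34)) (.c (.l 34) (.l 34)))) (.l 66))) (.l 15)) (.l 15)) (.c (.a (.b (.c (.a
      (.b (.c (.l 34) (.l 34)) (.c (.l 34) (.l 34))) (.b (.c (.l 34) (.l 34)) (.c (.l 34) (.l
      34)))) (.l 34)) (.c (.a (.b (.c (.l 34) (.l 34)) (.c (.l 34) (.l 34))) (.b (.c (.l 34) (.l
      34)) (.c (.l 34) (.l 34)))) (.l 34))) (.l 15)) (.l 15)))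

theorem x2n_h59 : chk3 (onCell 0 1073741824 0 429496730 0 67108864 T2N) x2n_t59 14 2 4 = true := by decide +kernel

def x2n_t60 : T :=
  (.l 15)

theorem x2n_h60 : chk3 (onCell 0 1073741824 0 429496730 0 67108864 T2N) x2n_t60 15 2 4 = true := by decide +kernel

def x2n_t61 : T :=
  (.l 15)

theorem x2n_h61 : chk3 (onCell 0 1073741824 0 429496730 0 67108864 T2N) x2n_t61 7 2 5 = true := by decide +kernel

end Pool.Agent.Strip051.LC.E1.V3
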