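import Pool.Agent.Strip051.LC.E1.V3.Rw
import Pool.Agent.Strip051.LC.E0.Ch.Cell

/-! # Rests near the full period: certificate Cn2_5 -/

set_option maxRecDepth 100000

namespace Pool.Agent.Strip051.LC.E1.V3

open Pool.Agent.Strip051.PB
open Pool.Agent.Strip051.LC.E0.Ch (onCell Tree)

def x2n_t62 : T :=
  (.b (.c (.a (.b (.c (.a (.b (.c (.l 34) (.l 34)) (.c (.l 34) (.l 34))) (.b (.c (.l 34) (.l 34))
      (.c (.l 34) (.l 34)))) (.l 34)) (.c (.a (.b (.c (.l 34) (.l 34)) (.c (.l 34) (.l 34))) (.b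
      (.c (.l 34) (.l 34)) (.c (.l 34) (.l 34)))) (.l 34))) (.l 15)) (.l 15)) (.c (.a (.b (.c (.a
      (.b (.c (.l 34) (.l 34)) (.c (.l 34) (.l 34))) (.b (.c (.l 34) (.l 34)) (.c (.l 34) (.l
      34)))) (.l 34)) (.c (.a (.b (.c (.l 34) (.l 34)) (.c (.l 34) (.l 34))) (.b (.c (.l 34) (.l
      34)) (.c (.l 34) (.l 34)))) (.l 34))) (.l 15)) (.l 15)))

theorem x2n_h62 : chk3 (onCell 0 1073741824 0 429496730 0 67108864 T2N) x2n_t62 14 3 4 = true := by decide +kernel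

def x2n_t63 : T :=
  (.l 15)

theorem x2n_h63 : chk3 (onCell 0 1073741824 0 429496730 0 67108864 T2N) x2n_t63 15 3 4 = true := by decide +kernel

def x2n_t64 : T :=
  (.l 15)

theorem x2n_h64 : chk3 (onCell 0 1073741824 0 429496730 0 67108864 T2N) x2n_t64 7 3 5 = true := by decide +kernel

def x2n_t65 : T :=
  (.b (.b (.a (.l 66) (.c (.l 66) (.l 15))) (.a (.c (.l 66) (.l 66)) (.c (.l 66) (.l 15)))) (.b
      (.a (.b (.l 66) (.c (.l 66) (.l 66))) (.b (.c (.l 66) (.l 15)) (.c (.l 66) (.l 15)))) (.a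
      (.b (.c (.l 66) (.l 66)) (.c (.l 66) (.l 66))) (.b (.c (.l 66) (.l 15)) (.c (.l 66) (.l
      15))))))

theorem x2n_h65 : chk3 (onCell 0 1073741824 0 429496730 0 67108864 T2N) x2n_t65 24 4 6 = true := by decide +kernel

def x2n_t66 : T :=
  (.b (.a (.b (.c (.l 66) (.l 66)) (.c (.l 66) (.l 66))) (.b (.c (.l 66) (.l 15)) (.c (.l 66) (.l
      15)))) (.b (.a (.c (.l 66) (.l 66)) (.c (.l 66) (.l 15))) (.a (.c (.l 66) (.l 66)) (.c (.l
      66) (.l 15)))))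

theorem x2n_h66 : chk3 (onCell 0 1073741824 0 429496730 0 67108864 T2N) x2n_t66 24 10 6 = true := by decide +kernel

def x2n_t67 : T :=
  (.b (.b (.a (.c (.l 66) (.l 66)) (.c (.l 66) (.l 15))) (.a (.c (.l 66) (.l 66)) (.c (.l 66) (.l
      15)))) (.b (.a (.b (.c (.l 66) (.l 66)) (.a (.c (.l 66) (.l 66)) (.c (.l 66) (.l 66)))) (.b
      (.c (.l 66) (.l 15)) (.c (.l 66) (.l 15)))) (.a (.b (.a (.c (.l 66) (.l 66)) (.c (.l 66)
      (.l 66))) (.a (.c (.l 66) (.l 66)) (.c (.l 66) (.l 66)))) (.b (.a (.c (.l 66) (.l 15)) (.c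
      (.l 66) (.l 15))) (.a (.c (.l 66) (.l 15)) (.c (.l 66) (.l 15)))))))

theorem x2n_h67 : chk3 (onCell 0 1073741824 0 429496730 0 67108864 T2N) x2n_t67 24 11 6 = true := by decide +kernel

def x2n_t68 : T :=
  (.l 15)

theorem x2n_h68 : chk3 (onCell 0 1073741824 0 429496730 0 67108864 T2N) x2n_t68 24 2 7 = true := by decide +kernel

def x2n_t69 : T :=
  (.a (.c (.b (.b (.b (.c (.l 66) (.l 15)) (.c (.l 66) (.l 15))) (.b (.b (.c (.l 66) (.l 15)) (.c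
      (.l 66) (.l 15))) (.b (.c (.l 66) (.l 15)) (.c (.l 66) (.l 15))))) (.b (.b (.b (.c (.l 66)
      (.l 15)) (.c (.l 66) (.l 15))) (.b (.c (.l 66) (.l 15)) (.c (.l 66) (.l 15)))) (.b (.b (.c
      (.l 66) (.l 15)) (.c (.l 66) (.l 15))) (.b (.b (.c (.l 66) (.l 15)) (.c (.l 66) (.l 15)))
      (.b (.a (.c (.l 66) (.l 15)) (.l 15)) (.a (.c (.l 66) (.l 15)) (.l 15))))))) (.l 15)) (.l
      15))

theorem x2n_h69 : chk3 (onCell 0 1073741824 0 429496730 0 67108864 T2N) x2n_t69 25 2 3 = true := by decide +kernel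

def x2n_t70 : T :=
  (.l 15)

theorem x2n_h70 : chk3 (onCell 0 1073741824 0 429496730 0 67108864 T2N) x2n_t70 13 2 3 = true := by decide +kernel

def x2n_t71 : T :=
  (.a (.b (.a (.c (.l 66) (.l 66)) (.c (.l 66) (.l 66))) (.a (.c (.l 66) (.l 66)) (.c (.l 66) (.l
      66)))) (.b (.a (.c (.l 66) (.l 15)) (.c (.l 66) (.l 15))) (.a (.c (.l 66) (.l 15)) (.c (.l
      66) (.l 15)))))

theorem x2n_h71 : chk3 (onCell 0 1073741824 0 429496730 0 67108864 T2N) x2n_t71 24 48 6 = true := by decide +kernel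

def x2n_t72 : T :=
  (.a (.b (.a (.c (.l 66) (.l 66)) (.c (.l 66) (.l 66))) (.a (.b (.a (.c (.l 66) (.l 66)) (.c (.l
      66) (.l 66))) (.a (.c (.l 66) (.l 66)) (.c (.l 66) (.l 66)))) (.b (.c (.l 66) (.l 66)) (.a
      (.c (.l 66) (.l 66)) (.c (.l 66) (.l 66)))))) (.b (.a (.c (.l 66) (.l 15)) (.b (.c (.l 66)
      (.l 15)) (.c (.l 66) (.l 15)))) (.a (.b (.c (.l 66) (.l 15)) (.a (.c (.l 66) (.l 15)) (.c
      (.l 66) (.l 15)))) (.b (.a (.c (.l 66) (.l 15)) (.c (.l 66) (.l 15))) (.a (.c (.l 66) (.l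
      15)) (.c (.l 66) (.l 15)))))))

theorem x2n_h72 : chk3 (onCell 0 1073741824 0 429496730 0 67108864 T2N) x2n_t72 24 49 6 = true := by decide +kernel

def x2n_t73 : T :=
  (.a (.b (.a (.b (.a (.c (.l 66) (.l 66)) (.c (.l 66) (.l 66))) (.c (.l 66) (.l 66))) (.b (.a
      (.c (.l 66) (.l 66)) (.c (.l 66) (.l 66))) (.c (.l 66) (.l 66)))) (.a (.c (.l 66) (.l 66))
      (.c (.l 66) (.l 66)))) (.b (.a (.b (.c (.l 66) (.l 15)) (.c (.l 66) (.l 15))) (.b (.c (.l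
      66) (.l 15)) (.c (.l 66) (.l 15)))) (.a (.c (.l 66) (.l 15)) (.c (.l 66) (.l 15)))))

theorem x2n_h73 : chk3 (onCell 0 1073741824 0 429496730 0 67108864 T2N) x2n_t73 24 50 6 = true := by decide +kernel

def x2n_t74 : T :=
  (.a (.b (.a (.c (.l 66) (.l 66)) (.c (.l 66) (.l 66))) (.a (.c (.l 66) (.l 66)) (.c (.l 66) (.l
      66)))) (.b (.a (.c (.l 66) (.l 15)) (.c (.l 66) (.l 15))) (.c (.l 66) (.l 15))))

theorem x2n_h74 : chk3 (onCell 0 1073741824 0 429496730 0 67108864 T2N) x2n_t74 24 51 6 = true := by decide +kernel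

def x2n_t75 : T :=
  (.b (.b (.a (.b (.c (.l 66) (.l 66)) (.c (.l 66) (.l 66))) (.c (.l 66) (.l 15))) (.a (.c (.l
      66) (.l 66)) (.c (.l 66) (.l 15)))) (.b (.a (.c (.l 66) (.l 66)) (.c (.l 66) (.l 15))) (.c
      (.l 66) (.l 66))))

theorem x2n_h75 : chk3 (onCell 0 1073741824 0 429496730 0 67108864 T2N) x2n_t75 24 13 6 = true := by decide +kernel

def x2n_t76 : T :=
  (.l 15)

theorem x2n_h76 : chk3 (onCell 0 1073741824 0 429496730 0 67108864 T2N) x2n_t76 24 6 7 = true := by decide +kernel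

def x2n_t77 : T :=
  (.b (.a (.c (.b (.b (.b (.a (.c (.l 66) (.l 15)) (.l 15)) (.a (.c (.l 66) (.l 15)) (.l 15)))
      (.b (.a (.b (.c (.l 66) (.l 15)) (.c (.l 66) (.l 15))) (.l 15)) (.a (.b (.a (.c (.l 66) (.l
      15)) (.c (.l 66) (.l 15))) (.c (.l 66) (.l 15))) (.l 15)))) (.b (.b (.a (.c (.l 66) (.l
      15)) (.l 15)) (.a (.c (.l 66) (.l 15)) (.l 15))) (.b (.c (.l 66) (.l 15)) (.c (.l 66) (.l
      15))))) (.l 15)) (.l 15)) (.a (.c (.b (.b (.c (.l 66) (.l 15)) (.c (.l 66) (.l 15))) (.b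
      (.c (.l 66) (.l 15)) (.c (.l 66) (.l 15)))) (.l 15)) (.l 15)))

theorem x2n_h77 : chk3 (onCell 0 1073741824 0 429496730 0 67108864 T2N) x2n_t77 25 6 3 = true := by decide +kernel

def x2n_t78 : T :=
  (.a (.a (.b (.c (.b (.b (.c (.l 66) (.l 66)) (.c (.l 66) (.l 66))) (.c (.l 66) (.l 66))) (.l
      15)) (.c (.b (.c (.l 66) (.l 66)) (.c (.l 66) (.l 66))) (.l 15))) (.c (.b (.b (.c (.l 66)
      (.l 15)) (.c (.l 66) (.l 15))) (.b (.c (.l 66) (.l 15)) (.c (.l 66) (.l 15)))) (.l 15)))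
      (.a (.c (.b (.b (.c (.l 66) (.l 15)) (.c (.l 66) (.l 15))) (.b (.c (.l 66) (.l 15)) (.c (.l
      66) (.l 15)))) (.l 15)) (.l 15)))

theorem x2n_h78 : chk3 (onCell 0 1073741824 0 429496730 0 67108864 T2N) x2n_t78 12 7 3 = true := by decide +kernel

def x2n_t79 : T :=
  (.l 15)

theorem x2n_h79 : chk3 (onCell 0 1073741824 0 429496730 0 67108864 T2N) x2n_t79 13 3 3 = true := by decide +kernel

def x2n_t80 : T :=
  (.l 15)

theorem x2n_h80 : chk3 (onCell 0 1073741824 0 429496730 0 67108864 T2N) x2n_t80 7 1 3 = true := by decide +kernel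

end Pool.Agent.Strip051.LC.E1.V3
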