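import Pool.Agent.Strip051.LC.E1.V3.Cn2_1
import Pool.Agent.Strip051.LC.E1.V3.Cn2_2
import Pool.Agent.Strip051.LC.E1.V3.Cn2_3
import Pool.Agent.Strip051.LC.E1.V3.Cn2_4
import Pool.Agent.Strip051.LC.E1.V3.Cn2_5

/-! # Rests near the full period: certificate n2 -/

set_option maxRecDepth 100000

namespace Pool.Agent.Strip051.LC.E1.V3

open Pool.Agent.Strip051.PB
open Pool.Agent.Strip051.LC.E0.Ch (onCell Tree)

theorem x2n : Tree 0 1073741824 0 429496730 0 67108864 T2N :=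
  ⟨_, (chk3_a (chk3_c (chk3_a (chk3_b (chk3_c (chk3_a (chk3_b x2n_h0 x2n_h1) (chk3_b x2n_h2
      x2n_h3)) x2n_h4) (chk3_c (chk3_a (chk3_b x2n_h5 x2n_h6) (chk3_b x2n_h7 x2n_h8)) x2n_h9))
      (chk3_b (chk3_c (chk3_a (chk3_b x2n_h10 x2n_h11) (chk3_b x2n_h12 x2n_h13)) x2n_h14) (chk3_c
      (chk3_a (chk3_b x2n_h15 x2n_h16) (chk3_b x2n_h17 x2n_h18)) x2n_h19))) (chk3_a (chk3_b
      (chk3_b x2n_h20 x2n_h21) (chk3_b (chk3_b x2n_h22 x2n_h23) (chk3_c (chk3_a x2n_h24 (chk3_b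
      x2n_h25 (chk3_a x2n_h26 x2n_h27))) (chk3_a x2n_h28 x2n_h29)))) (chk3_b (chk3_a x2n_h30
      (chk3_c (chk3_b x2n_h31 (chk3_b x2n_h32 (chk3_a x2n_h33 (chk3_b x2n_h34 x2n_h35))))
      x2n_h36)) (chk3_c (chk3_b (chk3_a x2n_h37 (chk3_b (chk3_a x2n_h38 (chk3_b (chk3_a x2n_h39
      x2n_h40) x2n_h41)) x2n_h42)) (chk3_a (chk3_b x2n_h43 x2n_h44) (chk3_b x2n_h45 x2n_h46)))
      (chk3_b x2n_h47 x2n_h48))))) (chk3_c (chk3_a (chk3_b (chk3_c (chk3_a (chk3_b x2n_h49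
      x2n_h50) (chk3_b x2n_h51 x2n_h52)) x2n_h53) (chk3_c (chk3_a (chk3_b x2n_h54 x2n_h55)
      (chk3_b x2n_h56 x2n_h57)) x2n_h58)) (chk3_b (chk3_c (chk3_a x2n_h59 x2n_h60) x2n_h61)
      (chk3_c (chk3_a x2n_h62 x2n_h63) x2n_h64))) (chk3_a (chk3_b (chk3_a (chk3_a (chk3_c (chk3_b
      x2n_h65 (chk3_b x2n_h66 x2n_h67)) x2n_h68) x2n_h69) x2n_h70) (chk3_a (chk3_b (chk3_a
      (chk3_c (chk3_b (chk3_b (chk3_b x2n_h71 x2n_h72) (chk3_b x2n_h73 x2n_h74)) x2n_h75)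
      x2n_h76) x2n_h77) x2n_h78) x2n_h79)) x2n_h80)))⟩

end Pool.Agent.Strip051.LC.E1.V3
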