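import Pool.Agent.Strip051.LC.E1.V3.Rw
import Pool.Agent.Strip051.LC.E0.Ch.Cell

/-! # Rests near the full period: the base of the row next to the circle of radius `√3`, near
    vertex -/

set_option maxRecDepth 100000

namespace Pool.Agent.Strip051.LC.E1.V3

open Pool.Agent.Strip051.PB
open Pool.Agent.Strip051.LC.E1.Ch
open Pool.Agent.Strip051.LC.E0.Ch (onCell Tree)

/-- the slack of the base, near vertex -/
noncomputable def leafE (N M Q : ℕ) : Bool :=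
  frc (pnorm (pmul M Q)) fun X =>
  frc (v3v0.t N Q) fun V0h =>
  frc (pnorm (pmul N (pnorm (psub pone V0h)))) fun Z0 => pnn (v3et.t N Z0 M Q X)

noncomputable def T1E (_h A _B C : ℕ) : Bool := frc pone fun M => leafE A M C

noncomputable def T2E (_h _A B C : ℕ) : Bool := frc pone fun N => leafE N B C

def x1e_t : T :=
  (.a (.l 0) (.a (.b (.c (.l 0) (.a (.l 0) (.c (.l 0) (.l 0)))) (.c (.l 0) (.a (.l 0) (.c (.l 0)
      (.l 0))))) (.b (.c (.a (.l 0) (.l 0)) (.c (.a (.l 0) (.l 0)) (.c (.a (.l 0) (.l 0)) (.a (.l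
      0) (.c (.l 0) (.l 0)))))) (.c (.a (.l 0) (.l 0)) (.c (.a (.l 0) (.l 0)) (.c (.a (.l 0) (.l
      0)) (.a (.l 0) (.c (.l 0) (.l 0)))))))))

theorem x1e_h : chk3 (onCell 0 2684354560 0 1073741824 0 26843546 T1E) x1e_t 1 1 1 = true := by decide +kernel

theorem x1e : Tree 0 2684354560 0 1073741824 0 26843546 T1E := ⟨_, x1e_h⟩

def x2e_t : T :=
  (.a (.c (.b (.l 0) (.l 0)) (.b (.b (.b (.l 0) (.b (.l 0) (.l 0))) (.b (.c (.l 0) (.l 0)) (.c
      (.l 0) (.l 0)))) (.b (.b (.c (.l 0) (.l 0)) (.c (.l 0) (.l 0))) (.c (.l 0) (.c (.l 0) (.l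
      0)))))) (.c (.b (.l 0) (.l 0)) (.b (.b (.b (.l 0) (.b (.l 0) (.l 0))) (.b (.c (.l 0) (.l
      0)) (.c (.l 0) (.l 0)))) (.b (.b (.c (.l 0) (.l 0)) (.c (.l 0) (.l 0))) (.c (.l 0) (.c (.l
      0) (.l 0)))))))

theorem x2e_h : chk3 (onCell 0 1073741824 0 429496730 0 67108864 T2E) x2e_t 1 1 1 = true := by decide +kernel

theorem x2e : Tree 0 1073741824 0 429496730 0 67108864 T2E := ⟨_, x2e_h⟩

end Pool.Agent.Strip051.LC.E1.V3
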