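import Pool.Agent.Strip051.LC.E1.V3.Vr
import Pool.Agent.Strip051.LC.E1.V3.Et
import Pool.Agent.Strip051.LC.E1.V3.Cf1
import Pool.Agent.Strip051.LC.E1.V3.Cf2
import Pool.Agent.Strip051.LC.E1.V3.Cn1
import Pool.Agent.Strip051.LC.E1.V3.Cn2

/-! # Rests near the full period: the row next to the circle of radius `√3` -/

set_option linter.unusedVariables false
set_option linter.unusedSimpArgs false

namespace Pool.Agent.Strip051.LC.E1.V3

open Pool.Agent.Strip051.PB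
open Pool.Agent.Strip051.LC.E1.Ch
open Pool.Agent.Strip051.LC.E0.Ch (onCell Tree)

/-! ### The alternatives at a kink -/

theorem H6.set_eq {a : H6} {j : ℕ} {x : ℝ} (h1 : j = 1 → a.h1 = x) (h2 : j = 2 → a.h2 = x)
    (h3 : j = 3 → a.h3 = x) (h4 : j = 4 → a.h4 = x) (h5 : j = 5 → a.h5 = x)
    (h6 : j = 6 → a.h6 = x) : a.set j x = a := by
  have k : ∀ {i : ℕ} {y : ℝ}, (j = i → y = x) → (if j = i then x else y) = y := by
    intro i y h
    split_ifs with e
    · exact (h e).symm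
    · rfl
  unfold H6.set
  rw [k h1, k h2, k h3, k h4, k h5, k h6]

theorem nd {i j : ℕ} {P : Prop} (h : i ≠ j := by decide) : i = j → P := fun e => absurd e h

theorem hs_alt {a b c d : ℝ} (h : a = d) (hc : d ≤ c) : v3hs.v a b = 0 ∨ v3hs.v c d = 1 := by
  rcases le_or_gt a 0 with ha | ha
  · exact Or.inl (hs_zero ha)
  · exact Or.inr (hs_one (by linarith) (by linarith))

section

variable {v : Vl} (g : Geo v)

include g

theorem hm_alt (k : ℝ) : v3hm.v v.s0 v.sz v.m k = 0 ∨ v3hm.v v.sy v.sy0 v.m k = 1 := by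
  simp only [v3hm, v3hm_4]
  refine hs_alt ?_ ?_
  · rw [g_sy0 g]
  · have := g_syle g
    linarith

theorem ht_alt (k : ℝ) : v3ht.v v.s0 v.sz v.r k = 0 ∨ v3ht.v v.sy v.sy0 v.r k = 1 := by
  rw [ht_val, ht_val]
  refine hs_alt ?_ ?_
  · rw [g_sy0 g]
  · have := rT_mono g.r0 (g_syle g)
    linarith

theorem set_alt (j : ℕ) : v.hz.set j 0 = v.hz ∨ v.hy.set j 1 = v.hy := by
  have Z := g_Hz g
  have Y := g_Hy g
  have key : ∀ i : ℕ, j = i → (i = 1 ∨ i = 2 ∨ i = 3 ∨ i = 4 ∨ i = 5 ∨ i = 6) →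
      v.hz.set j 0 = v.hz ∨ v.hy.set j 1 = v.hy := by
    intro i hi hh
    subst hi
    rcases hh with e | e | e | e | e | e <;> subst e
    · rcases hm_alt g 1 with h | h
      · exact Or.inl (H6.set_eq (fun _ => by rw [Z.h1, h]) nd nd nd nd nd)
      · exact Or.inr (H6.set_eq (fun _ => by rw [Y.h1, h]) nd nd nd nd nd)
    · rcases hm_alt g (8 / 5) with h | h
      · exact Or.inl (H6.set_eq nd (fun _ => by rw [Z.h2, h]) nd nd nd nd)
      · exact Or.inr (H6.set_eq nd (fun _ => by rw [Y.h2, h]) nd nd nd nd)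
    · rcases hm_alt g (11 / 5) with h | h
      · exact Or.inl (H6.set_eq nd nd (fun _ => by rw [Z.h3, h]) nd nd nd)
      · exact Or.inr (H6.set_eq nd nd (fun _ => by rw [Y.h3, h]) nd nd nd)
    · rcases hm_alt g (5 / 2) with h | h
      · exact Or.inl (H6.set_eq nd nd nd (fun _ => by rw [Z.h4, h]) nd nd)
      · exact Or.inr (H6.set_eq nd nd nd (fun _ => by rw [Y.h4, h]) nd nd)
    · rcases ht_alt g (1 / 16) with h | h
      · exact Or.inl (H6.set_eq nd nd nd nd (fun _ => by rw [Z.h5, h]) nd)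
      · exact Or.inr (H6.set_eq nd nd nd nd (fun _ => by rw [Y.h5, h]) nd)
    · rcases ht_alt g (1 / 10) with h | h
      · exact Or.inl (H6.set_eq nd nd nd nd nd (fun _ => by rw [Z.h6, h]))
      · exact Or.inr (H6.set_eq nd nd nd nd nd (fun _ => by rw [Y.h6, h]))
  by_cases hj : j = 1 ∨ j = 2 ∨ j = 3 ∨ j = 4 ∨ j = 5 ∨ j = 6
  · exact key j rfl hj
  · push Not at hj
    obtain ⟨a1, a2, a3, a4, a5, a6⟩ := hj
    exact Or.inl (H6.set_eq (fun e => absurd e a1) (fun e => absurd e a2) (fun e => absurd e a3)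
      (fun e => absurd e a4) (fun e => absurd e a5) (fun e => absurd e a6))

/-- The trees decide a statement on the shape. -/
theorem run {f : ℕ → ℕ → ℕ → ℕ → ℕ → Bool} {C : Prop}
    (hn : (v.m = 1 ∧ v.n ≤ 5 / 2) ∨ (v.n = 1 ∧ v.m ≤ 2 / 5))
    (t1 : Tree 0 2684354560 0 1073741824 0 26843546 (fun h A B C => frc pone fun M => f h A B M C))
    (t2 : Tree 0 1073741824 0 429496730 0 67108864 (fun h A B C => frc pone fun N => f h N A B C))
    (H : ∀ {E : Pt} {h N P M Q : ℕ}, Enc E N v.n → Enc E P v.p → Enc E M v.m → Enc E Q v.r →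
      f h N P M Q = true → C) : C := by
  have r0 := g.r0
  have m0 := g.m0
  have n0 := g.n0
  have p0 := g.p0
  have p1 := g.p1
  rcases hn with ⟨e, h1⟩ | ⟨e, h1⟩
  · have hr : v.r ≤ 1 / 40 := by
      have := g.x1
      rwa [e, one_mul] at this
    refine t1.sound (Q := fun N' p' r' => N' = v.n → p' = v.p → r' = v.r → C) ?_ (p := v.n)
      (q := v.p) (x := v.r) ?_ ?_ ?_ ?_ ?_ ?_ rfl rfl rfl
    · rintro E h A B Q N' p' r' hA hB hQ hh rfl rfl rfl
      rw [frc_eq] at hh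
      exact H hA hB (by rw [e]; exact enc_one E) hQ hh
    all_goals (unfold S; push_cast; linarith)
  · have hr : v.r ≤ 1 / 16 := by
      have := g.rn
      rwa [e, mul_one] at this
    refine t2.sound (Q := fun p' l' r' => p' = v.p → l' = v.m → r' = v.r → C) ?_ (p := v.p)
      (q := v.m) (x := v.r) ?_ ?_ ?_ ?_ ?_ ?_ rfl rfl rfl
    · rintro E h A B Q N' p' r' hA hB hQ hh rfl rfl rfl
      rw [frc_eq] at hh
      exact H (by rw [e]; exact enc_one E) hA hB hQ hh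
    all_goals (unfold S; push_cast; linarith)

theorem slF (hn : (v.m = 1 ∧ v.n ≤ 5 / 2) ∨ (v.n = 1 ∧ v.m ≤ 2 / 5)) : SlF v := by
  rcases eq_or_ne v.z v.z0 with hz | hz
  · exact slF_zero g (by rw [hz]; ring)
  · have hz' : 0 < v.z0 - v.z := by
      have := lt_of_le_of_ne g.zz hz
      linarith
    refine run g (f := leafF) hn x1f x2f ?_
    intro E h N P M Q hN hP hM hQ hh
    rcases leafF_sound g.ok hN hP hM hQ g.r0 hz (g_hum g) hh with hu | ⟨j, h1, h2⟩
    · have := g.u0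
      linarith
    · rcases set_alt g j with e | e
      · rw [e] at h1
        exact slF_pos g hz' h1
      · rw [e] at h2
        exact slF_pos g hz' h2

theorem et_nn (hn : (v.m = 1 ∧ v.n ≤ 5 / 2) ∨ (v.n = 1 ∧ v.m ≤ 2 / 5)) : 0 ≤ v.et := by
  refine run g (f := fun _ N _ M Q => leafE N M Q) hn x1e x2e ?_
  intro E h N P M Q hN hP hM hQ hh
  unfold leafE at hh
  obtain ⟨X, hX, hh⟩ := frc_enc (enc_norm (enc_mul hM hQ)) hh
  rw [← g.ok.eXx] at hX
  obtain ⟨V0h, hV0h, hh⟩ := frc_enc (v3v0.enc hN hQ) hh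
  rw [← g.ok.eV0h] at hV0h
  obtain ⟨Z0, hZ0, hh⟩ := frc_enc (enc_norm (enc_mul hN (enc_norm (enc_sub (enc_one E) hV0h)))) hh
  rw [← g.ok.eZ0] at hZ0
  exact pnn_sound (v3et.enc hN hZ0 hM hQ hX) hh

theorem slN (hn : (v.m = 1 ∧ v.n ≤ 5 / 2) ∨ (v.n = 1 ∧ v.m ≤ 2 / 5)) : SlN v := by
  rcases eq_or_ne v.z v.z0 with hz | hz
  · exact slN_zero g (by rw [hz]; ring) (et_nn g hn)
  · have hz' : 0 < v.z0 - v.z := by
      have := lt_of_le_of_ne g.zz hz
      linarith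
    have hsp : 0 < v.sp := by
      have h1 := g_ze g
      rw [h1] at hz'
      have h2 := (mul_pos_iff_of_pos_left (pow_pos g.n0 2)).1 hz'
      exact (mul_pos_iff_of_pos_left g.r0).1 h2
    refine run g (f := leafN) hn x1n x2n ?_
    intro E h N P M Q hN hP hM hQ hh
    rcases leafN_sound g.ok hN hP hM hQ g.r0 hz hsp hh with hu | h1
    · have := g.u0
      linarith
    · exact slN_pos g hz' h1

end

end Pool.Agent.Strip051.LC.E1.V3

namespace Pool.Agent.Strip051.LC.E1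

open Pool.Agent.Strip051.LC.E1.Ch
open Pool.Agent.Strip051.LC.E1.V3

/-- V, 12 and 23 on `c1`, `w ≤ 0 ≤ z`, 13 in `[1.6, c3]`, the far vertex -/
theorem vu_3_far : ∀ r lam w z xi : ℝ, Dom .npn r lam w z → w + z < 0 →
    xi = E0.G.xi1 w r - E0.G.xi1 z r → G.xv6 (w + z) r ≤ xi → xi ≤ G.x3v (w + z) r →
    RowV .far .npn r lam w z xi 0 (G.C1d r lam w) (-G.C1u r lam z) (G.V3 xi r lam (w + z)) := by
  intro r lam w z xi D ht e_xi h1 h2
  subst e_xi
  obtain ⟨v, g, e_r, e_m, e_w, e_z, e_t, e_n⟩ := geo_of D ht h1 h2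
  have hn : (v.m = 1 ∧ v.n ≤ 5 / 2) ∨ (v.n = 1 ∧ v.m ≤ 2 / 5) := by
    rw [e_m, e_n]
    exact D.n
  have h := slF g hn
  have exi := g.xi
  have e_v : v.v = -(w + z) := by
    have := g.et
    rw [e_t] at this
    linarith
  rw [e_w, e_z, e_r] at exi
  unfold SlF at h
  rw [← exi, e_r, e_m, e_w, e_z, e_t, e_v, e_n] at h
  have e : -(BV.g w z) = -(w + z) / 2 := by
    unfold Bs.g BV
    ring
  show G.SlkS r lam z (-(w + z)) (-w) (-(BV.g w z)) _ _ _ _ _
  rw [e]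
  exact h

/-- V, 12 and 23 on `c1`, `w ≤ 0 ≤ z`, 13 in `[1.6, c3]`, the near vertex -/
theorem vu_3_near : ∀ r lam w z xi : ℝ, Dom .npn r lam w z → w + z < 0 →
    xi = E0.G.xi1 w r - E0.G.xi1 z r → G.xv6 (w + z) r ≤ xi → xi ≤ G.x3v (w + z) r →
    RowV .near .npn r lam w z xi 0 (G.C1d r lam w) (-G.C1u r lam z) (G.V3 xi r lam (w + z)) := by
  intro r lam w z xi D ht e_xi h1 h2
  subst e_xi
  obtain ⟨v, g, e_r, e_m, e_w, e_z, e_t, e_n⟩ := geo_of D ht h1 h2
  have hn : (v.m = 1 ∧ v.n ≤ 5 / 2) ∨ (v.n = 1 ∧ v.m ≤ 2 / 5) := by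
    rw [e_m, e_n]
    exact D.n
  have h := slN g hn
  have exi := g.xi
  have ex := g.ok.eXx
  have e_v : v.v = -(w + z) := by
    have := g.et
    rw [e_t] at this
    linarith
  rw [e_w, e_z, e_r] at exi
  rw [e_m, e_r] at ex
  unfold SlN at h
  rw [← exi, ex, e_r, e_m, e_w, e_z, e_t, e_v, e_n] at h
  have e : BV.g w z = (w + z) / 2 := by
    unfold Bs.g BV
    ring
  have e1 : -(G.be (lam * r) * BV.g w z) = G.be (lam * r) * (-(w + z) / 2) := by
    rw [e]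
    ring
  have e2 : (1 + G.LAM (lam * r) * G.mu (lam * r)) * (0 : ℝ) = 0 := mul_zero _
  show G.SlkS r lam z (-(w + z)) (-w) (-(G.be (lam * r) * BV.g w z)) _ _
    ((1 + G.LAM (lam * r) * G.mu (lam * r)) * (0 : ℝ))
    ((1 + G.LAM (lam * r) * G.mu (lam * r)) *
      ((G.x2 w r + G.x2 z r) / 2 + ((w + z) * E0.G.xi1 w r - w * _) / 2) +
        G.mu (lam * r) * G.LAM (lam * r) * lam * G.q1 (lam * r) / (2 * G.eh (lam * r)) *
          BV.g w z) (lvn BV r lam w z _ _ _)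
  rw [e1, e2, e]
  unfold lvn
  have k1 : BV.n = 1 := rfl
  have k2 : BV.n' = 1 := rfl
  rw [k1, k2, show (4 : ℝ) - lam * r - (1 + 1) - r * (w + z) = 2 - lam * r - r * (w + z) by ring]
  exact h

end Pool.Agent.Strip051.LC.E1
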