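import Pool.Agent.Strip051.LC.E1.V3.Bd

/-! # Rests near the full period: the row next to the circle of radius `√3`, the base -/

set_option linter.unusedVariables false
set_option linter.unusedSimpArgs false

namespace Pool.Agent.Strip051.LC.E1.V3

open Pool.Agent.Strip051.PB
open Pool.Agent.Strip051.LC.E1.Ch
open Pool.Agent.Strip051.LC.E1.G (hg)

section

variable {v : Vl} (g : Geo v)

include g

theorem g_v0h : v.v0h = v.r * v.n * (D1 v.w v.r ^ 2 + 3 / 4) := by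
  have : D1 (-v.n) v.r = D1 v.w v.r := by rw [g.ew]
  rw [g.ok.eV0h, v0_val, this]

theorem g_cw : 1 + (E0.G.cc1 v.w v.r / 2 + 3 / 4 * (1 + v.r * v.w)) = 2 + v.r * v.t0 / 2 := by
  have h := gb_c g.B
  have h2 := g_v0h g
  rw [cc1_xi g.Hw, xi1_D, g.ok.eT0, h2]
  have h3 := g.ew
  generalize D1 v.w v.r = D at *
  rw [h3]
  linear_combination h

theorem g_ic0 : v.ic0 = (2 + v.r * v.t0 / 2)⁻¹ := by
  have h := gb_c' g.B
  have h2 := g_v0h g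
  have h4 : 1 + (E0.G.cc1 v.z0 v.r / 2 + 3 / 4 * (1 + v.r * v.z0)) = 2 + v.r * v.t0 / 2 := by
    rw [g.ez0, gb_cc1 g.B, g.ok.eT0, h2]
    linear_combination h
  rw [g.ok.eIc0, ic1_val, h4]

theorem g_g1w : G.g1 v.w v.r = -(3 / 4 * v.s0 * v.ic0) := by
  unfold G.g1
  rw [g_cw g, g_ic0 g, ← g_sw g, div_eq_mul_inv]
  ring

theorem g_k12 : (G.C1d v.r v.m v.w).k =
    G.kU v.r v.m v.s0 * (1 / 2 + v.r * (3 / 4 * v.s0 * v.ic0)) + 3 / 4 * v.s0 * v.ic0 := by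
  unfold G.C1d
  simp only
  rw [g_g1w g, g_sw g]
  ring

theorem g_b12 : (G.C1d v.r v.m v.w).b =
    G.bU v.r v.m v.s0 * (1 / 2 + v.r * (3 / 4 * v.s0 * v.ic0)) +
      G.B0 v.x * (3 / 4 * v.s0 * v.ic0) := by
  unfold G.C1d
  simp only
  rw [g_g1w g, g_sw g, ← g_ex g]
  ring

theorem g_c12 : (G.C1d v.r v.m v.w).c v.r = G.LAM v.x * G.bL v.x v.r v.m v.s0 := by
  unfold Sv.c G.C1d
  simp only
  rw [g_sw g, ← g_ex g]
  ring

theorem g_y0s : v.y0 = 3 / 2 * v.s0 := by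
  have := g_sy0' g
  rw [g_sy0 g] at this
  linarith

theorem g_k0' : v.k0 = (1 + v.r * G.kU v.r v.m v.s0) * v.ic0 := by rw [g_k0 g, g_ic0 g]

theorem g_b0' : v.b0 = (G.B0 v.x + v.r * G.bU v.r v.m v.s0) * v.ic0 := by rw [g_b0 g, g_ic0 g]

theorem g_dk : (G.C1d v.r v.m v.w).k + v.k230 - v.k130 = 0 := by
  rw [g_k12 g, g_k230 g, g.ok.eK130, g_k0' g, g_y0s g]
  ring

theorem g_db : (G.C1d v.r v.m v.w).b + v.b230 - v.b130 = 0 := by
  rw [g_b12 g, g_b230 g, g.ok.eB130, g_b0' g, g_y0s g]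
  ring

theorem g_V0 : v.n * v.v0h = 3 / 2 * v.r * v.s0 ^ 2 * v.ic0 := by
  have h1 := g_i20 g
  have h2 := g_v0h g
  have h3 := g.B.e
  have h4 : v.n * v.v0h * (2 + v.r * v.t0 / 2) = 3 / 2 * v.r * v.s0 ^ 2 := by
    rw [g_s0 g, g.ok.eT0, h2]
    generalize D1 v.w v.r = D at *
    have h5 : v.r * v.n * (D ^ 2 + 3 / 4) = 3 / 2 - D := by linarith
    have h6 : v.n * (v.r * v.n * (D ^ 2 + 3 / 4)) *
        (2 + v.r * -(v.n * (v.r * v.n * (D ^ 2 + 3 / 4))) / 2) =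
        2 * (v.n * (v.r * v.n * (D ^ 2 + 3 / 4))) -
          v.r * v.n ^ 2 * (v.r * v.n * (D ^ 2 + 3 / 4)) ^ 2 / 2 := by ring
    rw [h6, show v.r * v.n ^ 2 * (v.r * v.n * (D ^ 2 + 3 / 4)) ^ 2 / 2 =
      v.r * v.n ^ 2 * (3 / 2 - D) ^ 2 / 2 by rw [h5]]
    ring
  rw [g_ic0 g, ← h4, mul_assoc, mul_inv_cancel₀ h1.ne', mul_one]

theorem g_zs : v.n * v.v0h + 2 * v.z0 = v.s0 := by
  rw [g.ev0, g.ez0, g_s0 g]
  ring

theorem g_gk : v.n * v.v0h / 2 + v.r * (v.t0 * v.k230 - v.z0 * v.k130) = 0 := by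
  have h1 := g_V0 g
  have h2 := g_zs g
  rw [g_k230 g, g.ok.eK130, g_k0' g, g_y0s g, g.ok.eT0]
  have h3 : v.z0 = (v.s0 - v.n * v.v0h) / 2 := by linarith
  rw [h3]
  generalize v.n * v.v0h = V at *
  generalize G.kU v.r v.m v.s0 = K
  linear_combination ((1 + v.r * K) / 2) * h1

theorem g_gb : G.B0 v.x * (v.n * v.v0h) / 2 + v.r * (v.t0 * v.b230 - v.z0 * v.b130) = 0 := by
  have h1 := g_V0 g
  have h2 := g_zs g
  rw [g_b230 g, g.ok.eB130, g_b0' g, g_y0s g, g.ok.eT0]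
  have h3 : v.z0 = (v.s0 - v.n * v.v0h) / 2 := by linarith
  rw [h3]
  generalize v.n * v.v0h = V at *
  generalize G.bU v.r v.m v.s0 = K
  generalize G.B0 v.x = B
  linear_combination ((B + v.r * K) / 2) * h1

theorem g_bs : (G.x2 v.w v.r + G.x2 v.z v.r) / 2 +
    (v.t * E0.G.xi1 v.w v.r - v.w * (v.n * v.xh)) / 2 =
      -(v.n * v.v0h / 2 / v.r) + (v.z0 - v.z) * v.bs := by
  have hr := g.r0.ne'
  have e1 : v.n * v.v0h / 2 / v.r = v.n ^ 2 * (D1 v.w v.r ^ 2 + 3 / 4) / 2 := by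
    rw [g_v0h g]
    field_simp
  have e2 := g_s1 g
  have h := g.Hz0
  rw [g.ez0] at h
  have e3 := gb_xi1 g.B h
  rw [← g.ez0] at e3
  have e4 : v.t = v.w + v.z := by rw [g.et, g.ew, g.ez]; ring
  have e5 : E0.G.xi1 v.z v.r = E0.G.xi1 v.z0 v.r - (v.z0 - v.z) * v.s1 := by linarith
  have e6 : E0.G.xi1 v.w v.r = v.n * D1 v.w v.r := by
    rw [xi1_D]
    have := g.ew
    generalize D1 v.w v.r = D
    rw [this]
    ring
  unfold Vl.bs
  rw [bsf_val, ← g.xi, x2_eq g.Hw, x2_eq g.Hz, e1, e4, e5, e3, e6]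
  have f1 := g.ew
  have f2 := g.ez0
  generalize D1 v.w v.r = D at *
  generalize v.s1 = s at *
  generalize v.z = z at *
  rw [f1, f2]
  ring

end

end Pool.Agent.Strip051.LC.E1.V3
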