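import Pool.Agent.Strip051.LC.E1.V3.Sk

/-! # Rests near the full period: the row next to the circle of radius `√3`, the slack from its
    slopes -/

set_option linter.unusedVariables false
set_option linter.unusedSimpArgs false

namespace Pool.Agent.Strip051.LC.E1.V3

open Pool.Agent.Strip051.PB
open Pool.Agent.Strip051.LC.E1.Ch
open Pool.Agent.Strip051.LC.E1.G (hg)

/-! ### A constant moved from the levels to the slack -/

section

variable {x r m l lf ln a b nr nnr bn bs fo ds gp l1 l2 E : ℝ}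

theorem P2.shift {y y' : ℝ} (h : P2 (E + l1) (E + l2) y) (e : y' = y + E) : P2 l1 l2 y' := by
  obtain ⟨h1, h2⟩ := h
  exact ⟨by rw [e]; linarith, by rw [e]; linarith⟩

theorem InR.shift (h : InR x r m l lf ln nr bn ds gp (E + l1) (E + l2)) :
    InR x r m l lf ln nr (bn + E) ds gp l1 l2 :=
  ⟨P2.shift h.1 (by rw [finf_val, finf_val]; ring), h.2⟩

theorem CrR.shift (h : CrR x m nr bn ds (E + l1) (E + l2)) : CrR x m nr (bn + E) ds l1 l2 := by
  unfold CrR at *
  exact P2.shift h (by rw [fcrf_val, fcrf_val]; ring)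

theorem NgR.shift (h : NgR x m nnr bs ds gp (E + l1) (E + l2)) :
    NgR x m nnr (bs + E) ds gp l1 l2 := by
  unfold NgR at *
  exact P2.shift h (by rw [fngf_val, fngf_val]; ring)

theorem Res.shift (h : Res x r m l a b nr nnr bn bs fo ds gp (E + l1) (E + l2)) :
    Res x r m l a b nr nnr (bn + E) (bs + E) (fo + E) ds gp l1 l2 := by
  rcases h with h | ⟨h, hg⟩ | ⟨h, hf⟩ | ⟨h, hg⟩
  · refine Or.inl ?_
    rcases h with ⟨h1, h2⟩ | ⟨h1, h2⟩
    · exact Or.inl ⟨h1, InR.shift h2⟩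
    · exact Or.inr ⟨h1, InR.shift h2⟩
  · refine Or.inr (Or.inl ⟨?_, hg⟩)
    rcases h with ⟨h1, h2⟩ | ⟨h1, h2⟩
    · exact Or.inl ⟨h1, CrR.shift h2⟩
    · exact Or.inr ⟨h1, CrR.shift h2⟩
  · exact Or.inr (Or.inr (Or.inl ⟨h, P2.shift hf rfl⟩))
  · refine Or.inr (Or.inr (Or.inr ⟨?_, hg⟩))
    rcases h with ⟨h1, h2⟩ | ⟨h1, h2⟩
    · exact Or.inl ⟨h1, NgR.shift h2⟩
    · exact Or.inr ⟨h1, NgR.shift h2⟩

end

/-! ### The slack from the slopes -/

section

variable {x r m l a b ζ N0 G0 b0 nf gm bs dl l1 l2 n gam base del lev : ℝ}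

/-- The slack near a point where the defect and the second moment vanish. -/
theorem slk_slope (hr : 0 < r) (hm : 0 < m) (hx : x = m * r) (x1 : m * r ≤ 1 / 40)
    (ha : 0 ≤ a) (hb : 0 ≤ b) (hl : 0 < l) (hrl : r * l ≤ 1 / 16) (hζ : 0 < ζ)
    (h0 : N0 + r * G0 = 0)
    (en : n = N0 + ζ * nf) (eg : gam = G0 + ζ * gm) (eb : base = b0 + ζ * bs)
    (ed : del = ζ * dl)
    (h : Res x r m l a b (0 / r) (nf / r) (bnf.v x m nf bs gm) bs
      (nf * m2f.v m l / r + (brf.v x r m l (a - b) nf gm (dl * (1 - r * l)) bs -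
        abf.v x m l a b (dl * (1 - r * l)) (nf + r * gm))) (dl * (1 - r * l)) (nf + r * gm) l1 l2)
    (hlev : ∀ F : ℝ, 0 ≤ F + ζ * l1 → 0 ≤ F + ζ * l2 → 0 ≤ F + (N0 / r + b0) - lev) :
    G.SlkS r m a b l n gam del 0 base lev := by
  have hx0 : 0 < x := by rw [hx]; positivity
  have hx1 : x < 1 := by rw [hx]; linarith
  have hq1 := one_sub_eh' hx0.le hx1.le
  have hk := one_add_et' hx1 hq1
  have e0 : G0 = -(N0 / r) := by
    have := hr.ne'
    field_simp
    linarith
  have hs := Res.scale hζ h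
  have h2 : Res x r m l a b (ζ * (0 / r)) (ζ * (nf / r)) (ζ * bnf.v x m nf bs gm + (N0 / r + b0))
      (ζ * bs + (N0 / r + b0))
      (ζ * (nf * m2f.v m l / r + (brf.v x r m l (a - b) nf gm (dl * (1 - r * l)) bs -
        abf.v x m l a b (dl * (1 - r * l)) (nf + r * gm))) + (N0 / r + b0))
      (ζ * (dl * (1 - r * l))) (ζ * (nf + r * gm)) (ζ * l1 - (N0 / r + b0))
      (ζ * l2 - (N0 / r + b0)) := by
    refine Res.shift ?_
    have k1 : N0 / r + b0 + (ζ * l1 - (N0 / r + b0)) = ζ * l1 := by ring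
    have k2 : N0 / r + b0 + (ζ * l2 - (N0 / r + b0)) = ζ * l2 := by ring
    rw [k1, k2]
    exact hs
  have ex : x / r = m := by rw [hx]; field_simp
  refine slk_of_res (nr := ζ * (0 / r)) (nnr := ζ * (nf / r))
    (bn' := ζ * bnf.v x m nf bs gm + (N0 / r + b0)) (bs' := ζ * bs + (N0 / r + b0))
    (fo := ζ * (nf * m2f.v m l / r + (brf.v x r m l (a - b) nf gm (dl * (1 - r * l)) bs -
        abf.v x m l a b (dl * (1 - r * l)) (nf + r * gm))) + (N0 / r + b0))
    (l1 := ζ * l1 - (N0 / r + b0)) (l2 := ζ * l2 - (N0 / r + b0))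
    hr hm hx hx1 hq1 ha hb hl (by linarith) ?_ ?_ ?_ ?_ ?_
  · -- inside
    rw [bnf_val, bnf_val, en, eg, eb, e0]
    refine le_of_eq ?_
    have : N0 * m * G.q1 x = N0 / r * (1 - G.eh x) := by
      rw [hq1, ← ex]
      ring
    linear_combination (-1) * this
  · rw [en, eb]
    refine le_of_eq ?_
    ring
  · -- beyond
    have ea : abf.v x m l a b (del * (1 - r * l)) (n + r * gam) =
        ζ * abf.v x m l a b (dl * (1 - r * l)) (nf + r * gm) := by
      rw [← abf_scale hζ]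
      congr 1
      · rw [ed]; ring
      · rw [en, eg]
        linear_combination h0
    rw [ea, brf_val, brf_val, m2f_val, en, eg, eb, ed, e0, ← hk]
    refine le_of_eq ?_
    have ei : l * l⁻¹ = 1 := mul_inv_cancel₀ hl.ne'
    have ej : r * r⁻¹ = 1 := mul_inv_cancel₀ hr.ne'
    simp only [div_eq_mul_inv]
    rw [hx]
    generalize G.et (m * r) = t
    generalize abf.v _ _ _ _ _ _ _ = AB
    linear_combination ((m * N0 + m ^ 2 * r * t * N0) * (r * r⁻¹)) * ei +
      (m * N0 + m ^ 2 * r * t * N0 - 2 * m ^ 2 * l⁻¹ * t * N0 + m ^ 3 * l⁻¹ ^ 2 * t * N0) * ej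
  · intro F h3 h4
    have := hlev (F - (N0 / r + b0)) (by linarith) (by linarith)
    linarith
  · have k1 : del * (1 - r * l) = ζ * (dl * (1 - r * l)) := by rw [ed]; ring
    have k2 : n + r * gam = ζ * (nf + r * gm) := by rw [en, eg]; linear_combination h0
    rw [k1, k2]
    exact h2

end

end Pool.Agent.Strip051.LC.E1.V3
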