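import Pool.Agent.Strip051.LC.E1.V3.Ge

/-! # Rests near the full period: the row next to the circle of radius `√3`, the values of a
    shape -/

set_option linter.unusedVariables false
set_option linter.unusedSimpArgs false

namespace Pool.Agent.Strip051.LC.E1.V3

open Pool.Agent.Strip051.PB
open Pool.Agent.Strip051.LC.E1.Ch

theorem slo_eq {a b z z0 : ℝ} (h : z = z0 → a = b) : a - b = (z - z0) * ((a - b) / (z - z0)) := by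
  rcases eq_or_ne z z0 with e | e
  · rw [h e, e]
    ring
  · have : z - z0 ≠ 0 := sub_ne_zero.2 e
    field_simp

/-- The values exist. -/
theorem Vl.ex (n_ p_ m_ r_ : ℝ) : ∃ v : Vl, v.Ok ∧ v.n = n_ ∧ v.p = p_ ∧ v.m = m_ ∧ v.r = r_ := by
  obtain ⟨x_, eXx⟩ : ∃ q : ℝ, q = (m_ * r_) := ⟨_, rfl⟩
  obtain ⟨y0h_, eY0h⟩ : ∃ q : ℝ, q = (v3y0.v n_ r_) := ⟨_, rfl⟩
  obtain ⟨yh_, eYh⟩ : ∃ q : ℝ, q = (v3yh.v n_ p_ r_) := ⟨_, rfl⟩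
  obtain ⟨y_, eYy⟩ : ∃ q : ℝ, q = (n_ * yh_) := ⟨_, rfl⟩
  obtain ⟨y0_, eY0⟩ : ∃ q : ℝ, q = (n_ * y0h_) := ⟨_, rfl⟩
  obtain ⟨q_, eQy⟩ : ∃ q : ℝ, q = (r_ * y_) := ⟨_, rfl⟩
  obtain ⟨q0_, eQy0⟩ : ∃ q : ℝ, q = (r_ * y0_) := ⟨_, rfl⟩
  obtain ⟨vy_, eVy⟩ : ∃ q : ℝ, q = (v3vy.v q_) := ⟨_, rfl⟩
  obtain ⟨vh_, eVh⟩ : ∃ q : ℝ, q = (yh_ * vy_) := ⟨_, rfl⟩
  obtain ⟨v0h_, eV0h⟩ : ∃ q : ℝ, q = (v3v0.v n_ r_) := ⟨_, rfl⟩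
  obtain ⟨v_, eVv⟩ : ∃ q : ℝ, q = (n_ * vh_) := ⟨_, rfl⟩
  obtain ⟨t_, eTt⟩ : ∃ q : ℝ, q = (-v_) := ⟨_, rfl⟩
  obtain ⟨zh_, eZh⟩ : ∃ q : ℝ, q = (1 - vh_) := ⟨_, rfl⟩
  obtain ⟨z_, eZ⟩ : ∃ q : ℝ, q = (n_ * zh_) := ⟨_, rfl⟩
  obtain ⟨z0_, eZ0⟩ : ∃ q : ℝ, q = (n_ * (1 - v0h_)) := ⟨_, rfl⟩
  obtain ⟨t0_, eT0⟩ : ∃ q : ℝ, q = (-(n_ * v0h_)) := ⟨_, rfl⟩
  obtain ⟨w_, eWw⟩ : ∃ q : ℝ, q = (-n_) := ⟨_, rfl⟩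
  obtain ⟨ee_, eEe⟩ : ∃ q : ℝ, q = (v3ee.v n_ yh_ y0h_ (vh_ + v0h_) r_) := ⟨_, rfl⟩
  obtain ⟨xh_, eXh⟩ : ∃ q : ℝ, q = (v3xh.v n_ zh_ z_ r_) := ⟨_, rfl⟩
  obtain ⟨u_, eUu⟩ : ∃ q : ℝ, q = (v3uh.v xh_ yh_ vh_ t_ r_) := ⟨_, rfl⟩
  obtain ⟨s1_, eS1⟩ : ∃ q : ℝ, q = (xi1.v z_ r_ - xi1.v z0_ r_) / (z_ - z0_) := ⟨_, rfl⟩
  obtain ⟨sgs_, eSgs⟩ : ∃ q : ℝ, q = (sg1.v z_ r_ - sg1.v z0_ r_) / (z_ - z0_) := ⟨_, rfl⟩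
  obtain ⟨ics_, eIcs⟩ : ∃ q : ℝ, q = (ic1.v z_ r_ - ic1.v z0_ r_) / (z_ - z0_) := ⟨_, rfl⟩
  obtain ⟨sz_, eSz⟩ : ∃ q : ℝ, q = (sg1.v z_ r_) := ⟨_, rfl⟩
  obtain ⟨s0_, eS0⟩ : ∃ q : ℝ, q = (sg1.v z0_ r_) := ⟨_, rfl⟩
  obtain ⟨icz_, eIcz⟩ : ∃ q : ℝ, q = (ic1.v z_ r_) := ⟨_, rfl⟩
  obtain ⟨ic0_, eIc0⟩ : ∃ q : ℝ, q = (ic1.v z0_ r_) := ⟨_, rfl⟩
  obtain ⟨sy_, eSy⟩ : ∃ q : ℝ, q = (((2 : ℕ) : ℝ) / (3 : ℕ) * y_) := ⟨_, rfl⟩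
  obtain ⟨sy0_, eSy0⟩ : ∃ q : ℝ, q = (((2 : ℕ) : ℝ) / (3 : ℕ) * y0_) := ⟨_, rfl⟩
  obtain ⟨hz1, eHz1⟩ : ∃ q : ℝ, q = (v3hm.v s0_ sz_ m_ 1) := ⟨_, rfl⟩
  obtain ⟨hy1, eHy1⟩ : ∃ q : ℝ, q = (v3hm.v sy_ sy0_ m_ 1) := ⟨_, rfl⟩
  obtain ⟨hz2, eHz2⟩ : ∃ q : ℝ, q = (v3hm.v s0_ sz_ m_ (((8 : ℕ) : ℝ) / (5 : ℕ))) := ⟨_, rfl⟩
  obtain ⟨hy2, eHy2⟩ : ∃ q : ℝ, q = (v3hm.v sy_ sy0_ m_ (((8 : ℕ) : ℝ) / (5 : ℕ))) := ⟨_, rfl⟩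
  obtain ⟨hz3, eHz3⟩ : ∃ q : ℝ, q = (v3hm.v s0_ sz_ m_ (((11 : ℕ) : ℝ) / (5 : ℕ))) := ⟨_, rfl⟩
  obtain ⟨hy3, eHy3⟩ : ∃ q : ℝ, q = (v3hm.v sy_ sy0_ m_ (((11 : ℕ) : ℝ) / (5 : ℕ))) := ⟨_, rfl⟩
  obtain ⟨hz4, eHz4⟩ : ∃ q : ℝ, q = (v3hm.v s0_ sz_ m_ (((5 : ℕ) : ℝ) / (2 : ℕ))) := ⟨_, rfl⟩
  obtain ⟨hy4, eHy4⟩ : ∃ q : ℝ, q = (v3hm.v sy_ sy0_ m_ (((5 : ℕ) : ℝ) / (2 : ℕ))) := ⟨_, rfl⟩
  obtain ⟨hz5, eHz5⟩ : ∃ q : ℝ, q = (v3ht.v s0_ sz_ r_ (((1 : ℕ) : ℝ) / (16 : ℕ))) := ⟨_, rfl⟩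
  obtain ⟨hy5, eHy5⟩ : ∃ q : ℝ, q = (v3ht.v sy_ sy0_ r_ (((1 : ℕ) : ℝ) / (16 : ℕ))) := ⟨_, rfl⟩
  obtain ⟨hz6, eHz6⟩ : ∃ q : ℝ, q = (v3ht.v s0_ sz_ r_ (((1 : ℕ) : ℝ) / (10 : ℕ))) := ⟨_, rfl⟩
  obtain ⟨hy6, eHy6⟩ : ∃ q : ℝ, q = (v3ht.v sy_ sy0_ r_ (((1 : ℕ) : ℝ) / (10 : ℕ))) := ⟨_, rfl⟩
  obtain ⟨lz_, eLz⟩ : ∃ q : ℝ, q = ((v3lp.v s0_ sz_ m_ r_ x_) * sgs_) := ⟨_, rfl⟩
  obtain ⟨ls_, eLs⟩ : ∃ q : ℝ, q = (v3lz.v sy_ sy0_ m_ r_ x_) := ⟨_, rfl⟩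
  obtain ⟨k0_, eK0⟩ : ∃ q : ℝ, q = (kap.v q0_ t0_ r_ x_) := ⟨_, rfl⟩
  obtain ⟨p2_, eP2⟩ : ∃ q : ℝ, q = (v3p2.v ee_ yh_ q_ s1_) := ⟨_, rfl⟩
  obtain ⟨k230_, eK230⟩ : ∃ q : ℝ, q = (-(k1p.v z0_ m_ r_ x_)) := ⟨_, rfl⟩
  obtain ⟨k130_, eK130⟩ : ∃ q : ℝ, q = (y0_ * k0_) := ⟨_, rfl⟩
  obtain ⟨b0_, eB0⟩ : ∃ q : ℝ, q = (bap.v q0_ t0_ r_ x_) := ⟨_, rfl⟩
  obtain ⟨b230_, eB230⟩ : ∃ q : ℝ, q = (-(b1p.v z0_ m_ r_ x_)) := ⟨_, rfl⟩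
  obtain ⟨b130_, eB130⟩ : ∃ q : ℝ, q = (y0_ * b0_) := ⟨_, rfl⟩
  obtain ⟨c12_, eC12⟩ : ∃ q : ℝ, q = (l1m.v w_ m_ r_ x_) := ⟨_, rfl⟩
  obtain ⟨n230_, eN230⟩ : ∃ q : ℝ, q = (nkf.v x_ k230_ b230_) := ⟨_, rfl⟩
  obtain ⟨n130_, eN130⟩ : ∃ q : ℝ, q = (nkf.v x_ k130_ b130_) := ⟨_, rfl⟩
  obtain ⟨q33_, eQ33⟩ : ∃ q : ℝ, q = (v3q33.v y_ t_ m_ r_ x_) := ⟨_, rfl⟩
  obtain ⟨la_, eLa⟩ : ∃ q : ℝ, q = (v3la.v ee_ n_ ls_ q33_) := ⟨_, rfl⟩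
  obtain ⟨v6_, eV6⟩ : ∃ q : ℝ, q = (v3v6.v yh_ y_ q_ t_ r_ x_) := ⟨_, rfl⟩
  obtain ⟨lb_, eLb⟩ : ∃ q : ℝ, q = (v3lb.v v6_ ee_ s1_ n_ r_ q33_) := ⟨_, rfl⟩
  have gS1 : xi1.v z_ r_ - xi1.v z0_ r_ = (z_ - z0_) * s1_ := by
    rw [eS1]
    exact slo_eq fun e => by rw [e]
  have gSgs : sg1.v z_ r_ - sg1.v z0_ r_ = (z_ - z0_) * sgs_ := by
    rw [eSgs]
    exact slo_eq fun e => by rw [e]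
  have gIcs : ic1.v z_ r_ - ic1.v z0_ r_ = (z_ - z0_) * ics_ := by
    rw [eIcs]
    exact slo_eq fun e => by rw [e]
  exact ⟨⟨n_, p_, m_, r_, x_, y0h_, yh_, y_, y0_, q_, q0_, vy_, vh_, v0h_, v_, t_, zh_, z_, z0_,
    t0_, w_, ee_, xh_, u_, s1_, sgs_, ics_, sz_, s0_, icz_, ic0_, sy_, sy0_, lz_, ls_, k0_, p2_,
    k230_, k130_, b0_, b230_, b130_, c12_, n230_, n130_, q33_, la_, v6_, lb_, ⟨hz1, hz2, hz3, hz4,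
    hz5, hz6⟩, ⟨hy1, hy2, hy3, hy4, hy5, hy6⟩⟩, ⟨eXx, eY0h, eYh, eYy, eY0, eQy, eQy0, eVy, eVh,
    eV0h, eVv, eTt, eZh, eZ, eZ0, eT0, eWw, eEe, eXh, eUu, gS1, gSgs, gIcs, eSz, eS0, eIcz, eIc0,
    eSy, eSy0, eHz1, eHy1, eHz2, eHy2, eHz3, eHy3, eHz4, eHy4, eHz5, eHy5, eHz6, eHy6, eLz, eLs,
    eK0, eP2, eK230, eK130, eB0, eB230, eB130, eC12, eN230, eN130, eQ33, eLa, eV6, eLb⟩, rfl, rfl,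
    rfl, rfl⟩

/-! ### The values of a shape -/

/-- The values belong to a shape. -/
structure Geo (v : Vl) : Prop where
  ok : v.Ok
  r0 : 0 < v.r
  m0 : 0 < v.m
  n0 : 0 < v.n
  x1 : v.m * v.r ≤ 1 / 40
  rn : v.r * v.n ≤ 1 / 16
  sm : v.r < 1 / 1000 → v.r * v.n ≤ 1 / 400
  nm : v.n = 1 ∨ v.m = 1
  Hw : Hc v.r v.m v.w
  Hz : Hc v.r v.m v.z
  Hz0 : Hc v.r v.m v.z0
  Ht : Hc v.r v.m v.t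
  B : Gb v.r v.n (D1 v.w v.r)
  ew : v.w = -v.n
  et : v.t = -v.v
  ez : v.z = v.n - v.v
  ez0 : v.z0 = v.n * (D1 v.w v.r - 1 / 2)
  ev0 : v.n * v.v0h = v.n - v.z0
  y0h : v.y0h = 3 / 2 * (D1 v.w v.r + 1 / 2)
  zn : 0 ≤ v.z
  zz : v.z ≤ v.z0
  v0 : 0 < v.v
  y0 : 0 < v.y
  ey : G.x3v v.t v.r = v.y
  hy : v.r * v.y ^ 2 = 3 * v.v - 3 / 4 * v.r * v.v ^ 2
  yl : v.y0 ≤ v.y
  yu : v.y ≤ 251 / 50 * v.n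
  evy : v.v = v.y * v.vy
  cq : v3cq.v v.q * (2 - v.r * v.v / 2) = 2 / 3
  p0 : 0 ≤ v.p
  p1 : v.p ≤ 1
  xi : E0.G.xi1 v.w v.r - E0.G.xi1 v.z v.r = v.n * v.xh
  u0 : 0 ≤ v.u
  xle : v.n * v.xh ≤ v.y

theorem geo_of {r m w z : ℝ} (D : Dom .npn r m w z) (ht : w + z < 0)
    (h1 : G.xv6 (w + z) r ≤ E0.G.xi1 w r - E0.G.xi1 z r)
    (h2 : E0.G.xi1 w r - E0.G.xi1 z r ≤ G.x3v (w + z) r) :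
    ∃ v : Vl, Geo v ∧ v.r = r ∧ v.m = m ∧ v.w = w ∧ v.z = z ∧ v.t = w + z ∧ v.n = -w := by
  have S := gs_of D ht h1 h2
  obtain ⟨Hw, Hz, Ht⟩ := hc_of D
  have B := S.toGb
  have hz0 := gb_z0 B
  have Hz0 : Hc r m (-w * (D1 w r - 1 / 2)) := hc_one D (by
    show |_| ≤ -w
    rw [abs_of_nonneg hz0.1]
    exact hz0.2)
  have n0 : 0 < -w := D.l
  have hw0 : w ≠ 0 := fun e => by rw [e] at n0; linarith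
  have hr := D.r0
  obtain ⟨y, ey⟩ : ∃ y, y = G.x3v (w + z) r := ⟨_, rfl⟩
  have y0 := S.y0
  have hy := S.hy
  have yl := S.yl
  have yu := S.yu
  have hv0 := S.v0
  rw [← ey] at y0 hy yl yu h2
  obtain ⟨v, ok, e_n, e_p, e_m, e_r⟩ := Vl.ex (-w) (2 / 5 * (y / -w - 3 / 2 * (D1 w r + 1 / 2))) m r
  have e_w : v.w = w := by rw [ok.eWw, e_n, neg_neg]
  have e_yh : v.yh = y / -w := by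
    rw [ok.eYh, yh_val, e_n, e_p, e_r, neg_neg]
    ring
  have e_y : v.y = y := by
    rw [ok.eYy, e_yh, e_n]
    field_simp
  have e_q : v.q = r * y := by rw [ok.eQy, e_y, e_r]
  -- the height
  have hs : 0 < 2 - r * (-w - z) / 2 := by
    have := B.s
    have : 0 ≤ r * z := mul_nonneg hr.le S.z0
    nlinarith
  have hsq : Real.sqrt (1 - 1 / 3 * (r * y) ^ 2) = 1 - r * (-w - z) / 2 := by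
    have e : 1 - 1 / 3 * (r * y) ^ 2 = (1 - r * (-w - z) / 2) ^ 2 := by
      linear_combination (-(r / 3)) * hy
    rw [e]
    refine Real.sqrt_sq ?_
    have := B.s
    have : 0 ≤ r * z := mul_nonneg hr.le S.z0
    nlinarith
  have e_cq : v3cq.v v.q * (2 - r * (-w - z) / 2) = 2 / 3 := by
    rw [cq_val, e_q, hsq]
    have : 1 + (1 - r * (-w - z) / 2) = 2 - r * (-w - z) / 2 := by ring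
    rw [this, mul_assoc, inv_mul_cancel₀ hs.ne', mul_one]
  have e_vy : v.y * v.vy = -w - z := by
    rw [ok.eVy, vy_val, e_y, e_q]
    rw [e_q] at e_cq
    have k1 : y * (r * y * v3cq.v (r * y)) * (2 - r * (-w - z) / 2) =
        (-w - z) * (2 - r * (-w - z) / 2) := by
      linear_combination (r * y ^ 2) * e_cq + 2 / 3 * hy
    exact mul_right_cancel₀ hs.ne' k1
  have e_v : v.v = -w - z := by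
    rw [ok.eVv, ok.eVh, e_yh, e_n, ← e_vy, e_y]
    field_simp
  have e_t : v.t = w + z := by rw [ok.eTt, e_v]; ring
  have e_z : v.z = z := by
    have h5 : v.n * v.vh = -w - z := by rw [← ok.eVv, e_v]
    rw [ok.eZ, ok.eZh, mul_sub, h5, e_n]
    ring
  have e_v0h : v.v0h = 3 / 2 - D1 w r := by
    have := B.e
    rw [ok.eV0h, v0_val, e_n, e_r, neg_neg]
    linarith
  have e_z0 : v.z0 = -w * (D1 w r - 1 / 2) := by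
    rw [ok.eZ0, e_v0h, e_n]
    ring
  have e_y0h : v.y0h = 3 / 2 * (D1 w r + 1 / 2) := by rw [ok.eY0h, y0_val, e_n, e_r, neg_neg]
  have hxi : E0.G.xi1 w r - E0.G.xi1 z r = v.n * v.xh := by
    rw [ok.eXh, xh_val, xi1_D, xi1_D, mul_add, ← mul_assoc, ← ok.eZ, e_z, e_r, e_n, neg_neg]
    ring
  refine ⟨v, ?_, e_r, e_m, e_w, e_z, e_t, e_n⟩
  constructor
  · exact ok
  · rw [e_r]; exact hr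
  · rw [e_m]; exact D.l0
  · rw [e_n]; exact n0
  · rw [e_m, e_r]; exact D.e
  · rw [e_n, e_r]; exact B.s
  · rw [e_n, e_r]
    intro h
    rcases D.n with ⟨h3, h4⟩ | ⟨h3, h4⟩
    · have h4' : -w ≤ 5 / 2 := h4
      nlinarith
    · have h3' : -w = 1 := h3
      rw [h3']
      linarith
  · rw [e_n, e_m]
    rcases D.n with ⟨h3, h4⟩ | ⟨h3, h4⟩
    · exact Or.inr h3
    · exact Or.inl h3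
  · rw [e_r, e_m, e_w]; exact Hw
  · rw [e_r, e_m, e_z]; exact Hz
  · rw [e_r, e_m, e_z0]; exact Hz0
  · rw [e_r, e_m, e_t]; exact Ht
  · rw [e_r, e_n, e_w]; exact B
  · exact ok.eWw
  · exact ok.eTt
  · rw [e_z, e_n, e_v]; ring
  · rw [e_z0, e_n, e_w, e_r]
  · rw [e_v0h, e_z0, e_n]; ring
  · rw [e_y0h, e_w, e_r]
  · rw [e_z]; exact S.z0
  · rw [e_z, e_z0]; exact S.zz
  · rw [e_v]; exact hv0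
  · rw [e_y]; exact y0
  · rw [e_t, e_r, e_y, ey]
  · rw [e_r, e_y, e_v]; exact hy
  · rw [ok.eY0, e_y0h, e_y, e_n]; exact yl
  · rw [e_y, e_n]; exact yu
  · rw [e_vy, e_v]
  · rw [e_r, e_v]; exact e_cq
  · rw [e_p]
    have : 3 / 2 * (D1 w r + 1 / 2) ≤ y / -w := by
      rw [le_div_iff₀ n0, mul_comm]
      exact yl
    linarith
  · rw [e_p]
    have h5 : y / -w ≤ 251 / 50 := by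
      rw [div_le_iff₀ n0]
      exact yu
    have := B.lo
    linarith
  · rw [e_w, e_r, e_z]; exact hxi
  · have h5 : v.n * v.u = E0.G.xi1 w r - E0.G.xi1 z r - G.xv6 (w + z) r := by
      rw [hxi, ok.eUu, uh_val]
      unfold G.xv6
      have k1 : v.n * v.yh = y := by rw [← ok.eYy, e_y]
      have k2 : v.n * v.vh = -(w + z) := by rw [← ok.eVv, e_v]; ring
      rw [← ey, xi1_D, e_t, e_r]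
      linear_combination (-(3 / 5)) * k1 - 2 / 5 * D1 (w + z) r * k2
    have h6 : 0 ≤ v.n * v.u := by rw [h5]; linarith
    rw [e_n] at h6
    exact nonneg_of_mul_nonneg_right h6 n0
  · rw [← hxi, e_y]; exact h2

end Pool.Agent.Strip051.LC.E1.V3
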