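import Pool.Agent.Strip051.LC.E1.V3.Rw
import Pool.Agent.Strip051.LC.E0.Ch.Cell

/-! # Rests near the full period: certificate Cf1_1 -/

set_option maxRecDepth 100000

namespace Pool.Agent.Strip051.LC.E1.V3

open Pool.Agent.Strip051.PB
open Pool.Agent.Strip051.LC.E0.Ch (onCell Tree)

def x1f_t0 : T :=
  (.a (.b (.c (.a (.b (.c (.l 40868) (.l 20388)) (.c (.l 40868) (.l 20388))) (.b (.c (.l 40868)
      (.l 20388)) (.c (.l 40868) (.l 20388)))) (.l 10148)) (.c (.a (.b (.c (.l 40868) (.l 20388))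
      (.c (.l 40868) (.l 20388))) (.b (.c (.l 40868) (.l 20388)) (.c (.l 40868) (.l 20388)))) (.l
      10148))) (.b (.c (.a (.b (.c (.l 40900) (.l 20420)) (.c (.l 40900) (.l 20420))) (.b (.c (.l
      343095156676) (.l 171296444356)) (.c (.l 343095156676) (.l 171296444356)))) (.a (.l 10180)
      (.l 85397088196))) (.c (.a (.b (.c (.l 40900) (.l 20420)) (.c (.l 40900) (.l 20420))) (.b
      (.c (.l 343095156676) (.l 171296444356)) (.c (.l 343095156676) (.l 171296444356)))) (.a (.l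
      10180) (.a (.l 85397088196) (.l 10148))))))

theorem x1f_h0 : chk3 (onCell 0 2684354560 0 1073741824 0 26843546 T1F) x1f_t0 4 2 2 = true := by decide +kernel

def x1f_t1 : T :=
  (.b (.a (.l 5028) (.a (.l 5060) (.a (.a (.c (.l 57479797444) (.l 42447410116)) (.c (.l
      57479797444) (.l 42447410116))) (.l 5028)))) (.a (.l 5028) (.a (.l 5060) (.c (.a (.a (.l
      57479797444) (.l 6852)) (.l 6820)) (.a (.b (.c (.l 48889861828) (.a (.l 5060) (.l 5060)))
      (.c (.a (.l 5828) (.l 5828)) (.b (.a (.l 5028) (.l 5060)) (.c (.a (.l 5412) (.l 5412)) (.a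
      (.l 5028) (.l 5028)))))) (.b (.l 5028) (.c (.l 5796) (.l 5028))))))))

theorem x1f_h1 : chk3 (onCell 0 2684354560 0 1073741824 0 26843546 T1F) x1f_t1 4 2 3 = true := by decide +kernel

def x1f_t2 : T :=
  (.b (.c (.a (.b (.c (.l 40868) (.l 20388)) (.c (.l 40868) (.l 20388))) (.b (.c (.l 40868) (.l
      20388)) (.c (.l 40868) (.l 20388)))) (.l 10148)) (.c (.a (.b (.c (.l 40868) (.l 20388)) (.l
      15)) (.b (.c (.l 40868) (.l 20388)) (.l 15))) (.l 10148)))

theorem x1f_h2 : chk3 (onCell 0 2684354560 0 1073741824 0 26843546 T1F) x1f_t2 8 3 2 = true := by decide +kernel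

def x1f_t3 : T :=
  (.b (.c (.a (.b (.c (.l 40900) (.l 20420)) (.c (.l 40868) (.l 20388))) (.b (.c (.a (.l 40900)
      (.l 40868)) (.a (.l 20420) (.l 20388))) (.c (.a (.l 40900) (.l 40868)) (.a (.l 20420) (.l
      20388))))) (.b (.a (.l 10180) (.c (.a (.l 114388120900) (.l 13604)) (.a (.l 85397088196)
      (.l 10148)))) (.a (.l 10148) (.a (.c (.l 114388120900) (.a (.l 10148) (.l 10180))) (.l
      10148))))) (.c (.a (.b (.c (.l 40868) (.l 20388)) (.l 15)) (.b (.c (.a (.l 40900) (.l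
      40868)) (.a (.l 20420) (.l 20388))) (.l 15))) (.a (.l 10148) (.c (.a (.a (.l 114388120900)
      (.l 13636)) (.l 13604)) (.a (.b (.a (.l 10148) (.l 10180)) (.l 15)) (.l 10148))))))

theorem x1f_h3 : chk3 (onCell 0 2684354560 0 1073741824 0 26843546 T1F) x1f_t3 9 3 2 = true := by decide +kernel

def x1f_t4 : T :=
  (.a (.l 5028) (.l 5028))

theorem x1f_h4 : chk3 (onCell 0 2684354560 0 1073741824 0 26843546 T1F) x1f_t4 8 3 3 = true := by decide +kernel

def x1f_t5 : T :=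
  (.l 5060)

theorem x1f_h5 : chk3 (onCell 0 2684354560 0 1073741824 0 26843546 T1F) x1f_t5 18 6 3 = true := by decide +kernel

def x1f_t6 : T :=
  (.c (.a (.b (.l 68217216964) (.a (.l 8132) (.l 8132))) (.l 8100)) (.a (.b (.a (.l 6852) (.l
      6820)) (.c (.a (.l 7460) (.l 7460)) (.a (.l 6820) (.b (.l 6820) (.l 6820))))) (.b (.l 6820)
      (.l 6820))))

theorem x1f_h6 : chk3 (onCell 0 2684354560 0 1073741824 0 26843546 T1F) x1f_t6 19 6 6 = true := by decide +kernel

def x1f_t7 : T :=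
  (.a (.b (.c (.a (.l 6308) (.l 6308)) (.b (.a (.l 5796) (.l 5796)) (.a (.l 5796) (.l
      48621426340)))) (.c (.b (.a (.l 6308) (.a (.l 6308) (.a (.l 6308) (.l 6308)))) (.a (.l
      6308) (.a (.l 6308) (.a (.l 6308) (.l 6308))))) (.b (.a (.l 5796) (.a (.c (.l 6052) (.l
      5796)) (.a (.a (.l 5796) (.l 5796)) (.l 5796)))) (.a (.l 5796) (.a (.l 5796) (.a (.l 5796)
      (.l 5796))))))) (.b (.l 5796) (.l 5796)))

theorem x1f_h7 : chk3 (onCell 0 2684354560 0 1073741824 0 26843546 T1F) x1f_t7 19 6 14 = true := by decide +kernel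

def x1f_t8 : T :=
  (.b (.b (.c (.a (.l 5412) (.l 5412)) (.a (.l 5028) (.a (.l 5028) (.a (.a (.l 5028) (.l 5028))
      (.l 5028))))) (.c (.a (.l 5412) (.a (.l 5412) (.a (.a (.l 5412) (.l 5412)) (.l 5412)))) (.a
      (.l 5028) (.a (.b (.l 5060) (.l 5060)) (.a (.a (.l 5028) (.l 5028)) (.l 5028)))))) (.b (.c
      (.a (.l 5412) (.a (.l 5444) (.a (.l 5412) (.l 5412)))) (.a (.l 5028) (.a (.l 5060) (.a (.l
      5028) (.a (.l 5028) (.l 5028)))))) (.c (.a (.l 5412) (.a (.l 5412) (.a (.l 5412) (.a (.l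
      5412) (.l 5412))))) (.a (.l 5028) (.a (.l 5028) (.a (.l 5028) (.a (.l 5028) (.a (.l 5028)
      (.c (.l 5284) (.l 15))))))))))

theorem x1f_h8 : chk3 (onCell 0 2684354560 0 1073741824 0 26843546 T1F) x1f_t8 38 6 15 = true := by decide +kernel

def x1f_t9 : T :=
  (.b (.a (.l 5028) (.l 5028)) (.b (.l 5028) (.c (.l 5412) (.a (.b (.l 5028) (.l 15)) (.l 15)))))

theorem x1f_h9 : chk3 (onCell 0 2684354560 0 1073741824 0 26843546 T1F) x1f_t9 39 6 15 = true := by decide +kernel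

def x1f_t10 : T :=
  (.a (.c (.l 6820) (.l 5028)) (.c (.c (.a (.b (.l 15) (.l 15)) (.l 15)) (.l 15)) (.l 15)))

theorem x1f_h10 : chk3 (onCell 0 2684354560 0 1073741824 0 26843546 T1F) x1f_t10 9 7 3 = true := by decide +kernel

def x1f_t11 : T :=
  (.b (.c (.a (.b (.c (.l 40868) (.l 20388)) (.c (.l 40868) (.l 20388))) (.b (.c (.l 40868) (.l
      20388)) (.c (.l 40868) (.l 171029057444)))) (.a (.a (.l 10148) (.l 10148)) (.a (.l
      85129701284) (.l 10148)))) (.c (.a (.b (.c (.l 40868) (.l 20388)) (.c (.l 40868) (.l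
      20388))) (.b (.c (.l 342827769764) (.a (.l 20388) (.l 20388))) (.c (.a (.l 40868) (.l
      40868)) (.a (.l 20388) (.l 20388))))) (.a (.a (.l 10148) (.l 10148)) (.c (.b (.a (.l 13604)
      (.l 13604)) (.a (.l 13604) (.l 13604))) (.b (.a (.l 10148) (.l 10148)) (.a (.l 85129701284)
      (.l 10148)))))))

theorem x1f_h11 : chk3 (onCell 0 2684354560 0 1073741824 0 26843546 T1F) x1f_t11 10 2 2 = true := by decide +kernel

def x1f_t12 : T :=
  (.c (.a (.b (.c (.l 40868) (.l 20388)) (.c (.l 40868) (.l 20388))) (.b (.c (.l 40902) (.l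
      20390)) (.c (.l 40902) (.l 20390)))) (.a (.a (.l 10148) (.a (.l 10148) (.c (.l 13604) (.l
      10148)))) (.a (.a (.c (.l 114121782564) (.b (.l 10148) (.l 85130749860))) (.c (.l 13604)
      (.l 10150))) (.l 10150))))

theorem x1f_h12 : chk3 (onCell 0 2684354560 0 1073741824 0 26843546 T1F) x1f_t12 11 4 2 = true := by decide +kernel

def x1f_t13 : T :=
  (.c (.a (.b (.c (.l 40868) (.l 20388)) (.c (.l 40868) (.l 20388))) (.b (.c (.l 40902) (.l
      20388)) (.c (.a (.l 40868) (.a (.l 40866) (.b (.l 40866) (.l 40866)))) (.a (.l 20388) (.a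
      (.l 20386) (.b (.l 20386) (.l 20386))))))) (.a (.a (.a (.l 10148) (.l 10148)) (.a (.l
      10148) (.l 10148))) (.a (.a (.l 10148) (.l 10148)) (.b (.l 10148) (.c (.a (.l 13602) (.l
      13602)) (.a (.l 10146) (.l 10146)))))))

theorem x1f_h13 : chk3 (onCell 0 2684354560 0 1073741824 0 26843546 T1F) x1f_t13 11 5 2 = true := by decide +kernel

def x1f_t14 : T :=
  (.a (.a (.l 5028) (.c (.l 6820) (.c (.l 5796) (.l 5028)))) (.a (.a (.b (.c (.l 57212410532) (.c
      (.l 48622474916) (.l 5028))) (.c (.l 57212410532) (.c (.l 5796) (.l 5028)))) (.b (.c (.l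
      57212410532) (.c (.l 48622474916) (.l 42180023204))) (.c (.l 6820) (.c (.l 5796) (.a (.l
      42180023204) (.l 5028)))))) (.c (.l 6820) (.l 5028))))

theorem x1f_h14 : chk3 (onCell 0 2684354560 0 1073741824 0 26843546 T1F) x1f_t14 10 4 3 = true := by decide +kernel

def x1f_t15 : T :=
  (.c (.a (.a (.l 6820) (.l 6820)) (.a (.c (.l 67949830052) (.a (.l 57212410532) (.l 6820))) (.l
      6820))) (.a (.a (.c (.l 5796) (.a (.l 5028) (.l 5028))) (.l 5028)) (.a (.c (.a (.l 5796)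
      (.a (.l 5796) (.l 5796))) (.a (.l 5028) (.c (.a (.b (.l 5412) (.l 5412)) (.l 5412)) (.a (.b
      (.c (.l 5284) (.l 42180023204)) (.l 5028)) (.b (.l 5028) (.l 5028)))))) (.c (.a (.l 5796)
      (.l 5796)) (.a (.c (.b (.l 5412) (.l 5412)) (.b (.l 5028) (.a (.l 5028) (.l 5028)))) (.l
      5028))))))

theorem x1f_h15 : chk3 (onCell 0 2684354560 0 1073741824 0 26843546 T1F) x1f_t15 10 10 3 = true := by decide +kernel

def x1f_t16 : T :=
  (.a (.a (.l 6820) (.l 6820)) (.a (.c (.a (.l 8100) (.l 8100)) (.a (.l 6820) (.c (.l 7460) (.b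
      (.l 6820) (.l 6820))))) (.c (.l 8100) (.a (.l 6820) (.l 6820)))))

theorem x1f_h16 : chk3 (onCell 0 2684354560 0 1073741824 0 26843546 T1F) x1f_t16 10 11 6 = true := by decide +kernel

def x1f_t17 : T :=
  (.a (.l 5028) (.l 5028))

theorem x1f_h17 : chk3 (onCell 0 2684354560 0 1073741824 0 26843546 T1F) x1f_t17 20 11 7 = true := by decide +kernel

def x1f_t18 : T :=
  (.c (.a (.l 5796) (.c (.b (.l 6308) (.a (.l 6308) (.l 6308))) (.b (.a (.l 5796) (.l 5796)) (.a
      (.l 5796) (.l 5796))))) (.a (.l 5028) (.b (.c (.a (.l 5412) (.l 5412)) (.a (.l 5028) (.l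
      5028))) (.c (.b (.a (.l 5412) (.l 5412)) (.l 5412)) (.b (.a (.l 5028) (.l 5028)) (.l
      5028))))))

theorem x1f_h18 : chk3 (onCell 0 2684354560 0 1073741824 0 26843546 T1F) x1f_t18 42 11 7 = true := by decide +kernel

def x1f_t19 : T :=
  (.a (.b (.l 5796) (.c (.l 6308) (.c (.l 6052) (.b (.l 5796) (.c (.l 5924) (.l 5796)))))) (.l
      5796))

theorem x1f_h19 : chk3 (onCell 0 2684354560 0 1073741824 0 26843546 T1F) x1f_t19 43 11 14 = true := by decide +kernel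

def x1f_t20 : T :=
  (.b (.l 5412) (.c (.l 5668) (.b (.l 5412) (.l 5412))))

theorem x1f_h20 : chk3 (onCell 0 2684354560 0 1073741824 0 26843546 T1F) x1f_t20 86 22 30 = true := by decide +kernel

def x1f_t21 : T :=
  (.c (.b (.l 5284) (.l 5284)) (.b (.c (.l 5156) (.a (.l 5028) (.l 5028))) (.c (.a (.l 5156) (.l
      5156)) (.b (.a (.l 5028) (.l 5028)) (.c (.a (.l 5156) (.l 5156)) (.a (.l 5028) (.l
      5028)))))))

theorem x1f_h21 : chk3 (onCell 0 2684354560 0 1073741824 0 26843546 T1F) x1f_t21 86 44 31 = true := by decide +kernel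

def x1f_t22 : T :=
  (.b (.c (.l 5284) (.a (.l 5284) (.l 5284))) (.c (.a (.l 5284) (.l 5284)) (.b (.c (.l 5284) (.a
      (.l 5284) (.l 5284))) (.c (.a (.l 5284) (.l 5284)) (.b (.a (.l 5284) (.l 5284)) (.c (.l
      5284) (.a (.l 5284) (.l 5284))))))))

theorem x1f_h22 : chk3 (onCell 0 2684354560 0 1073741824 0 26843546 T1F) x1f_t22 86 45 62 = true := by decide +kernel

def x1f_t23 : T :=
  (.c (.b (.a (.l 5156) (.l 5156)) (.c (.a (.l 5156) (.l 5156)) (.a (.l 5156) (.l 5156)))) (.b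
      (.c (.a (.l 5156) (.l 5156)) (.b (.a (.l 5028) (.l 5028)) (.c (.a (.l 5156) (.l 5156)) (.a
      (.l 5028) (.l 5028))))) (.c (.b (.c (.a (.l 5156) (.l 5156)) (.a (.l 5156) (.l 5156))) (.c
      (.a (.l 5156) (.l 5156)) (.a (.l 5156) (.l 5156)))) (.b (.c (.a (.l 5156) (.l 5156)) (.a
      (.l 5028) (.l 5028))) (.a (.l 5028) (.l 5028))))))

theorem x1f_h23 : chk3 (onCell 0 2684354560 0 1073741824 0 26843546 T1F) x1f_t23 86 90 63 = true := by decide +kernel

end Pool.Agent.Strip051.LC.E1.V3
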