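import Pool.Agent.Strip051.LC.E1.V3.Rw
import Pool.Agent.Strip051.LC.E0.Ch.Cell

/-! # Rests near the full period: certificate Cf1_10 -/

set_option maxRecDepth 100000

namespace Pool.Agent.Strip051.LC.E1.V3

open Pool.Agent.Strip051.PB
open Pool.Agent.Strip051.LC.E0.Ch (onCell Tree)

def x1f_t182 : T :=
  (.b (.a (.b (.c (.l 5410) (.c (.l 5282) (.l 5026))) (.c (.l 5410) (.c (.l 5282) (.l 5026))))
      (.b (.c (.l 5410) (.l 5026)) (.c (.c (.l 5666) (.l 5410)) (.c (.l 5282) (.l 5026))))) (.a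
      (.b (.c (.c (.l 5666) (.l 5410)) (.c (.l 5282) (.l 5026))) (.c (.c (.l 5666) (.l 15)) (.l
      15))) (.b (.c (.c (.l 5666) (.l 5410)) (.c (.l 5282) (.b (.l 5026) (.l 15)))) (.c (.l 15)
      (.l 15)))))

theorem x1f_h182 : chk3 (onCell 0 2684354560 0 1073741824 0 26843546 T1F) x1f_t182 31 11 15 = true := by decide +kernel

def x1f_t183 : T :=
  (.b (.c (.a (.b (.c (.l 40866) (.l 20386)) (.c (.l 40866) (.l 20386))) (.b (.c (.l 40866) (.l
      20386)) (.c (.l 40866) (.l 20386)))) (.b (.a (.l 10146) (.l 10146)) (.a (.b (.l 10146) (.l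
      10146)) (.b (.l 10146) (.c (.l 13602) (.l 15)))))) (.c (.a (.b (.c (.l 40866) (.l 20386))
      (.l 15)) (.b (.c (.l 40866) (.l 20386)) (.l 15))) (.l 15)))

theorem x1f_h183 : chk3 (onCell 0 2684354560 0 1073741824 0 26843546 T1F) x1f_t183 14 3 2 = true := by decide +kernel

def x1f_t184 : T :=
  (.b (.c (.a (.b (.c (.l 40866) (.l 20386)) (.c (.l 40866) (.l 20386))) (.b (.c (.l 40866) (.l
      20386)) (.c (.l 40866) (.l 20386)))) (.b (.a (.b (.l 10146) (.l 10146)) (.c (.l 13602) (.l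
      10146))) (.a (.c (.l 13602) (.b (.l 10146) (.l 15))) (.c (.l 13602) (.b (.l 10146) (.l
      15)))))) (.c (.a (.b (.c (.l 40866) (.l 15)) (.l 15)) (.b (.c (.l 40866) (.l 15)) (.l 15)))
      (.l 15)))

theorem x1f_h184 : chk3 (onCell 0 2684354560 0 1073741824 0 26843546 T1F) x1f_t184 15 3 2 = true := by decide +kernel

def x1f_t185 : T :=
  (.b (.a (.c (.b (.l 8098) (.l 8098)) (.b (.a (.b (.a (.l 6818) (.l 6818)) (.a (.l 6818) (.l
      6818))) (.b (.l 6818) (.l 6818))) (.a (.b (.l 6818) (.l 15)) (.b (.c (.l 7458) (.l 15)) (.l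
      15))))) (.c (.b (.l 8098) (.a (.l 8098) (.l 8098))) (.b (.a (.b (.l 6818) (.c (.l 7458) (.l
      6818))) (.b (.a (.l 6818) (.l 6818)) (.a (.l 6818) (.c (.l 7458) (.l 6818))))) (.a (.b (.c
      (.l 7458) (.l 15)) (.l 15)) (.b (.a (.c (.l 15) (.l 15)) (.l 15)) (.l 15)))))) (.a (.c (.l
      15) (.l 15)) (.l 15)))

theorem x1f_h185 : chk3 (onCell 0 2684354560 0 1073741824 0 26843546 T1F) x1f_t185 14 6 6 = true := by decide +kernel

def x1f_t186 : T :=
  (.c (.b (.a (.b (.c (.l 6306) (.l 5794)) (.a (.c (.l 6306) (.l 5794)) (.c (.l 6306) (.l 15))))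
      (.b (.a (.c (.l 6306) (.l 5794)) (.c (.l 6306) (.l 5794))) (.a (.c (.l 6306) (.l 15)) (.b
      (.c (.l 6306) (.l 15)) (.l 15))))) (.l 15)) (.b (.a (.b (.a (.c (.l 5410) (.l 5026)) (.c
      (.l 5410) (.l 5026))) (.l 15)) (.b (.a (.c (.l 5410) (.l 15)) (.c (.l 5410) (.l 15))) (.l
      15))) (.l 15)))

theorem x1f_h186 : chk3 (onCell 0 2684354560 0 1073741824 0 26843546 T1F) x1f_t186 28 12 7 = true := by decide +kernel

def x1f_t187 : T :=
  (.c (.b (.a (.b (.a (.b (.c (.l 6306) (.l 5794)) (.c (.l 6306) (.l 5794))) (.b (.c (.l 6306)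
      (.l 5794)) (.c (.l 6306) (.l 15)))) (.a (.b (.c (.l 6306) (.l 15)) (.l 15)) (.c (.l 6306)
      (.l 15)))) (.b (.a (.c (.l 6306) (.l 5794)) (.c (.l 6306) (.l 5794))) (.l 15))) (.l 15))
      (.b (.a (.b (.a (.c (.l 5410) (.l 15)) (.c (.l 5410) (.l 15))) (.l 15)) (.l 15)) (.l 15)))

theorem x1f_h187 : chk3 (onCell 0 2684354560 0 1073741824 0 26843546 T1F) x1f_t187 29 12 7 = true := by decide +kernel

def x1f_t188 : T :=
  (.l 15)

theorem x1f_h188 : chk3 (onCell 0 2684354560 0 1073741824 0 26843546 T1F) x1f_t188 14 13 7 = true := by decide +kernel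

def x1f_t189 : T :=
  (.l 15)

theorem x1f_h189 : chk3 (onCell 0 2684354560 0 1073741824 0 26843546 T1F) x1f_t189 14 7 3 = true := by decide +kernel

def x1f_t190 : T :=
  (.c (.b (.a (.l 8098) (.l 8098)) (.a (.l 8098) (.l 8098))) (.b (.a (.b (.a (.l 6818) (.l 6818))
      (.a (.c (.l 7458) (.l 6818)) (.c (.l 7458) (.l 6818)))) (.b (.a (.l 57198779042) (.c (.l
      7458) (.l 6818))) (.a (.c (.l 7458) (.l 15)) (.c (.l 7458) (.l 15))))) (.l 15)))

theorem x1f_h190 : chk3 (onCell 0 2684354560 0 1073741824 0 26843546 T1F) x1f_t190 30 12 6 = true := by decide +kernel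

def x1f_t191 : T :=
  (.c (.b (.a (.l 8098) (.l 8098)) (.a (.l 8098) (.b (.l 8098) (.l 15)))) (.b (.a (.b (.a (.c (.l
      7458) (.l 6818)) (.c (.l 7458) (.l 6818))) (.a (.c (.l 7458) (.l 15)) (.c (.l 7458) (.l
      15)))) (.b (.a (.b (.c (.l 7458) (.l 6818)) (.c (.l 7458) (.l 6818))) (.b (.c (.l 7458) (.l
      6818)) (.c (.l 7458) (.l 15)))) (.a (.c (.l 7458) (.l 15)) (.c (.l 7458) (.l 15))))) (.l
      15)))

theorem x1f_h191 : chk3 (onCell 0 2684354560 0 1073741824 0 26843546 T1F) x1f_t191 31 12 6 = true := by decide +kernel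

def x1f_t192 : T :=
  (.l 15)

theorem x1f_h192 : chk3 (onCell 0 2684354560 0 1073741824 0 26843546 T1F) x1f_t192 15 13 6 = true := by decide +kernel

def x1f_t193 : T :=
  (.b (.a (.c (.b (.a (.b (.a (.c (.l 6306) (.l 5794)) (.c (.l 6306) (.l 5794))) (.l 15)) (.b (.a
      (.c (.l 6306) (.l 15)) (.c (.l 6306) (.l 15))) (.l 15))) (.l 15)) (.l 15)) (.c (.b (.a (.b
      (.a (.c (.l 6306) (.l 15)) (.c (.l 6306) (.l 15))) (.l 15)) (.b (.a (.c (.l 6306) (.l 15))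
      (.l 15)) (.l 15))) (.l 15)) (.l 15))) (.l 15))

theorem x1f_h193 : chk3 (onCell 0 2684354560 0 1073741824 0 26843546 T1F) x1f_t193 15 6 7 = true := by decide +kernel

def x1f_t194 : T :=
  (.l 15)

theorem x1f_h194 : chk3 (onCell 0 2684354560 0 1073741824 0 26843546 T1F) x1f_t194 15 7 3 = true := by decide +kernel

end Pool.Agent.Strip051.LC.E1.V3
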