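import Pool.Agent.Strip051.LC.E1.V3.Rw
import Pool.Agent.Strip051.LC.E0.Ch.Cell

/-! # Rests near the full period: certificate Cf2_1 -/

set_option maxRecDepth 100000

namespace Pool.Agent.Strip051.LC.E1.V3

open Pool.Agent.Strip051.PB
open Pool.Agent.Strip051.LC.E0.Ch (onCell Tree)

def x2f_t0 : T :=
  (.c (.a (.b (.c (.a (.b (.c (.l 65442) (.l 32674)) (.c (.l 65442) (.l 32674))) (.b (.c (.l
      65442) (.l 32674)) (.c (.l 65442) (.l 32674)))) (.l 16322)) (.c (.a (.b (.c (.l 65442) (.l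
      32674)) (.c (.l 65442) (.l 32674))) (.b (.c (.l 65442) (.l 32674)) (.c (.l 65442) (.l
      32674)))) (.l 16290))) (.b (.c (.a (.b (.c (.l 65442) (.l 32674)) (.c (.l 65442) (.l
      32674))) (.b (.c (.l 65442) (.l 32674)) (.c (.l 65442) (.l 32674)))) (.l 16322)) (.c (.a
      (.b (.c (.l 65442) (.l 32674)) (.c (.l 65442) (.l 32674))) (.b (.c (.l 65442) (.l 32674))
      (.c (.l 65442) (.l 32674)))) (.l 16290)))) (.l 8130))

theorem x2f_h0 : chk3 (onCell 0 1073741824 0 429496730 0 67108864 T2F) x2f_t0 8 4 4 = true := by decide +kernel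

def x2f_t1 : T :=
  (.c (.a (.b (.c (.a (.b (.c (.l 65442) (.l 32674)) (.c (.l 65442) (.l 32674))) (.b (.c (.l
      65442) (.l 32674)) (.c (.l 65442) (.l 32674)))) (.l 16290)) (.c (.a (.b (.c (.l 65442) (.l
      32674)) (.c (.l 65442) (.l 32674))) (.b (.c (.l 65442) (.l 32674)) (.c (.l 65442) (.l
      32674)))) (.l 16290))) (.b (.c (.a (.b (.c (.l 65442) (.l 32674)) (.c (.l 65442) (.l
      32674))) (.b (.c (.l 65442) (.l 32674)) (.c (.l 65442) (.l 32674)))) (.l 16290)) (.c (.a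
      (.b (.c (.l 65442) (.l 32674)) (.c (.l 65442) (.l 32674))) (.b (.c (.l 65442) (.l 32674))
      (.c (.l 65442) (.l 32674)))) (.l 16290)))) (.l 8098))

theorem x2f_h1 : chk3 (onCell 0 1073741824 0 429496730 0 67108864 T2F) x2f_t1 8 5 4 = true := by decide +kernel

def x2f_t2 : T :=
  (.c (.a (.b (.c (.a (.b (.c (.l 65442) (.l 32674)) (.c (.l 65442) (.l 32674))) (.b (.c (.l
      65442) (.l 32674)) (.c (.l 65442) (.l 32674)))) (.l 16322)) (.c (.a (.b (.c (.l 65442) (.l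
      32674)) (.c (.l 65442) (.l 32674))) (.b (.c (.l 65442) (.l 32674)) (.c (.l 65442) (.l
      32674)))) (.l 16290))) (.b (.c (.a (.b (.c (.l 65442) (.l 32674)) (.c (.l 65442) (.l
      32674))) (.b (.c (.l 65442) (.l 32674)) (.c (.l 65442) (.l 32674)))) (.l 16322)) (.c (.a
      (.b (.c (.l 65442) (.l 32674)) (.c (.l 65442) (.l 32674))) (.b (.c (.l 65442) (.l 32674))
      (.c (.l 65442) (.l 32674)))) (.l 16290)))) (.l 8130))

theorem x2f_h2 : chk3 (onCell 0 1073741824 0 429496730 0 67108864 T2F) x2f_t2 9 4 4 = true := by decide +kernel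

def x2f_t3 : T :=
  (.c (.a (.b (.c (.a (.b (.c (.l 65442) (.l 32674)) (.c (.l 65442) (.l 32674))) (.b (.c (.l
      65442) (.l 32674)) (.c (.l 65442) (.l 32674)))) (.l 16290)) (.c (.a (.b (.c (.l 65442) (.l
      32674)) (.c (.l 65442) (.l 32674))) (.b (.c (.l 65442) (.l 32674)) (.c (.l 65442) (.l
      32674)))) (.l 16290))) (.b (.c (.a (.b (.c (.l 65442) (.l 32674)) (.c (.l 65442) (.l
      32674))) (.b (.c (.l 65442) (.l 32674)) (.c (.l 65442) (.l 32674)))) (.l 16290)) (.c (.a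
      (.b (.c (.l 65442) (.l 32674)) (.c (.l 65442) (.l 32674))) (.b (.c (.l 65442) (.l 32674))
      (.c (.l 65442) (.l 32674)))) (.l 16290)))) (.l 8098))

theorem x2f_h3 : chk3 (onCell 0 1073741824 0 429496730 0 67108864 T2F) x2f_t3 9 5 4 = true := by decide +kernel

def x2f_t4 : T :=
  (.b (.a (.l 4034) (.l 4034)) (.b (.l 4034) (.l 4034)))

theorem x2f_h4 : chk3 (onCell 0 1073741824 0 429496730 0 67108864 T2F) x2f_t4 4 2 5 = true := by decide +kernel

def x2f_t5 : T :=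
  (.c (.a (.b (.c (.a (.b (.c (.l 65442) (.l 32674)) (.c (.l 65442) (.l 32674))) (.b (.c (.l
      65442) (.l 32674)) (.c (.l 65442) (.l 32674)))) (.l 16290)) (.c (.a (.b (.c (.l 65442) (.l
      32674)) (.c (.l 65442) (.l 32674))) (.b (.c (.l 65442) (.l 32674)) (.c (.l 65442) (.l
      32674)))) (.l 16290))) (.b (.c (.a (.b (.c (.l 65442) (.l 32674)) (.c (.l 65442) (.l
      32674))) (.b (.c (.l 65442) (.l 32674)) (.c (.l 65442) (.l 32674)))) (.l 16290)) (.c (.a
      (.b (.c (.l 65442) (.l 32674)) (.c (.l 65442) (.l 32674))) (.b (.c (.l 65442) (.l 32674))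
      (.c (.l 65442) (.l 32674)))) (.l 16290)))) (.l 8098))

theorem x2f_h5 : chk3 (onCell 0 1073741824 0 429496730 0 67108864 T2F) x2f_t5 8 6 4 = true := by decide +kernel

def x2f_t6 : T :=
  (.a (.b (.c (.a (.b (.c (.l 65442) (.l 32674)) (.c (.l 65442) (.l 32674))) (.b (.c (.l 65442)
      (.l 32674)) (.c (.l 65442) (.l 32674)))) (.l 16290)) (.c (.a (.b (.c (.l 65442) (.l 32674))
      (.c (.l 65442) (.l 32674))) (.b (.c (.l 65442) (.l 32674)) (.c (.l 65442) (.l 32674)))) (.b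
      (.l 16290) (.l 16290)))) (.b (.c (.a (.b (.c (.l 65442) (.l 32674)) (.c (.l 65442) (.l
      32674))) (.b (.c (.l 65442) (.l 32674)) (.c (.l 65442) (.l 32674)))) (.l 16290)) (.c (.a
      (.b (.c (.l 65442) (.l 32674)) (.c (.l 65442) (.l 32674))) (.b (.c (.l 65442) (.l 32674))
      (.c (.l 65442) (.l 32674)))) (.l 16290))))

theorem x2f_h6 : chk3 (onCell 0 1073741824 0 429496730 0 67108864 T2F) x2f_t6 8 7 8 = true := by decide +kernel

def x2f_t7 : T :=
  (.b (.a (.l 8098) (.l 8098)) (.a (.b (.l 8098) (.a (.l 8098) (.l 8098))) (.l 8098)))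

theorem x2f_h7 : chk3 (onCell 0 1073741824 0 429496730 0 67108864 T2F) x2f_t7 8 7 9 = true := by decide +kernel

def x2f_t8 : T :=
  (.c (.a (.b (.c (.a (.b (.c (.l 65442) (.l 32674)) (.c (.l 65442) (.l 32674))) (.b (.c (.l
      65442) (.l 32674)) (.c (.l 65442) (.l 32674)))) (.l 16290)) (.c (.a (.b (.c (.l 65442) (.l
      32674)) (.c (.l 65442) (.l 32674))) (.b (.c (.l 65442) (.l 32674)) (.c (.l 65442) (.l
      32674)))) (.l 16290))) (.b (.c (.a (.b (.c (.l 65442) (.l 32674)) (.c (.l 65442) (.l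
      32674))) (.b (.c (.l 65442) (.l 32674)) (.c (.l 65442) (.l 32674)))) (.l 16290)) (.c (.a
      (.b (.c (.l 65442) (.l 32674)) (.c (.l 65442) (.l 32674))) (.b (.c (.l 65442) (.l 32674))
      (.c (.l 65442) (.l 32674)))) (.l 16290)))) (.l 8098))

theorem x2f_h8 : chk3 (onCell 0 1073741824 0 429496730 0 67108864 T2F) x2f_t8 9 6 4 = true := by decide +kernel

def x2f_t9 : T :=
  (.c (.a (.b (.c (.a (.b (.c (.l 65442) (.l 32674)) (.c (.l 65442) (.l 32674))) (.b (.c (.l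
      65442) (.l 32674)) (.c (.l 65442) (.l 32674)))) (.l 16290)) (.c (.a (.b (.c (.l 65442) (.l
      32674)) (.c (.l 65442) (.l 32674))) (.b (.c (.l 65442) (.l 32674)) (.c (.l 65442) (.l
      32674)))) (.l 16290))) (.b (.c (.a (.b (.c (.l 65442) (.l 32674)) (.c (.l 65442) (.l
      32674))) (.b (.c (.l 65442) (.l 32674)) (.c (.l 65442) (.l 32674)))) (.l 16290)) (.c (.a
      (.b (.c (.l 65442) (.l 32674)) (.c (.l 65442) (.l 32674))) (.b (.c (.l 65442) (.l 32674))
      (.c (.l 65442) (.l 32674)))) (.l 16290)))) (.b (.l 8098) (.l 8098)))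

theorem x2f_h9 : chk3 (onCell 0 1073741824 0 429496730 0 67108864 T2F) x2f_t9 9 7 4 = true := by decide +kernel

def x2f_t10 : T :=
  (.b (.b (.a (.l 4002) (.l 4002)) (.a (.a (.l 4002) (.l 4002)) (.l 4002))) (.a (.b (.a (.b (.l
      4002) (.a (.l 4002) (.l 4002))) (.l 4002)) (.a (.b (.a (.c (.l 5410) (.l 4002)) (.l 4002))
      (.a (.c (.l 5410) (.l 4002)) (.l 4002))) (.a (.c (.l 5410) (.l 4002)) (.l 4002)))) (.b (.l
      4002) (.a (.l 4002) (.l 4002)))))

theorem x2f_h10 : chk3 (onCell 0 1073741824 0 429496730 0 67108864 T2F) x2f_t10 4 3 5 = true := by decide +kernel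

def x2f_t11 : T :=
  (.c (.a (.b (.c (.a (.b (.c (.l 65442) (.l 32674)) (.c (.l 65442) (.l 32674))) (.b (.c (.l
      65442) (.l 32674)) (.c (.l 65442) (.l 32674)))) (.l 16322)) (.c (.a (.b (.c (.l 65442) (.l
      32674)) (.c (.l 65442) (.l 32674))) (.b (.c (.l 65442) (.l 32674)) (.c (.l 65442) (.l
      32674)))) (.l 16290))) (.b (.c (.a (.b (.c (.l 65442) (.l 32674)) (.c (.l 65442) (.l
      32674))) (.b (.c (.l 65442) (.l 32674)) (.c (.l 65442) (.l 32674)))) (.l 16322)) (.c (.a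
      (.b (.c (.l 65442) (.l 32674)) (.c (.l 65442) (.l 32674))) (.b (.c (.l 65442) (.l 32674))
      (.c (.l 65442) (.l 32674)))) (.l 16290)))) (.l 8130))

theorem x2f_h11 : chk3 (onCell 0 1073741824 0 429496730 0 67108864 T2F) x2f_t11 10 4 4 = true := by decide +kernel

def x2f_t12 : T :=
  (.c (.a (.b (.c (.a (.b (.c (.l 65442) (.l 32674)) (.c (.l 65442) (.l 32674))) (.b (.c (.l
      65442) (.l 32674)) (.c (.l 65442) (.l 32674)))) (.l 16290)) (.c (.a (.b (.c (.l 65442) (.l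
      32674)) (.c (.l 65442) (.l 32674))) (.b (.c (.l 65442) (.l 32674)) (.c (.l 65442) (.l
      32674)))) (.l 16290))) (.b (.c (.a (.b (.c (.l 65442) (.l 32674)) (.c (.l 65442) (.l
      32674))) (.b (.c (.l 65442) (.l 32674)) (.c (.l 65442) (.l 32674)))) (.l 16290)) (.c (.a
      (.b (.c (.l 65442) (.l 32674)) (.c (.l 65442) (.l 32674))) (.b (.c (.l 65442) (.l 32674))
      (.c (.l 65442) (.l 32674)))) (.l 16290)))) (.l 8098))

theorem x2f_h12 : chk3 (onCell 0 1073741824 0 429496730 0 67108864 T2F) x2f_t12 10 5 4 = true := by decide +kernel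

def x2f_t13 : T :=
  (.c (.a (.b (.c (.a (.b (.c (.l 65442) (.l 32674)) (.c (.l 65442) (.l 32674))) (.b (.c (.l
      65442) (.l 32674)) (.c (.l 65442) (.l 32674)))) (.l 16290)) (.c (.a (.b (.c (.l 65442) (.l
      32674)) (.c (.l 65442) (.l 32674))) (.b (.c (.l 65442) (.l 32674)) (.c (.l 65442) (.l
      32674)))) (.l 16290))) (.b (.c (.a (.b (.c (.l 65442) (.l 32674)) (.c (.l 65442) (.l
      32674))) (.b (.c (.l 65442) (.l 32674)) (.c (.l 65442) (.l 32674)))) (.l 16290)) (.c (.a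
      (.b (.c (.l 65442) (.l 32674)) (.c (.l 65442) (.l 32674))) (.b (.c (.l 65442) (.l 32674))
      (.c (.l 65442) (.l 32674)))) (.l 16290)))) (.b (.l 8130) (.l 8098)))

theorem x2f_h13 : chk3 (onCell 0 1073741824 0 429496730 0 67108864 T2F) x2f_t13 11 4 4 = true := by decide +kernel

end Pool.Agent.Strip051.LC.E1.V3
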