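import Pool.Agent.Strip051.LC.E1.V3.Rw
import Pool.Agent.Strip051.LC.E0.Ch.Cell

/-! # Rests near the full period: certificate Cn1_1 -/

set_option maxRecDepth 100000

namespace Pool.Agent.Strip051.LC.E1.V3

open Pool.Agent.Strip051.PB
open Pool.Agent.Strip051.LC.E0.Ch (onCell Tree)

def x1n_t0 : T :=
  (.a (.b (.c (.a (.b (.c (.l 32) (.l 32)) (.c (.l 32) (.l 32))) (.b (.c (.l 32) (.l 32)) (.c (.l
      32) (.l 32)))) (.l 32)) (.c (.a (.b (.c (.l 32) (.l 32)) (.c (.l 32) (.l 32))) (.b (.c (.l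
      32) (.l 32)) (.c (.l 32) (.l 32)))) (.l 32))) (.b (.c (.a (.b (.c (.l 64) (.l 64)) (.c (.l
      64) (.l 64))) (.b (.c (.l 64) (.l 64)) (.c (.l 64) (.l 64)))) (.l 64)) (.c (.a (.b (.c (.l
      64) (.l 64)) (.c (.l 64) (.l 64))) (.b (.c (.l 64) (.l 64)) (.c (.l 64) (.l 64)))) (.b (.l
      64) (.a (.l 64) (.l 64))))))

theorem x1n_h0 : chk3 (onCell 0 2684354560 0 1073741824 0 26843546 T1N) x1n_t0 4 2 2 = true := by decide +kernel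

def x1n_t1 : T :=
  (.b (.b (.l 65) (.a (.l 32) (.c (.l 64) (.l 64)))) (.a (.l 32) (.b (.c (.l 64) (.a (.l 64) (.l
      64))) (.c (.a (.l 64) (.c (.l 64) (.l 64))) (.a (.l 64) (.b (.l 64) (.l 64)))))))

theorem x1n_h1 : chk3 (onCell 0 2684354560 0 1073741824 0 26843546 T1N) x1n_t1 4 2 3 = true := by decide +kernel

def x1n_t2 : T :=
  (.b (.c (.a (.b (.c (.l 32) (.l 32)) (.c (.l 32) (.l 32))) (.b (.c (.l 32) (.l 32)) (.c (.l 32)
      (.l 32)))) (.l 32)) (.c (.a (.b (.c (.l 32) (.l 32)) (.l 15)) (.b (.c (.l 32) (.l 32)) (.l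
      15))) (.l 32)))

theorem x1n_h2 : chk3 (onCell 0 2684354560 0 1073741824 0 26843546 T1N) x1n_t2 8 3 2 = true := by decide +kernel

def x1n_t3 : T :=
  (.b (.c (.a (.b (.c (.l 64) (.l 64)) (.c (.l 64) (.l 64))) (.b (.c (.l 64) (.l 64)) (.c (.l 64)
      (.l 64)))) (.b (.c (.l 64) (.a (.l 64) (.l 64))) (.c (.a (.l 64) (.l 64)) (.a (.l 64) (.l
      64))))) (.c (.a (.b (.c (.l 64) (.l 64)) (.l 15)) (.b (.c (.l 64) (.l 64)) (.l 15))) (.c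
      (.b (.a (.l 64) (.l 64)) (.l 15)) (.b (.a (.l 64) (.l 64)) (.l 15)))))

theorem x1n_h3 : chk3 (onCell 0 2684354560 0 1073741824 0 26843546 T1N) x1n_t3 9 3 2 = true := by decide +kernel

def x1n_t4 : T :=
  (.b (.a (.l 32) (.c (.b (.a (.l 64) (.c (.l 64) (.b (.l 64) (.l 64)))) (.c (.a (.l 64) (.b (.l
      64) (.l 64))) (.a (.l 64) (.b (.l 64) (.l 64))))) (.b (.a (.l 64) (.b (.c (.l 64) (.l 64))
      (.c (.l 64) (.l 64)))) (.a (.l 64) (.c (.b (.l 64) (.l 64)) (.b (.l 64) (.a (.l 64) (.l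
      32)))))))) (.c (.a (.l 32) (.b (.c (.a (.l 64) (.b (.l 64) (.l 15))) (.a (.l 64) (.l 15)))
      (.l 15))) (.a (.l 32) (.b (.a (.l 64) (.l 15)) (.l 15)))))

theorem x1n_h4 : chk3 (onCell 0 2684354560 0 1073741824 0 26843546 T1N) x1n_t4 4 3 3 = true := by decide +kernel

def x1n_t5 : T :=
  (.b (.c (.a (.b (.c (.l 64) (.l 64)) (.c (.l 64) (.l 64))) (.b (.c (.l 64) (.l 64)) (.c (.l 64)
      (.l 64)))) (.a (.l 64) (.b (.l 64) (.l 64)))) (.c (.a (.b (.c (.l 64) (.l 64)) (.c (.l 64)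
      (.l 64))) (.b (.c (.l 64) (.a (.l 64) (.l 32))) (.c (.l 64) (.a (.l 64) (.l 32))))) (.b (.c
      (.a (.l 64) (.a (.l 64) (.l 32))) (.b (.a (.l 64) (.l 64)) (.a (.l 64) (.a (.l 64) (.l
      32))))) (.c (.a (.l 64) (.b (.a (.l 64) (.l 32)) (.a (.l 64) (.l 32)))) (.a (.l 64) (.b (.a
      (.l 64) (.l 32)) (.a (.l 64) (.l 32))))))))

theorem x1n_h5 : chk3 (onCell 0 2684354560 0 1073741824 0 26843546 T1N) x1n_t5 10 2 2 = true := by decide +kernel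

def x1n_t6 : T :=
  (.a (.b (.c (.l 32) (.l 32)) (.c (.l 64) (.l 64))) (.b (.c (.l 65) (.a (.a (.l 64) (.l 0)) (.l
      0))) (.c (.a (.l 64) (.l 64)) (.b (.a (.a (.l 64) (.l 0)) (.l 0)) (.a (.l 64) (.l 0))))))

theorem x1n_h6 : chk3 (onCell 0 2684354560 0 1073741824 0 26843546 T1N) x1n_t6 11 4 4 = true := by decide +kernel

def x1n_t7 : T :=
  (.b (.a (.l 33) (.b (.a (.l 65) (.l 0)) (.a (.a (.a (.c (.l 64) (.l 32)) (.l 65)) (.l 65)) (.l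
      0)))) (.a (.b (.a (.l 32) (.l 32)) (.c (.a (.l 32) (.l 32)) (.a (.l 32) (.l 32)))) (.b (.c
      (.a (.a (.l 65) (.l 0)) (.l 0)) (.a (.a (.a (.l 32) (.l 65)) (.a (.l 65) (.l 0))) (.l 0)))
      (.c (.a (.a (.l 65) (.l 64)) (.l 0)) (.a (.a (.a (.l 32) (.a (.l 65) (.l 65))) (.l 65)) (.l
      0))))))

theorem x1n_h7 : chk3 (onCell 0 2684354560 0 1073741824 0 26843546 T1N) x1n_t7 11 4 5 = true := by decide +kernel

def x1n_t8 : T :=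
  (.a (.b (.c (.l 64) (.b (.a (.l 32) (.l 32)) (.l 32))) (.c (.l 64) (.a (.l 32) (.l 32)))) (.b
      (.c (.a (.l 64) (.l 64)) (.a (.a (.a (.l 64) (.l 64)) (.l 0)) (.l 0))) (.c (.a (.l 64) (.l
      64)) (.a (.a (.a (.l 64) (.l 64)) (.l 66)) (.l 0)))))

theorem x1n_h8 : chk3 (onCell 0 2684354560 0 1073741824 0 26843546 T1N) x1n_t8 11 5 4 = true := by decide +kernel

def x1n_t9 : T :=
  (.b (.c (.b (.a (.l 32) (.l 32)) (.l 32)) (.b (.a (.l 32) (.l 32)) (.a (.l 32) (.l 32)))) (.a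
      (.l 32) (.l 32)))

theorem x1n_h9 : chk3 (onCell 0 2684354560 0 1073741824 0 26843546 T1N) x1n_t9 22 5 5 = true := by decide +kernel

def x1n_t10 : T :=
  (.c (.b (.a (.a (.a (.l 32) (.l 65)) (.l 65)) (.l 0)) (.a (.a (.a (.l 32) (.a (.c (.l 64) (.l
      64)) (.c (.l 64) (.l 64)))) (.a (.a (.c (.l 0) (.l 66)) (.l 0)) (.l 0))) (.l 0))) (.b (.c
      (.a (.a (.l 65) (.l 65)) (.l 0)) (.a (.a (.a (.l 32) (.a (.l 32) (.l 64))) (.a (.l 65) (.l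
      0))) (.l 0))) (.a (.a (.a (.l 32) (.a (.l 32) (.l 64))) (.a (.a (.c (.l 64) (.l 64)) (.c
      (.l 64) (.l 64))) (.l 66))) (.l 0))))

theorem x1n_h10 : chk3 (onCell 0 2684354560 0 1073741824 0 26843546 T1N) x1n_t10 23 10 5 = true := by decide +kernel

def x1n_t11 : T :=
  (.c (.b (.a (.a (.a (.l 32) (.a (.c (.l 64) (.l 64)) (.c (.l 64) (.l 64)))) (.a (.a (.c (.l 64)
      (.l 64)) (.l 64)) (.l 0))) (.l 0)) (.a (.a (.a (.l 32) (.a (.c (.l 64) (.l 32)) (.c (.l 64)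
      (.l 64)))) (.a (.a (.c (.l 64) (.l 64)) (.l 66)) (.l 0))) (.l 0))) (.b (.a (.a (.a (.l 32)
      (.a (.l 32) (.l 64))) (.a (.a (.l 64) (.c (.l 64) (.l 64))) (.l 66))) (.l 0)) (.c (.a (.a
      (.a (.l 32) (.l 64)) (.a (.l 64) (.l 66))) (.l 0)) (.a (.a (.l 64) (.a (.l 64) (.l 66)))
      (.l 0)))))

theorem x1n_h11 : chk3 (onCell 0 2684354560 0 1073741824 0 26843546 T1N) x1n_t11 23 11 5 = true := by decide +kernel

def x1n_t12 : T :=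
  (.c (.l 64) (.l 65))

theorem x1n_h12 : chk3 (onCell 0 2684354560 0 1073741824 0 26843546 T1N) x1n_t12 10 8 3 = true := by decide +kernel

def x1n_t13 : T :=
  (.a (.b (.l 32) (.a (.l 32) (.c (.l 32) (.l 32)))) (.b (.c (.a (.l 65) (.l 0)) (.b (.l 65) (.a
      (.l 65) (.l 0)))) (.b (.c (.a (.l 65) (.l 0)) (.a (.a (.l 65) (.l 65)) (.l 0))) (.a (.a (.c
      (.l 65) (.l 65)) (.l 65)) (.l 0)))))

theorem x1n_h13 : chk3 (onCell 0 2684354560 0 1073741824 0 26843546 T1N) x1n_t13 11 8 6 = true := by decide +kernel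

def x1n_t14 : T :=
  (.a (.l 33) (.c (.b (.l 65) (.a (.l 65) (.l 0))) (.b (.l 65) (.b (.l 65) (.a (.l 65) (.l 0))))))

theorem x1n_h14 : chk3 (onCell 0 2684354560 0 1073741824 0 26843546 T1N) x1n_t14 11 16 7 = true := by decide +kernel

def x1n_t15 : T :=
  (.a (.a (.l 32) (.c (.a (.l 32) (.c (.l 32) (.a (.l 32) (.c (.l 32) (.l 32))))) (.a (.l 32) (.c
      (.a (.c (.l 32) (.a (.l 32) (.l 32))) (.c (.a (.l 32) (.l 32)) (.a (.l 32) (.l 32)))) (.a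
      (.c (.a (.l 32) (.l 32)) (.a (.l 32) (.l 32))) (.c (.a (.l 32) (.l 32)) (.a (.l 32) (.l
      32)))))))) (.b (.c (.a (.a (.l 32) (.l 65)) (.l 0)) (.a (.a (.l 32) (.c (.l 65) (.a (.l 65)
      (.l 65)))) (.l 0))) (.c (.a (.a (.l 32) (.l 65)) (.l 0)) (.a (.b (.a (.l 32) (.l 65)) (.a
      (.l 32) (.l 65))) (.a (.l 0) (.l 0))))))

theorem x1n_h15 : chk3 (onCell 0 2684354560 0 1073741824 0 26843546 T1N) x1n_t15 11 17 7 = true := by decide +kernel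

def x1n_t16 : T :=
  (.c (.a (.l 64) (.a (.l 64) (.l 32))) (.a (.l 64) (.a (.c (.l 64) (.l 64)) (.l 32))))

theorem x1n_h16 : chk3 (onCell 0 2684354560 0 1073741824 0 26843546 T1N) x1n_t16 10 9 3 = true := by decide +kernel

def x1n_t17 : T :=
  (.c (.b (.a (.l 32) (.c (.l 32) (.a (.l 32) (.l 32)))) (.a (.l 32) (.l 32))) (.b (.a (.l 32)
      (.c (.a (.l 32) (.l 32)) (.a (.l 32) (.l 32)))) (.a (.a (.l 32) (.l 32)) (.c (.l 32) (.l
      32)))))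

theorem x1n_h17 : chk3 (onCell 0 2684354560 0 1073741824 0 26843546 T1N) x1n_t17 22 9 3 = true := by decide +kernel

def x1n_t18 : T :=
  (.a (.b (.c (.a (.l 65) (.l 65)) (.a (.l 65) (.a (.l 65) (.l 65)))) (.c (.a (.a (.l 32) (.l
      65)) (.l 65)) (.a (.c (.l 32) (.l 32)) (.a (.l 65) (.a (.l 65) (.l 0)))))) (.l 0))

theorem x1n_h18 : chk3 (onCell 0 2684354560 0 1073741824 0 26843546 T1N) x1n_t18 23 18 6 = true := by decide +kernel

def x1n_t19 : T :=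
  (.a (.c (.a (.l 32) (.a (.c (.l 65) (.l 65)) (.c (.l 65) (.l 65)))) (.a (.l 32) (.a (.c (.c (.l
      65) (.a (.l 32) (.l 32))) (.c (.a (.l 32) (.l 32)) (.a (.l 32) (.l 32)))) (.c (.a (.l 64)
      (.l 65)) (.a (.l 64) (.l 65)))))) (.a (.a (.a (.c (.l 0) (.l 66)) (.l 0)) (.l 0)) (.l 0)))

theorem x1n_h19 : chk3 (onCell 0 2684354560 0 1073741824 0 26843546 T1N) x1n_t19 23 36 7 = true := by decide +kernel

end Pool.Agent.Strip051.LC.E1.V3
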