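import Pool.Agent.Strip051.LC.E1.V3.Rw
import Pool.Agent.Strip051.LC.E0.Ch.Cell

/-! # Rests near the full period: certificate Cn2_1 -/

set_option maxRecDepth 100000

namespace Pool.Agent.Strip051.LC.E1.V3

open Pool.Agent.Strip051.PB
open Pool.Agent.Strip051.LC.E0.Ch (onCell Tree)

def x2n_t0 : T :=
  (.c (.a (.b (.c (.a (.b (.c (.l 66) (.l 66)) (.c (.l 34) (.l 34))) (.b (.c (.l 66) (.l 66)) (.c
      (.l 34) (.l 34)))) (.l 66)) (.c (.a (.b (.c (.l 34) (.l 34)) (.c (.l 34) (.l 34))) (.b (.c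
      (.l 34) (.l 34)) (.c (.l 34) (.l 34)))) (.l 34))) (.b (.c (.a (.b (.c (.l 66) (.l 66)) (.c
      (.l 34) (.l 34))) (.b (.c (.l 66) (.l 66)) (.c (.l 34) (.l 34)))) (.l 66)) (.c (.a (.b (.c
      (.l 34) (.l 34)) (.c (.l 34) (.l 34))) (.b (.c (.l 34) (.l 34)) (.c (.l 34) (.l 34)))) (.l
      34)))) (.l 66))

theorem x2n_h0 : chk3 (onCell 0 1073741824 0 429496730 0 67108864 T2N) x2n_t0 8 4 4 = true := by decide +kernel

def x2n_t1 : T :=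
  (.c (.a (.b (.c (.a (.b (.c (.l 34) (.l 34)) (.c (.l 34) (.l 34))) (.b (.c (.l 34) (.l 34)) (.c
      (.l 34) (.l 34)))) (.l 34)) (.c (.a (.b (.c (.l 34) (.l 34)) (.c (.l 34) (.l 34))) (.b (.c
      (.l 34) (.l 34)) (.c (.l 34) (.l 34)))) (.l 34))) (.b (.c (.a (.b (.c (.l 34) (.l 34)) (.c
      (.l 34) (.l 34))) (.b (.c (.l 34) (.l 34)) (.c (.l 34) (.l 34)))) (.l 34)) (.c (.a (.b (.c
      (.l 34) (.l 34)) (.c (.l 34) (.l 34))) (.b (.c (.l 34) (.l 34)) (.c (.l 34) (.l 34)))) (.l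
      34)))) (.l 34))

theorem x2n_h1 : chk3 (onCell 0 1073741824 0 429496730 0 67108864 T2N) x2n_t1 8 5 4 = true := by decide +kernel

def x2n_t2 : T :=
  (.c (.a (.b (.c (.a (.b (.c (.l 66) (.l 66)) (.c (.l 34) (.l 34))) (.b (.c (.l 66) (.l 66)) (.c
      (.l 34) (.l 34)))) (.l 66)) (.c (.a (.b (.c (.l 34) (.l 34)) (.c (.l 34) (.l 34))) (.b (.c
      (.l 34) (.l 34)) (.c (.l 34) (.l 34)))) (.l 34))) (.b (.c (.a (.b (.c (.l 66) (.l 66)) (.c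
      (.l 34) (.l 34))) (.b (.c (.l 66) (.l 66)) (.c (.l 34) (.l 34)))) (.l 66)) (.c (.a (.b (.c
      (.l 34) (.l 34)) (.c (.l 34) (.l 34))) (.b (.c (.l 34) (.l 34)) (.c (.l 34) (.l 34)))) (.l
      34)))) (.l 66))

theorem x2n_h2 : chk3 (onCell 0 1073741824 0 429496730 0 67108864 T2N) x2n_t2 9 4 4 = true := by decide +kernel

def x2n_t3 : T :=
  (.c (.a (.b (.c (.a (.b (.c (.l 34) (.l 34)) (.c (.l 34) (.l 34))) (.b (.c (.l 34) (.l 34)) (.c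
      (.l 34) (.l 34)))) (.l 34)) (.c (.a (.b (.c (.l 34) (.l 34)) (.c (.l 34) (.l 34))) (.b (.c
      (.l 34) (.l 34)) (.c (.l 34) (.l 34)))) (.l 34))) (.b (.c (.a (.b (.c (.l 34) (.l 34)) (.c
      (.l 34) (.l 34))) (.b (.c (.l 34) (.l 34)) (.c (.l 34) (.l 34)))) (.l 34)) (.c (.a (.b (.c
      (.l 34) (.l 34)) (.c (.l 34) (.l 34))) (.b (.c (.l 34) (.l 34)) (.c (.l 34) (.l 34)))) (.l
      34)))) (.l 34))

theorem x2n_h3 : chk3 (onCell 0 1073741824 0 429496730 0 67108864 T2N) x2n_t3 9 5 4 = true := by decide +kernel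

def x2n_t4 : T :=
  (.b (.l 66) (.a (.l 66) (.l 66)))

theorem x2n_h4 : chk3 (onCell 0 1073741824 0 429496730 0 67108864 T2N) x2n_t4 4 2 5 = true := by decide +kernel

def x2n_t5 : T :=
  (.c (.a (.b (.c (.a (.b (.c (.l 34) (.l 34)) (.c (.l 34) (.l 34))) (.b (.c (.l 34) (.l 34)) (.c
      (.l 34) (.l 34)))) (.l 34)) (.c (.a (.b (.c (.l 34) (.l 34)) (.c (.l 34) (.l 34))) (.b (.c
      (.l 34) (.l 34)) (.c (.l 34) (.l 34)))) (.l 34))) (.b (.c (.a (.b (.c (.l 34) (.l 34)) (.c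
      (.l 34) (.l 34))) (.b (.c (.l 34) (.l 34)) (.c (.l 34) (.l 34)))) (.l 34)) (.c (.a (.b (.c
      (.l 34) (.l 34)) (.c (.l 34) (.l 34))) (.b (.c (.l 34) (.l 34)) (.c (.l 34) (.l 34)))) (.l
      34)))) (.l 34))

theorem x2n_h5 : chk3 (onCell 0 1073741824 0 429496730 0 67108864 T2N) x2n_t5 8 6 4 = true := by decide +kernel

def x2n_t6 : T :=
  (.c (.a (.b (.c (.a (.b (.c (.l 34) (.l 34)) (.c (.l 34) (.l 34))) (.b (.c (.l 34) (.l 34)) (.c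
      (.l 34) (.l 34)))) (.l 34)) (.c (.a (.b (.c (.l 34) (.l 34)) (.c (.l 34) (.l 34))) (.b (.c
      (.l 34) (.l 34)) (.c (.l 34) (.l 34)))) (.l 34))) (.b (.c (.a (.b (.c (.l 34) (.l 34)) (.c
      (.l 34) (.l 34))) (.b (.c (.l 34) (.l 34)) (.c (.l 34) (.l 34)))) (.l 34)) (.c (.a (.b (.c
      (.l 34) (.l 34)) (.c (.l 34) (.l 34))) (.b (.c (.l 34) (.l 34)) (.c (.l 34) (.l 34)))) (.l
      34)))) (.l 34))

theorem x2n_h6 : chk3 (onCell 0 1073741824 0 429496730 0 67108864 T2N) x2n_t6 8 7 4 = true := by decide +kernel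

def x2n_t7 : T :=
  (.c (.a (.b (.c (.a (.b (.c (.l 34) (.l 34)) (.c (.l 34) (.l 34))) (.b (.c (.l 34) (.l 34)) (.c
      (.l 34) (.l 34)))) (.l 34)) (.c (.a (.b (.c (.l 34) (.l 34)) (.c (.l 34) (.l 34))) (.b (.c
      (.l 34) (.l 34)) (.c (.l 34) (.l 34)))) (.l 34))) (.b (.c (.a (.b (.c (.l 34) (.l 34)) (.c
      (.l 34) (.l 34))) (.b (.c (.l 34) (.l 34)) (.c (.l 34) (.l 34)))) (.l 34)) (.c (.a (.b (.c
      (.l 34) (.l 34)) (.c (.l 34) (.l 34))) (.b (.c (.l 34) (.l 34)) (.c (.l 34) (.l 34)))) (.l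
      34)))) (.l 34))

theorem x2n_h7 : chk3 (onCell 0 1073741824 0 429496730 0 67108864 T2N) x2n_t7 9 6 4 = true := by decide +kernel

def x2n_t8 : T :=
  (.c (.a (.b (.c (.a (.b (.c (.l 34) (.l 34)) (.c (.l 34) (.l 34))) (.b (.c (.l 34) (.l 34)) (.c
      (.l 34) (.l 34)))) (.l 34)) (.c (.a (.b (.c (.l 34) (.l 34)) (.c (.l 34) (.l 34))) (.b (.c
      (.l 34) (.l 34)) (.c (.l 34) (.l 34)))) (.l 34))) (.b (.c (.a (.b (.c (.l 34) (.l 34)) (.c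
      (.l 34) (.l 34))) (.b (.c (.l 34) (.l 34)) (.c (.l 34) (.l 34)))) (.l 34)) (.c (.a (.b (.c
      (.l 34) (.l 34)) (.c (.l 34) (.l 34))) (.b (.c (.l 34) (.l 34)) (.c (.l 34) (.l 34)))) (.l
      34)))) (.l 34))

theorem x2n_h8 : chk3 (onCell 0 1073741824 0 429496730 0 67108864 T2N) x2n_t8 9 7 4 = true := by decide +kernel

def x2n_t9 : T :=
  (.a (.b (.l 66) (.l 66)) (.b (.l 66) (.l 66)))

theorem x2n_h9 : chk3 (onCell 0 1073741824 0 429496730 0 67108864 T2N) x2n_t9 4 3 5 = true := by decide +kernel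

def x2n_t10 : T :=
  (.c (.a (.b (.c (.a (.b (.c (.l 66) (.l 66)) (.c (.l 34) (.l 34))) (.b (.c (.l 66) (.l 66)) (.c
      (.l 34) (.l 34)))) (.l 66)) (.c (.a (.b (.c (.l 34) (.l 34)) (.c (.l 34) (.l 34))) (.b (.c
      (.l 34) (.l 34)) (.c (.l 34) (.l 34)))) (.l 34))) (.b (.c (.a (.b (.c (.l 66) (.l 66)) (.c
      (.l 34) (.l 66))) (.b (.c (.l 66) (.l 66)) (.c (.l 34) (.l 66)))) (.l 66)) (.c (.a (.b (.c
      (.l 34) (.l 34)) (.c (.l 34) (.l 34))) (.b (.c (.l 34) (.l 34)) (.c (.l 34) (.l 34)))) (.l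
      66)))) (.l 66))

theorem x2n_h10 : chk3 (onCell 0 1073741824 0 429496730 0 67108864 T2N) x2n_t10 10 4 4 = true := by decide +kernel

def x2n_t11 : T :=
  (.c (.a (.b (.c (.a (.b (.c (.l 34) (.l 34)) (.c (.l 34) (.l 34))) (.b (.c (.l 34) (.l 34)) (.c
      (.l 34) (.l 34)))) (.l 34)) (.c (.a (.b (.c (.l 34) (.l 34)) (.c (.l 34) (.l 34))) (.b (.c
      (.l 34) (.l 34)) (.c (.l 34) (.l 34)))) (.l 34))) (.b (.c (.a (.b (.c (.l 34) (.l 34)) (.c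
      (.l 34) (.l 34))) (.b (.c (.l 34) (.l 34)) (.c (.l 34) (.l 34)))) (.l 34)) (.c (.a (.b (.c
      (.l 34) (.l 34)) (.c (.l 34) (.l 34))) (.b (.c (.l 34) (.l 34)) (.c (.l 34) (.l 34)))) (.l
      34)))) (.l 66))

theorem x2n_h11 : chk3 (onCell 0 1073741824 0 429496730 0 67108864 T2N) x2n_t11 10 5 4 = true := by decide +kernel

def x2n_t12 : T :=
  (.c (.a (.b (.c (.a (.b (.c (.l 66) (.l 66)) (.c (.l 34) (.l 66))) (.b (.c (.l 66) (.l 66)) (.c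
      (.l 34) (.l 66)))) (.l 66)) (.c (.a (.b (.c (.l 34) (.l 34)) (.c (.l 34) (.l 34))) (.b (.c
      (.l 34) (.l 34)) (.c (.l 34) (.l 34)))) (.l 66))) (.b (.c (.a (.b (.c (.l 66) (.l 66)) (.c
      (.l 34) (.l 66))) (.b (.c (.l 66) (.l 66)) (.c (.l 34) (.l 66)))) (.l 66)) (.c (.a (.b (.c
      (.l 34) (.l 34)) (.c (.l 34) (.l 34))) (.b (.c (.l 34) (.l 34)) (.c (.l 34) (.l 34)))) (.l
      66)))) (.l 66))

theorem x2n_h12 : chk3 (onCell 0 1073741824 0 429496730 0 67108864 T2N) x2n_t12 11 4 4 = true := by decide +kernel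

end Pool.Agent.Strip051.LC.E1.V3
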