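import Pool.Agent.Strip051.LC.E1.Ch.Sls

/-! # Rests near the full period: the functions of the row between `1.6` and the circle of radius `√3` -/

set_option linter.unusedVariables false

namespace Pool.Agent.Strip051.LC.E1.V3

open Pool.Agent.Strip051.PB
open Pool.Agent.Strip051.LC.E1.Ch

attribute [local irreducible] padd psub pneg pmul psq pinv psqrt psqrtg pabs pps pmax pmin pphi plam
  pcase phf pnat prat pscale pnorm pdc pnc pone ppos pnn Enc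

/-- choice by two tests -/
noncomputable def hsB (c1 c2 : Bool) (X : ℕ) : ℕ :=
  Bool.rec (motive := fun _ => ℕ) (Bool.rec (motive := fun _ => ℕ) X pone c2) pzero c1

theorem hsB_of {P : ℕ → Prop} {X : ℕ} (c1 c2 : Bool) (h1 : P X) (h2 : c2 = true → P pone)
    (h3 : c1 = true → P pzero) : P (hsB c1 c2 X) := by
  cases c1
  · cases c2
    · exact h1
    · exact h2 rfl
  · exact h3 rfl

/-- the slope of the positive part -/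
noncomputable def hsT (A B : ℕ) : ℕ :=
  hsB (pnn (pneg A)) (band (ppos A) (pnn B)) (plam (pps A) (padd (pps A) (pps (pneg B))))

theorem hs_nn (a b : ℝ) : 0 ≤ max a 0 * (max a 0 + max (-b) 0)⁻¹ :=
  mul_nonneg (le_max_right a 0) (inv_nonneg.2 (add_nonneg (le_max_right a 0) (le_max_right (-b) 0)))

theorem hs_le (a b : ℝ) : max a 0 * (max a 0 + max (-b) 0)⁻¹ ≤ 1 := by
  have h1 := le_max_right a 0
  have h2 := le_max_right (-b) 0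
  rw [← div_eq_mul_inv]
  exact div_le_one_of_le₀ (le_add_of_nonneg_right h2) (add_nonneg h1 h2)

theorem enc_hs {E : Pt} {A B : ℕ} {a b : ℝ} (hA : Enc E A a) (hB : Enc E B b) :
    Enc E (hsT A B) (max a 0 * (max a 0 + max (-b) 0)⁻¹) := by
  refine hsB_of (P := fun X => Enc E X (max a 0 * (max a 0 + max (-b) 0)⁻¹)) _ _ ?_
    (fun e2 => ?_) (fun e1 => ?_)
  · have h := enc_lam (enc_pos hA) (enc_add (enc_pos hA) (enc_pos (enc_neg hB)))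
    rwa [max_eq_left (hs_nn a b), min_eq_left (hs_le a b)] at h
  · obtain ⟨t1, t2⟩ := band_true e2
    have h1 := ppos_sound hA t1
    have h2 := pnn_sound hB t2
    have h3 : max a 0 * (max a 0 + max (-b) 0)⁻¹ = 1 := by
      rw [max_eq_left h1.le, max_eq_right (by linarith : -b ≤ 0), add_zero,
        mul_inv_cancel₀ h1.ne']
    rw [h3]
    exact enc_one E
  · have h1 := pnn_sound (enc_neg hA) e1
    have h3 : max a 0 * (max a 0 + max (-b) 0)⁻¹ = 0 := by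
      rw [max_eq_right (by linarith : a ≤ 0), zero_mul]
    rw [h3]
    exact enc_zero E

noncomputable def v3hs : Fn2 := ⟨hsT, _, enc_hs⟩
noncomputable def v3hm_4 : Fn4 := ⟨_, _, fun h1 h2 h3 h4 => (enc_mul h3 h4)⟩
noncomputable def v3hm : Fn4 := ⟨_, _, fun h1 h2 h3 h4 => (v3hs.enc (enc_norm (enc_sub h1 (v3hm_4.enc h1 h2 h3 h4))) (enc_norm (enc_sub h2 (v3hm_4.enc h1 h2 h3 h4))))⟩
noncomputable def v3ht_6 : Fn4 := ⟨_, _, fun h1 h2 h3 h4 => (enc_half (enc_sqrt (enc_pnc _ 3)))⟩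
noncomputable def v3ht : Fn4 := ⟨_, _, fun h1 h2 h3 h4 => (v3hs.enc (enc_norm (enc_sub (enc_mul h3 (enc_norm (enc_mul (v3ht_6.enc h1 h2 h3 h4) h1))) h4)) (enc_norm (enc_sub (enc_mul h3 (enc_norm (enc_mul (v3ht_6.enc h1 h2 h3 h4) h2))) h4)))⟩
noncomputable def v3ty : Fn2 := ⟨_, _, fun h1 h2 => (enc_norm (enc_mul h2 (enc_norm (enc_mul (enc_half (enc_sqrt (enc_pnc _ 3))) h1))))⟩
noncomputable def v3ku_8 : Fn7 := ⟨_, _, fun h1 h2 h3 h4 h5 h6 h7 => (enc_sqrt (enc_pnc _ 3))⟩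
noncomputable def v3ku_10 : Fn7 := ⟨_, _, fun h1 h2 h3 h4 h5 h6 h7 => (enc_scale 109997 100000 (v3ku_8.enc h1 h2 h3 h4 h5 h6 h7))⟩
noncomputable def v3ku_13 : Fn7 := ⟨_, _, fun h1 h2 h3 h4 h5 h6 h7 => (enc_scale 559209 200000 (v3ku_8.enc h1 h2 h3 h4 h5 h6 h7))⟩
noncomputable def v3ku : Fn7 := ⟨_, _, fun h1 h2 h3 h4 h5 h6 h7 => (enc_norm (enc_add (enc_add (enc_add (enc_add (enc_sub (enc_mul h1 (enc_norm (enc_add (u2k.enc h7) (v3ku_10.enc h1 h2 h3 h4 h5 h6 h7)))) (v3ku_10.enc h1 h2 h3 h4 h5 h6 h7)) (enc_mul h2 (enc_norm (enc_sub (enc_neg (v3ku_13.enc h1 h2 h3 h4 h5 h6 h7)) (u2k.enc h7))))) (enc_mul h3 (enc_norm (enc_add (u4k.enc h7) (v3ku_13.enc h1 h2 h3 h4 h5 h6 h7))))) (enc_mul h4 (enc_norm (enc_sub (enc_neg (enc_scale 6303 3125 (v3ku_8.enc h1 h2 h3 h4 h5 h6 h7))) (u4k.enc h7))))) (enc_mul (enc_half (v3ku_8.enc h1 h2 h3 h4 h5 h6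 h7)) (enc_norm (enc_sub (enc_scale 2753 2500 h6) (enc_scale 6894 3125 h5))))))⟩
noncomputable def v3kv_31 : Fn7 := ⟨_, _, fun h1 h2 h3 h4 h5 h6 h7 => (enc_subr 8487 100000 (enc_scale 4 5 (b0f.enc h7)))⟩
noncomputable def v3kv_36 : Fn7 := ⟨_, _, fun h1 h2 h3 h4 h5 h6 h7 => (enc_scale 80 3 (enc_sub (v3kv_31.enc h1 h2 h3 h4 h5 h6 h7) (enc_add (enc_scale 7 8 (b0f.enc h7)) (enc_rat _ 23151 50000))))⟩
noncomputable def v3kv : Fn7 := ⟨_, _, fun h1 h2 h3 h4 h5 h6 h7 => (enc_norm (enc_add (enc_add (enc_add (enc_add (enc_add (u1b.enc h7) (enc_mul h1 (enc_norm (enc_sub (u2b.enc h7) (u1b.enc h7))))) (enc_mul h2 (enc_norm (enc_sub (u3b.enc h7) (u2b.enc h7))))) (enc_mul h3 (enc_norm (enc_sub (u4b.enc h7) (u3b.enc h7))))) (enc_mul h4 (enc_norm (enc_sub (u5b.enc h7) (u4b.enc h7))))) (enc_mul (enc_half (enc_sqrt (enc_pnc _ 3))) (enc_norm (enc_add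 (enc_mul h5 (enc_norm (enc_sub (v3kv_36.enc h1 h2 h3 h4 h5 h6 h7) (enc_sub (enc_rat _ 23151 3125) (enc_nat 2 (b0f.enc h7)))))) (enc_mul h6 (enc_norm (enc_sub (enc_neg (enc_nat 10 (v3kv_31.enc h1 h2 h3 h4 h5 h6 h7))) (v3kv_36.enc h1 h2 h3 h4 h5 h6 h7)))))))))⟩
noncomputable def v3lp_7 : Fn5 := ⟨_, _, fun h1 h2 h3 h4 h5 => (enc_half (enc_sqrt (enc_pnc _ 3)))⟩
noncomputable def v3lp_8 : Fn5 := ⟨_, _, fun h1 h2 h3 h4 h5 => (enc_scale 167 50 h3)⟩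
noncomputable def v3lp_9 : Fn5 := ⟨_, _, fun h1 h2 h3 h4 h5 => (enc_sub h1 (v3lp_8.enc h1 h2 h3 h4 h5))⟩
noncomputable def v3lp_10 : Fn5 := ⟨_, _, fun h1 h2 h3 h4 h5 => (enc_sub h2 (v3lp_8.enc h1 h2 h3 h4 h5))⟩
noncomputable def v3lp_16 : Fn5 := ⟨_, _, fun h1 h2 h3 h4 h5 => (enc_mul (v3lp_7.enc h1 h2 h3 h4 h5) (enc_inv (enc_sub (enc_rat _ 1 2) (enc_scale 167 50 (enc_mul (v3lp_7.enc h1 h2 h3 h4 h5) h5)))))⟩
noncomputable def v3lp_30 : Fn5 := ⟨_, _, fun h1 h2 h3 h4 h5 => (enc_mul h4 (enc_norm (enc_mul (v3lp_7.enc h1 h2 h3 h4 h5) h1)))⟩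
noncomputable def v3lp_32 : Fn5 := ⟨_, _, fun h1 h2 h3 h4 h5 => (enc_mul h4 (enc_norm (enc_mul (v3lp_7.enc h1 h2 h3 h4 h5) h2)))⟩
noncomputable def v3lp_35 : Fn5 := ⟨_, _, fun h1 h2 h3 h4 h5 => (enc_inv (enc_max h4 (enc_rat _ 1 1000)))⟩
noncomputable def v3lp_37 : Fn5 := ⟨_, _, fun h1 h2 h3 h4 h5 => (enc_subr 29 400 (v3lp_30.enc h1 h2 h3 h4 h5))⟩
noncomputable def v3lp_38 : Fn5 := ⟨_, _, fun h1 h2 h3 h4 h5 => (enc_subr 29 400 (v3lp_32.enc h1 h2 h3 h4 h5))⟩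
noncomputable def v3lp_55 : Fn5 := ⟨_, _, fun h1 h2 h3 h4 h5 => (enc_subr 9 100 (v3lp_30.enc h1 h2 h3 h4 h5))⟩
noncomputable def v3lp_56 : Fn5 := ⟨_, _, fun h1 h2 h3 h4 h5 => (enc_subr 9 100 (v3lp_32.enc h1 h2 h3 h4 h5))⟩
noncomputable def v3lp_72 : Fn5 := ⟨_, _, fun h1 h2 h3 h4 h5 => (enc_subr 3 25 (v3lp_30.enc h1 h2 h3 h4 h5))⟩
noncomputable def v3lp_73 : Fn5 := ⟨_, _, fun h1 h2 h3 h4 h5 => (enc_subr 3 25 (v3lp_32.enc h1 h2 h3 h4 h5))⟩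
noncomputable def v3lp : Fn5 := ⟨_, _, fun h1 h2 h3 h4 h5 => (enc_norm (enc_mul (lmf.enc h5) (enc_norm (enc_add (enc_add (enc_add (enc_mul (enc_norm (enc_sub (enc_rat _ 64649 100000) (enc_scale 12583 1000 h5))) (enc_norm (enc_mul (enc_norm (enc_mul (enc_norm (enc_mul (enc_norm (enc_add (enc_pos (v3lp_9.enc h1 h2 h3 h4 h5)) (enc_pos (v3lp_10.enc h1 h2 h3 h4 h5)))) (enc_norm (v3lp_16.enc h1 h2 h3 h4 h5)))) (enc_norm (v3lp_16.enc h1 h2 h3 h4 h5)))) (v3hs.enc (enc_norm (v3lp_9.enc h1 h2 h3 h4 h5)) (enc_norm (v3lp_10.enc h1 h2 h3 h4 h5)))))) (enc_scale 160000 29241 (enc_mul (enc_norm (enc_subr 15187 100000 (enc_neg (enc_scale 718 125 h5)))) (enc_norm (enc_mul (enc_norm (enc_mul (enc_norm (enc_mul (enc_norm (enc_add (enc_pos (v3lp_37.enc h1 h2 h3 h4 h5)) (enc_pos (v3lp_38.enc h1 h2 h3 h4 h5)))) (v3lp_35.enc h1 h2 h3 h4 h5))) (v3hs.enc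 (enc_norm (v3lp_37.enc h1 h2 h3 h4 h5)) (enc_norm (v3lp_38.enc h1 h2 h3 h4 h5))))) (v3lp_7.enc h1 h2 h3 h4 h5)))))) (enc_scale 10000 1681 (enc_mul (enc_norm (enc_subr 1083 50000 (enc_scale 16679 500 h5))) (enc_norm (enc_mul (enc_norm (enc_mul (enc_norm (enc_mul (enc_norm (enc_add (enc_pos (v3lp_55.enc h1 h2 h3 h4 h5)) (enc_pos (v3lp_56.enc h1 h2 h3 h4 h5)))) (v3lp_35.enc h1 h2 h3 h4 h5))) (v3hs.enc (enc_norm (v3lp_55.enc h1 h2 h3 h4 h5)) (enc_norm (v3lp_56.enc h1 h2 h3 h4 h5))))) (v3lp_7.enc h1 h2 h3 h4 h5)))))) (enc_scale 2500 361 (enc_mul (enc_norm (enc_sub (enc_rat _ 3279 6250) (enc_scale 34967 1000 h5))) (enc_norm (enc_mul (enc_norm (enc_mul (enc_norm (enc_mul (enc_norm (enc_add (enc_pos (v3lp_72.enc h1 h2 h3 h4 h5)) (enc_pos (v3lp_73.enc h1 h2 h3 h4 h5)))) (v3lp_35.enc h1 h2 h3 h4 h5))) (v3hs.enc (enc_norm (v3lp_72.enc h1 h2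 h3 h4 h5)) (enc_norm (v3lp_73.enc h1 h2 h3 h4 h5))))) (v3lp_7.enc h1 h2 h3 h4 h5)))))))))⟩
noncomputable def v3lz_7 : Fn5 := ⟨_, _, fun h1 h2 h3 h4 h5 => (enc_half (enc_sqrt (enc_pnc _ 3)))⟩
noncomputable def v3lz_8 : Fn5 := ⟨_, _, fun h1 h2 h3 h4 h5 => (enc_scale 167 50 h3)⟩
noncomputable def v3lz_9 : Fn5 := ⟨_, _, fun h1 h2 h3 h4 h5 => (enc_sub h1 (v3lz_8.enc h1 h2 h3 h4 h5))⟩
noncomputable def v3lz_10 : Fn5 := ⟨_, _, fun h1 h2 h3 h4 h5 => (enc_sub h2 (v3lz_8.enc h1 h2 h3 h4 h5))⟩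
noncomputable def v3lz_16 : Fn5 := ⟨_, _, fun h1 h2 h3 h4 h5 => (enc_mul (v3lz_7.enc h1 h2 h3 h4 h5) (enc_inv (enc_sub (enc_rat _ 1 2) (enc_scale 167 50 (enc_mul (v3lz_7.enc h1 h2 h3 h4 h5) h5)))))⟩
noncomputable def v3lz_30 : Fn5 := ⟨_, _, fun h1 h2 h3 h4 h5 => (enc_mul h4 (enc_norm (enc_mul (v3lz_7.enc h1 h2 h3 h4 h5) h1)))⟩
noncomputable def v3lz_32 : Fn5 := ⟨_, _, fun h1 h2 h3 h4 h5 => (enc_mul h4 (enc_norm (enc_mul (v3lz_7.enc h1 h2 h3 h4 h5) h2)))⟩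
noncomputable def v3lz_35 : Fn5 := ⟨_, _, fun h1 h2 h3 h4 h5 => (enc_inv (enc_max h4 (enc_rat _ 1 1000)))⟩
noncomputable def v3lz_37 : Fn5 := ⟨_, _, fun h1 h2 h3 h4 h5 => (enc_subr 29 400 (v3lz_30.enc h1 h2 h3 h4 h5))⟩
noncomputable def v3lz_38 : Fn5 := ⟨_, _, fun h1 h2 h3 h4 h5 => (enc_subr 29 400 (v3lz_32.enc h1 h2 h3 h4 h5))⟩
noncomputable def v3lz_54 : Fn5 := ⟨_, _, fun h1 h2 h3 h4 h5 => (enc_subr 9 100 (v3lz_30.enc h1 h2 h3 h4 h5))⟩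
noncomputable def v3lz_55 : Fn5 := ⟨_, _, fun h1 h2 h3 h4 h5 => (enc_subr 9 100 (v3lz_32.enc h1 h2 h3 h4 h5))⟩
noncomputable def v3lz_71 : Fn5 := ⟨_, _, fun h1 h2 h3 h4 h5 => (enc_subr 3 25 (v3lz_30.enc h1 h2 h3 h4 h5))⟩
noncomputable def v3lz_72 : Fn5 := ⟨_, _, fun h1 h2 h3 h4 h5 => (enc_subr 3 25 (v3lz_32.enc h1 h2 h3 h4 h5))⟩
noncomputable def v3lz_88 : Fn5 := ⟨_, _, fun h1 h2 h3 h4 h5 => (enc_subr 9 50 (v3lz_30.enc h1 h2 h3 h4 h5))⟩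
noncomputable def v3lz_89 : Fn5 := ⟨_, _, fun h1 h2 h3 h4 h5 => (enc_subr 9 50 (v3lz_32.enc h1 h2 h3 h4 h5))⟩
noncomputable def v3lz : Fn5 := ⟨_, _, fun h1 h2 h3 h4 h5 => (enc_norm (enc_mul (lmf.enc h5) (enc_norm (enc_add (enc_add (enc_add (enc_add (enc_mul (enc_norm (enc_subr 43361 100000 (enc_scale 93 25 h5))) (enc_norm (enc_mul (enc_norm (enc_mul (enc_norm (enc_mul (enc_norm (enc_add (enc_pos (v3lz_9.enc h1 h2 h3 h4 h5)) (enc_pos (v3lz_10.enc h1 h2 h3 h4 h5)))) (enc_norm (v3lz_16.enc h1 h2 h3 h4 h5)))) (enc_norm (v3lz_16.enc h1 h2 h3 h4 h5)))) (v3hs.enc (enc_norm (v3lz_9.enc h1 h2 h3 h4 h5)) (enc_norm (v3lz_10.enc h1 h2 h3 h4 h5)))))) (enc_scale 160000 29241 (enc_mul (enc_norm (enc_sub (enc_rat _ 43849 100000) (enc_scale 6641 200 h5))) (enc_norm (enc_mul (enc_norm (enc_mul (enc_norm (enc_mul (enc_norm (enc_add (enc_pos (v3lz_37.enc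 h1 h2 h3 h4 h5)) (enc_pos (v3lz_38.enc h1 h2 h3 h4 h5)))) (v3lz_35.enc h1 h2 h3 h4 h5))) (v3hs.enc (enc_norm (v3lz_37.enc h1 h2 h3 h4 h5)) (enc_norm (v3lz_38.enc h1 h2 h3 h4 h5))))) (v3lz_7.enc h1 h2 h3 h4 h5)))))) (enc_scale 10000 1681 (enc_mul (enc_norm (enc_subr 5323 10000 (enc_scale 4324 125 h5))) (enc_norm (enc_mul (enc_norm (enc_mul (enc_norm (enc_mul (enc_norm (enc_add (enc_pos (v3lz_54.enc h1 h2 h3 h4 h5)) (enc_pos (v3lz_55.enc h1 h2 h3 h4 h5)))) (v3lz_35.enc h1 h2 h3 h4 h5))) (v3hs.enc (enc_norm (v3lz_54.enc h1 h2 h3 h4 h5)) (enc_norm (v3lz_55.enc h1 h2 h3 h4 h5))))) (v3lz_7.enc h1 h2 h3 h4 h5)))))) (enc_scale 2500 361 (enc_mul (enc_norm (enc_subr 20713 50000 (enc_scale 4487 500 h5))) (enc_norm (enc_mul (enc_norm (enc_mul (enc_norm (enc_mul (enc_norm (enc_add (enc_pos (v3lz_71.enc h1 h2 h3 h4 h5)) (enc_pos (v3lz_72.enc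 h1 h2 h3 h4 h5)))) (v3lz_35.enc h1 h2 h3 h4 h5))) (v3hs.enc (enc_norm (v3lz_71.enc h1 h2 h3 h4 h5)) (enc_norm (v3lz_72.enc h1 h2 h3 h4 h5))))) (v3lz_7.enc h1 h2 h3 h4 h5)))))) (enc_scale 625 64 (enc_mul (enc_norm (enc_sub (enc_rat _ 10927 50000) (enc_scale 24141 1000 h5))) (enc_norm (enc_mul (enc_norm (enc_mul (enc_norm (enc_mul (enc_norm (enc_add (enc_pos (v3lz_88.enc h1 h2 h3 h4 h5)) (enc_pos (v3lz_89.enc h1 h2 h3 h4 h5)))) (v3lz_35.enc h1 h2 h3 h4 h5))) (v3hs.enc (enc_norm (v3lz_88.enc h1 h2 h3 h4 h5)) (enc_norm (v3lz_89.enc h1 h2 h3 h4 h5))))) (v3lz_7.enc h1 h2 h3 h4 h5)))))))))⟩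
noncomputable def v3ks : Fn8 := ⟨_, _, fun h1 h2 h3 h4 h5 h6 h7 h8 => (enc_norm (enc_sub (enc_half h1) (enc_scale 3 4 (enc_add (enc_mul (enc_norm (enc_add (enc_mul h2 h5) (enc_mul h4 h3))) h8) (enc_mul (enc_norm (enc_mul h4 h6)) (enc_norm (enc_mul h7 h1)))))))⟩
noncomputable def v3r1 : Fn2 := ⟨_, _, fun h1 h2 => (enc_norm (enc_add (enc_pnc _ 1) (enc_mul h1 h2)))⟩
noncomputable def v3r2 : Fn3 := ⟨_, _, fun h1 h2 h3 => (enc_norm (enc_add (b0f.enc h1) (enc_mul h2 h3)))⟩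
noncomputable def v3y0 : Fn2 := ⟨_, _, fun h1 h2 => (enc_norm (enc_scale 3 2 (enc_add (dd1.enc (enc_neg h1) h2) (enc_rat _ 1 2))))⟩
noncomputable def v3yh : Fn3 := ⟨_, _, fun h1 h2 h3 => (enc_norm (enc_add (v3y0.enc h1 h3) (enc_scale 5 2 h2)))⟩
noncomputable def v3cq : Fn1 := ⟨_, _, fun h1 => (enc_scale 2 3 (enc_inv (enc_add (enc_pnc _ 1) (enc_sqrt (enc_sub (enc_pnc _ 1) (enc_scale 1 3 (enc_sq h1)))))))⟩
noncomputable def v3vy : Fn1 := ⟨_, _, fun h1 => (enc_norm (enc_mul h1 (v3cq.enc h1)))⟩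
noncomputable def v3v0 : Fn2 := ⟨_, _, fun h1 h2 => (enc_norm (enc_mul (enc_norm (enc_mul h2 h1)) (enc_norm (enc_add (enc_sq (dd1.enc (enc_neg h1) h2)) (enc_rat _ 3 4)))))⟩
noncomputable def v3ee : Fn5 := ⟨_, _, fun h1 h2 h3 h4 h5 => (enc_norm (enc_mul (enc_norm (enc_sub (enc_pnc _ 3) (enc_scale 3 4 (enc_mul h5 (enc_norm (enc_mul h1 h4)))))) (enc_inv (enc_add h2 h3))))⟩
noncomputable def v3xh : Fn4 := ⟨_, _, fun h1 h2 h3 h4 => (enc_norm (enc_add (dd1.enc (enc_neg h1) h4) (enc_mul h2 (dd1.enc h3 h4))))⟩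
noncomputable def v3uh : Fn5 := ⟨_, _, fun h1 h2 h3 h4 h5 => (enc_norm (enc_sub (enc_sub h1 (enc_scale 3 5 h2)) (enc_scale 2 5 (enc_mul (dd1.enc h4 h5) h3))))⟩
noncomputable def vw3 : Fn1 := ⟨_, _, fun h1 => (enc_norm (enc_add (enc_mul (enc_norm (enc_add (enc_half (qo.enc h1)) (prf.enc h1))) (enc_inv (tpf.enc h1))) (dwf.enc h1)))⟩
noncomputable def v3ok_3 : Fn3 := ⟨_, _, fun h1 h2 h3 => (enc_neg h1)⟩
noncomputable def v3ok_6 : Fn3 := ⟨_, _, fun h1 h2 h3 => (enc_subr 1377 2500 (vw3.enc h3))⟩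
noncomputable def v3ok_12 : Fn3 := ⟨_, _, fun h1 h2 h3 => (enc_half h2)⟩
noncomputable def v3ok_28 : Fn3 := ⟨_, _, fun h1 h2 h3 => (enc_scale 5 2 h2)⟩
noncomputable def v3ok : Fn3 := ⟨_, _, fun h1 h2 h3 => (enc_norm (enc_add (enc_add (enc_add (enc_rat _ 121 2500) (enc_mul (enc_norm (enc_add (enc_nat 2 (v3ok_6.enc h1 h2 h3)) (enc_rat _ 628 625))) (v3hs.enc (enc_norm (enc_sub (v3ok_3.enc h1 h2 h3) (v3ok_12.enc h1 h2 h3))) (enc_neg (v3ok_12.enc h1 h2 h3))))) (enc_mul (enc_norm (enc_sub (enc_neg (enc_rat _ 314 625)) (enc_scale 8 3 (v3ok_6.enc h1 h2 h3)))) (v3hs.enc (enc_norm (enc_sub (v3ok_3.enc h1 h2 h3) h2)) (enc_neg h2)))) (enc_mul (enc_norm (enc_scale 2 3 (v3ok_6.enc h1 h2 h3))) (v3hs.enc (enc_norm (enc_sub (v3ok_3.enc h1 h2 h3) (v3ok_28.enc h1 h2 h3))) (enc_neg (v3ok_28.enc h1 h2 h3))))))⟩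
noncomputable def kdk_3 : Fn2 := ⟨_, _, fun h1 h2 => (enc_sqrt (enc_pnc _ 3))⟩
noncomputable def kdk_5 : Fn2 := ⟨_, _, fun h1 h2 => (enc_scale 109997 100000 (kdk_3.enc h1 h2))⟩
noncomputable def kdk_8 : Fn2 := ⟨_, _, fun h1 h2 => (enc_scale 559209 200000 (kdk_3.enc h1 h2))⟩
noncomputable def kdk_38 : Fn2 := ⟨_, _, fun h1 h2 => (enc_mul (enc_half (kdk_3.enc h1 h2)) h1)⟩
noncomputable def kdk : Fn2 := ⟨_, _, fun h1 h2 => (enc_norm (enc_add (enc_add (enc_sub (enc_add (enc_add (enc_add (enc_sub (enc_mul (enc_pos (enc_sub h1 h2)) (enc_norm (enc_add (u2k.enc h2) (kdk_5.enc h1 h2)))) (enc_mul h1 (kdk_5.enc h1 h2))) (enc_mul (enc_pos (enc_sub h1 (enc_scale 8 5 h2))) (enc_norm (enc_sub (enc_neg (kdk_8.enc h1 h2)) (u2k.enc h2))))) (enc_mul (enc_pos (enc_sub h1 (enc_scale 11 5 h2))) (enc_norm (enc_add (u4k.enc h2) (kdk_8.enc h1 h2))))) (enc_mul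 (enc_pos (enc_sub h1 (enc_scale 5 2 h2))) (enc_norm (enc_sub (enc_neg (enc_scale 6303 3125 (kdk_3.enc h1 h2))) (u4k.enc h2))))) (enc_scale 6894 3125 (enc_pos (enc_subr 1 16 (kdk_38.enc h1 h2))))) (enc_scale 2753 2500 (enc_pos (enc_subr 1 10 (kdk_38.enc h1 h2))))) (enc_scale 12847 2500 (enc_pos (enc_subr 1 5 (kdk_38.enc h1 h2))))))⟩
noncomputable def kap : Fn4 := ⟨_, _, fun h1 h2 h3 h4 => (enc_norm (enc_mul (enc_norm (enc_add (enc_pnc _ 1) (kdk.enc (enc_scale 2 3 h1) h4))) (enc_inv (enc_add (enc_pnc _ 2) (enc_half (enc_mul h3 h2))))))⟩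
noncomputable def v3gk : Fn5 := ⟨_, _, fun h1 h2 h3 h4 h5 => (enc_norm (enc_mul (enc_norm (enc_sub (v3ok.enc h2 h3 h5) (enc_mul (kap.enc h1 h2 h4 h5) (dd1.enc h2 h4)))) (enc_inv (enc_sub (enc_pnc _ 1) (enc_mul (dd1.enc h2 h4) (v3vy.enc h1))))))⟩
noncomputable def v3ob_3 : Fn3 := ⟨_, _, fun h1 h2 h3 => (enc_neg h1)⟩
noncomputable def v3ob_6 : Fn3 := ⟨_, _, fun h1 h2 h3 => (enc_half h2)⟩
noncomputable def v3ob_17 : Fn3 := ⟨_, _, fun h1 h2 h3 => (enc_scale 5 2 h2)⟩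
noncomputable def v3ob : Fn3 := ⟨_, _, fun h1 h2 h3 => (enc_norm (enc_sub (enc_add (enc_subr 3097 2500 (enc_scale 3097 1250 (v3hs.enc (enc_norm (enc_sub (v3ob_3.enc h1 h2 h3) (v3ob_6.enc h1 h2 h3))) (enc_neg (v3ob_6.enc h1 h2 h3))))) (enc_scale 3681 5000 (v3hs.enc (enc_norm (enc_sub (v3ob_3.enc h1 h2 h3) h2)) (enc_neg h2)))) (enc_scale 79 100 (v3hs.enc (enc_norm (enc_sub (v3ob_3.enc h1 h2 h3) (v3ob_17.enc h1 h2 h3))) (enc_neg (v3ob_17.enc h1 h2 h3))))))⟩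
noncomputable def kdb_34 : Fn2 := ⟨_, _, fun h1 h2 => (enc_mul (enc_half (enc_sqrt (enc_pnc _ 3))) h1)⟩
noncomputable def kdb_39 : Fn2 := ⟨_, _, fun h1 h2 => (enc_subr 8487 100000 (enc_scale 4 5 (b0f.enc h2)))⟩
noncomputable def kdb_44 : Fn2 := ⟨_, _, fun h1 h2 => (enc_scale 80 3 (enc_sub (kdb_39.enc h1 h2) (enc_add (enc_scale 7 8 (b0f.enc h2)) (enc_rat _ 23151 50000))))⟩
noncomputable def kdb : Fn2 := ⟨_, _, fun h1 h2 => (enc_norm (enc_add (enc_add (enc_add (enc_add (enc_add (enc_add (enc_add (enc_mul h1 (u1b.enc h2)) (enc_mul (enc_pos (enc_sub h1 h2)) (enc_norm (enc_sub (u2b.enc h2) (u1b.enc h2))))) (enc_mul (enc_pos (enc_sub h1 (enc_scale 8 5 h2))) (enc_norm (enc_sub (u3b.enc h2) (u2b.enc h2))))) (enc_mul (enc_pos (enc_sub h1 (enc_scale 11 5 h2))) (enc_norm (enc_sub (u4b.enc h2) (u3b.enc h2))))) (enc_mul (enc_pos (enc_sub h1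 (enc_scale 5 2 h2))) (enc_norm (enc_sub (u5b.enc h2) (u4b.enc h2))))) (enc_mul (enc_pos (enc_subr 1 16 (kdb_34.enc h1 h2))) (enc_norm (enc_sub (kdb_44.enc h1 h2) (enc_sub (enc_rat _ 23151 3125) (enc_nat 2 (b0f.enc h2))))))) (enc_mul (enc_pos (enc_subr 1 10 (kdb_34.enc h1 h2))) (enc_norm (enc_sub (enc_neg (enc_nat 10 (kdb_39.enc h1 h2))) (kdb_44.enc h1 h2))))) (enc_mul (enc_pos (enc_subr 1 5 (kdb_34.enc h1 h2))) (enc_norm (enc_subr 8487 10000 (enc_nat 8 (b0f.enc h2)))))))⟩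
noncomputable def bap : Fn4 := ⟨_, _, fun h1 h2 h3 h4 => (enc_norm (enc_mul (enc_norm (enc_add (b0f.enc h4) (kdb.enc (enc_scale 2 3 h1) h4))) (enc_inv (enc_add (enc_pnc _ 2) (enc_half (enc_mul h3 h2))))))⟩
noncomputable def v3gb : Fn5 := ⟨_, _, fun h1 h2 h3 h4 h5 => (enc_norm (enc_mul (enc_norm (enc_sub (v3ob.enc h2 h3 h5) (enc_mul (bap.enc h1 h2 h4 h5) (dd1.enc h2 h4)))) (enc_inv (enc_sub (enc_pnc _ 1) (enc_mul (dd1.enc h2 h4) (v3vy.enc h1))))))⟩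
noncomputable def v3p2 : Fn4 := ⟨_, _, fun h1 h2 h3 h4 => (enc_norm (enc_sub (enc_mul h1 (enc_norm (enc_mul h2 (v3cq.enc h3)))) (enc_mul h4 (v3vy.enc h3))))⟩
noncomputable def v3p1 : Fn8 := ⟨_, _, fun h1 h2 h3 h4 h5 h6 h7 h8 => (enc_norm (enc_add (enc_mul (enc_norm (enc_add (enc_mul (enc_norm (enc_scale 2 3 (enc_mul h1 h2))) h3) (enc_half (enc_mul (enc_norm (enc_mul h6 (enc_norm (enc_mul h4 h1)))) h7)))) (enc_inv (enc_add (enc_pnc _ 2) (enc_half (enc_mul h6 h5))))) (enc_mul h7 h8)))⟩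
noncomputable def v3kd : Fn3 := ⟨_, _, fun h1 h2 h3 => (enc_norm (enc_add h1 (enc_mul h2 h3)))⟩
noncomputable def v3gd : Fn6 := ⟨_, _, fun h1 h2 h3 h4 h5 h6 => (enc_norm (enc_add (enc_sub (enc_sub (enc_mul h1 h3) (enc_mul h2 h4)) h5) h6))⟩
noncomputable def v3bsf : Fn5 := ⟨_, _, fun h1 h2 h3 h4 h5 => (enc_norm (enc_half (enc_sub (enc_sub (enc_add (enc_mul h5 (enc_norm (enc_add (xi1.enc h2 h4) (xi1.enc h3 h4)))) (enc_scale 3 4 (enc_add h2 h3))) (xi1.enc h1 h4)) (enc_mul h1 h5))))⟩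
noncomputable def v3bsn : Fn7 := ⟨_, _, fun h1 h2 h3 h4 h5 h6 h7 => (enc_norm (enc_sub (enc_mul (n1f.enc h6) (v3bsf.enc h1 h2 h3 h5 h7)) (enc_half (enc_mul (enc_norm (enc_mul (mu.enc h6) (lmf.enc h6))) (enc_norm (enc_mul h4 (enc_norm (enc_mul (qo.enc h6) (enc_inv (enc_nat 2 (eh.enc h6)))))))))))⟩
noncomputable def v3y1 : Fn3 := ⟨_, _, fun h1 h2 h3 => (enc_norm (enc_sub h1 (xi1.enc h2 h3)))⟩
noncomputable def v3l3_6 : Fn4 := ⟨_, _, fun h1 h2 h3 h4 => (enc_half (enc_sqrt (enc_pnc _ 3)))⟩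
noncomputable def v3l3_24 : Fn4 := ⟨_, _, fun h1 h2 h3 h4 => (enc_mul h3 (enc_norm (enc_mul (v3l3_6.enc h1 h2 h3 h4) h1)))⟩
noncomputable def v3l3_27 : Fn4 := ⟨_, _, fun h1 h2 h3 h4 => (enc_inv (enc_max h3 (enc_rat _ 1 1000)))⟩
noncomputable def v3l3 : Fn4 := ⟨_, _, fun h1 h2 h3 h4 => (enc_norm (enc_mul (lmf.enc h4) (enc_norm (enc_add (enc_add (enc_add (enc_add (enc_mul (enc_norm (enc_subr 43361 100000 (enc_scale 93 25 h4))) (enc_sq (enc_norm (enc_mul (enc_pos (enc_sub h1 (enc_scale 167 50 h2))) (enc_norm (enc_mul (v3l3_6.enc h1 h2 h3 h4) (enc_inv (enc_sub (enc_rat _ 1 2) (enc_scale 167 50 (enc_mul (v3l3_6.enc h1 h2 h3 h4) h4)))))))))) (enc_mul (enc_norm (enc_sub (enc_rat _ 43849 100000) (enc_scale 6641 200 h4))) (enc_scale 160000 29241 (enc_sq (enc_norm (enc_mul (enc_pos (enc_subr 29 400 (v3l3_24.enc h1 h2 h3 h4))) (v3l3_27.enc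 h1 h2 h3 h4))))))) (enc_mul (enc_norm (enc_subr 5323 10000 (enc_scale 4324 125 h4))) (enc_scale 10000 1681 (enc_sq (enc_norm (enc_mul (enc_pos (enc_subr 9 100 (v3l3_24.enc h1 h2 h3 h4))) (v3l3_27.enc h1 h2 h3 h4))))))) (enc_mul (enc_norm (enc_subr 20713 50000 (enc_scale 4487 500 h4))) (enc_scale 2500 361 (enc_sq (enc_norm (enc_mul (enc_pos (enc_subr 3 25 (v3l3_24.enc h1 h2 h3 h4))) (v3l3_27.enc h1 h2 h3 h4))))))) (enc_mul (enc_norm (enc_sub (enc_rat _ 10927 50000) (enc_scale 24141 1000 h4))) (enc_scale 625 64 (enc_sq (enc_norm (enc_mul (enc_pos (enc_subr 9 50 (v3l3_24.enc h1 h2 h3 h4))) (v3l3_27.enc h1 h2 h3 h4))))))))))⟩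
noncomputable def v3q33_5 : Fn5 := ⟨_, _, fun h1 h2 h3 h4 h5 => (enc_scale 2 3 h1)⟩
noncomputable def v3q33 : Fn5 := ⟨_, _, fun h1 h2 h3 h4 h5 => (enc_norm (enc_case (enc_sub (v3q33_5.enc h1 h2 h3 h4 h5) (enc_scale 167 50 h3)) (enc_pnc _ 0) (enc_mul (v3l3.enc (v3q33_5.enc h1 h2 h3 h4 h5) h3 h4 h5) (enc_inv (v3y1.enc h1 h2 h4)))))⟩
noncomputable def v3la : Fn4 := ⟨_, _, fun h1 h2 h3 h4 => (enc_norm (enc_mul (enc_norm (enc_mul h1 (enc_inv (enc_max h2 (enc_rat _ 1 2))))) (enc_norm (enc_sub (enc_scale 2 3 h3) (enc_scale 5 2 h4)))))⟩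
noncomputable def v3hh_5 : Fn3 := ⟨_, _, fun h1 h2 h3 => (enc_mul (dd1.enc h2 h3) (v3vy.enc h1))⟩
noncomputable def v3hh : Fn3 := ⟨_, _, fun h1 h2 h3 => (enc_norm (enc_mul (enc_norm (v3hh_5.enc h1 h2 h3)) (enc_inv (enc_sub (enc_pnc _ 1) (v3hh_5.enc h1 h2 h3)))))⟩
noncomputable def v3v6 : Fn6 := ⟨_, _, fun h1 h2 h3 h4 h5 h6 => (enc_norm (enc_mul (enc_norm (enc_mul (lmf.enc h6) (enc_norm (enc_add (enc_scale 2028 125 h6) (enc_rat _ 611 6250))))) (enc_norm (enc_mul (enc_norm (enc_mul h1 (enc_norm (enc_mul h2 (v3cq.enc h3))))) (enc_norm (enc_add (v3hh.enc h3 h4 h5) (enc_rat _ 3 5)))))))⟩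
noncomputable def v3lb : Fn6 := ⟨_, _, fun h1 h2 h3 h4 h5 h6 => (enc_norm (enc_scale 5 2 (enc_add (enc_mul h1 (enc_norm (enc_sub h2 (enc_mul h3 (enc_norm (enc_mul h4 h5)))))) (enc_mul h3 h6))))⟩
noncomputable def v3fa1 : Fn1 := ⟨_, _, fun h1 => (enc_half h1)⟩
noncomputable def v3fa2 : Fn1 := ⟨_, _, fun h1 => (enc_neg (enc_half h1))⟩
noncomputable def v3fb1 : Fn2 := ⟨_, _, fun h1 h2 => (enc_norm (enc_neg (enc_half (enc_sub h1 h2))))⟩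
noncomputable def v3fb2 : Fn2 := ⟨_, _, fun h1 h2 => (enc_norm (enc_half (enc_sub h1 h2)))⟩
noncomputable def v3na1 : Fn4 := ⟨_, _, fun h1 h2 h3 h4 => (enc_norm (enc_neg (enc_half (enc_mul (mu.enc h3) (enc_norm (enc_mul (enc_norm (enc_sub (enc_sub (enc_pnc _ 2) h3) (enc_mul h2 h1))) h4))))))⟩
noncomputable def v3na2 : Fn4 := ⟨_, _, fun h1 h2 h3 h4 => (enc_norm (enc_half (enc_mul (mu.enc h3) (enc_norm (enc_mul (enc_norm (enc_sub (enc_sub (enc_pnc _ 2) h3) (enc_mul h2 h1))) h4)))))⟩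
noncomputable def v3nb1 : Fn7 := ⟨_, _, fun h1 h2 h3 h4 h5 h6 h7 => (enc_norm (enc_half (enc_mul (mu.enc h4) (enc_norm (enc_add (enc_sub (enc_neg (enc_mul h3 h5)) (enc_mul (enc_norm (enc_add (enc_pnc _ 1) (enc_mul h3 h1))) h6)) (enc_mul (enc_norm (enc_sub (enc_sub (enc_pnc _ 2) h4) (enc_mul h3 h2))) (enc_norm (enc_sub h6 h7))))))))⟩
noncomputable def v3nb2 : Fn7 := ⟨_, _, fun h1 h2 h3 h4 h5 h6 h7 => (enc_norm (enc_half (enc_mul (mu.enc h4) (enc_norm (enc_sub (enc_sub (enc_neg (enc_mul h3 h5)) (enc_mul (enc_norm (enc_add (enc_pnc _ 1) (enc_mul h3 h1))) h6)) (enc_mul (enc_norm (enc_sub (enc_sub (enc_pnc _ 2) h4) (enc_mul h3 h2))) (enc_norm (enc_sub h6 h7))))))))⟩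
noncomputable def v3et_8 : Fn5 := ⟨_, _, fun h1 h2 h3 h4 h5 => (enc_neg h1)⟩
noncomputable def v3et : Fn5 := ⟨_, _, fun h1 h2 h3 h4 h5 => (enc_norm (enc_add (enc_scale 1 4 (enc_mul (enc_norm (enc_mul (mu.enc h5) (lmf.enc h5))) (enc_norm (enc_add (enc_sq (dd1.enc (v3et_8.enc h1 h2 h3 h4 h5) h4)) (enc_rat _ 3 4))))) (enc_half (enc_mul (enc_norm (enc_mul (mu.enc h5) (enc_norm (enc_add (enc_mul (enc_norm (enc_add (enc_pnc _ 1) (enc_mul h4 h2))) (l1m.enc (v3et_8.enc h1 h2 h3 h4 h5) h3 h4 h5)) (enc_mul (enc_norm (enc_sub (enc_pnc _ 1) (enc_mul h4 h1))) (l1p.enc h2 h3 h4 h5)))))) (enc_sq (enc_inv (enc_max h1 (enc_pnc _ 1))))))))⟩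
noncomputable def v3sg : Fn2 := ⟨_, _, fun h1 h2 => (enc_norm (enc_mul (enc_scale 5 2 h1) (enc_inv h2)))⟩
noncomputable def v3nfn : Fn1 := ⟨_, _, fun h1 => (enc_half (bef.enc h1))⟩

end Pool.Agent.Strip051.LC.E1.V3
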