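import Pool.Agent.Strip051.LC.E1.V3.Vs

/-! # Rests near the full period: the row next to the circle of radius `√3`, geometry -/

set_option linter.unusedVariables false
set_option linter.unusedSimpArgs false

namespace Pool.Agent.Strip051.LC.E1.V3

open Pool.Agent.Strip051.PB
open Pool.Agent.Strip051.LC.E1.Ch

/-! ### The unit circle -/

theorem cc1_xi {r m z : ℝ} (H : Hc r m z) : E0.G.cc1 z r = 1 / 2 + r * E0.G.xi1 z r := by
  have h1 := abs_le.1 H.a
  have h2 := cc1_ge H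
  have h3 : E0.G.cc1 z r ^ 2 = 1 - 3 / 4 * (1 + r * z) ^ 2 := Real.sq_sqrt (by nlinarith)
  have h4 : 1 / 2 + E0.G.cc1 z r ≠ 0 := by linarith
  have h5 : E0.G.xi1 z r * (1 / 2 + E0.G.cc1 z r) = -(3 / 4 * z * (2 + r * z)) := by
    unfold E0.G.xi1
    field_simp
  have : (E0.G.cc1 z r - (1 / 2 + r * E0.G.xi1 z r)) * (1 / 2 + E0.G.cc1 z r) = 0 := by
    linear_combination h3 - r * h5
  rcases mul_eq_zero.1 this with h | h
  · linarith
  · exact absurd h h4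

theorem D1_eq {r m z : ℝ} (H : Hc r m z) : D1 z r = 3 / 2 + r * z * (D1 z r ^ 2 + 3 / 4) := by
  have h1 := cc1_xi H
  have h2 := cc1_ge H
  have h3 : D1 z r * (1 / 2 + E0.G.cc1 z r) = 3 / 4 * (2 + r * z) := by
    unfold D1
    exact div_mul_cancel₀ _ (by linarith)
  rw [h1, xi1_D] at h3
  linear_combination h3

/-- The unit circle is decreasing. -/
theorem xi1_mono {r m m' z z' : ℝ} (H : Hc r m z) (H' : Hc r m' z') (h : z ≤ z') :
    E0.G.xi1 z' r ≤ E0.G.xi1 z r := by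
  have h1 := cc1_xi H
  have h2 := cc1_xi H'
  have h3 : E0.G.cc1 z' r ≤ E0.G.cc1 z r := by
    unfold E0.G.cc1
    refine Real.sqrt_le_sqrt ?_
    have k1 := abs_le.1 H.a
    have k2 : r * z ≤ r * z' := mul_le_mul_of_nonneg_left h H.r0.le
    nlinarith
  rw [h1, h2] at h3
  exact le_of_mul_le_mul_left (by linarith : r * E0.G.xi1 z' r ≤ r * E0.G.xi1 z r) H.r0

/-! ### The base -/

/-- The base of a shape: `n` is the length, `D` the slope of the side bottom-middle. -/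
structure Gb (r n D : ℝ) : Prop where
  r0 : 0 < r
  n0 : 0 < n
  s : r * n ≤ 1 / 16
  e : D = 3 / 2 - r * n * (D ^ 2 + 3 / 4)
  lo : 21 / 16 ≤ D
  up : D ≤ 3 / 2

theorem gb_of {r m n : ℝ} (H : Hc r m (-n)) (n0 : 0 < n) : Gb r n (D1 (-n) r) := by
  have h1 := D1_eq H
  have h2 := abs_le.1 H.a
  have h3 : 0 < r * n := mul_pos H.r0 n0
  have h4 := D1_b H
  have hs : r * n ≤ 1 / 16 := by linarith
  have up : D1 (-n) r ≤ 3 / 2 := by
    have : 0 ≤ r * n * (D1 (-n) r ^ 2 + 3 / 4) := by positivity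
    linarith
  refine ⟨H.r0, n0, hs, by linarith, ?_, up⟩
  have h5 : D1 (-n) r ^ 2 + 3 / 4 ≤ 3 := by nlinarith
  have h6 : r * n * (D1 (-n) r ^ 2 + 3 / 4) ≤ 1 / 16 * 3 := by
    have : 0 ≤ D1 (-n) r ^ 2 + 3 / 4 := by positivity
    exact mul_le_mul hs h5 this (by norm_num)
  linarith

section

variable {r n D : ℝ} (G : Gb r n D)

include G

theorem gb_cc1 : E0.G.cc1 (n * (D - 1 / 2)) r = 1 / 2 - r * n * (D / 2 + 3 / 4) := by
  have h1 := G.e
  have h2 := G.s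
  have h3 := G.up
  have h4 := G.lo
  have h5 : 0 < r * n := mul_pos G.r0 G.n0
  have e : 1 - 3 / 4 * (1 + r * (n * (D - 1 / 2))) ^ 2 = (1 / 2 - r * n * (D / 2 + 3 / 4)) ^ 2 := by
    linear_combination (-(r * n)) * h1
  unfold E0.G.cc1
  rw [e]
  exact Real.sqrt_sq (by nlinarith)

theorem gb_z0 : 0 ≤ n * (D - 1 / 2) ∧ n * (D - 1 / 2) ≤ n := by
  have := G.lo
  have := G.up
  have := G.n0
  constructor <;> nlinarith

theorem gb_xi1 {m : ℝ} (H : Hc r m (n * (D - 1 / 2))) :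
    E0.G.xi1 (n * (D - 1 / 2)) r = -(n * (D / 2 + 3 / 4)) := by
  have h1 := cc1_xi H
  rw [gb_cc1 G] at h1
  have h2 : r * E0.G.xi1 (n * (D - 1 / 2)) r = r * -(n * (D / 2 + 3 / 4)) := by linarith
  exact mul_left_cancel₀ G.r0.ne' h2

theorem gb_sg1 {m : ℝ} (H : Hc r m (n * (D - 1 / 2))) :
    E0.G.sg1 (n * (D - 1 / 2)) r = n * (D + 1 / 2) := by
  unfold E0.G.sg1
  rw [gb_xi1 G H]
  ring

/-- `y0 ^ 2` -/
theorem gb_y0 : r * (n * (3 / 2 * (D + 1 / 2))) ^ 2 =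
    3 * (n * (r * n * (D ^ 2 + 3 / 4))) - 3 / 4 * r * (n * (r * n * (D ^ 2 + 3 / 4))) ^ 2 := by
  have h1 := G.e
  have e : r * n * (D ^ 2 + 3 / 4) = 3 / 2 - D := by linarith
  have e2 : 3 / 4 * r * (n * (r * n * (D ^ 2 + 3 / 4))) ^ 2 =
      3 / 4 * r * n ^ 2 * (3 / 2 - D) ^ 2 := by
    rw [e]
    ring
  rw [e2]
  ring

/-- The denominator at the base. -/
theorem gb_c : 1 + ((1 / 2 + r * (n * D)) / 2 + 3 / 4 * (1 + r * -n)) =
    2 + r * -(n * (r * n * (D ^ 2 + 3 / 4))) / 2 := by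
  have h1 := G.e
  linear_combination (r * n / 2) * h1

theorem gb_c' : 1 + ((1 / 2 - r * n * (D / 2 + 3 / 4)) / 2 + 3 / 4 * (1 + r * (n * (D - 1 / 2)))) =
    2 + r * -(n * (r * n * (D ^ 2 + 3 / 4))) / 2 := by
  have h1 := G.e
  linear_combination (r * n / 2) * h1

end

/-! ### The shape -/

/-- A shape: `z` is the height of the side middle-top, `y` the position of the circle of radius
`√3`. -/
structure Gs (r n D z y : ℝ) : Prop extends Gb r n D where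
  z0 : 0 ≤ z
  v0 : 0 < n - z
  y0 : 0 < y
  hy : r * y ^ 2 = 3 * (n - z) - 3 / 4 * r * (n - z) ^ 2
  zz : z ≤ n * (D - 1 / 2)
  yl : n * (3 / 2 * (D + 1 / 2)) ≤ y
  yu : y ≤ 251 / 50 * n

theorem x3v_sq {r t : ℝ} (hr : 0 < r) (ht : t < 0) (h : -(r * t) ≤ 1 / 16) :
    0 < G.x3v t r ∧ r * G.x3v t r ^ 2 = 3 * -t - 3 / 4 * r * t ^ 2 := by
  have h1 : 0 < -(3 * t / r) - 3 / 4 * t ^ 2 := by
    have : -(3 * t / r) - 3 / 4 * t ^ 2 = -t * (3 - 3 / 4 * -(r * t)) / r := by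
      field_simp
      ring
    rw [this]
    have h2 : 0 < -t := by linarith
    have h3 : 0 < 3 - 3 / 4 * -(r * t) := by linarith
    positivity
  constructor
  · exact Real.sqrt_pos.2 h1
  · unfold G.x3v
    rw [Real.sq_sqrt h1.le]
    field_simp

theorem gs_of {r m w z : ℝ} (D : Dom .npn r m w z) (ht : w + z < 0)
    (h1 : G.xv6 (w + z) r ≤ E0.G.xi1 w r - E0.G.xi1 z r)
    (h2 : E0.G.xi1 w r - E0.G.xi1 z r ≤ G.x3v (w + z) r) :
    Gs r (-w) (D1 w r) z (G.x3v (w + z) r) := by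
  obtain ⟨Hw, Hz, Ht⟩ := hc_of D
  have hr := D.r0
  have n0 : 0 < -w := D.l
  have hs : r * -w ≤ 1 / 16 := D.s
  obtain ⟨hw, hz, hwz⟩ : w ≤ 0 ∧ 0 ≤ z ∧ w + z ≤ 0 := D.ok
  have B : Gb r (-w) (D1 w r) := by
    have := gb_of (n := -w) (by rw [neg_neg]; exact Hw) n0
    rwa [neg_neg] at this
  have hz0 := gb_z0 B
  have Hz0 : Hc r m (-w * (D1 w r - 1 / 2)) := hc_one D (by
    show |_| ≤ -w
    rw [abs_of_nonneg hz0.1]
    exact hz0.2)
  have hrt : -(r * (w + z)) ≤ 1 / 16 := by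
    have : 0 ≤ r * z := mul_nonneg hr.le hz
    linarith
  obtain ⟨y0, hy⟩ := x3v_sq hr ht hrt
  obtain ⟨y, ey⟩ : ∃ y, y = G.x3v (w + z) r := ⟨_, rfl⟩
  rw [← ey] at y0 hy h2
  have hy' : r * y ^ 2 = 3 * (-w - z) - 3 / 4 * r * (-w - z) ^ 2 := by rw [hy]; ring
  have eb := gb_y0 B
  have e0 := B.e
  have hup := B.up
  have hlo := B.lo
  obtain ⟨D', eD⟩ : ∃ D', D' = D1 w r := ⟨_, rfl⟩
  have xw : E0.G.xi1 w r = -w * D' := by rw [xi1_D, eD]; ring
  have x0 := gb_xi1 B Hz0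
  rw [← eD] at B Hz0 hz0 eb e0 hup hlo x0 ⊢
  obtain ⟨Y, eY⟩ : ∃ Y, Y = -w * (3 / 2 * (D' + 1 / 2)) := ⟨_, rfl⟩
  have Y0 : 0 < Y := by rw [eY]; nlinarith
  rw [← eY] at eb
  obtain ⟨v0, ev0⟩ : ∃ v0, v0 = -w * (r * -w * (D' ^ 2 + 3 / 4)) := ⟨_, rfl⟩
  have ev0' : v0 = -w - -w * (D' - 1 / 2) := by rw [ev0]; linear_combination (-w) * e0
  rw [← ev0] at eb
  have hv0 : r * v0 ≤ 1 / 16 := by
    have : r * v0 = r * -w * (3 / 2 - D') := by rw [ev0']; ring
    rw [this]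
    nlinarith [mul_pos hr n0]
  -- the height
  have zz : z ≤ -w * (D' - 1 / 2) := by
    by_contra hc
    push Not at hc
    have m1 := xi1_mono Hz0 Hz hc.le
    have k1 : Y ≤ y := by
      rw [eY]
      rw [x0] at m1
      rw [xw] at h2
      linarith
    have k2 : -w - z < v0 := by linarith
    have k3 : 0 < 3 - 3 / 4 * r * (v0 + (-w - z)) := by
      have : 3 / 4 * r * (v0 + (-w - z)) = 3 / 4 * (r * v0) + 3 / 4 * -(r * (w + z)) := by ring
      linarith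
    have k4 : r * (Y ^ 2 - y ^ 2) = (v0 - (-w - z)) * (3 - 3 / 4 * r * (v0 + (-w - z))) := by
      linear_combination eb - hy'
    have k5 : 0 < r * (Y ^ 2 - y ^ 2) := by rw [k4]; exact mul_pos (by linarith) k3
    have k6 : 0 < Y ^ 2 - y ^ 2 := (mul_pos_iff_of_pos_left hr).1 k5
    have := pow_le_pow_left₀ Y0.le k1 2
    linarith
  have yl : Y ≤ y := by
    by_contra hc
    push Not at hc
    have k2 : v0 ≤ -w - z := by linarith
    have k3 : 0 < 3 - 3 / 4 * r * (v0 + (-w - z)) := by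
      have : 3 / 4 * r * (v0 + (-w - z)) = 3 / 4 * (r * v0) + 3 / 4 * -(r * (w + z)) := by ring
      linarith
    have k4 : r * (Y ^ 2 - y ^ 2) = (v0 - (-w - z)) * (3 - 3 / 4 * r * (v0 + (-w - z))) := by
      linear_combination eb - hy'
    have k5 : r * (Y ^ 2 - y ^ 2) ≤ 0 := by
      rw [k4]; exact mul_nonpos_of_nonpos_of_nonneg (by linarith) k3.le
    have k6 : 0 < Y ^ 2 - y ^ 2 := by
      have := pow_lt_pow_left₀ hc y0.le two_ne_zero
      linarith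
    have := mul_pos hr k6
    linarith
  have yu : y ≤ 251 / 50 * -w := by
    have hb := D1_b Hz
    have hx : 0 ≤ E0.G.xi1 (w + z) r := by
      rw [xi1_D]
      have := (D1_b Ht).1
      nlinarith
    have k1 : 3 / 5 * y ≤ -w * D' + z * D1 z r := by
      unfold G.xv6 at h1
      rw [← ey, xw, xi1_D z] at h1
      linarith
    have k2 : D1 z r ≤ 3 / 2 + r * z * (61 / 16) := by
      have := D1_eq Hz
      have h5 : D1 z r ^ 2 + 3 / 4 ≤ 61 / 16 := by nlinarith [hb.1, hb.2]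
      have h6 : 0 ≤ r * z := mul_nonneg hr.le hz
      nlinarith
    have k3 : 87 / 32 * -w ≤ y := by
      have : 87 / 32 * -w ≤ Y := by rw [eY]; nlinarith
      linarith
    have k4 : r * (87 / 32 * -w) ^ 2 ≤ 3 * (-w - z) := by
      have a1 : (87 / 32 * -w) ^ 2 ≤ y ^ 2 := by
        apply pow_le_pow_left₀ (by positivity) k3
      have a2 := mul_le_mul_of_nonneg_left a1 hr.le
      have a3 : 0 ≤ 3 / 4 * r * (-w - z) ^ 2 := by positivity
      linarith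
    have k5 : z * D1 z r ≤ z * (3 / 2 + r * z * (61 / 16)) := mul_le_mul_of_nonneg_left k2 hz
    have k9 : z * (3 / 2 + r * z * (61 / 16)) = 3 / 2 * z + 61 / 16 * (r * z * z) := by ring
    have k10 : r * (87 / 32 * -w) ^ 2 = 7569 / 1024 * (r * -w * -w) := by ring
    have k11 : -w * D' ≤ -w * (3 / 2) := mul_le_mul_of_nonneg_left hup n0.le
    have k6 : r * z * z ≤ r * -w * -w := by
      have a1 : z * z ≤ -w * -w := mul_self_le_mul_self hz (by linarith)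
      nlinarith
    have k7 : r * -w * -w ≤ 1 / 16 * -w := mul_le_mul_of_nonneg_right hs n0.le
    have k8 : 0 ≤ r * -w * -w := by positivity
    rw [k9] at k5
    rw [k10] at k4
    linarith
  refine ⟨B, hz, by linarith, ?_, ?_, zz, ?_, ?_⟩
  · rw [← ey]; exact y0
  · rw [← ey]; exact hy'
  · rw [← ey, ← eY]; exact yl
  · rw [← ey]; exact yu

end Pool.Agent.Strip051.LC.E1.V3
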