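import Pool.Agent.Strip051.LC.E1.V3.Rw

/-! # Rests near the full period: soundness of the leaves of the row next to the circle of radius
    `√3` -/

set_option linter.unusedVariables false

namespace Pool.Agent.Strip051.LC.E1.V3

open Pool.Agent.Strip051.PB
open Pool.Agent.Strip051.LC.E1.Ch

attribute [local irreducible] padd psub pneg pmul psq pinv psqrt psqrtg pabs pps pmax pmin pphi
    plam
  pcase phf pnat prat pscale pnorm pdc pnc pone ppos pnn Enc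

/-- Six numbers. -/
structure H6 where
  h1 : ℝ
  h2 : ℝ
  h3 : ℝ
  h4 : ℝ
  h5 : ℝ
  h6 : ℝ

/-- The place `j` is replaced. -/
noncomputable def H6.set (a : H6) (j : ℕ) (x : ℝ) : H6 :=
  ⟨if j = 1 then x else a.h1, if j = 2 then x else a.h2, if j = 3 then x else a.h3, if j = 4 then
      x else a.h4, if j = 5 then x else a.h5, if j = 6 then x else a.h6⟩

/-- The values of a leaf. -/
structure Vl where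
  n : ℝ
  p : ℝ
  m : ℝ
  r : ℝ
  x : ℝ
  y0h : ℝ
  yh : ℝ
  y : ℝ
  y0 : ℝ
  q : ℝ
  q0 : ℝ
  vy : ℝ
  vh : ℝ
  v0h : ℝ
  v : ℝ
  t : ℝ
  zh : ℝ
  z : ℝ
  z0 : ℝ
  t0 : ℝ
  w : ℝ
  ee : ℝ
  xh : ℝ
  u : ℝ
  s1 : ℝ
  sgs : ℝ
  ics : ℝ
  sz : ℝ
  s0 : ℝ
  icz : ℝ
  ic0 : ℝ
  sy : ℝ
  sy0 : ℝ
  lz : ℝ
  ls : ℝ
  k0 : ℝ
  p2 : ℝ
  k230 : ℝ
  k130 : ℝ
  b0 : ℝ
  b230 : ℝ
  b130 : ℝ
  c12 : ℝ
  n230 : ℝ
  n130 : ℝ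
  q33 : ℝ
  la : ℝ
  v6 : ℝ
  lb : ℝ
  hz : H6
  hy : H6

/-- The values are computed from `n`, `p`, `m`, `r`. -/
structure Vl.Ok (v : Vl) : Prop where
  eXx : v.x = (v.m * v.r)
  eY0h : v.y0h = (v3y0.v v.n v.r)
  eYh : v.yh = (v3yh.v v.n v.p v.r)
  eYy : v.y = (v.n * v.yh)
  eY0 : v.y0 = (v.n * v.y0h)
  eQy : v.q = (v.r * v.y)
  eQy0 : v.q0 = (v.r * v.y0)
  eVy : v.vy = (v3vy.v v.q)
  eVh : v.vh = (v.yh * v.vy)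
  eV0h : v.v0h = (v3v0.v v.n v.r)
  eVv : v.v = (v.n * v.vh)
  eTt : v.t = (-v.v)
  eZh : v.zh = (1 - v.vh)
  eZ : v.z = (v.n * v.zh)
  eZ0 : v.z0 = (v.n * (1 - v.v0h))
  eT0 : v.t0 = (-(v.n * v.v0h))
  eWw : v.w = (-v.n)
  eEe : v.ee = (v3ee.v v.n v.yh v.y0h (v.vh + v.v0h) v.r)
  eXh : v.xh = (v3xh.v v.n v.zh v.z v.r)
  eUu : v.u = (v3uh.v v.xh v.yh v.vh v.t v.r)
  eS1 : xi1.v v.z v.r - xi1.v v.z0 v.r = (v.z - v.z0) * v.s1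
  eSgs : sg1.v v.z v.r - sg1.v v.z0 v.r = (v.z - v.z0) * v.sgs
  eIcs : ic1.v v.z v.r - ic1.v v.z0 v.r = (v.z - v.z0) * v.ics
  eSz : v.sz = (sg1.v v.z v.r)
  eS0 : v.s0 = (sg1.v v.z0 v.r)
  eIcz : v.icz = (ic1.v v.z v.r)
  eIc0 : v.ic0 = (ic1.v v.z0 v.r)
  eSy : v.sy = (((2 : ℕ) : ℝ) / (3 : ℕ) * v.y)
  eSy0 : v.sy0 = (((2 : ℕ) : ℝ) / (3 : ℕ) * v.y0)
  eHz1 : v.hz.h1 = (v3hm.v v.s0 v.sz v.m 1)
  eHy1 : v.hy.h1 = (v3hm.v v.sy v.sy0 v.m 1)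
  eHz2 : v.hz.h2 = (v3hm.v v.s0 v.sz v.m (((8 : ℕ) : ℝ) / (5 : ℕ)))
  eHy2 : v.hy.h2 = (v3hm.v v.sy v.sy0 v.m (((8 : ℕ) : ℝ) / (5 : ℕ)))
  eHz3 : v.hz.h3 = (v3hm.v v.s0 v.sz v.m (((11 : ℕ) : ℝ) / (5 : ℕ)))
  eHy3 : v.hy.h3 = (v3hm.v v.sy v.sy0 v.m (((11 : ℕ) : ℝ) / (5 : ℕ)))
  eHz4 : v.hz.h4 = (v3hm.v v.s0 v.sz v.m (((5 : ℕ) : ℝ) / (2 : ℕ)))
  eHy4 : v.hy.h4 = (v3hm.v v.sy v.sy0 v.m (((5 : ℕ) : ℝ) / (2 : ℕ)))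
  eHz5 : v.hz.h5 = (v3ht.v v.s0 v.sz v.r (((1 : ℕ) : ℝ) / (16 : ℕ)))
  eHy5 : v.hy.h5 = (v3ht.v v.sy v.sy0 v.r (((1 : ℕ) : ℝ) / (16 : ℕ)))
  eHz6 : v.hz.h6 = (v3ht.v v.s0 v.sz v.r (((1 : ℕ) : ℝ) / (10 : ℕ)))
  eHy6 : v.hy.h6 = (v3ht.v v.sy v.sy0 v.r (((1 : ℕ) : ℝ) / (10 : ℕ)))
  eLz : v.lz = ((v3lp.v v.s0 v.sz v.m v.r v.x) * v.sgs)
  eLs : v.ls = (v3lz.v v.sy v.sy0 v.m v.r v.x)
  eK0 : v.k0 = (kap.v v.q0 v.t0 v.r v.x)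
  eP2 : v.p2 = (v3p2.v v.ee v.yh v.q v.s1)
  eK230 : v.k230 = (-(k1p.v v.z0 v.m v.r v.x))
  eK130 : v.k130 = (v.y0 * v.k0)
  eB0 : v.b0 = (bap.v v.q0 v.t0 v.r v.x)
  eB230 : v.b230 = (-(b1p.v v.z0 v.m v.r v.x))
  eB130 : v.b130 = (v.y0 * v.b0)
  eC12 : v.c12 = (l1m.v v.w v.m v.r v.x)
  eN230 : v.n230 = (nkf.v v.x v.k230 v.b230)
  eN130 : v.n130 = (nkf.v v.x v.k130 v.b130)
  eQ33 : v.q33 = (v3q33.v v.y v.t v.m v.r v.x)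
  eLa : v.la = (v3la.v v.ee v.n v.ls v.q33)
  eV6 : v.v6 = (v3v6.v v.yh v.y v.q v.t v.r v.x)
  eLb : v.lb = (v3lb.v v.v6 v.ee v.s1 v.n v.r v.q33)

noncomputable def Vl.dz (v : Vl) (a : H6) : ℝ := ((v3ku.v a.h1 a.h2 a.h3 a.h4 a.h5 a.h6 v.x) *
    v.sgs)

noncomputable def Vl.kuz (v : Vl) : ℝ := (ku.v v.sz v.m v.r v.x)

noncomputable def Vl.kz (v : Vl) (a : H6) : ℝ := (v3ks.v (v.dz a) v.sgs v.ics v.s0 v.icz v.ic0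
    v.r (v3r1.v v.r v.kuz))

noncomputable def Vl.kk (v : Vl) (b : H6) : ℝ := (v3ku.v b.h1 b.h2 b.h3 b.h4 b.h5 b.h6 v.x)

noncomputable def Vl.k13 (v : Vl) (b : H6) : ℝ := (v3kd.v (v3p1.v v.xh v.ee (v.kk b) v.n v.t v.r
    v.k0 v.s1) v.p2 (v3gk.v v.q v.t v.m v.r v.x))

noncomputable def Vl.nf (v : Vl) : ℝ := (((1 : ℕ) : ℝ) / (2 : ℕ))

noncomputable def Vl.bs (v : Vl) : ℝ := (v3bsf.v v.w v.z v.z0 v.r v.s1)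

noncomputable def Vl.gm (v : Vl) (a b : H6) : ℝ := (v3gd.v v.t v.z (v.kz a) (v.k13 b) v.k230
    v.k130)

noncomputable def Vl.ds (v : Vl) (a b : H6) : ℝ := (dsf.v (dln.v 0 (v.kz a) (v.k13 b)) (shf.v v.r
    v.n))

noncomputable def Vl.gp (v : Vl) (a b : H6) : ℝ := (gpf.v v.r v.nf (v.gm a b))

noncomputable def Vl.bn (v : Vl) (a b : H6) : ℝ := (bnf.v v.x v.m v.nf v.bs (v.gm a b))

noncomputable def Vl.v1a (v : Vl) : ℝ := (v3fa1.v v.la)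

noncomputable def Vl.v2a (v : Vl) : ℝ := (v3fa2.v v.la)

noncomputable def Vl.v1b (v : Vl) : ℝ := (v3fb1.v v.lz v.lb)

noncomputable def Vl.v2b (v : Vl) : ℝ := (v3fb2.v v.lz v.lb)

noncomputable def Vl.db (v : Vl) (a : H6) : ℝ := ((v3kv.v a.h1 a.h2 a.h3 a.h4 a.h5 a.h6 v.x) *
    v.sgs)

noncomputable def Vl.kvz (v : Vl) : ℝ := (kv.v v.sz v.m v.r v.x)

noncomputable def Vl.bz (v : Vl) (a : H6) : ℝ := (v3ks.v (v.db a) v.sgs v.ics v.s0 v.icz v.ic0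
    v.r (v3r2.v v.x v.r v.kvz))

noncomputable def Vl.kb (v : Vl) (b : H6) : ℝ := (v3kv.v b.h1 b.h2 b.h3 b.h4 b.h5 b.h6 v.x)

noncomputable def Vl.b13 (v : Vl) (b : H6) : ℝ := (v3kd.v (v3p1.v v.xh v.ee (v.kb b) v.n v.t v.r
    v.b0 v.s1) v.p2 (v3gb.v v.q v.t v.m v.r v.x))

noncomputable def Vl.n13 (v : Vl) (b : H6) : ℝ := (nkf.v v.x (v.k13 b) (v.b13 b))

noncomputable def Vl.nz (v : Vl) (a : H6) : ℝ := (nkf.v v.x (v.kz a) (v.bz a))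

noncomputable def Vl.nfN (v : Vl) : ℝ := (v3nfn.v v.x)

noncomputable def Vl.bsN (v : Vl) : ℝ := (v3bsn.v v.w v.z v.z0 v.m v.r v.x v.s1)

noncomputable def Vl.gmN (v : Vl) (a b : H6) : ℝ := (v3gd.v v.t v.z (v.nz a) (v.n13 b) v.n230
    v.n130)

noncomputable def Vl.dsN (v : Vl) (a b : H6) : ℝ := (dsf.v (dln.v 0 (v.nz a) (v.n13 b)) (shf.v
    v.r v.n))

noncomputable def Vl.gpN (v : Vl) (a b : H6) : ℝ := (gpf.v v.r v.nfN (v.gmN a b))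

noncomputable def Vl.bnN (v : Vl) (a b : H6) : ℝ := (bnf.v v.x v.m v.nfN v.bsN (v.gmN a b))

noncomputable def Vl.v1aN (v : Vl) : ℝ := (v3na1.v v.t v.r v.x v.la)

noncomputable def Vl.v2aN (v : Vl) : ℝ := (v3na2.v v.t v.r v.x v.la)

noncomputable def Vl.v1bN (v : Vl) : ℝ := (v3nb1.v v.w v.t v.r v.x v.c12 v.lz v.lb)

noncomputable def Vl.v2bN (v : Vl) : ℝ := (v3nb2.v v.w v.t v.r v.x v.c12 v.lz v.lb)

/-- The slack beyond the gap, without the levels. -/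
noncomputable def Vl.fo (v : Vl) (a b : H6) : ℝ :=
  (0 + v.nf * m2f.v v.m v.n) / v.r + (brf.v v.x v.r v.m v.n (v.z - v.v) v.nf (v.gm a b) (v.ds a
      b) v.bs -
    abf.v v.x v.m v.n v.z v.v (v.ds a b) (v.gp a b))

/-- The result at the far vertex. -/
def Vl.RF (v : Vl) (a b : H6) : Prop :=
  Res v.x v.r v.m v.n v.z v.v (0 / v.r) ((0 + v.nf) / v.r) (v.bn a b) v.bs (v.fo a b) (v.ds a b)
    (v.gp a b) (v.v1a / v.r + v.v1b) (v.v2a / v.r + v.v2b)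

noncomputable def Vl.et (v : Vl) : ℝ := v3et.v v.n v.z0 v.m v.r v.x

noncomputable def Vl.sp (v : Vl) : ℝ := v3sg.v v.p v.ee

/-- The slack beyond the gap, without the levels. -/
noncomputable def Vl.foN (v : Vl) (a b : H6) : ℝ :=
  v.nfN * m2f.v v.m v.n / v.r + (brf.v v.x v.r v.m v.n (v.z - v.v) v.nfN (v.gmN a b) (v.dsN a b)
      v.bsN -
    abf.v v.x v.m v.n v.z v.v (v.dsN a b) (v.gpN a b))

/-- The result at the near vertex. -/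
def Vl.RN (v : Vl) (a b : H6) : Prop :=
  Res v.x v.r v.m v.n v.z v.v (0 / v.r) (v.nfN / v.r) (v.bnN a b) v.bsN (v.foN a b) (v.dsN a b)
    (v.gpN a b) (v.et / (v.r * v.sp) + (v.v1aN / v.r + v.v1bN))
    (v.et / (v.r * v.sp) + (v.v2aN / v.r + v.v2bN))

theorem frc_enc {E : Pt} {X : ℕ} {v : ℝ} {k : ℕ → Bool} (hX : Enc E X v) (h : frc X k = true) :
    ∃ Y, Enc E Y v ∧ k Y = true := ⟨X, hX, by rwa [frc_eq] at h⟩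

theorem frc_ex {X : ℕ} {k : ℕ → Bool} (h : frc X k = true) : ∃ Y, k Y = true :=
  ⟨X, by rwa [frc_eq] at h⟩

theorem enc_selH {E : Pt} {A B : ℕ} {a b : ℝ} (j i : ℕ) (hA : Enc E A a) (hB : Enc E B b) :
    Enc E (sel j i A B) (if j = i then b else a) := by
  have key : ∀ t : Bool, (t = true ↔ j = i) →
      Enc E (Bool.rec (motive := fun _ => ℕ) A B t) (if j = i then b else a) := by
    intro t ht
    cases t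
    · rw [if_neg (fun e => Bool.false_ne_true (ht.2 e))]
      exact hA
    · rw [if_pos (ht.1 rfl)]
      exact hB
  exact key _ (Nat.beq_eq ▸ Iff.rfl)

theorem lnT_sound {E : Pt} {ET SP SG F1 F0 VA VB : ℕ} {et sp r f1 f0 va vb : ℝ} (r0 : 0 < r)
    (s0 : 0 < sp) (h1 : Enc E ET et) (h2 : Enc E SP sp) (h3 : Enc E SG (r * sp))
    (h4 : Enc E F1 f1) (h5 : Enc E F0 f0) (h6 : Enc E VA va) (h7 : Enc E VB vb)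
    (h : lnT ET SP SG F1 F0 VA VB = true) :
    0 ≤ f1 / r + f0 + (et / (r * sp) + (va / r + vb)) := by
  unfold lnT at h
  have h8 := pnn_sound (enc_add h1 (enc_add (enc_mul h2 (enc_norm (enc_add h4 h6)))
    (enc_mul h3 (enc_norm (enc_add h5 h7))))) h
  have h9 : 0 < r * sp := mul_pos r0 s0
  have e : f1 / r + f0 + (et / (r * sp) + (va / r + vb)) =
      (et + (sp * (f1 + va) + r * sp * (f0 + vb))) / (r * sp) := by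
    field_simp
    ring
  rw [e]
  exact div_nonneg h8 h9.le

theorem ln2_sound {E : Pt} {ET SP SG V1A V1B V2A V2B F1 F0 : ℕ}
    {et sp r f1 f0 v1a v1b v2a v2b : ℝ} (r0 : 0 < r)
    (s0 : 0 < sp) (h1 : Enc E ET et) (h2 : Enc E SP sp) (h3 : Enc E SG (r * sp))
    (ha : Enc E V1A v1a) (hb : Enc E V1B v1b) (hc : Enc E V2A v2a) (hd : Enc E V2B v2b)
    (h4 : Enc E F1 f1) (h5 : Enc E F0 f0) (h : ln2 ET SP SG V1A V1B V2A V2B F1 F0 = true) :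
    P2 (et / (r * sp) + (v1a / r + v1b)) (et / (r * sp) + (v2a / r + v2b)) (f1 / r + f0) := by
  unfold ln2 at h
  simp only [frc_eq] at h
  obtain ⟨t1, t2⟩ := band_true h
  exact ⟨lnT_sound r0 s0 h1 h2 h3 h4 h5 ha hb t1, lnT_sound r0 s0 h1 h2 h3 h4 h5 hc hd t2⟩

theorem oneF_sound {E : Pt} {v : Vl} {a b : H6} {um : Bool} {h Hz1 Hz2 Hz3 Hz4 Hz5 Hz6 Hy1 Hy2
    Hy3 Hy4 Hy5 Hy6 Xx Rr Mm Nn Tt Vv Z Z0 Ww Xh Ee S1 Sgs Ics Sz S0 Icz Ic0 K0 P2 Qy K230 K130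
    La Lz Lb : ℕ} (hHz1 : Enc E Hz1 a.h1) (hHz2 : Enc E Hz2 a.h2) (hHz3 : Enc E Hz3 a.h3) (hHz4 :
    Enc E Hz4 a.h4) (hHz5 : Enc E Hz5 a.h5) (hHz6 : Enc E Hz6 a.h6) (hHy1 : Enc E Hy1 b.h1) (hHy2
    : Enc E Hy2 b.h2) (hHy3 : Enc E Hy3 b.h3) (hHy4 : Enc E Hy4 b.h4) (hHy5 : Enc E Hy5 b.h5)
    (hHy6 : Enc E Hy6 b.h6) (hXx : Enc E Xx v.x) (hRr : Enc E Rr v.r) (hMm : Enc E Mm v.m) (hNn :
    Enc E Nn v.n) (hTt : Enc E Tt v.t) (hVv : Enc E Vv v.v) (hZ : Enc E Z v.z) (hZ0 : Enc E Z0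
    v.z0) (hWw : Enc E Ww v.w) (hXh : Enc E Xh v.xh) (hEe : Enc E Ee v.ee) (hS1 : Enc E S1 v.s1)
    (hSgs : Enc E Sgs v.sgs) (hIcs : Enc E Ics v.ics) (hSz : Enc E Sz v.sz) (hS0 : Enc E S0 v.s0)
    (hIcz : Enc E Icz v.icz) (hIc0 : Enc E Ic0 v.ic0) (hK0 : Enc E K0 v.k0) (hP2 : Enc E P2 v.p2)
    (hQy : Enc E Qy v.q) (hK230 : Enc E K230 v.k230) (hK130 : Enc E K130 v.k130) (hLa : Enc E La
    v.la) (hLz : Enc E Lz v.lz) (hLb : Enc E Lb v.lb) (ex : v.x = v.m * v.r) (r0 : 0 < v.r) (hum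
    : um = true → v.la = 0)
    (h0 : oneF um h Hz1 Hz2 Hz3 Hz4 Hz5 Hz6 Hy1 Hy2 Hy3 Hy4 Hy5 Hy6 Xx Rr Mm Nn Tt Vv Z Z0 Ww Xh
        Ee S1 Sgs Ics Sz S0 Icz Ic0 K0 P2 Qy K230 K130 La Lz Lb = true) : v.RF a b := by
  unfold oneF at h0
  obtain ⟨Dz, hDz, h0⟩ := frc_enc (v := v.dz a) (enc_norm (enc_mul (v3ku.enc hHz1 hHz2 hHz3 hHz4
      hHz5 hHz6 hXx) hSgs)) h0
  obtain ⟨Ku, hKu, h0⟩ := frc_enc (v := v.kuz) (ku.enc hSz hMm hRr hXx) h0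
  obtain ⟨Kz, hKz, h0⟩ := frc_enc (v := v.kz a) (v3ks.enc hDz hSgs hIcs hS0 hIcz hIc0 hRr
      (v3r1.enc hRr hKu)) h0
  obtain ⟨Kk, hKk, h0⟩ := frc_enc (v := v.kk b) (v3ku.enc hHy1 hHy2 hHy3 hHy4 hHy5 hHy6 hXx) h0
  obtain ⟨K13, hK13, h0⟩ := frc_enc (v := v.k13 b) (v3kd.enc (v3p1.enc hXh hEe hKk hNn hTt hRr
      hK0 hS1) hP2 (v3gk.enc hQy hTt hMm hRr hXx)) h0
  obtain ⟨NF, hNF, h0⟩ := frc_enc (v := v.nf) (enc_rat E 1 2) h0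
  obtain ⟨BS, hBS, h0⟩ := frc_enc (v := v.bs) (v3bsf.enc hWw hZ hZ0 hRr hS1) h0
  obtain ⟨GM, hGM, h0⟩ := frc_enc (v := v.gm a b) (v3gd.enc hTt hZ hKz hK13 hK230 hK130) h0
  obtain ⟨DS, hDS, h0⟩ := frc_enc (v := v.ds a b) (dsf.enc (dln.enc (enc_zero E) hKz hK13)
      (shf.enc hRr hNn)) h0
  obtain ⟨GP, hGP, h0⟩ := frc_enc (v := v.gp a b) (gpf.enc hRr hNF hGM) h0
  obtain ⟨BN, hBN, h0⟩ := frc_enc (v := v.bn a b) (bnf.enc hXx hMm hNF hBS hGM) h0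
  obtain ⟨V1A, hV1A, h0⟩ := frc_enc (v := v.v1a) (v3fa1.enc hLa) h0
  obtain ⟨V2A, hV2A, h0⟩ := frc_enc (v := v.v2a) (v3fa2.enc hLa) h0
  obtain ⟨V1B, hV1B, h0⟩ := frc_enc (v := v.v1b) (v3fb1.enc hLz hLb) h0
  obtain ⟨V2B, hV2B, h0⟩ := frc_enc (v := v.v2b) (v3fb2.enc hLz hLb) h0
  obtain ⟨kk, h0⟩ := frc_ex h0
  obtain ⟨tt, h0⟩ := frc_ex h0
  obtain ⟨c, h0⟩ := frc_ex h0
  obtain ⟨s, h0⟩ := frc_ex h0
  have key : ∀ (u : Bool) (k : ℕ), (u = true → v.la = 0) →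
      (ckc c Rr fun I => tst (lvs u c I V1A V1B V2A V2B pzero) (lgs u c I V1A V1B V2A V2B (padd
          pzero NF))
      (los u c I V1A V1B V2A V2B NF (padd pzero (pmul NF (m2f.t Mm Nn))) (psub (brf.t Xx Rr Mm Nn
          (pnorm (psub Z Vv)) NF GM DS BS) (abf.t Xx Mm Nn Z Vv DS GP)))
      k s Xx Rr Mm Nn Z Vv BN BS DS GP) = true → v.RF a b := by
    intro u k hu h0
    obtain ⟨I, hI, h0⟩ := ckc_sound hRr r0 h0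
    have e1 : u = true → v.v1a = 0 := fun e => by
      unfold Vl.v1a; rw [hu e]; simp only [v3fa1]; push_cast; ring
    have e2 : u = true → v.v2a = 0 := fun e => by
      unfold Vl.v2a; rw [hu e]; simp only [v3fa2]; push_cast; ring
    have r1 := tst_sound (nr := 0 / v.r) (nnr := (0 + v.nf) / v.r) (fo := v.fo a b)
      (l1 := v.v1a / v.r + v.v1b) (l2 := v.v2a / v.r + v.v2b) hXx hRr hMm hNn hZ hVv hBN hBS hDS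
          hGP
      (fun hf hh => lvs_sound hI hV1A hV1B hV2A hV2B (enc_zero E) (fun e => ⟨rfl, e1 e, e2 e⟩) hf
          hh)
      (fun hf hh => lgs_sound hI hV1A hV1B hV2A hV2B (enc_add (enc_zero E) hNF) hf hh)
      (los_sound hI hV1A hV1B hV2A hV2B hNF (enc_add (enc_zero E) (enc_mul hNF (m2f.enc hMm hNn)))
        (fun e => ⟨fun hn => by
          rw [zero_add]
          refine mul_nonneg hn ?_
          rw [m2f_val]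
          positivity, e1 e, e2 e⟩)
        (enc_sub (brf.enc hXx hRr hMm hNn (enc_norm (enc_sub hZ hVv)) hNF hGM hDS hBS) (abf.enc
            hXx hMm hNn hZ hVv hDS hGP))) h0
    exact r1
  have fin : ∀ t : Bool, Bool.rec (motive := fun _ => Bool) (ckc c Rr fun I => tst (lvs false c I
      V1A V1B V2A V2B pzero) (lgs false c I V1A V1B V2A V2B
        (padd pzero NF))
      (los false c I V1A V1B V2A V2B NF (padd pzero (pmul NF (m2f.t Mm Nn))) (psub (brf.t Xx Rr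
          Mm Nn (pnorm (psub Z Vv)) NF GM DS BS) (abf.t Xx Mm Nn Z Vv DS GP)))
      kk s Xx Rr Mm Nn Z Vv BN BS DS GP)
      (band um (frc (Nat.sub kk 4) fun k => ckc c Rr fun I => tst (lvs true c I V1A V1B V2A V2B
        pzero) (lgs true c I V1A V1B V2A V2B (padd pzero NF))
      (los true c I V1A V1B V2A V2B NF (padd pzero (pmul NF (m2f.t Mm Nn))) (psub (brf.t Xx Rr Mm
          Nn (pnorm (psub Z Vv)) NF GM DS BS) (abf.t Xx Mm Nn Z Vv DS GP)))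
      k s Xx Rr Mm Nn Z Vv BN BS DS GP)) t = true → v.RF a b := by
    intro t ht
    cases t
    · exact key false _ (fun e => absurd e Bool.false_ne_true) ht
    · obtain ⟨t1, ht⟩ := band_true ht
      obtain ⟨k, ht⟩ := frc_ex ht
      exact key true k (fun _ => hum t1) ht
  exact fin _ h0

theorem oneN_sound {E : Pt} {v : Vl} {a b : H6} {ET SP SG h Hz1 Hz2 Hz3 Hz4 Hz5 Hz6 Hy1 Hy2 Hy3
    Hy4 Hy5 Hy6 Xx Rr Mm Nn Tt Vv Z Z0 Ww Xh Ee S1 Sgs Ics Sz S0 Icz Ic0 K0 P2 Qy K230 K130 La Lz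
    Lb B0 N230 N130 C12 : ℕ} (hHz1 : Enc E Hz1 a.h1) (hHz2 : Enc E Hz2 a.h2) (hHz3 : Enc E Hz3
    a.h3) (hHz4 : Enc E Hz4 a.h4) (hHz5 : Enc E Hz5 a.h5) (hHz6 : Enc E Hz6 a.h6) (hHy1 : Enc E
    Hy1 b.h1) (hHy2 : Enc E Hy2 b.h2) (hHy3 : Enc E Hy3 b.h3) (hHy4 : Enc E Hy4 b.h4) (hHy5 : Enc
    E Hy5 b.h5) (hHy6 : Enc E Hy6 b.h6) (hXx : Enc E Xx v.x) (hRr : Enc E Rr v.r) (hMm : Enc E Mm
    v.m) (hNn : Enc E Nn v.n) (hTt : Enc E Tt v.t) (hVv : Enc E Vv v.v) (hZ : Enc E Z v.z) (hZ0 :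
    Enc E Z0 v.z0) (hWw : Enc E Ww v.w) (hXh : Enc E Xh v.xh) (hEe : Enc E Ee v.ee) (hS1 : Enc E
    S1 v.s1) (hSgs : Enc E Sgs v.sgs) (hIcs : Enc E Ics v.ics) (hSz : Enc E Sz v.sz) (hS0 : Enc E
    S0 v.s0) (hIcz : Enc E Icz v.icz) (hIc0 : Enc E Ic0 v.ic0) (hK0 : Enc E K0 v.k0) (hP2 : Enc E
    P2 v.p2) (hQy : Enc E Qy v.q) (hK230 : Enc E K230 v.k230) (hK130 : Enc E K130 v.k130) (hLa :
    Enc E La v.la) (hLz : Enc E Lz v.lz) (hLb : Enc E Lb v.lb) (hB0 : Enc E B0 v.b0) (hN230 : Enc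
    E N230 v.n230) (hN130 : Enc E N130 v.n130) (hC12 : Enc E C12 v.c12) (ex : v.x = v.m * v.r)
    (r0 : 0 < v.r) (s0 : 0 < v.sp) (hET : Enc E ET v.et) (hSP : Enc E SP v.sp) (hSG : Enc E SG
    (v.r * v.sp))
    (h0 : oneN ET SP SG h Hz1 Hz2 Hz3 Hz4 Hz5 Hz6 Hy1 Hy2 Hy3 Hy4 Hy5 Hy6 Xx Rr Mm Nn Tt Vv Z Z0
        Ww Xh Ee S1 Sgs Ics Sz S0 Icz Ic0 K0 P2 Qy K230 K130 La Lz Lb B0 N230 N130 C12 = true) :
        v.RN a b := by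
  unfold oneN at h0
  obtain ⟨Dz, hDz, h0⟩ := frc_enc (v := v.dz a) (enc_norm (enc_mul (v3ku.enc hHz1 hHz2 hHz3 hHz4
      hHz5 hHz6 hXx) hSgs)) h0
  obtain ⟨Ku, hKu, h0⟩ := frc_enc (v := v.kuz) (ku.enc hSz hMm hRr hXx) h0
  obtain ⟨Kz, hKz, h0⟩ := frc_enc (v := v.kz a) (v3ks.enc hDz hSgs hIcs hS0 hIcz hIc0 hRr
      (v3r1.enc hRr hKu)) h0
  obtain ⟨Kk, hKk, h0⟩ := frc_enc (v := v.kk b) (v3ku.enc hHy1 hHy2 hHy3 hHy4 hHy5 hHy6 hXx) h0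
  obtain ⟨K13, hK13, h0⟩ := frc_enc (v := v.k13 b) (v3kd.enc (v3p1.enc hXh hEe hKk hNn hTt hRr
      hK0 hS1) hP2 (v3gk.enc hQy hTt hMm hRr hXx)) h0
  obtain ⟨Db, hDb, h0⟩ := frc_enc (v := v.db a) (enc_norm (enc_mul (v3kv.enc hHz1 hHz2 hHz3 hHz4
      hHz5 hHz6 hXx) hSgs)) h0
  obtain ⟨Kv, hKv, h0⟩ := frc_enc (v := v.kvz) (kv.enc hSz hMm hRr hXx) h0
  obtain ⟨Bz, hBz, h0⟩ := frc_enc (v := v.bz a) (v3ks.enc hDb hSgs hIcs hS0 hIcz hIc0 hRr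
      (v3r2.enc hXx hRr hKv)) h0
  obtain ⟨Kb, hKb, h0⟩ := frc_enc (v := v.kb b) (v3kv.enc hHy1 hHy2 hHy3 hHy4 hHy5 hHy6 hXx) h0
  obtain ⟨B13, hB13, h0⟩ := frc_enc (v := v.b13 b) (v3kd.enc (v3p1.enc hXh hEe hKb hNn hTt hRr
      hB0 hS1) hP2 (v3gb.enc hQy hTt hMm hRr hXx)) h0
  obtain ⟨N13, hN13, h0⟩ := frc_enc (v := v.n13 b) (nkf.enc hXx hK13 hB13) h0
  obtain ⟨Nz, hNz, h0⟩ := frc_enc (v := v.nz a) (nkf.enc hXx hKz hBz) h0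
  obtain ⟨NF, hNF, h0⟩ := frc_enc (v := v.nfN) (v3nfn.enc hXx) h0
  obtain ⟨BS, hBS, h0⟩ := frc_enc (v := v.bsN) (v3bsn.enc hWw hZ hZ0 hMm hRr hXx hS1) h0
  obtain ⟨GM, hGM, h0⟩ := frc_enc (v := v.gmN a b) (v3gd.enc hTt hZ hNz hN13 hN230 hN130) h0
  obtain ⟨DS, hDS, h0⟩ := frc_enc (v := v.dsN a b) (dsf.enc (dln.enc (enc_zero E) hNz hN13)
      (shf.enc hRr hNn)) h0
  obtain ⟨GP, hGP, h0⟩ := frc_enc (v := v.gpN a b) (gpf.enc hRr hNF hGM) h0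
  obtain ⟨BN, hBN, h0⟩ := frc_enc (v := v.bnN a b) (bnf.enc hXx hMm hNF hBS hGM) h0
  obtain ⟨V1A, hV1A, h0⟩ := frc_enc (v := v.v1aN) (v3na1.enc hTt hRr hXx hLa) h0
  obtain ⟨V2A, hV2A, h0⟩ := frc_enc (v := v.v2aN) (v3na2.enc hTt hRr hXx hLa) h0
  obtain ⟨V1B, hV1B, h0⟩ := frc_enc (v := v.v1bN) (v3nb1.enc hWw hTt hRr hXx hC12 hLz hLb) h0
  obtain ⟨V2B, hV2B, h0⟩ := frc_enc (v := v.v2bN) (v3nb2.enc hWw hTt hRr hXx hC12 hLz hLb) h0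
  obtain ⟨k, h0⟩ := frc_ex h0
  obtain ⟨s, h0⟩ := frc_ex h0
  have r1 := tst_sound (nr := 0 / v.r) (nnr := v.nfN / v.r) (fo := v.foN a b)
    (l1 := v.et / (v.r * v.sp) + (v.v1aN / v.r + v.v1bN))
    (l2 := v.et / (v.r * v.sp) + (v.v2aN / v.r + v.v2bN)) hXx hRr hMm hNn hZ hVv hBN hBS hDS hGP
    (fun hf hh => ln2_sound r0 s0 hET hSP hSG hV1A hV1B hV2A hV2B (enc_zero E) hf hh)
    (fun hf hh => ln2_sound r0 s0 hET hSP hSG hV1A hV1B hV2A hV2B hNF hf hh)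
    (fun hh => ln2_sound r0 s0 hET hSP hSG hV1A hV1B hV2A hV2B (enc_mul hNF (m2f.enc hMm hNn))
      (enc_sub (brf.enc hXx hRr hMm hNn (enc_norm (enc_sub hZ hVv)) hNF hGM hDS hBS) (abf.enc hXx
          hMm hNn hZ hVv hDS hGP)) hh) h0
  exact r1

/-- **The leaf at the far vertex.** -/
theorem leafF_sound {E : Pt} {v : Vl} {h Nn Pp Mm Rr : ℕ} (ok : v.Ok) (hNn : Enc E Nn v.n) (hPp :
    Enc E Pp v.p) (hMm : Enc E Mm v.m)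
    (hRr : Enc E Rr v.r) (r0 : 0 < v.r) (hz : v.z ≠ v.z0)
    (hum : 0 ≤ 167 / 50 * v.m - v.sy → 0 ≤ 29 / 400 - v3ty.v v.sy v.r → v.la = 0)
    (h0 : leafF h Nn Pp Mm Rr = true) :
    v.u < 0 ∨ ∃ j, v.RF (v.hz.set j 0) v.hy ∧ v.RF v.hz (v.hy.set j 1) := by
  unfold leafF at h0
  obtain ⟨Xx, hXx, h0⟩ := frc_enc (enc_norm (enc_mul hMm hRr)) h0
  rw [← ok.eXx] at hXx
  obtain ⟨Y0h, hY0h, h0⟩ := frc_enc (v3y0.enc hNn hRr) h0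
  rw [← ok.eY0h] at hY0h
  obtain ⟨Yh, hYh, h0⟩ := frc_enc (v3yh.enc hNn hPp hRr) h0
  rw [← ok.eYh] at hYh
  obtain ⟨Yy, hYy, h0⟩ := frc_enc (enc_norm (enc_mul hNn hYh)) h0
  rw [← ok.eYy] at hYy
  obtain ⟨Y0, hY0, h0⟩ := frc_enc (enc_norm (enc_mul hNn hY0h)) h0
  rw [← ok.eY0] at hY0
  obtain ⟨Qy, hQy, h0⟩ := frc_enc (enc_norm (enc_mul hRr hYy)) h0
  rw [← ok.eQy] at hQy
  obtain ⟨Qy0, hQy0, h0⟩ := frc_enc (enc_norm (enc_mul hRr hY0)) h0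
  rw [← ok.eQy0] at hQy0
  obtain ⟨Vy, hVy, h0⟩ := frc_enc (v3vy.enc hQy) h0
  rw [← ok.eVy] at hVy
  obtain ⟨Vh, hVh, h0⟩ := frc_enc (enc_norm (enc_mul hYh hVy)) h0
  rw [← ok.eVh] at hVh
  obtain ⟨V0h, hV0h, h0⟩ := frc_enc (v3v0.enc hNn hRr) h0
  rw [← ok.eV0h] at hV0h
  obtain ⟨Vv, hVv, h0⟩ := frc_enc (enc_norm (enc_mul hNn hVh)) h0
  rw [← ok.eVv] at hVv
  obtain ⟨Tt, hTt, h0⟩ := frc_enc (enc_neg hVv) h0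
  rw [← ok.eTt] at hTt
  obtain ⟨Zh, hZh, h0⟩ := frc_enc (enc_norm (enc_sub (enc_one E) hVh)) h0
  rw [← ok.eZh] at hZh
  obtain ⟨Z, hZ, h0⟩ := frc_enc (enc_norm (enc_mul hNn hZh)) h0
  rw [← ok.eZ] at hZ
  obtain ⟨Z0, hZ0, h0⟩ := frc_enc (enc_norm (enc_mul hNn (enc_norm (enc_sub (enc_one E) hV0h))))
      h0
  rw [← ok.eZ0] at hZ0
  obtain ⟨T0, hT0, h0⟩ := frc_enc (enc_neg (enc_norm (enc_mul hNn hV0h))) h0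
  rw [← ok.eT0] at hT0
  obtain ⟨Ww, hWw, h0⟩ := frc_enc (enc_neg hNn) h0
  rw [← ok.eWw] at hWw
  obtain ⟨Ee, hEe, h0⟩ := frc_enc (v3ee.enc hNn hYh hY0h (enc_norm (enc_add hVh hV0h)) hRr) h0
  rw [← ok.eEe] at hEe
  obtain ⟨Xh, hXh, h0⟩ := frc_enc (v3xh.enc hNn hZh hZ hRr) h0
  rw [← ok.eXh] at hXh
  obtain ⟨Uu, hUu, h0⟩ := frc_enc (v3uh.enc hXh hYh hVh hTt hRr) h0
  rw [← ok.eUu] at hUu
  have hcase : ∀ (t : Bool) (F : Bool), Bool.rec (motive := fun _ => Bool) F (ppos (pneg Uu)) t =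
      true → F = true ∨ v.u < 0 := by
    intro t F ht
    cases t
    · exact Or.inl ht
    · refine Or.inr ?_
      have := ppos_sound (enc_neg hUu) ht
      linarith
  rcases hcase _ _ h0 with h0 | h1
  swap
  · exact Or.inl h1
  refine Or.inr ?_
  clear hcase
  have hd : v.z - v.z0 ≠ 0 := sub_ne_zero.2 hz
  have hPr : Pr E (v.z - v.z0) Z Z0 pone v.z v.z0 := pr_var hZ hZ0 rfl
  obtain ⟨S1, hS1, h0⟩ := frc_enc (v := v.s1) (by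
    obtain ⟨d, hd1, hd2⟩ := (xi1_vc.snd hPr hRr).d
    rw [ok.eS1] at hd2
    rwa [← mul_left_cancel₀ hd hd2] at hd1) h0
  obtain ⟨Sgs, hSgs, h0⟩ := frc_enc (v := v.sgs) (by
    obtain ⟨d, hd1, hd2⟩ := (sg1_vc.snd hPr hRr).d
    rw [ok.eSgs] at hd2
    rwa [← mul_left_cancel₀ hd hd2] at hd1) h0
  obtain ⟨Ics, hIcs, h0⟩ := frc_enc (v := v.ics) (by
    obtain ⟨d, hd1, hd2⟩ := (ic1_vc.snd hPr hRr).d
    rw [ok.eIcs] at hd2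
    rwa [← mul_left_cancel₀ hd hd2] at hd1) h0
  obtain ⟨Sz, hSz, h0⟩ := frc_enc (sg1.enc hZ hRr) h0
  rw [← ok.eSz] at hSz
  obtain ⟨S0, hS0, h0⟩ := frc_enc (sg1.enc hZ0 hRr) h0
  rw [← ok.eS0] at hS0
  obtain ⟨Icz, hIcz, h0⟩ := frc_enc (ic1.enc hZ hRr) h0
  rw [← ok.eIcz] at hIcz
  obtain ⟨Ic0, hIc0, h0⟩ := frc_enc (ic1.enc hZ0 hRr) h0
  rw [← ok.eIc0] at hIc0
  obtain ⟨Sy, hSy, h0⟩ := frc_enc (enc_norm (enc_scale 2 3 hYy)) h0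
  rw [← ok.eSy] at hSy
  obtain ⟨Sy0, hSy0, h0⟩ := frc_enc (enc_norm (enc_scale 2 3 hY0)) h0
  rw [← ok.eSy0] at hSy0
  obtain ⟨Hz1, hHz1, h0⟩ := frc_enc (v3hm.enc hS0 hSz hMm (enc_one E)) h0
  rw [← ok.eHz1] at hHz1
  obtain ⟨Hy1, hHy1, h0⟩ := frc_enc (v3hm.enc hSy hSy0 hMm (enc_one E)) h0
  rw [← ok.eHy1] at hHy1
  obtain ⟨Hz2, hHz2, h0⟩ := frc_enc (v3hm.enc hS0 hSz hMm (enc_rat E 8 5)) h0
  rw [← ok.eHz2] at hHz2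
  obtain ⟨Hy2, hHy2, h0⟩ := frc_enc (v3hm.enc hSy hSy0 hMm (enc_rat E 8 5)) h0
  rw [← ok.eHy2] at hHy2
  obtain ⟨Hz3, hHz3, h0⟩ := frc_enc (v3hm.enc hS0 hSz hMm (enc_rat E 11 5)) h0
  rw [← ok.eHz3] at hHz3
  obtain ⟨Hy3, hHy3, h0⟩ := frc_enc (v3hm.enc hSy hSy0 hMm (enc_rat E 11 5)) h0
  rw [← ok.eHy3] at hHy3
  obtain ⟨Hz4, hHz4, h0⟩ := frc_enc (v3hm.enc hS0 hSz hMm (enc_rat E 5 2)) h0
  rw [← ok.eHz4] at hHz4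
  obtain ⟨Hy4, hHy4, h0⟩ := frc_enc (v3hm.enc hSy hSy0 hMm (enc_rat E 5 2)) h0
  rw [← ok.eHy4] at hHy4
  obtain ⟨Hz5, hHz5, h0⟩ := frc_enc (v3ht.enc hS0 hSz hRr (enc_rat E 1 16)) h0
  rw [← ok.eHz5] at hHz5
  obtain ⟨Hy5, hHy5, h0⟩ := frc_enc (v3ht.enc hSy hSy0 hRr (enc_rat E 1 16)) h0
  rw [← ok.eHy5] at hHy5
  obtain ⟨Hz6, hHz6, h0⟩ := frc_enc (v3ht.enc hS0 hSz hRr (enc_rat E 1 10)) h0
  rw [← ok.eHz6] at hHz6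
  obtain ⟨Hy6, hHy6, h0⟩ := frc_enc (v3ht.enc hSy hSy0 hRr (enc_rat E 1 10)) h0
  rw [← ok.eHy6] at hHy6
  obtain ⟨Lz, hLz, h0⟩ := frc_enc (enc_norm (enc_mul (v3lp.enc hS0 hSz hMm hRr hXx) hSgs)) h0
  rw [← ok.eLz] at hLz
  obtain ⟨Ls, hLs, h0⟩ := frc_enc (v3lz.enc hSy hSy0 hMm hRr hXx) h0
  rw [← ok.eLs] at hLs
  obtain ⟨K0, hK0, h0⟩ := frc_enc (kap.enc hQy0 hT0 hRr hXx) h0
  rw [← ok.eK0] at hK0
  obtain ⟨P2, hP2, h0⟩ := frc_enc (v3p2.enc hEe hYh hQy hS1) h0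
  rw [← ok.eP2] at hP2
  obtain ⟨K230, hK230, h0⟩ := frc_enc (enc_neg (k1p.enc hZ0 hMm hRr hXx)) h0
  rw [← ok.eK230] at hK230
  obtain ⟨K130, hK130, h0⟩ := frc_enc (enc_norm (enc_mul hY0 hK0)) h0
  rw [← ok.eK130] at hK130
  obtain ⟨Q33, hQ33, h0⟩ := frc_enc (v3q33.enc hYy hTt hMm hRr hXx) h0
  rw [← ok.eQ33] at hQ33
  obtain ⟨La, hLa, h0⟩ := frc_enc (v3la.enc hEe hNn hLs hQ33) h0
  rw [← ok.eLa] at hLa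
  obtain ⟨V6, hV6, h0⟩ := frc_enc (v3v6.enc hYh hYy hQy hTt hRr hXx) h0
  rw [← ok.eV6] at hV6
  obtain ⟨Lb, hLb, h0⟩ := frc_enc (v3lb.enc hV6 hEe hS1 hNn hRr hQ33) h0
  rw [← ok.eLb] at hLb
  obtain ⟨h1, h0⟩ := frc_ex h0
  obtain ⟨jj, h0⟩ := frc_ex h0
  obtain ⟨j, h0⟩ := frc_ex h0
  obtain ⟨h2, h0⟩ := frc_ex h0
  have hum' : band (pnn (psub (pscale 167 50 Mm) Sy)) (pnn (psub (prat 29 400) (v3ty.t Sy Rr))) =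
      true → v.la = 0 := by
    intro ht
    obtain ⟨t1, t2⟩ := band_true ht
    have k1 := pnn_sound (enc_sub (enc_scale 167 50 hMm) hSy) t1
    have k2 := pnn_sound (enc_sub (enc_rat E 29 400) (v3ty.enc hSy hRr)) t2
    push_cast at k1 k2
    exact hum k1 k2
  have hcase : ∀ (t : Bool) (F G : Bool), Bool.rec (motive := fun _ => Bool) F G t = true → F =
      true ∨ (G = true ∧ t = true) := by
    intro t F G ht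
    cases t
    · exact Or.inl ht
    · exact Or.inr ⟨ht, rfl⟩
  rcases hcase _ _ _ h0 with h0 | ⟨h0, hj⟩
  · obtain ⟨q1, q2⟩ := band_true h0
    refine ⟨j, ?_, ?_⟩
    · exact oneF_sound (a := v.hz.set j 0) (b := v.hy) (enc_selH j 1 hHz1 (enc_zero E)) (enc_selH
        j 2 hHz2 (enc_zero E)) (enc_selH j 3 hHz3 (enc_zero E)) (enc_selH j 4 hHz4 (enc_zero E))
        (enc_selH j 5 hHz5 (enc_zero E)) (enc_selH j 6 hHz6 (enc_zero E)) hHy1 hHy2 hHy3 hHy4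
        hHy5 hHy6 hXx hRr hMm hNn hTt hVv hZ hZ0 hWw hXh hEe hS1 hSgs hIcs hSz hS0 hIcz hIc0 hK0
        hP2 hQy hK230 hK130 hLa hLz hLb ok.eXx r0 hum' q1
    · exact oneF_sound (a := v.hz) (b := v.hy.set j 1) hHz1 hHz2 hHz3 hHz4 hHz5 hHz6 (enc_selH j
        1 hHy1 (enc_one E)) (enc_selH j 2 hHy2 (enc_one E)) (enc_selH j 3 hHy3 (enc_one E))
        (enc_selH j 4 hHy4 (enc_one E)) (enc_selH j 5 hHy5 (enc_one E)) (enc_selH j 6 hHy6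
        (enc_one E)) hXx hRr hMm hNn hTt hVv hZ hZ0 hWw hXh hEe hS1 hSgs hIcs hSz hS0 hIcz hIc0
        hK0 hP2 hQy hK230 hK130 hLa hLz hLb ok.eXx r0 hum' q2
  · refine ⟨0, ?_, ?_⟩
    · have e : v.hz.set 0 0 = v.hz := rfl
      rw [e]
      exact oneF_sound hHz1 hHz2 hHz3 hHz4 hHz5 hHz6 hHy1 hHy2 hHy3 hHy4 hHy5 hHy6 hXx hRr hMm
          hNn hTt hVv hZ hZ0 hWw hXh hEe hS1 hSgs hIcs hSz hS0 hIcz hIc0 hK0 hP2 hQy hK230 hK130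
          hLa hLz hLb ok.eXx r0 hum' h0
    · have e : v.hy.set 0 1 = v.hy := rfl
      rw [e]
      exact oneF_sound hHz1 hHz2 hHz3 hHz4 hHz5 hHz6 hHy1 hHy2 hHy3 hHy4 hHy5 hHy6 hXx hRr hMm
          hNn hTt hVv hZ hZ0 hWw hXh hEe hS1 hSgs hIcs hSz hS0 hIcz hIc0 hK0 hP2 hQy hK230 hK130
          hLa hLz hLb ok.eXx r0 hum' h0

/-- **The leaf at the near vertex.** -/
theorem leafN_sound {E : Pt} {v : Vl} {h Nn Pp Mm Rr : ℕ} (ok : v.Ok) (hNn : Enc E Nn v.n) (hPp :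
    Enc E Pp v.p) (hMm : Enc E Mm v.m)
    (hRr : Enc E Rr v.r) (r0 : 0 < v.r) (hz : v.z ≠ v.z0) (s0 : 0 < v.sp)
    (h0 : leafN h Nn Pp Mm Rr = true) : v.u < 0 ∨ v.RN v.hz v.hy := by
  unfold leafN at h0
  obtain ⟨Xx, hXx, h0⟩ := frc_enc (enc_norm (enc_mul hMm hRr)) h0
  rw [← ok.eXx] at hXx
  obtain ⟨Y0h, hY0h, h0⟩ := frc_enc (v3y0.enc hNn hRr) h0
  rw [← ok.eY0h] at hY0h
  obtain ⟨Yh, hYh, h0⟩ := frc_enc (v3yh.enc hNn hPp hRr) h0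
  rw [← ok.eYh] at hYh
  obtain ⟨Yy, hYy, h0⟩ := frc_enc (enc_norm (enc_mul hNn hYh)) h0
  rw [← ok.eYy] at hYy
  obtain ⟨Y0, hY0, h0⟩ := frc_enc (enc_norm (enc_mul hNn hY0h)) h0
  rw [← ok.eY0] at hY0
  obtain ⟨Qy, hQy, h0⟩ := frc_enc (enc_norm (enc_mul hRr hYy)) h0
  rw [← ok.eQy] at hQy
  obtain ⟨Qy0, hQy0, h0⟩ := frc_enc (enc_norm (enc_mul hRr hY0)) h0
  rw [← ok.eQy0] at hQy0
  obtain ⟨Vy, hVy, h0⟩ := frc_enc (v3vy.enc hQy) h0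
  rw [← ok.eVy] at hVy
  obtain ⟨Vh, hVh, h0⟩ := frc_enc (enc_norm (enc_mul hYh hVy)) h0
  rw [← ok.eVh] at hVh
  obtain ⟨V0h, hV0h, h0⟩ := frc_enc (v3v0.enc hNn hRr) h0
  rw [← ok.eV0h] at hV0h
  obtain ⟨Vv, hVv, h0⟩ := frc_enc (enc_norm (enc_mul hNn hVh)) h0
  rw [← ok.eVv] at hVv
  obtain ⟨Tt, hTt, h0⟩ := frc_enc (enc_neg hVv) h0
  rw [← ok.eTt] at hTt
  obtain ⟨Zh, hZh, h0⟩ := frc_enc (enc_norm (enc_sub (enc_one E) hVh)) h0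
  rw [← ok.eZh] at hZh
  obtain ⟨Z, hZ, h0⟩ := frc_enc (enc_norm (enc_mul hNn hZh)) h0
  rw [← ok.eZ] at hZ
  obtain ⟨Z0, hZ0, h0⟩ := frc_enc (enc_norm (enc_mul hNn (enc_norm (enc_sub (enc_one E) hV0h))))
      h0
  rw [← ok.eZ0] at hZ0
  obtain ⟨T0, hT0, h0⟩ := frc_enc (enc_neg (enc_norm (enc_mul hNn hV0h))) h0
  rw [← ok.eT0] at hT0
  obtain ⟨Ww, hWw, h0⟩ := frc_enc (enc_neg hNn) h0
  rw [← ok.eWw] at hWw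
  obtain ⟨Ee, hEe, h0⟩ := frc_enc (v3ee.enc hNn hYh hY0h (enc_norm (enc_add hVh hV0h)) hRr) h0
  rw [← ok.eEe] at hEe
  obtain ⟨Xh, hXh, h0⟩ := frc_enc (v3xh.enc hNn hZh hZ hRr) h0
  rw [← ok.eXh] at hXh
  obtain ⟨Uu, hUu, h0⟩ := frc_enc (v3uh.enc hXh hYh hVh hTt hRr) h0
  rw [← ok.eUu] at hUu
  have hcase : ∀ (t : Bool) (F : Bool), Bool.rec (motive := fun _ => Bool) F (ppos (pneg Uu)) t =
      true → F = true ∨ v.u < 0 := by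
    intro t F ht
    cases t
    · exact Or.inl ht
    · refine Or.inr ?_
      have := ppos_sound (enc_neg hUu) ht
      linarith
  rcases hcase _ _ h0 with h0 | h1
  swap
  · exact Or.inl h1
  refine Or.inr ?_
  clear hcase
  have hd : v.z - v.z0 ≠ 0 := sub_ne_zero.2 hz
  have hPr : Pr E (v.z - v.z0) Z Z0 pone v.z v.z0 := pr_var hZ hZ0 rfl
  obtain ⟨S1, hS1, h0⟩ := frc_enc (v := v.s1) (by
    obtain ⟨d, hd1, hd2⟩ := (xi1_vc.snd hPr hRr).d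
    rw [ok.eS1] at hd2
    rwa [← mul_left_cancel₀ hd hd2] at hd1) h0
  obtain ⟨Sgs, hSgs, h0⟩ := frc_enc (v := v.sgs) (by
    obtain ⟨d, hd1, hd2⟩ := (sg1_vc.snd hPr hRr).d
    rw [ok.eSgs] at hd2
    rwa [← mul_left_cancel₀ hd hd2] at hd1) h0
  obtain ⟨Ics, hIcs, h0⟩ := frc_enc (v := v.ics) (by
    obtain ⟨d, hd1, hd2⟩ := (ic1_vc.snd hPr hRr).d
    rw [ok.eIcs] at hd2
    rwa [← mul_left_cancel₀ hd hd2] at hd1) h0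
  obtain ⟨Sz, hSz, h0⟩ := frc_enc (sg1.enc hZ hRr) h0
  rw [← ok.eSz] at hSz
  obtain ⟨S0, hS0, h0⟩ := frc_enc (sg1.enc hZ0 hRr) h0
  rw [← ok.eS0] at hS0
  obtain ⟨Icz, hIcz, h0⟩ := frc_enc (ic1.enc hZ hRr) h0
  rw [← ok.eIcz] at hIcz
  obtain ⟨Ic0, hIc0, h0⟩ := frc_enc (ic1.enc hZ0 hRr) h0
  rw [← ok.eIc0] at hIc0
  obtain ⟨Sy, hSy, h0⟩ := frc_enc (enc_norm (enc_scale 2 3 hYy)) h0
  rw [← ok.eSy] at hSy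
  obtain ⟨Sy0, hSy0, h0⟩ := frc_enc (enc_norm (enc_scale 2 3 hY0)) h0
  rw [← ok.eSy0] at hSy0
  obtain ⟨Hz1, hHz1, h0⟩ := frc_enc (v3hm.enc hS0 hSz hMm (enc_one E)) h0
  rw [← ok.eHz1] at hHz1
  obtain ⟨Hy1, hHy1, h0⟩ := frc_enc (v3hm.enc hSy hSy0 hMm (enc_one E)) h0
  rw [← ok.eHy1] at hHy1
  obtain ⟨Hz2, hHz2, h0⟩ := frc_enc (v3hm.enc hS0 hSz hMm (enc_rat E 8 5)) h0
  rw [← ok.eHz2] at hHz2
  obtain ⟨Hy2, hHy2, h0⟩ := frc_enc (v3hm.enc hSy hSy0 hMm (enc_rat E 8 5)) h0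
  rw [← ok.eHy2] at hHy2
  obtain ⟨Hz3, hHz3, h0⟩ := frc_enc (v3hm.enc hS0 hSz hMm (enc_rat E 11 5)) h0
  rw [← ok.eHz3] at hHz3
  obtain ⟨Hy3, hHy3, h0⟩ := frc_enc (v3hm.enc hSy hSy0 hMm (enc_rat E 11 5)) h0
  rw [← ok.eHy3] at hHy3
  obtain ⟨Hz4, hHz4, h0⟩ := frc_enc (v3hm.enc hS0 hSz hMm (enc_rat E 5 2)) h0
  rw [← ok.eHz4] at hHz4
  obtain ⟨Hy4, hHy4, h0⟩ := frc_enc (v3hm.enc hSy hSy0 hMm (enc_rat E 5 2)) h0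
  rw [← ok.eHy4] at hHy4
  obtain ⟨Hz5, hHz5, h0⟩ := frc_enc (v3ht.enc hS0 hSz hRr (enc_rat E 1 16)) h0
  rw [← ok.eHz5] at hHz5
  obtain ⟨Hy5, hHy5, h0⟩ := frc_enc (v3ht.enc hSy hSy0 hRr (enc_rat E 1 16)) h0
  rw [← ok.eHy5] at hHy5
  obtain ⟨Hz6, hHz6, h0⟩ := frc_enc (v3ht.enc hS0 hSz hRr (enc_rat E 1 10)) h0
  rw [← ok.eHz6] at hHz6
  obtain ⟨Hy6, hHy6, h0⟩ := frc_enc (v3ht.enc hSy hSy0 hRr (enc_rat E 1 10)) h0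
  rw [← ok.eHy6] at hHy6
  obtain ⟨Lz, hLz, h0⟩ := frc_enc (enc_norm (enc_mul (v3lp.enc hS0 hSz hMm hRr hXx) hSgs)) h0
  rw [← ok.eLz] at hLz
  obtain ⟨Ls, hLs, h0⟩ := frc_enc (v3lz.enc hSy hSy0 hMm hRr hXx) h0
  rw [← ok.eLs] at hLs
  obtain ⟨K0, hK0, h0⟩ := frc_enc (kap.enc hQy0 hT0 hRr hXx) h0
  rw [← ok.eK0] at hK0
  obtain ⟨P2, hP2, h0⟩ := frc_enc (v3p2.enc hEe hYh hQy hS1) h0
  rw [← ok.eP2] at hP2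
  obtain ⟨K230, hK230, h0⟩ := frc_enc (enc_neg (k1p.enc hZ0 hMm hRr hXx)) h0
  rw [← ok.eK230] at hK230
  obtain ⟨K130, hK130, h0⟩ := frc_enc (enc_norm (enc_mul hY0 hK0)) h0
  rw [← ok.eK130] at hK130
  obtain ⟨B0, hB0, h0⟩ := frc_enc (bap.enc hQy0 hT0 hRr hXx) h0
  rw [← ok.eB0] at hB0
  obtain ⟨B230, hB230, h0⟩ := frc_enc (enc_neg (b1p.enc hZ0 hMm hRr hXx)) h0
  rw [← ok.eB230] at hB230
  obtain ⟨B130, hB130, h0⟩ := frc_enc (enc_norm (enc_mul hY0 hB0)) h0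
  rw [← ok.eB130] at hB130
  obtain ⟨C12, hC12, h0⟩ := frc_enc (l1m.enc hWw hMm hRr hXx) h0
  rw [← ok.eC12] at hC12
  obtain ⟨N230, hN230, h0⟩ := frc_enc (nkf.enc hXx hK230 hB230) h0
  rw [← ok.eN230] at hN230
  obtain ⟨N130, hN130, h0⟩ := frc_enc (nkf.enc hXx hK130 hB130) h0
  rw [← ok.eN130] at hN130
  obtain ⟨Q33, hQ33, h0⟩ := frc_enc (v3q33.enc hYy hTt hMm hRr hXx) h0
  rw [← ok.eQ33] at hQ33
  obtain ⟨La, hLa, h0⟩ := frc_enc (v3la.enc hEe hNn hLs hQ33) h0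
  rw [← ok.eLa] at hLa
  obtain ⟨V6, hV6, h0⟩ := frc_enc (v3v6.enc hYh hYy hQy hTt hRr hXx) h0
  rw [← ok.eV6] at hV6
  obtain ⟨Lb, hLb, h0⟩ := frc_enc (v3lb.enc hV6 hEe hS1 hNn hRr hQ33) h0
  rw [← ok.eLb] at hLb
  obtain ⟨ET, hET, h0⟩ := frc_enc (v := v.et) (v3et.enc hNn hZ0 hMm hRr hXx) h0
  obtain ⟨SP, hSP, h0⟩ := frc_enc (v := v.sp) (v3sg.enc hPp hEe) h0
  obtain ⟨SG, hSG, h0⟩ := frc_enc (enc_norm (enc_mul hRr hSP)) h0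
  exact oneN_sound hHz1 hHz2 hHz3 hHz4 hHz5 hHz6 hHy1 hHy2 hHy3 hHy4 hHy5 hHy6 hXx hRr hMm hNn
      hTt hVv hZ hZ0 hWw hXh hEe hS1 hSgs hIcs hSz hS0 hIcz hIc0 hK0 hP2 hQy hK230 hK130 hLa hLz
      hLb hB0 hN230 hN130 hC12 ok.eXx r0 s0 hET hSP hSG h0

end Pool.Agent.Strip051.LC.E1.V3
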