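import Pool.Agent.Strip051.LC.E1.Ch.Main
import Pool.Agent.Strip051.LC.E1.V3.Fn

/-! # Rests near the full period: the leaves of the row next to the circle of radius `√3` -/

set_option linter.unusedVariables false

namespace Pool.Agent.Strip051.LC.E1.V3

open Pool.Agent.Strip051.PB
open Pool.Agent.Strip051.LC.E1.Ch

/-- `b` if `j = i`, else `a` -/
noncomputable def sel (j i a b : ℕ) : ℕ := Bool.rec (motive := fun _ => ℕ) a b (Nat.beq j i)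

/-- one level at the near vertex -/
noncomputable def lnT (ET SP SG F1 F0 VA VB : ℕ) : Bool :=
  pnn (padd ET (padd (pmul SP (pnorm (padd F1 VA))) (pmul SG (pnorm (padd F0 VB)))))

/-- both levels at the near vertex -/
noncomputable def ln2 (ET SP SG V1A V1B V2A V2B F1 F0 : ℕ) : Bool :=
  frc F1 fun F1 => frc F0 fun F0 => band (lnT ET SP SG F1 F0 V1A V1B) (lnT ET SP SG F1 F0 V2A V2B)

/-- the test with given hinges -/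
noncomputable def oneF (um : Bool) (h Hz1 Hz2 Hz3 Hz4 Hz5 Hz6 Hy1 Hy2 Hy3 Hy4 Hy5 Hy6 Xx Rr Mm Nn
    Tt Vv Z Z0 Ww Xh Ee S1 Sgs Ics Sz S0 Icz Ic0 K0 P2 Qy K230 K130 La Lz Lb : ℕ) : Bool :=
  frc (pnorm (pmul (v3ku.t Hz1 Hz2 Hz3 Hz4 Hz5 Hz6 Xx) Sgs)) fun Dz =>
  frc (ku.t Sz Mm Rr Xx) fun Ku =>
  frc (v3ks.t Dz Sgs Ics S0 Icz Ic0 Rr (v3r1.t Rr Ku)) fun Kz =>
  frc (v3ku.t Hy1 Hy2 Hy3 Hy4 Hy5 Hy6 Xx) fun Kk =>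
  frc (v3kd.t (v3p1.t Xh Ee Kk Nn Tt Rr K0 S1) P2 (v3gk.t Qy Tt Mm Rr Xx)) fun K13 =>
  frc (prat 1 2) fun NF =>
  frc (v3bsf.t Ww Z Z0 Rr S1) fun BS =>
  frc (v3gd.t Tt Z Kz K13 K230 K130) fun GM =>
  frc (dsf.t (dln.t pzero Kz K13) (shf.t Rr Nn)) fun DS =>
  frc (gpf.t Rr NF GM) fun GP =>
  frc (bnf.t Xx Mm NF BS GM) fun BN =>
  frc (v3fa1.t La) fun V1A =>
  frc (v3fa2.t La) fun V2A =>
  frc (v3fb1.t Lz Lb) fun V1B =>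
  frc (v3fb2.t Lz Lb) fun V2B =>
  frc (Nat.mod h 32) fun kk => frc (Nat.div h 32) fun tt => frc (Nat.div tt 4) fun c => frc
      (Nat.mod tt 4) fun s =>
  Bool.rec (motive := fun _ => Bool)
    (ckc c Rr fun I => tst (lvs false c I V1A V1B V2A V2B pzero) (lgs false c I V1A V1B V2A V2B
        (padd pzero NF))
      (los false c I V1A V1B V2A V2B NF (padd pzero (pmul NF (m2f.t Mm Nn))) (psub (brf.t Xx Rr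
          Mm Nn (pnorm (psub Z Vv)) NF GM DS BS) (abf.t Xx Mm Nn Z Vv DS GP)))
      kk s Xx Rr Mm Nn Z Vv BN BS DS GP)
    (band um (frc (Nat.sub kk 4) fun k => ckc c Rr fun I => tst (lvs true c I V1A V1B V2A V2B
        pzero) (lgs true c I V1A V1B V2A V2B (padd pzero NF))
      (los true c I V1A V1B V2A V2B NF (padd pzero (pmul NF (m2f.t Mm Nn))) (psub (brf.t Xx Rr Mm
          Nn (pnorm (psub Z Vv)) NF GM DS BS) (abf.t Xx Mm Nn Z Vv DS GP)))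
      k s Xx Rr Mm Nn Z Vv BN BS DS GP))
    (Nat.ble 4 kk)

/-- the leaf -/
noncomputable def leafF (h Nn Pp Mm Rr : ℕ) : Bool :=
  frc (pnorm (pmul Mm Rr)) fun Xx =>
  frc (v3y0.t Nn Rr) fun Y0h =>
  frc (v3yh.t Nn Pp Rr) fun Yh =>
  frc (pnorm (pmul Nn Yh)) fun Yy =>
  frc (pnorm (pmul Nn Y0h)) fun Y0 =>
  frc (pnorm (pmul Rr Yy)) fun Qy =>
  frc (pnorm (pmul Rr Y0)) fun Qy0 =>
  frc (v3vy.t Qy) fun Vy =>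
  frc (pnorm (pmul Yh Vy)) fun Vh =>
  frc (v3v0.t Nn Rr) fun V0h =>
  frc (pnorm (pmul Nn Vh)) fun Vv =>
  frc (pneg Vv) fun Tt =>
  frc (pnorm (psub pone Vh)) fun Zh =>
  frc (pnorm (pmul Nn Zh)) fun Z =>
  frc (pnorm (pmul Nn (pnorm (psub pone V0h)))) fun Z0 =>
  frc (pneg (pnorm (pmul Nn V0h))) fun T0 =>
  frc (pneg Nn) fun Ww =>
  frc (v3ee.t Nn Yh Y0h (pnorm (padd Vh V0h)) Rr) fun Ee =>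
  frc (v3xh.t Nn Zh Z Rr) fun Xh =>
  frc (v3uh.t Xh Yh Vh Tt Rr) fun Uu =>
  Bool.rec (motive := fun _ => Bool) (
  frc (xi1_vc.s Z Z0 pone Rr) fun S1 =>
  frc (sg1_vc.s Z Z0 pone Rr) fun Sgs =>
  frc (ic1_vc.s Z Z0 pone Rr) fun Ics =>
  frc (sg1.t Z Rr) fun Sz =>
  frc (sg1.t Z0 Rr) fun S0 =>
  frc (ic1.t Z Rr) fun Icz =>
  frc (ic1.t Z0 Rr) fun Ic0 =>
  frc (pnorm (pscale 2 3 Yy)) fun Sy =>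
  frc (pnorm (pscale 2 3 Y0)) fun Sy0 =>
  frc (v3hm.t S0 Sz Mm pone) fun Hz1 =>
  frc (v3hm.t Sy Sy0 Mm pone) fun Hy1 =>
  frc (v3hm.t S0 Sz Mm (prat 8 5)) fun Hz2 =>
  frc (v3hm.t Sy Sy0 Mm (prat 8 5)) fun Hy2 =>
  frc (v3hm.t S0 Sz Mm (prat 11 5)) fun Hz3 =>
  frc (v3hm.t Sy Sy0 Mm (prat 11 5)) fun Hy3 =>
  frc (v3hm.t S0 Sz Mm (prat 5 2)) fun Hz4 =>
  frc (v3hm.t Sy Sy0 Mm (prat 5 2)) fun Hy4 =>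
  frc (v3ht.t S0 Sz Rr (prat 1 16)) fun Hz5 =>
  frc (v3ht.t Sy Sy0 Rr (prat 1 16)) fun Hy5 =>
  frc (v3ht.t S0 Sz Rr (prat 1 10)) fun Hz6 =>
  frc (v3ht.t Sy Sy0 Rr (prat 1 10)) fun Hy6 =>
  frc (pnorm (pmul (v3lp.t S0 Sz Mm Rr Xx) Sgs)) fun Lz =>
  frc (v3lz.t Sy Sy0 Mm Rr Xx) fun Ls =>
  frc (kap.t Qy0 T0 Rr Xx) fun K0 =>
  frc (v3p2.t Ee Yh Qy S1) fun P2 =>
  frc (pneg (k1p.t Z0 Mm Rr Xx)) fun K230 =>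
  frc (pnorm (pmul Y0 K0)) fun K130 =>
  frc (v3q33.t Yy Tt Mm Rr Xx) fun Q33 =>
  frc (v3la.t Ee Nn Ls Q33) fun La =>
  frc (v3v6.t Yh Yy Qy Tt Rr Xx) fun V6 =>
  frc (v3lb.t V6 Ee S1 Nn Rr Q33) fun Lb =>
  frc (Nat.mod h 1048576) fun h1 => frc (Nat.div h 1048576) fun jj => frc (Nat.mod jj 8) fun j =>
      frc (Nat.div jj 8) fun h2 =>
  Bool.rec (motive := fun _ => Bool)
    (band (oneF (band (pnn (psub (pscale 167 50 Mm) Sy)) (pnn (psub (prat 29 400) (v3ty.t Sy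
        Rr)))) h1 (sel j 1 Hz1 pzero) (sel j 2 Hz2 pzero) (sel j 3 Hz3 pzero) (sel j 4 Hz4 pzero)
        (sel j 5 Hz5 pzero) (sel j 6 Hz6 pzero) Hy1 Hy2 Hy3 Hy4 Hy5 Hy6 Xx Rr Mm Nn Tt Vv Z Z0 Ww
        Xh Ee S1 Sgs Ics Sz S0 Icz Ic0 K0 P2 Qy K230 K130 La Lz Lb)
      (oneF (band (pnn (psub (pscale 167 50 Mm) Sy)) (pnn (psub (prat 29 400) (v3ty.t Sy Rr))))
          h2 Hz1 Hz2 Hz3 Hz4 Hz5 Hz6 (sel j 1 Hy1 pone) (sel j 2 Hy2 pone) (sel j 3 Hy3 pone)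
          (sel j 4 Hy4 pone) (sel j 5 Hy5 pone) (sel j 6 Hy6 pone) Xx Rr Mm Nn Tt Vv Z Z0 Ww Xh
          Ee S1 Sgs Ics Sz S0 Icz Ic0 K0 P2 Qy K230 K130 La Lz Lb))
    (oneF (band (pnn (psub (pscale 167 50 Mm) Sy)) (pnn (psub (prat 29 400) (v3ty.t Sy Rr)))) h1
        Hz1 Hz2 Hz3 Hz4 Hz5 Hz6 Hy1 Hy2 Hy3 Hy4 Hy5 Hy6 Xx Rr Mm Nn Tt Vv Z Z0 Ww Xh Ee S1 Sgs
        Ics Sz S0 Icz Ic0 K0 P2 Qy K230 K130 La Lz Lb) (Nat.beq j 0))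
  (ppos (pneg Uu)) (Nat.beq h 15)

/-- the test with given hinges -/
noncomputable def oneN (ET SP SG h Hz1 Hz2 Hz3 Hz4 Hz5 Hz6 Hy1 Hy2 Hy3 Hy4 Hy5 Hy6 Xx Rr Mm Nn Tt
    Vv Z Z0 Ww Xh Ee S1 Sgs Ics Sz S0 Icz Ic0 K0 P2 Qy K230 K130 La Lz Lb B0 N230 N130 C12 : ℕ) :
    Bool :=
  frc (pnorm (pmul (v3ku.t Hz1 Hz2 Hz3 Hz4 Hz5 Hz6 Xx) Sgs)) fun Dz =>
  frc (ku.t Sz Mm Rr Xx) fun Ku =>
  frc (v3ks.t Dz Sgs Ics S0 Icz Ic0 Rr (v3r1.t Rr Ku)) fun Kz =>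
  frc (v3ku.t Hy1 Hy2 Hy3 Hy4 Hy5 Hy6 Xx) fun Kk =>
  frc (v3kd.t (v3p1.t Xh Ee Kk Nn Tt Rr K0 S1) P2 (v3gk.t Qy Tt Mm Rr Xx)) fun K13 =>
  frc (pnorm (pmul (v3kv.t Hz1 Hz2 Hz3 Hz4 Hz5 Hz6 Xx) Sgs)) fun Db =>
  frc (kv.t Sz Mm Rr Xx) fun Kv =>
  frc (v3ks.t Db Sgs Ics S0 Icz Ic0 Rr (v3r2.t Xx Rr Kv)) fun Bz =>
  frc (v3kv.t Hy1 Hy2 Hy3 Hy4 Hy5 Hy6 Xx) fun Kb =>
  frc (v3kd.t (v3p1.t Xh Ee Kb Nn Tt Rr B0 S1) P2 (v3gb.t Qy Tt Mm Rr Xx)) fun B13 =>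
  frc (nkf.t Xx K13 B13) fun N13 =>
  frc (nkf.t Xx Kz Bz) fun Nz =>
  frc (v3nfn.t Xx) fun NF =>
  frc (v3bsn.t Ww Z Z0 Mm Rr Xx S1) fun BS =>
  frc (v3gd.t Tt Z Nz N13 N230 N130) fun GM =>
  frc (dsf.t (dln.t pzero Nz N13) (shf.t Rr Nn)) fun DS =>
  frc (gpf.t Rr NF GM) fun GP =>
  frc (bnf.t Xx Mm NF BS GM) fun BN =>
  frc (v3na1.t Tt Rr Xx La) fun V1A =>
  frc (v3na2.t Tt Rr Xx La) fun V2A =>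
  frc (v3nb1.t Ww Tt Rr Xx C12 Lz Lb) fun V1B =>
  frc (v3nb2.t Ww Tt Rr Xx C12 Lz Lb) fun V2B =>
  frc (Nat.mod h 32) fun k => frc (Nat.div h 32) fun s =>
  tst (ln2 ET SP SG V1A V1B V2A V2B pzero) (ln2 ET SP SG V1A V1B V2A V2B NF)
    (ln2 ET SP SG V1A V1B V2A V2B (pmul NF (m2f.t Mm Nn)) (psub (brf.t Xx Rr Mm Nn (pnorm (psub Z
        Vv)) NF GM DS BS) (abf.t Xx Mm Nn Z Vv DS GP)))
    k s Xx Rr Mm Nn Z Vv BN BS DS GP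

/-- the leaf -/
noncomputable def leafN (h Nn Pp Mm Rr : ℕ) : Bool :=
  frc (pnorm (pmul Mm Rr)) fun Xx =>
  frc (v3y0.t Nn Rr) fun Y0h =>
  frc (v3yh.t Nn Pp Rr) fun Yh =>
  frc (pnorm (pmul Nn Yh)) fun Yy =>
  frc (pnorm (pmul Nn Y0h)) fun Y0 =>
  frc (pnorm (pmul Rr Yy)) fun Qy =>
  frc (pnorm (pmul Rr Y0)) fun Qy0 =>
  frc (v3vy.t Qy) fun Vy =>
  frc (pnorm (pmul Yh Vy)) fun Vh =>
  frc (v3v0.t Nn Rr) fun V0h =>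
  frc (pnorm (pmul Nn Vh)) fun Vv =>
  frc (pneg Vv) fun Tt =>
  frc (pnorm (psub pone Vh)) fun Zh =>
  frc (pnorm (pmul Nn Zh)) fun Z =>
  frc (pnorm (pmul Nn (pnorm (psub pone V0h)))) fun Z0 =>
  frc (pneg (pnorm (pmul Nn V0h))) fun T0 =>
  frc (pneg Nn) fun Ww =>
  frc (v3ee.t Nn Yh Y0h (pnorm (padd Vh V0h)) Rr) fun Ee =>
  frc (v3xh.t Nn Zh Z Rr) fun Xh =>
  frc (v3uh.t Xh Yh Vh Tt Rr) fun Uu =>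
  Bool.rec (motive := fun _ => Bool) (
  frc (xi1_vc.s Z Z0 pone Rr) fun S1 =>
  frc (sg1_vc.s Z Z0 pone Rr) fun Sgs =>
  frc (ic1_vc.s Z Z0 pone Rr) fun Ics =>
  frc (sg1.t Z Rr) fun Sz =>
  frc (sg1.t Z0 Rr) fun S0 =>
  frc (ic1.t Z Rr) fun Icz =>
  frc (ic1.t Z0 Rr) fun Ic0 =>
  frc (pnorm (pscale 2 3 Yy)) fun Sy =>
  frc (pnorm (pscale 2 3 Y0)) fun Sy0 =>
  frc (v3hm.t S0 Sz Mm pone) fun Hz1 =>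
  frc (v3hm.t Sy Sy0 Mm pone) fun Hy1 =>
  frc (v3hm.t S0 Sz Mm (prat 8 5)) fun Hz2 =>
  frc (v3hm.t Sy Sy0 Mm (prat 8 5)) fun Hy2 =>
  frc (v3hm.t S0 Sz Mm (prat 11 5)) fun Hz3 =>
  frc (v3hm.t Sy Sy0 Mm (prat 11 5)) fun Hy3 =>
  frc (v3hm.t S0 Sz Mm (prat 5 2)) fun Hz4 =>
  frc (v3hm.t Sy Sy0 Mm (prat 5 2)) fun Hy4 =>
  frc (v3ht.t S0 Sz Rr (prat 1 16)) fun Hz5 =>
  frc (v3ht.t Sy Sy0 Rr (prat 1 16)) fun Hy5 =>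
  frc (v3ht.t S0 Sz Rr (prat 1 10)) fun Hz6 =>
  frc (v3ht.t Sy Sy0 Rr (prat 1 10)) fun Hy6 =>
  frc (pnorm (pmul (v3lp.t S0 Sz Mm Rr Xx) Sgs)) fun Lz =>
  frc (v3lz.t Sy Sy0 Mm Rr Xx) fun Ls =>
  frc (kap.t Qy0 T0 Rr Xx) fun K0 =>
  frc (v3p2.t Ee Yh Qy S1) fun P2 =>
  frc (pneg (k1p.t Z0 Mm Rr Xx)) fun K230 =>
  frc (pnorm (pmul Y0 K0)) fun K130 =>
  frc (bap.t Qy0 T0 Rr Xx) fun B0 =>
  frc (pneg (b1p.t Z0 Mm Rr Xx)) fun B230 =>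
  frc (pnorm (pmul Y0 B0)) fun B130 =>
  frc (l1m.t Ww Mm Rr Xx) fun C12 =>
  frc (nkf.t Xx K230 B230) fun N230 =>
  frc (nkf.t Xx K130 B130) fun N130 =>
  frc (v3q33.t Yy Tt Mm Rr Xx) fun Q33 =>
  frc (v3la.t Ee Nn Ls Q33) fun La =>
  frc (v3v6.t Yh Yy Qy Tt Rr Xx) fun V6 =>
  frc (v3lb.t V6 Ee S1 Nn Rr Q33) fun Lb =>
  frc (v3et.t Nn Z0 Mm Rr Xx) fun ET => frc (v3sg.t Pp Ee) fun SP => frc (pnorm (pmul Rr SP)) fun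
      SG =>
  oneN ET SP SG h Hz1 Hz2 Hz3 Hz4 Hz5 Hz6 Hy1 Hy2 Hy3 Hy4 Hy5 Hy6 Xx Rr Mm Nn Tt Vv Z Z0 Ww Xh Ee
      S1 Sgs Ics Sz S0 Icz Ic0 K0 P2 Qy K230 K130 La Lz Lb B0 N230 N130 C12)
  (ppos (pneg Uu)) (Nat.beq h 15)

noncomputable def T1F (h A B C : ℕ) : Bool := frc pone fun M => leafF h A B M C

noncomputable def T2F (h A B C : ℕ) : Bool := frc pone fun N => leafF h N A B C

noncomputable def T1N (h A B C : ℕ) : Bool := frc pone fun M => leafN h A B M C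

noncomputable def T2N (h A B C : ℕ) : Bool := frc pone fun N => leafN h N A B C

end Pool.Agent.Strip051.LC.E1.V3
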