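import Pool.Agent.Strip051.LC.E1.V3.Br

/-! # Rests near the full period: the row next to the circle of radius `√3`, the slopes of a
    shape -/

set_option linter.unusedVariables false
set_option linter.unusedSimpArgs false

namespace Pool.Agent.Strip051.LC.E1.V3

open Pool.Agent.Strip051.PB
open Pool.Agent.Strip051.LC.E1.Ch
open Pool.Agent.Strip051.LC.E1.G (hg)

section

variable {v : Vl} (g : Geo v)

include g

/-! ### Positions -/

theorem g_ex : v.x = v.m * v.r := g.ok.eXx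

theorem g_sy : v.sy = 2 / 3 * v.y := by
  rw [g.ok.eSy]
  push_cast
  rfl

theorem g_sy0' : v.sy0 = 2 / 3 * v.y0 := by
  rw [g.ok.eSy0]
  push_cast
  rfl

theorem g_s0 : v.s0 = v.n * (D1 v.w v.r + 1 / 2) := by
  have h := g.Hz0
  rw [g.ez0] at h
  rw [g.ok.eS0, sg1_val, g.ez0]
  exact gb_sg1 g.B h

theorem g_sy0 : v.sy0 = v.s0 := by
  rw [g_sy0' g, g_s0 g, g.ok.eY0, g.y0h]
  ring

theorem g_sz : v.sz = E0.G.sg1 v.z v.r := by
  rw [g.ok.eSz, sg1_val]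

theorem g_szle : v.sz ≤ v.s0 := by
  have h := xi1_mono g.Hz g.Hz0 g.zz
  have h2 := g.zz
  rw [g.ok.eSz, g.ok.eS0, sg1_val, sg1_val]
  unfold E0.G.sg1
  linarith

theorem g_syle : v.sy0 ≤ v.sy := by
  rw [g_sy g, g_sy0' g]
  have := g.yl
  linarith

theorem g_sw : -E0.G.sg1 v.w v.r = v.s0 := by
  rw [g_s0 g, sg1_D]
  have := g.ew
  generalize D1 v.w v.r = D
  rw [this]
  ring

theorem g_s0le : v.s0 ≤ 2 * v.n := by
  rw [g_s0 g]
  have := g.B.up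
  have := g.n0
  nlinarith

theorem g_s0nn : 0 ≤ v.s0 := by
  rw [g_s0 g]
  have := g.B.lo
  have := g.n0
  nlinarith

theorem g_xi0 : E0.G.xi1 v.w v.r - E0.G.xi1 v.z0 v.r = v.y0 := by
  have h := g.Hz0
  rw [g.ez0] at h
  rw [g.ez0, gb_xi1 g.B h, xi1_D, g.ok.eY0, g.y0h]
  have := g.ew
  generalize D1 v.w v.r = D
  rw [this]
  ring

/-! ### Small arguments -/

theorem g_T : v.r * (Real.sqrt 3 / 2 * v.sy) ≤ 37 / 200 := by
  refine (rT_le (c := 2 / 3 * (251 / 800)) (by norm_num) ?_).trans (by norm_num)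
  rw [g_sy g]
  have h1 := mul_le_mul_of_nonneg_left g.yu g.r0.le
  have h2 := g.rn
  linarith

theorem g_Ts : v.r < 1 / 1000 → v.r * (Real.sqrt 3 / 2 * v.sy) ≤ 29 / 400 := by
  intro h
  refine (rT_le (c := 2 / 3 * (251 / 20000)) (by norm_num) ?_).trans (by norm_num)
  rw [g_sy g]
  have h1 := mul_le_mul_of_nonneg_left g.yu g.r0.le
  have h2 := g.sm h
  linarith

theorem g_T0 : v.r * (Real.sqrt 3 / 2 * v.s0) ≤ 3 / 25 := by
  refine (rT_le (c := 1 / 8) (by norm_num) ?_).trans (by norm_num)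
  have h1 := mul_le_mul_of_nonneg_left (g_s0le g) g.r0.le
  have h2 := g.rn
  linarith

theorem g_T0s : v.r < 1 / 1000 → v.r * (Real.sqrt 3 / 2 * v.s0) ≤ 29 / 400 := by
  intro h
  refine (rT_le (c := 1 / 200) (by norm_num) ?_).trans (by norm_num)
  have h1 := mul_le_mul_of_nonneg_left (g_s0le g) g.r0.le
  have h2 := g.sm h
  linarith

/-! ### Slopes -/

theorem g_s1 : E0.G.xi1 v.z0 v.r - E0.G.xi1 v.z v.r = (v.z0 - v.z) * v.s1 := by
  have := g.ok.eS1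
  rw [xi1_val, xi1_val] at this
  linarith

theorem g_sgs : v.s0 - v.sz = (v.z0 - v.z) * v.sgs := by
  have := g.ok.eSgs
  rw [g.ok.eSz, g.ok.eS0]
  linarith

theorem g_ics : v.ic0 - v.icz = (v.z0 - v.z) * v.ics := by
  have := g.ok.eIcs
  rw [g.ok.eIcz, g.ok.eIc0]
  linarith

/-- The position of the side bottom-top. -/
theorem g_xi : v.n * v.xh = v.y0 + (v.z0 - v.z) * v.s1 := by
  rw [← g_s1 g, ← g.xi, ← g_xi0 g]
  ring

theorem g_sum : 0 < v.yh + v.y0h := by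
  have h1 : v.n * (v.yh + v.y0h) = v.y + v.y0 := by rw [mul_add, ← g.ok.eYy, ← g.ok.eY0]
  have h2 : 0 < v.y0h := by
    rw [g.y0h]
    have := g.B.lo
    linarith
  have h3 : 0 < v.n * (v.yh + v.y0h) := by
    rw [h1, g.ok.eY0]
    have := mul_pos g.n0 h2
    have := g.y0
    linarith
  exact (mul_pos_iff_of_pos_left g.n0).1 h3

theorem g_hy0 : v.r * v.y0 ^ 2 = 3 * (v.n * v.v0h) - 3 / 4 * v.r * (v.n * v.v0h) ^ 2 := by
  have h := gb_y0 g.B
  have e : v.n * v.v0h = v.n * (v.r * v.n * (D1 v.w v.r ^ 2 + 3 / 4)) := by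
    have h2 := g.ev0
    have h3 := g.B.e
    rw [h2, g.ez0]
    linear_combination (-v.n) * h3
  rw [g.ok.eY0, g.y0h, e]
  exact h

/-- The slope of the circle of radius `√3`. -/
theorem g_ee : v.r * v.n * (v.y - v.y0) = (v.z0 - v.z) * v.ee := by
  have h1 := g.hy
  have h2 := g_hy0 g
  have h3 := g_sum g
  have h4 : v.v - v.n * v.v0h = v.z0 - v.z := by rw [g.ev0, g.ez]; ring
  have h5 : v.n * (v.yh + v.y0h) = v.y + v.y0 := by rw [mul_add, ← g.ok.eYy, ← g.ok.eY0]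
  have h6 : v.ee * (v.yh + v.y0h) = 3 - 3 / 4 * (v.r * (v.v + v.n * v.v0h)) := by
    have k : v.n * (v.vh + v.v0h) = v.v + v.n * v.v0h := by rw [mul_add, ← g.ok.eVv]
    rw [g.ok.eEe, ee_val, mul_assoc, inv_mul_cancel₀ h3.ne', mul_one, k]
  have h7 : v.r * v.n * (v.y - v.y0) * (v.yh + v.y0h) = (v.z0 - v.z) * v.ee * (v.yh + v.y0h) := by
    rw [mul_assoc (v.z0 - v.z), h6, ← h4]
    linear_combination h1 - h2 + v.r * (v.y - v.y0) * h5
  exact mul_right_cancel₀ h3.ne' h7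

theorem g_ee0 : 0 < v.ee := by
  have h3 := g_sum g
  have h6 : v.ee = (3 - 3 / 4 * (v.r * (v.v + v.n * v.v0h))) * (v.yh + v.y0h)⁻¹ := by
    have k : v.n * (v.vh + v.v0h) = v.v + v.n * v.v0h := by rw [mul_add, ← g.ok.eVv]
    rw [g.ok.eEe, ee_val, k]
  rw [h6]
  have k1 : v.v ≤ v.n := by have := g.ez; have := g.zn; linarith
  have k2 : v.n * v.v0h ≤ v.n := by
    have := g.ev0
    have := g.zn
    have := g.zz
    linarith
  have k3 : v.r * (v.v + v.n * v.v0h) ≤ 1 / 8 := by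
    have := mul_le_mul_of_nonneg_left k1 g.r0.le
    have := mul_le_mul_of_nonneg_left k2 g.r0.le
    have := g.rn
    linarith
  have : 0 < 3 - 3 / 4 * (v.r * (v.v + v.n * v.v0h)) := by linarith
  positivity

/-- The distance from the base. -/
theorem g_ze : v.z0 - v.z = v.n ^ 2 * (v.r * v.sp) := by
  have h1 := g_ee g
  have h2 := (g_ee0 g).ne'
  have h3 : v.y - v.y0 = v.n * (5 / 2 * v.p) := by
    rw [g.ok.eYy, g.ok.eY0, g.y0h, g.ok.eYh, yh_val]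
    have : D1 (-v.n) v.r = D1 v.w v.r := by rw [g.ew]
    rw [this]
    ring
  unfold Vl.sp
  rw [sg_val]
  rw [h3] at h1
  field_simp
  linear_combination (-2) * h1

/-! ### The unit circle -/

theorem g_Hz : Hs v.hz v.r v.m v.s0 v.sz := by
  have ok := g.ok
  have e1 := ok.eHz2
  have e2 := ok.eHz3
  have e3 := ok.eHz4
  have e4 := ok.eHz5
  have e5 := ok.eHz6
  push_cast at e1 e2 e3 e4 e5
  exact ⟨ok.eHz1, e1, e2, e3, e4, e5⟩

theorem g_Hy : Hs v.hy v.r v.m v.sy v.sy0 := by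
  have ok := g.ok
  have e1 := ok.eHy2
  have e2 := ok.eHy3
  have e3 := ok.eHy4
  have e4 := ok.eHy5
  have e5 := ok.eHy6
  push_cast at e1 e2 e3 e4 e5
  exact ⟨ok.eHy1, e1, e2, e3, e4, e5⟩

theorem g_kuz : v.kuz = G.kU v.r v.m v.sz := by
  unfold Vl.kuz
  rw [g_ex g, g_sz g]
  exact ku_val g.r0 _ _ fun e => (le_abs_self _).trans (sg1_far g.Hz e)

theorem g_kvz : v.kvz = G.bU v.r v.m v.sz := by
  unfold Vl.kvz
  rw [g_ex g, g_sz g]
  exact kv_val g.r0 _ _ fun e => (le_abs_self _).trans (sg1_far g.Hz e)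

theorem g_g1 : G.g1 v.z v.r = 3 / 4 * v.sz * v.icz := by
  rw [g_sz g, g.ok.eIcz, ic1_val]
  unfold G.g1
  rw [div_eq_mul_inv]

theorem g_g10 : G.g1 v.z0 v.r = 3 / 4 * v.s0 * v.ic0 := by
  rw [g.ok.eS0, g.ok.eIc0, ic1_val, sg1_val]
  unfold G.g1
  rw [div_eq_mul_inv]

theorem g_k230 : v.k230 = -(G.kU v.r v.m v.s0 * (1 / 2 - v.r * (3 / 4 * v.s0 * v.ic0)) -
    3 / 4 * v.s0 * v.ic0) := by
  rw [g.ok.eK230, g_ex g, k1p_val g.Hz0]
  unfold G.C1u
  simp only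
  rw [g_g10 g, g.ok.eS0, sg1_val]

theorem g_b230 : v.b230 = -(G.bU v.r v.m v.s0 * (1 / 2 - v.r * (3 / 4 * v.s0 * v.ic0)) -
    G.B0 v.x * (3 / 4 * v.s0 * v.ic0)) := by
  rw [g.ok.eB230, g_ex g, b1p_val g.Hz0]
  unfold G.C1u
  simp only
  rw [g_g10 g, g.ok.eS0, sg1_val]

theorem g_k23 : (-G.C1u v.r v.m v.z).k = v.k230 + (v.z0 - v.z) * v.kz v.hz := by
  have e1 := g_sgs g
  have e2 := g_ics g
  have e3 := ku_slo g.r0 (g_szle g) (g_Hz g)
  rw [← g_ex g] at e3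
  unfold Vl.kz Vl.dz
  rw [neg_k, g_k230 g, ks_val, r1_val, g_kuz g]
  unfold G.C1u
  simp only
  rw [g_g1 g, ← g_sz g]
  generalize v3ku.v v.hz.h1 v.hz.h2 v.hz.h3 v.hz.h4 v.hz.h5 v.hz.h6 v.x = d at *
  rw [e1] at e3
  generalize G.kU v.r v.m v.s0 = K0 at *
  generalize G.kU v.r v.m v.sz = K1 at *
  linear_combination (1 / 2 - 3 / 4 * v.s0 * v.ic0 * v.r) * e3 -
    3 / 4 * (1 + v.r * K1) * v.icz * e1 - 3 / 4 * (1 + v.r * K1) * v.s0 * e2

theorem g_b23 : (-G.C1u v.r v.m v.z).b = v.b230 + (v.z0 - v.z) * v.bz v.hz := by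
  have e1 := g_sgs g
  have e2 := g_ics g
  have e3 := kv_slo g.r0 (g_szle g) (g_Hz g)
  rw [← g_ex g] at e3
  unfold Vl.bz Vl.db
  rw [neg_b, g_b230 g, ks_val, r2_val, g_kvz g]
  unfold G.C1u
  simp only
  rw [g_g1 g, ← g_sz g, ← g_ex g]
  generalize v3kv.v v.hz.h1 v.hz.h2 v.hz.h3 v.hz.h4 v.hz.h5 v.hz.h6 v.x = d at *
  rw [e1] at e3
  generalize G.bU v.r v.m v.s0 = K0 at *
  generalize G.bU v.r v.m v.sz = K1 at *
  generalize G.B0 v.x = B at *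
  linear_combination (1 / 2 - 3 / 4 * v.s0 * v.ic0 * v.r) * e3 -
    3 / 4 * (B + v.r * K1) * v.icz * e1 - 3 / 4 * (B + v.r * K1) * v.s0 * e2

theorem g_c23 : (-G.C1u v.r v.m v.z).c v.r =
    -(G.LAM v.x * (G.aL v.x v.r v.m v.s0 - G.bL v.x v.r v.m v.s0)) + (v.z0 - v.z) * v.lz := by
  have e1 := g_sgs g
  have e3 := lp_slo (m := v.m) g.r0 (g_szle g) (g_T0s g)
  rw [← g_ex g] at e3
  rw [neg_c, g.ok.eLz]
  unfold Sv.c G.C1u
  simp only
  rw [← g_sz g, ← g_ex g]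
  rw [e1] at e3
  linear_combination e3

end

end Pool.Agent.Strip051.LC.E1.V3
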