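import Pool.Agent.Strip051.LC.E1.V3.Sh

/-! # Rests near the full period: the row next to the circle of radius `√3`, the slopes of the
    side bottom-top -/

set_option linter.unusedVariables false
set_option linter.unusedSimpArgs false

namespace Pool.Agent.Strip051.LC.E1.V3

open Pool.Agent.Strip051.PB
open Pool.Agent.Strip051.LC.E1.Ch
open Pool.Agent.Strip051.LC.E1.G (hg)

theorem mix_eq {y xi V A K O : ℝ} (hy : y ≠ 0) (h : 1 - A * V ≠ 0) :
    y * V * O + (y * K - y * V * O) * ((xi - y * V * A) / (y - y * V * A)) =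
      K * xi + (y - xi) * V * ((O - K * A) * (1 - A * V)⁻¹) := by
  have e : y - y * V * A = y * (1 - A * V) := by ring
  rw [e]
  have e2 : (1 - A * V) * (1 - A * V)⁻¹ = 1 := mul_inv_cancel₀ h
  have e3 : (xi - y * V * A) / (y * (1 - A * V)) = (xi - y * V * A) * y⁻¹ * (1 - A * V)⁻¹ := by
    rw [div_eq_mul_inv, mul_inv]
    ring
  have e4 : y * y⁻¹ = 1 := mul_inv_cancel₀ hy
  rw [e3]
  generalize (1 - A * V)⁻¹ = I at *
  linear_combination ((K - V * O) * (xi - y * V * A) * I) * e4 +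
    (-(y * V * O) + K * xi) * e2

section

variable {v : Vl} (g : Geo v)

include g

theorem g_q : v.q = v.r * v.y := g.ok.eQy

theorem g_q0 : v.q0 = v.r * v.y0 := g.ok.eQy0

theorem g_vyq : v.vy = v.r * v.y * v3cq.v v.q := by
  rw [g.ok.eVy, vy_val, g_q g]

theorem g_c : 0 < 2 - v.r * v.v / 2 := by
  have h1 : v.v ≤ v.n := by have := g.ez; have := g.zn; linarith
  have := mul_le_mul_of_nonneg_left h1 g.r0.le
  have := g.rn
  linarith

theorem g_cq : 0 < v3cq.v v.q ∧ v3cq.v v.q ≤ 7 / 20 := by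
  have h1 := g.cq
  have h2 := g_c g
  have h3 : v.v ≤ v.n := by have := g.ez; have := g.zn; linarith
  have h4 := mul_le_mul_of_nonneg_left h3 g.r0.le
  have h5 := g.rn
  have h6 : 0 < v3cq.v v.q * (2 - v.r * v.v / 2) := by rw [h1]; norm_num
  have h7 : 0 < v3cq.v v.q := (mul_pos_iff_of_pos_right h2).1 h6
  refine ⟨h7, ?_⟩
  nlinarith

theorem g_vy0 : 0 < v.vy ∧ v.vy ≤ 1 / 8 := by
  have h1 := g_cq g
  have h2 := mul_le_mul_of_nonneg_left g.yu g.r0.le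
  have h3 := g.rn
  have h4 : 0 < v.r * v.y := mul_pos g.r0 g.y0
  have h5 : v.r * v.y ≤ 251 / 800 := by linarith
  rw [g_vyq g]
  constructor
  · exact mul_pos h4 h1.1
  · have := mul_le_mul h5 h1.2 h1.1.le (by norm_num)
    linarith

theorem g_den : 0 < 1 - D1 v.t v.r * v.vy := by
  have h1 := g_vy0 g
  have h2 := D1_b g.Ht
  have := mul_le_mul h2.2 h1.2 h1.1.le (by norm_num)
  linarith

theorem g_x1t : E0.G.xi1 v.t v.r = v.y * v.vy * D1 v.t v.r := by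
  rw [xi1_D]
  have h := g.et
  have h2 := g.evy
  generalize D1 v.t v.r = A
  rw [h, h2]
  ring

/-- The positions relative to the base. -/
theorem g_yx : v.r * v.n * (v.y - v.n * v.xh) = (v.z0 - v.z) * (v.ee - v.r * v.n * v.s1) := by
  rw [g_xi g]
  linear_combination g_ee g

theorem g_yxV : (v.y - v.n * v.xh) * v.vy = (v.z0 - v.z) * v.p2 := by
  have h1 := g_yx g
  have h2 : v.vy = v.r * v.n * (v.yh * v3cq.v v.q) := by
    rw [g_vyq g, g.ok.eYy]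
    ring
  have h3 : v.p2 = v.ee * (v.yh * v3cq.v v.q) - v.s1 * v.vy := by
    rw [g.ok.eP2, p2_val, ← g.ok.eVy]
  rw [h3]
  have h4 : (v.y - v.n * v.xh) * v.vy = v.r * v.n * (v.y - v.n * v.xh) * (v.yh * v3cq.v v.q) := by
    rw [h2]
    ring
  rw [h4, h1]
  linear_combination (-(v.z0 - v.z) * v.s1) * (h2 * -1)

theorem g_i2 : 0 < 2 + v.r * v.t / 2 := by
  have := g_c g
  rw [g.et]
  linarith

theorem g_t0 : v.t0 = v.t + (v.z0 - v.z) := by
  rw [g.ok.eT0, g.et, g.ev0, g.ez]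
  ring

theorem g_i20 : 0 < 2 + v.r * v.t0 / 2 := by
  have := g_i2 g
  rw [g_t0 g]
  have h1 : 0 ≤ v.z0 - v.z := by have := g.zz; linarith
  have := mul_nonneg g.r0.le h1
  linarith

/-- The slope of the factor. -/
theorem fac_slo {R R0 ks : ℝ} (h : R - R0 = v.r * (ks * (v.sy - v.sy0))) :
    (R * (2 + v.r * v.t / 2)⁻¹ - R0 * (2 + v.r * v.t0 / 2)⁻¹) * (v.n * v.xh) =
      (v.z0 - v.z) * ((2 / 3 * (v.xh * v.ee) * ks + v.r * (v.n * v.xh) *
        (R0 * (2 + v.r * v.t0 / 2)⁻¹) / 2) * (2 + v.r * v.t / 2)⁻¹) := by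
  have h1 := g_ee g
  have h2 : v.sy - v.sy0 = 2 / 3 * (v.y - v.y0) := by rw [g_sy g, g_sy0' g]; ring
  have i1 : (2 + v.r * v.t / 2) * (2 + v.r * v.t / 2)⁻¹ = 1 := mul_inv_cancel₀ (g_i2 g).ne'
  have i2 : (2 + v.r * v.t0 / 2) * (2 + v.r * v.t0 / 2)⁻¹ = 1 := mul_inv_cancel₀ (g_i20 g).ne'
  have h3 := g_t0 g
  rw [h2] at h
  have h4 : v.n * (R - R0) = 2 / 3 * ks * ((v.z0 - v.z) * v.ee) := by
    rw [h]
    linear_combination (2 / 3 * ks) * h1
  generalize (2 + v.r * v.t / 2)⁻¹ = I at *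
  generalize (2 + v.r * v.t0 / 2)⁻¹ = I0 at *
  have h5 : I - I0 = I * I0 * (v.r * (v.z0 - v.z) / 2) := by
    rw [h3] at i2
    linear_combination (-I) * i2 + I0 * i1
  linear_combination (v.xh * I) * h4 + (R0 * (v.n * v.xh)) * h5

/-! ### The kernel -/

theorem g_kU : G.kU' v.r v.m v.sy = G.kU v.r v.m v.sy :=
  kU'_eq g.r0 ((g_T g).trans (by norm_num))

theorem g_kU0 : G.kU' v.r v.m v.sy0 = G.kU v.r v.m v.s0 := by
  rw [g_sy0 g]
  exact kU'_eq g.r0 ((g_T0 g).trans (by norm_num))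

theorem g_bU : G.bU' v.r v.m v.sy = G.bU v.r v.m v.sy :=
  bU'_eq g.r0 ((g_T g).trans (by norm_num))

theorem g_bU0 : G.bU' v.r v.m v.sy0 = G.bU v.r v.m v.s0 := by
  rw [g_sy0 g]
  exact bU'_eq g.r0 ((g_T0 g).trans (by norm_num))

theorem g_kap : kap.v v.q v.t v.r v.x =
    (1 + v.r * G.kU v.r v.m v.sy) * (2 + v.r * v.t / 2)⁻¹ := by
  rw [g_q g, g_ex g, kap_val g.r0, ← g_sy g, g_kU g]

theorem g_k0 : v.k0 = (1 + v.r * G.kU v.r v.m v.s0) * (2 + v.r * v.t0 / 2)⁻¹ := by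
  rw [g.ok.eK0, g_q0 g, g_ex g, kap_val g.r0, ← g_sy0' g, g_kU0 g]

theorem g_bap : bap.v v.q v.t v.r v.x =
    (G.B0 v.x + v.r * G.bU v.r v.m v.sy) * (2 + v.r * v.t / 2)⁻¹ := by
  rw [g_q g, g_ex g, bap_val g.r0, ← g_sy g, g_bU g]

theorem g_b0 : v.b0 = (G.B0 v.x + v.r * G.bU v.r v.m v.s0) * (2 + v.r * v.t0 / 2)⁻¹ := by
  rw [g.ok.eB0, g_q0 g, g_ex g, bap_val g.r0, ← g_sy0' g, g_bU0 g]

theorem g_W3k : (G.W3 v.r v.m v.t).k = v.y * v.vy * v3ok.v v.t v.m v.x := by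
  have ht : v.t ≤ 0 := by rw [g.et]; have := g.v0; linarith
  have h := ok_val (r := v.r) g.m0 ht
  rw [← g_ex g] at h
  show G.wK3 v.r v.m (-v.t) = _
  rw [← h]
  have h1 := g.et
  have h2 := g.evy
  generalize v3ok.v v.t v.m v.x = O
  rw [h1, h2]
  ring

theorem g_W3b : (G.W3 v.r v.m v.t).b = v.y * v.vy * v3ob.v v.t v.m v.x := by
  have ht : v.t ≤ 0 := by rw [g.et]; have := g.v0; linarith
  have h := ob_val (r := v.r) g.m0 ht
  rw [← g_ex g] at h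
  show G.wB3 v.r v.m (-v.t) = _
  rw [← h]
  have h1 := g.et
  have h2 := g.evy
  generalize v3ob.v v.t v.m v.x = O
  rw [h1, h2]
  ring

theorem g_C33k : (G.C33 v.r v.m v.t).k = v.y * kap.v v.q v.t v.r v.x := by
  rw [g_kap g]
  unfold G.C33
  simp only
  rw [g.ey, ← g_sy g, g_kU g, div_eq_mul_inv]
  ring

theorem g_C33b : (G.C33 v.r v.m v.t).b = v.y * bap.v v.q v.t v.r v.x := by
  rw [g_bap g]
  unfold G.C33
  simp only
  rw [g.ey, ← g_sy g, g_bU g, ← g_ex g, div_eq_mul_inv]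
  ring

theorem g_k13 : (G.V3 (v.n * v.xh) v.r v.m v.t).k = v.k130 + (v.z0 - v.z) * v.k13 v.hy := by
  unfold G.V3
  simp only
  rw [g_W3k g, g_C33k g, g.ey, g_x1t g,
    mix_eq g.y0.ne' (g_den g).ne', g_yxV g]
  have e3 := ku_slo g.r0 (g_syle g) (g_Hy g)
  rw [← g_ex g] at e3
  have e4 := fac_slo g (R := 1 + v.r * G.kU v.r v.m v.sy) (R0 := 1 + v.r * G.kU v.r v.m v.s0)
    (ks := v.kk v.hy) (by
      rw [← g_sy0 g]
      unfold Vl.kk
      rw [← e3]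
      ring)
  rw [← g_kap g, ← g_k0 g] at e4
  unfold Vl.k13
  rw [kd_val, p1_val, gk_val, g.ok.eK130, ← g.ok.eVy]
  have e5 := g_xi g
  linear_combination e4 + v.k0 * e5

theorem g_b13 : (G.V3 (v.n * v.xh) v.r v.m v.t).b = v.b130 + (v.z0 - v.z) * v.b13 v.hy := by
  unfold G.V3
  simp only
  rw [g_W3b g, g_C33b g, g.ey, g_x1t g, mix_eq g.y0.ne' (g_den g).ne', g_yxV g]
  have e3 := kv_slo g.r0 (g_syle g) (g_Hy g)
  rw [← g_ex g] at e3
  have e4 := fac_slo g (R := G.B0 v.x + v.r * G.bU v.r v.m v.sy)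
    (R0 := G.B0 v.x + v.r * G.bU v.r v.m v.s0) (ks := v.kb v.hy) (by
      rw [← g_sy0 g]
      unfold Vl.kb
      rw [← e3]
      ring)
  rw [← g_bap g, ← g_b0 g] at e4
  unfold Vl.b13
  rw [kd_val, p1_val, gb_val, g.ok.eB130, ← g.ok.eVy]
  have e5 := g_xi g
  linear_combination e4 + v.b0 * e5

end

/-! ### The levels -/

theorem lz_zero {s s' m r x : ℝ} (hr : 0 < r) (h : s' ≤ s) (h1 : s - 167 / 50 * m ≤ 0)
    (h2 : r * (Real.sqrt 3 / 2 * s) ≤ 29 / 400) : v3lz.v s s' m r x = 0 := by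
  simp only [v3lz, v3lz_7, v3lz_8, v3lz_9, v3lz_10, v3lz_16, v3lz_30, v3lz_32, v3lz_35, v3lz_37,
    v3lz_38, v3lz_54, v3lz_55, v3lz_71, v3lz_72, v3lz_88, v3lz_89, lmf_val]
  push_cast
  rw [hs_zero (a := s - 167 / 50 * m) h1,
    hs_zero (a := r * (Real.sqrt 3 / 2 * s) - 29 / 400) (by linarith),
    hs_zero (a := r * (Real.sqrt 3 / 2 * s) - 9 / 100) (by linarith),
    hs_zero (a := r * (Real.sqrt 3 / 2 * s) - 3 / 25) (by linarith),
    hs_zero (a := r * (Real.sqrt 3 / 2 * s) - 9 / 50) (by linarith)]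
  ring

section

variable {v : Vl} (g : Geo v)

include g

theorem g_la0 (h1 : v.sy - 167 / 50 * v.m ≤ 0) (h2 : v.r * (Real.sqrt 3 / 2 * v.sy) ≤ 29 / 400) :
    v.ls = 0 ∧ v.q33 = 0 := by
  constructor
  · rw [g.ok.eLs]
    exact lz_zero g.r0 (g_syle g) h1 h2
  · rw [g.ok.eQ33, q33_val, if_pos]
    rw [← g_sy g]
    exact h1

theorem g_hum (h1 : 0 ≤ 167 / 50 * v.m - v.sy) (h2 : 0 ≤ 29 / 400 - v3ty.v v.sy v.r) :
    v.la = 0 := by
  rw [ty_val] at h2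
  obtain ⟨e1, e2⟩ := g_la0 g (by linarith) (by linarith)
  rw [g.ok.eLa, la_val, e1, e2]
  ring

theorem g_la : v.la = v.ee * v.n⁻¹ * (2 / 3 * v.ls - 5 / 2 * v.q33) := by
  rw [g.ok.eLa, la_val]
  rcases le_or_gt (1 / 2) v.n with h | h
  · rw [max_eq_left h]
  · have hm : v.m = 1 := by
      rcases g.nm with h1 | h1
      · rw [h1] at h; norm_num at h
      · exact h1
    have h1 := g.yu
    obtain ⟨e1, e2⟩ := g_la0 g (by rw [g_sy g, hm]; linarith) (by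
      refine (rT_le (c := 1 / 40 * (2 / 3 * (251 / 100))) (by norm_num) ?_).trans (by norm_num)
      have h3 := g.x1
      rw [hm, one_mul] at h3
      have h4 : v.sy ≤ 2 / 3 * (251 / 100) := by rw [g_sy g]; linarith
      exact (mul_le_mul_of_nonneg_left h4 g.r0.le).trans
        (mul_le_mul_of_nonneg_right h3 (by norm_num)))
    rw [e1, e2]
    ring

theorem g_aL0 : G.aL' v.x v.r v.m v.s0 = G.aL v.x v.r v.m v.s0 := by
  unfold G.aL'
  rw [hgz (a := 9) (b := 50) g.r0 (by norm_num) ((g_T0 g).trans (by norm_num))]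
  ring

theorem g_bL0 : G.bL' v.x v.r v.m v.s0 = G.bL v.x v.r v.m v.s0 := by
  unfold G.bL'
  rw [hgz (a := 9) (b := 50) g.r0 (by norm_num) ((g_T0 g).trans (by norm_num))]
  ring

/-- The level on the circle of radius `√3`. -/
theorem g_L : G.LAM v.x * (2 * G.bL' v.x v.r v.m v.sy - G.aL' v.x v.r v.m v.sy) =
    v.q33 * (v.y - v.y * v.vy * D1 v.t v.r) := by
  rw [g.ok.eQ33, q33_val, ← g_sy g]
  rcases le_or_gt (v.sy - 167 / 50 * v.m) 0 with h | h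
  · rw [if_pos h, zero_mul]
    have hT : v.r * (Real.sqrt 3 / 2 * v.sy) ≤ 29 / 400 := by
      have h1 : v.r * v.sy ≤ 167 / 50 * (1 / 40) := by
        have h2 : v.sy ≤ 167 / 50 * v.m := by linarith
        have h3 := mul_le_mul_of_nonneg_left h2 g.r0.le
        have h4 := g.x1
        linarith
      exact (rT_le (by norm_num) h1).trans (by norm_num)
    unfold G.aL' G.bL' G.aL G.bL
    rw [hg_le h, hgz (a := 29) (b := 400) g.r0 (by norm_num) (hT.trans (by norm_num)),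
      hgz (a := 9) (b := 100) g.r0 (by norm_num) (hT.trans (by norm_num)),
      hgz (a := 3) (b := 25) g.r0 (by norm_num) (hT.trans (by norm_num)),
      hgz (a := 9) (b := 50) g.r0 (by norm_num) (hT.trans (by norm_num))]
    ring
  · rw [if_neg h.not_ge, y1_val, g_x1t g, g_ex g, l3_val g.r0 (g_Ts g), mul_assoc,
      inv_mul_cancel₀, mul_one]
    have : v.y - v.y * v.vy * D1 v.t v.r = v.y * (1 - D1 v.t v.r * v.vy) := by ring
    rw [this]
    exact (mul_pos g.y0 (g_den g)).ne'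

/-- The level on the curve `1.6`. -/
theorem g_v6 : G.v6 v.r v.m v.t = v.r * v.n * v.v6 * (v.y - v.y * v.vy * D1 v.t v.r) := by
  have h1 := g_den g
  have h2 : v.y - v.y * v.vy * D1 v.t v.r = v.y * (1 - D1 v.t v.r * v.vy) := by ring
  have h3 : (1 - D1 v.t v.r * v.vy) * (1 - D1 v.t v.r * v.vy)⁻¹ = 1 := mul_inv_cancel₀ h1.ne'
  unfold G.v6 G.xv6
  rw [g.ok.eV6, v6h_val, hh_val, ← g.ok.eVy, g_x1t g, g.ey, g_ex g]
  have e1 : -v.t = v.y * (v.r * v.y * v3cq.v v.q) := by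
    rw [← g_vyq g, ← g.evy, g.et]
    ring
  rw [e1]
  have e2 : v.y = v.n * v.yh := g.ok.eYy
  rw [h2]
  generalize (1 - D1 v.t v.r * v.vy)⁻¹ = I at *
  generalize D1 v.t v.r = A at *
  generalize v3cq.v v.q = c at *
  linear_combination (G.LAM (v.m * v.r) * (2028 / 125 * (v.m * v.r) + 611 / 6250) *
    (v.r * v.y ^ 2 * c) * (A * v.vy + 3 / 5 * (1 - A * v.vy))) * e2 -
    (G.LAM (v.m * v.r) * (2028 / 125 * (v.m * v.r) + 611 / 6250) *
    (v.r * v.n * v.yh * v.y ^ 2 * c) * (A * v.vy)) * h3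

theorem g_c13 : (G.V3 (v.n * v.xh) v.r v.m v.t).c v.r =
    G.LAM v.x * (2 * G.bL v.x v.r v.m v.s0 - G.aL v.x v.r v.m v.s0) +
      (v.z0 - v.z) * (v.la / v.r + v.lb) := by
  have h1 := g_den g
  have e0 : v.y - v.y * v.vy * D1 v.t v.r ≠ 0 := by
    have h2 : v.y - v.y * v.vy * D1 v.t v.r = v.y * (1 - D1 v.t v.r * v.vy) := by ring
    rw [h2]
    exact (mul_pos g.y0 h1).ne'
  have e1 := lz_slo (m := v.m) g.r0 (g_syle g) (g_Ts g)
  rw [← g_ex g, g_sy0 g, g_aL0 g, g_bL0 g] at e1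
  have e1' : v.ls = v3lz.v v.sy v.s0 v.m v.r v.x := by rw [g.ok.eLs, g_sy0 g]
  rw [← e1'] at e1
  have e2 := g_L g
  have e3 := g_v6 g
  have e4 := g_la g
  have e5 := g_yx g
  have e6 := g_ee g
  have e7 : v.sy - v.s0 = 2 / 3 * (v.y - v.y0) := by rw [← g_sy0 g, g_sy g, g_sy0' g]; ring
  have e8 : v.lb = 5 / 2 * (v.v6 * (v.ee - v.s1 * (v.n * v.r)) + v.s1 * v.q33) := by
    rw [g.ok.eLb, lb_val]
  unfold Sv.c G.V3 G.C33
  simp only
  rw [g.ey, ← g_sy g, ← g_ex g, g_x1t g, e3, e2, zero_div, zero_add]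
  rw [e2] at e1
  rw [e7] at e1
  obtain ⟨d, hd⟩ : ∃ d, d = v.y - v.y * v.vy * D1 v.t v.r := ⟨_, rfl⟩
  rw [← hd] at e0 e1 ⊢
  have k1 : v.n * v.xh - v.y * v.vy * D1 v.t v.r = d - (v.y - v.n * v.xh) := by rw [hd]; ring
  have k2 : (v.q33 * d - v.r * v.n * v.v6 * d) *
      (5 / 2 * ((v.n * v.xh - v.y * v.vy * D1 v.t v.r) / d - 3 / 5)) =
      (v.q33 - v.r * v.n * v.v6) * (d - 5 / 2 * (v.y - v.n * v.xh)) := by
    rw [k1]
    field_simp
    ring
  rw [k2]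
  have hr := g.r0.ne'
  have hn := g.n0.ne'
  have i1 : v.r * v.r⁻¹ = 1 := mul_inv_cancel₀ hr
  have i2 : v.n * v.n⁻¹ = 1 := mul_inv_cancel₀ hn
  have k3 : v.la * v.n = v.ee * (2 / 3 * v.ls - 5 / 2 * v.q33) := by
    rw [e4]
    linear_combination (v.ee * (2 / 3 * v.ls - 5 / 2 * v.q33)) * i2
  have k4 : v.r * v.n * (v.r * v.n * v.v6 * d + (v.q33 - v.r * v.n * v.v6) *
      (d - 5 / 2 * (v.y - v.n * v.xh))) = v.r * v.n *
      (G.LAM v.x * (2 * G.bL v.x v.r v.m v.s0 - G.aL v.x v.r v.m v.s0) +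
      (v.z0 - v.z) * (v.la / v.r + v.lb)) := by
    rw [e8, div_eq_mul_inv]
    linear_combination (v.r * v.n) * e1 + (2 / 3 * v.ls) * e6 -
      (5 / 2 * (v.q33 - v.r * v.n * v.v6)) * e5 - (v.z0 - v.z) * k3 -
      ((v.z0 - v.z) * v.la * v.n) * i1
  exact mul_left_cancel₀ (mul_ne_zero hr hn) k4

end

end Pool.Agent.Strip051.LC.E1.V3
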