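import Pool.Agent.Strip051.LC.E1.V3.Lf
import Pool.Agent.Strip051.LC.E1.V0.Val

/-! # Rests near the full period: the row next to the circle of radius `√3`, slopes -/

set_option linter.unusedVariables false
set_option linter.unusedSimpArgs false

namespace Pool.Agent.Strip051.LC.E1.V3

open Pool.Agent.Strip051.PB
open Pool.Agent.Strip051.LC.E1.Ch
open Pool.Agent.Strip051.LC.E1.G (hg)

/-! ### Hinges -/

theorem hs_zero {a b : ℝ} (h : a ≤ 0) : v3hs.v a b = 0 := by
  show max a 0 * (max a 0 + max (-b) 0)⁻¹ = 0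
  rw [max_eq_right h, zero_mul]

theorem hs_one {a b : ℝ} (ha : 0 < a) (hb : 0 ≤ b) : v3hs.v a b = 1 := by
  show max a 0 * (max a 0 + max (-b) 0)⁻¹ = 1
  rw [max_eq_left ha.le, max_eq_right (by linarith : -b ≤ 0), add_zero, mul_inv_cancel₀ ha.ne']

/-- The slope of the positive part. -/
theorem hs_eq {a b : ℝ} (h : b ≤ a) : max a 0 - max b 0 = v3hs.v a b * (a - b) := by
  rcases le_or_gt a 0 with ha | ha
  · rw [hs_zero ha, max_eq_right ha, max_eq_right (h.trans ha)]
    ring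
  · rcases le_or_gt 0 b with hb | hb
    · rw [hs_one ha hb, max_eq_left ha.le, max_eq_left hb]
      ring
    · show _ = max a 0 * (max a 0 + max (-b) 0)⁻¹ * (a - b)
      rw [max_eq_left ha.le, max_eq_right hb.le, max_eq_left (by linarith : 0 ≤ -b)]
      have : a + -b ≠ 0 := by linarith
      field_simp
      ring

theorem hm_eq {s s' m k : ℝ} (h : s' ≤ s) : hg (s - m * k) - hg (s' - m * k) =
    v3hm.v s s' m k * (s - s') := by
  simp only [v3hm, v3hm_4]
  have := hs_eq (a := s - m * k) (b := s' - m * k) (by linarith)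
  unfold hg
  rw [this]
  ring

theorem ht_val (s s' r k : ℝ) :
    v3ht.v s s' r k = v3hs.v (r * (Real.sqrt 3 / 2 * s) - k) (r * (Real.sqrt 3 / 2 * s') - k) := by
  simp only [v3ht, v3ht_6]
  push_cast
  rfl

theorem rT_mono {r s s' : ℝ} (hr : 0 < r) (h : s' ≤ s) :
    r * (Real.sqrt 3 / 2 * s') ≤ r * (Real.sqrt 3 / 2 * s) := by
  have := sh_nn
  exact mul_le_mul_of_nonneg_left (mul_le_mul_of_nonneg_left h this) hr.le

theorem hg_T {r X a b : ℝ} (hr : 0 < r) (hb : 0 < b) :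
    hg (X - a / (b * r)) = max (r * X - a / b) 0 / r := by
  unfold hg
  rw [eq_div_iff hr.ne', max_mul_of_nonneg _ _ hr.le, zero_mul]
  congr 1
  field_simp

theorem ht_eq {r s s' a b : ℝ} (hr : 0 < r) (hb : 0 < b) (h : s' ≤ s) :
    hg (Real.sqrt 3 / 2 * s - a / (b * r)) - hg (Real.sqrt 3 / 2 * s' - a / (b * r)) =
      Real.sqrt 3 / 2 * v3ht.v s s' r (a / b) * (s - s') := by
  rw [hg_T hr hb, hg_T hr hb, ht_val, ← sub_div, hs_eq (by have := rT_mono hr h; linarith)]
  field_simp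
  ring

/-- Six slopes between `s` and `s'`. -/
structure Hs (a : H6) (r m s s' : ℝ) : Prop where
  h1 : a.h1 = v3hm.v s s' m 1
  h2 : a.h2 = v3hm.v s s' m (8 / 5)
  h3 : a.h3 = v3hm.v s s' m (11 / 5)
  h4 : a.h4 = v3hm.v s s' m (5 / 2)
  h5 : a.h5 = v3ht.v s s' r (1 / 16)
  h6 : a.h6 = v3ht.v s s' r (1 / 10)

section

variable {a : H6} {r m s s' : ℝ} (hr : 0 < r) (h : s' ≤ s) (H : Hs a r m s s')

include hr h H

theorem ku_slo : G.kU r m s - G.kU r m s' =
    v3ku.v a.h1 a.h2 a.h3 a.h4 a.h5 a.h6 (m * r) * (s - s') := by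
  have e1 := hm_eq (m := m) (k := 1) h
  have e2 := hm_eq (m := m) (k := 8 / 5) h
  have e3 := hm_eq (m := m) (k := 11 / 5) h
  have e4 := hm_eq (m := m) (k := 5 / 2) h
  have e5 := ht_eq (a := 1) (b := 16) hr (by norm_num) h
  have e6 := ht_eq (a := 1) (b := 10) hr (by norm_num) h
  rw [← H.h1, mul_one] at e1
  rw [← H.h2, mul_comm m] at e2
  rw [← H.h3, mul_comm m] at e3
  rw [← H.h4, mul_comm m] at e4
  rw [← H.h5] at e5
  rw [← H.h6] at e6
  simp only [v3ku, v3ku_8, v3ku_10, v3ku_13, u2k, u2k_3, u4k, u4k_2, prf_val, eh_val]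
  push_cast
  unfold G.kU G.uR
  simp only [G.u1, G.u2, G.u3, G.u4, G.u5, G.u6, G.u7]
  generalize hg (s - m) = p1 at *
  generalize hg (s' - m) = q1 at *
  generalize hg (s - 8 / 5 * m) = p2 at *
  generalize hg (s' - 8 / 5 * m) = q2 at *
  generalize hg (s - 11 / 5 * m) = p3 at *
  generalize hg (s' - 11 / 5 * m) = q3 at *
  generalize hg (s - 5 / 2 * m) = p4 at *
  generalize hg (s' - 5 / 2 * m) = q4 at *
  generalize hg (Real.sqrt 3 / 2 * s - 1 / (16 * r)) = p5 at *
  generalize hg (Real.sqrt 3 / 2 * s' - 1 / (16 * r)) = q5 at *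
  generalize hg (Real.sqrt 3 / 2 * s - 1 / (10 * r)) = p6 at *
  generalize hg (Real.sqrt 3 / 2 * s' - 1 / (10 * r)) = q6 at *
  have f1 : p1 = q1 + a.h1 * (s - s') := by linarith
  have f2 : p2 = q2 + a.h2 * (s - s') := by linarith
  have f3 : p3 = q3 + a.h3 * (s - s') := by linarith
  have f4 : p4 = q4 + a.h4 * (s - s') := by linarith
  have f5 : p5 = q5 + Real.sqrt 3 / 2 * a.h5 * (s - s') := by linarith
  have f6 : p6 = q6 + Real.sqrt 3 / 2 * a.h6 * (s - s') := by linarith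
  rw [f1, f2, f3, f4, f5, f6]
  ring

theorem kv_slo : G.bU r m s - G.bU r m s' =
    v3kv.v a.h1 a.h2 a.h3 a.h4 a.h5 a.h6 (m * r) * (s - s') := by
  have e1 := hm_eq (m := m) (k := 1) h
  have e2 := hm_eq (m := m) (k := 8 / 5) h
  have e3 := hm_eq (m := m) (k := 11 / 5) h
  have e4 := hm_eq (m := m) (k := 5 / 2) h
  have e5 := ht_eq (a := 1) (b := 16) hr (by norm_num) h
  have e6 := ht_eq (a := 1) (b := 10) hr (by norm_num) h
  rw [← H.h1, mul_one] at e1
  rw [← H.h2, mul_comm m] at e2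
  rw [← H.h3, mul_comm m] at e3
  rw [← H.h4, mul_comm m] at e4
  rw [← H.h5] at e5
  rw [← H.h6] at e6
  simp only [v3kv, v3kv_31, v3kv_36, u1b, u2b, u3b, u4b, u5b, pbf_val, eh_val, b0f_val]
  push_cast
  unfold G.bU G.uR
  simp only [G.u1, G.u2, G.u3, G.u4, G.u5, G.u6, G.u7]
  generalize hg (s - m) = p1 at *
  generalize hg (s' - m) = q1 at *
  generalize hg (s - 8 / 5 * m) = p2 at *
  generalize hg (s' - 8 / 5 * m) = q2 at *
  generalize hg (s - 11 / 5 * m) = p3 at *
  generalize hg (s' - 11 / 5 * m) = q3 at *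
  generalize hg (s - 5 / 2 * m) = p4 at *
  generalize hg (s' - 5 / 2 * m) = q4 at *
  generalize hg (Real.sqrt 3 / 2 * s - 1 / (16 * r)) = p5 at *
  generalize hg (Real.sqrt 3 / 2 * s' - 1 / (16 * r)) = q5 at *
  generalize hg (Real.sqrt 3 / 2 * s - 1 / (10 * r)) = p6 at *
  generalize hg (Real.sqrt 3 / 2 * s' - 1 / (10 * r)) = q6 at *
  have f1 : p1 = q1 + a.h1 * (s - s') := by linarith
  have f2 : p2 = q2 + a.h2 * (s - s') := by linarith
  have f3 : p3 = q3 + a.h3 * (s - s') := by linarith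
  have f4 : p4 = q4 + a.h4 * (s - s') := by linarith
  have f5 : p5 = q5 + Real.sqrt 3 / 2 * a.h5 * (s - s') := by linarith
  have f6 : p6 = q6 + Real.sqrt 3 / 2 * a.h6 * (s - s') := by linarith
  rw [f1, f2, f3, f4, f5, f6]
  ring

end

/-! ### The kernels, for large arguments -/

section

variable {r m s : ℝ} (hr : 0 < r) (h : r * (Real.sqrt 3 / 2 * s) ≤ 1 / 5)

include hr h

theorem kU'_eq : G.kU' r m s = G.kU r m s := by
  unfold G.kU'
  rw [hgz (a := 1) (b := 5) hr (by norm_num) h]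
  ring

theorem bU'_eq : G.bU' r m s = G.bU r m s := by
  unfold G.bU'
  rw [hgz (a := 1) (b := 5) hr (by norm_num) h]
  ring

end

/-! ### Levels -/

theorem lev_T {r s s' k : ℝ} (hr : 0 < r) (h : s' ≤ s)
    (hz : r < 1 / 1000 → r * (Real.sqrt 3 / 2 * s) ≤ k) :
    (max (r * (Real.sqrt 3 / 2 * s) - k) 0 * (max r (1 / 1000))⁻¹) ^ 2 -
      (max (r * (Real.sqrt 3 / 2 * s') - k) 0 * (max r (1 / 1000))⁻¹) ^ 2 =
    (max (r * (Real.sqrt 3 / 2 * s) - k) 0 + max (r * (Real.sqrt 3 / 2 * s') - k) 0) *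
      (max r (1 / 1000))⁻¹ *
      v3hs.v (r * (Real.sqrt 3 / 2 * s) - k) (r * (Real.sqrt 3 / 2 * s') - k) *
      (Real.sqrt 3 / 2) * (s - s') := by
  have hm := rT_mono hr h
  rcases lt_or_ge r (1 / 1000) with h1 | h1
  · have h2 := hz h1
    rw [max_eq_right (by linarith : r * (Real.sqrt 3 / 2 * s) - k ≤ 0),
      max_eq_right (by linarith : r * (Real.sqrt 3 / 2 * s') - k ≤ 0)]
    ring
  · rw [max_eq_left h1]
    have e := hs_eq (a := r * (Real.sqrt 3 / 2 * s) - k) (b := r * (Real.sqrt 3 / 2 * s') - k)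
      (by linarith)
    have e' : max (r * (Real.sqrt 3 / 2 * s) - k) 0 - max (r * (Real.sqrt 3 / 2 * s') - k) 0 =
        v3hs.v (r * (Real.sqrt 3 / 2 * s) - k) (r * (Real.sqrt 3 / 2 * s') - k) *
          (r * (Real.sqrt 3 / 2) * (s - s')) := by
      rw [e]
      ring
    have hr' : r * r⁻¹ = 1 := mul_inv_cancel₀ hr.ne'
    generalize max (r * (Real.sqrt 3 / 2 * s) - k) 0 = A at *
    generalize max (r * (Real.sqrt 3 / 2 * s') - k) 0 = B at *
    generalize v3hs.v (r * (Real.sqrt 3 / 2 * s) - k) (r * (Real.sqrt 3 / 2 * s') - k) = C at *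
    linear_combination (A + B) * r⁻¹ ^ 2 * e' + (A + B) * C * (Real.sqrt 3 / 2) * (s - s') * r⁻¹ *
      hr'

theorem lev_m {s s' k c : ℝ} (h : s' ≤ s) :
    (Real.sqrt 3 / 2 * hg (s - k) / c) ^ 2 - (Real.sqrt 3 / 2 * hg (s' - k) / c) ^ 2 =
    (max (s - k) 0 + max (s' - k) 0) * (Real.sqrt 3 / 2 * c⁻¹) * (Real.sqrt 3 / 2 * c⁻¹) *
      v3hs.v (s - k) (s' - k) * (s - s') := by
  have e := hs_eq (a := s - k) (b := s' - k) (by linarith)
  unfold hg
  simp only [div_eq_mul_inv]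
  linear_combination (Real.sqrt 3 * 2⁻¹ * c⁻¹) ^ 2 * (max (s - k) 0 + max (s' - k) 0) * e

/-- A hinge with a knot which does not depend on the scale, at small scales. -/
theorem hgk {r s a b : ℝ} (hr : 0 < r) (hb : 0 < b)
    (h : r < 1 / 1000 → r * (Real.sqrt 3 / 2 * s) ≤ a / b) :
    hg (Real.sqrt 3 / 2 * s - a / (b * r)) =
      max (r * (Real.sqrt 3 / 2 * s) - a / b) 0 * (max r (1 / 1000))⁻¹ := by
  rw [← hgf0 hr h]
  congr 2
  field_simp

section

variable {r m s s' : ℝ} (hr : 0 < r) (h : s' ≤ s)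
  (hz : r < 1 / 1000 → r * (Real.sqrt 3 / 2 * s) ≤ 29 / 400)

include hr h hz

theorem lp_slo : G.LAM (m * r) * (G.aL (m * r) r m s - G.bL (m * r) r m s) -
    G.LAM (m * r) * (G.aL (m * r) r m s' - G.bL (m * r) r m s') =
    v3lp.v s s' m r (m * r) * (s - s') := by
  have hm := rT_mono hr h
  have e1 := lev_m (k := 167 / 50 * m) (c := 1 / 2 - 167 / 50 * (Real.sqrt 3 / 2) * (m * r)) h
  have e2 := lev_T (k := 29 / 400) hr h (fun e => (hz e).trans (by norm_num))
  have e3 := lev_T (k := 9 / 100) hr h (fun e => (hz e).trans (by norm_num))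
  have e4 := lev_T (k := 3 / 25) hr h (fun e => (hz e).trans (by norm_num))
  unfold G.aL G.bL
  rw [hgk (a := 29) (b := 400) hr (by norm_num) (fun e => (hz e).trans (by norm_num)),
    hgk (a := 9) (b := 100) hr (by norm_num) (fun e => (hz e).trans (by norm_num)),
    hgk (a := 3) (b := 25) hr (by norm_num) (fun e => (hz e).trans (by norm_num)),
    hgk (a := 29) (b := 400) (s := s') hr (by norm_num) (fun e => (hm.trans (hz e)).trans
      (by norm_num)),
    hgk (a := 9) (b := 100) (s := s') hr (by norm_num) (fun e => (hm.trans (hz e)).trans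
      (by norm_num)),
    hgk (a := 3) (b := 25) (s := s') hr (by norm_num) (fun e => (hm.trans (hz e)).trans
      (by norm_num))]
  simp only [v3lp, v3lp_7, v3lp_8, v3lp_9, v3lp_10, v3lp_16, v3lp_30, v3lp_32, v3lp_35, v3lp_37,
    v3lp_38, v3lp_55, v3lp_56, v3lp_72, v3lp_73, lmf_val]
  push_cast
  linear_combination G.LAM (m * r) * ((64649 / 100000 - 12583 / 1000 * (m * r)) * e1 +
    160000 / 29241 * (-(718 / 125) * (m * r) - 15187 / 100000) * e2 +
    10000 / 1681 * (16679 / 500 * (m * r) - 1083 / 50000) * e3 +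
    2500 / 361 * (3279 / 6250 - 34967 / 1000 * (m * r)) * e4)

/-- The levels on the circle of radius `√3`. -/
theorem lz_slo : G.LAM (m * r) * (2 * G.bL' (m * r) r m s - G.aL' (m * r) r m s) -
    G.LAM (m * r) * (2 * G.bL' (m * r) r m s' - G.aL' (m * r) r m s') =
    v3lz.v s s' m r (m * r) * (s - s') := by
  have hm := rT_mono hr h
  have e1 := lev_m (k := 167 / 50 * m) (c := 1 / 2 - 167 / 50 * (Real.sqrt 3 / 2) * (m * r)) h
  have e2 := lev_T (k := 29 / 400) hr h (fun e => (hz e).trans (by norm_num))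
  have e3 := lev_T (k := 9 / 100) hr h (fun e => (hz e).trans (by norm_num))
  have e4 := lev_T (k := 3 / 25) hr h (fun e => (hz e).trans (by norm_num))
  have e5 := lev_T (k := 9 / 50) hr h (fun e => (hz e).trans (by norm_num))
  unfold G.aL' G.bL' G.aL G.bL
  rw [hgk (a := 29) (b := 400) hr (by norm_num) (fun e => (hz e).trans (by norm_num)),
    hgk (a := 9) (b := 100) hr (by norm_num) (fun e => (hz e).trans (by norm_num)),
    hgk (a := 3) (b := 25) hr (by norm_num) (fun e => (hz e).trans (by norm_num)),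
    hgk (a := 9) (b := 50) hr (by norm_num) (fun e => (hz e).trans (by norm_num)),
    hgk (a := 29) (b := 400) (s := s') hr (by norm_num) (fun e => (hm.trans (hz e)).trans
      (by norm_num)),
    hgk (a := 9) (b := 100) (s := s') hr (by norm_num) (fun e => (hm.trans (hz e)).trans
      (by norm_num)),
    hgk (a := 3) (b := 25) (s := s') hr (by norm_num) (fun e => (hm.trans (hz e)).trans
      (by norm_num)),
    hgk (a := 9) (b := 50) (s := s') hr (by norm_num) (fun e => (hm.trans (hz e)).trans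
      (by norm_num))]
  simp only [v3lz, v3lz_7, v3lz_8, v3lz_9, v3lz_10, v3lz_16, v3lz_30, v3lz_32, v3lz_35, v3lz_37,
    v3lz_38, v3lz_54, v3lz_55, v3lz_71, v3lz_72, v3lz_88, v3lz_89, lmf_val]
  push_cast
  linear_combination G.LAM (m * r) * ((-(43361 / 100000) + 93 / 25 * (m * r)) * e1 +
    160000 / 29241 * (43849 / 100000 - 6641 / 200 * (m * r)) * e2 +
    10000 / 1681 * (4324 / 125 * (m * r) - 5323 / 10000) * e3 +
    2500 / 361 * (4487 / 500 * (m * r) - 20713 / 50000) * e4 +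
    625 / 64 * (10927 / 50000 - 24141 / 1000 * (m * r)) * e5)

end

/-- The values of the levels on the circle of radius `√3`. -/
theorem l3_val {r m s : ℝ} (hr : 0 < r) (hz : r < 1 / 1000 → r * (Real.sqrt 3 / 2 * s) ≤ 29 / 400) :
    v3l3.v s m r (m * r) = G.LAM (m * r) * (2 * G.bL' (m * r) r m s - G.aL' (m * r) r m s) := by
  unfold G.aL' G.bL' G.aL G.bL
  rw [hgk (a := 29) (b := 400) hr (by norm_num) (fun e => (hz e).trans (by norm_num)),
    hgk (a := 9) (b := 100) hr (by norm_num) (fun e => (hz e).trans (by norm_num)),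
    hgk (a := 3) (b := 25) hr (by norm_num) (fun e => (hz e).trans (by norm_num)),
    hgk (a := 9) (b := 50) hr (by norm_num) (fun e => (hz e).trans (by norm_num))]
  simp only [v3l3, v3l3_6, v3l3_24, v3l3_27, lmf_val, hg]
  push_cast
  ring


end Pool.Agent.Strip051.LC.E1.V3
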