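import Pool.Agent.Strip051.LC.E1.V3.Bb

/-! # Rests near the full period: the row next to the circle of radius `√3`, the two vertices -/

set_option linter.unusedVariables false
set_option linter.unusedSimpArgs false

namespace Pool.Agent.Strip051.LC.E1.V3

open Pool.Agent.Strip051.PB
open Pool.Agent.Strip051.LC.E1.Ch
open Pool.Agent.Strip051.LC.E1.G (hg)

/-- The slack at a point where the defect and the second moment vanish. -/
theorem slk_at0 {r m a b l n gam base del lev : ℝ} (hr : 0 < r) (hm : 0 < m)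
    (x1 : m * r ≤ 1 / 40) (ha : 0 ≤ a) (hb : 0 ≤ b) (hl : 0 < l) (hrl : r * l ≤ 1 / 16)
    (h0 : n + r * gam = 0) (hd : del = 0) (h : 0 ≤ n / r + base - lev) :
    G.SlkS r m a b l n gam del 0 base lev := by
  have hx0 : 0 < m * r := by positivity
  have hq1 := one_sub_eh' hx0.le (by linarith : m * r ≤ 1)
  refine Or.inr (Or.inr (Or.inl ⟨⟨ha, hb, hl, by linarith, h0.ge⟩, ?_⟩))
  unfold G.FcS
  have e0 : gam = -(n / r) := by
    have := hr.ne'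
    field_simp
    linarith
  have e1 : n * m * G.q1 (m * r) = n / r * (1 - G.eh (m * r)) := by
    rw [hq1]
    field_simp
  rw [hd, e0, e1]
  simp only [abs_zero]
  refine le_of_le_of_eq h ?_
  ring

section

variable {v : Vl} (g : Geo v)

include g

theorem g_v2 : v.v / 2 = v.n * v.v0h / 2 + (v.z0 - v.z) * (1 / 2) := by
  rw [g.ev0, g.ez]
  ring

/-- The sum of the levels. -/
theorem g_A : (G.C1d v.r v.m v.w).c v.r + (-G.C1u v.r v.m v.z).c v.r -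
    (G.V3 (v.n * v.xh) v.r v.m v.t).c v.r = (v.z0 - v.z) * (v.lz - (v.la / v.r + v.lb)) := by
  rw [g_c12 g, g_c23 g, g_c13 g]
  ring

/-- The slack of the row at the far vertex. -/
def SlF (v : Vl) : Prop :=
  G.SlkS v.r v.m v.z v.v v.n (v.v / 2) (v.t * (-G.C1u v.r v.m v.z).k -
    v.z * (G.V3 (v.n * v.xh) v.r v.m v.t).k)
    (-((G.C1d v.r v.m v.w).k + (-G.C1u v.r v.m v.z).k - (G.V3 (v.n * v.xh) v.r v.m v.t).k)) 0
    ((G.x2 v.w v.r + G.x2 v.z v.r) / 2 + (v.t * E0.G.xi1 v.w v.r - v.w * (v.n * v.xh)) / 2)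
    (|(G.C1d v.r v.m v.w).c v.r + (-G.C1u v.r v.m v.z).c v.r -
      (G.V3 (v.n * v.xh) v.r v.m v.t).c v.r| / 2)

theorem slF_zero (hz : v.z0 - v.z = 0) : SlF v := by
  have h0 := g_gk g
  have k1 := g_dk g
  have e1 := g_v2 g
  have e2 := g_k23 g
  have e3 := g_k13 g
  have e4 := g_bs g
  have e5 := g_A g
  have e6 := g_t0 g
  rw [hz] at e1 e2 e3 e4 e5 e6
  unfold SlF
  have e7 : v.z = v.z0 := by linarith
  refine slk_at0 g.r0 g.m0 g.x1 g.zn g.v0.le g.n0 g.rn ?_ ?_ ?_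
  · rw [e1, e2, e3, e7]
    rw [e6] at h0
    linear_combination h0
  · rw [e2, e3]
    linear_combination (-1) * k1
  · rw [e5, e4, e1]
    simp only [zero_mul, abs_zero]
    have := g.r0.ne'
    refine le_of_eq ?_
    ring

/-- **The far vertex.** -/
theorem slF_pos (hz : 0 < v.z0 - v.z) (h : v.RF v.hz v.hy) : SlF v := by
  have e1 := g_v2 g
  have e2 := g_k23 g
  have e3 := g_k13 g
  have e5 := g_A g
  have e6 := g_t0 g
  have k1 := g_dk g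
  have hds : v.ds v.hz v.hy = -(0 + v.kz v.hz - v.k13 v.hy) * (1 - v.r * v.n) := by
    unfold Vl.ds
    rw [dsf_v, shf_v, dln_v]
  have hnf : v.nf = 1 / 2 := by
    unfold Vl.nf
    norm_num
  have hgp : v.gp v.hz v.hy = v.nf + v.r * v.gm v.hz v.hy := by
    unfold Vl.gp
    rw [gpf_v]
  have hgm : v.gm v.hz v.hy = v.t * v.kz v.hz - v.z * v.k13 v.hy - v.k230 + v.k130 := by
    unfold Vl.gm
    rw [gd_val]
  unfold Vl.RF Vl.fo Vl.bn at h
  rw [hds, hgp, hgm, hnf, zero_add, zero_add] at h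
  unfold SlF
  refine slk_slope (N0 := v.n * v.v0h / 2) (G0 := v.t0 * v.k230 - v.z0 * v.k130)
    (b0 := -(v.n * v.v0h / 2 / v.r)) (ζ := v.z0 - v.z) (dl := -(0 + v.kz v.hz - v.k13 v.hy))
    (nf := 1 / 2) (gm := v.t * v.kz v.hz - v.z * v.k13 v.hy - v.k230 + v.k130) (bs := v.bs)
    g.r0 g.m0 (g_ex g) g.x1 g.zn g.v0.le g.n0 g.rn hz (g_gk g) e1 ?_ (g_bs g) ?_ h ?_
  · rw [e2, e3, e6]
    ring
  · rw [e2, e3]
    linear_combination (-1) * k1
  · intro F h1 h2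
    rw [e5]
    unfold Vl.v1a Vl.v1b at h1
    unfold Vl.v2a Vl.v2b at h2
    rw [fa1_val, fb1_val] at h1
    rw [fa2_val, fb2_val] at h2
    have i1 : (v.z0 - v.z) * (v.la / 2 / v.r + -((v.lz - v.lb) / 2)) =
        -((v.z0 - v.z) * (v.lz - (v.la / v.r + v.lb)) / 2) := by ring
    have i2 : (v.z0 - v.z) * (-(v.la / 2) / v.r + (v.lz - v.lb) / 2) =
        (v.z0 - v.z) * (v.lz - (v.la / v.r + v.lb)) / 2 := by ring
    rw [i1] at h1
    rw [i2] at h2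
    rcases abs_cases ((v.z0 - v.z) * (v.lz - (v.la / v.r + v.lb))) with ⟨h, _⟩ | ⟨h, _⟩ <;>
      rw [h] <;> linarith

/-! ### The near vertex -/

omit g in
theorem nk_lin (x k b k' b' z : ℝ) : G.nk x (k + z * k') (b + z * b') =
    G.nk x k b + z * G.nk x k' b' := by
  unfold G.nk
  ring

omit g in
theorem nk_nkf (x k b : ℝ) : nkf.v x k b = G.nk x k b := by
  rw [nkf_val]
  rfl

/-- The slack of the row at the near vertex. -/
def SlN (v : Vl) : Prop :=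
  G.SlkS v.r v.m v.z v.v v.n (G.be v.x * (v.v / 2))
    (v.t * G.nk v.x (-G.C1u v.r v.m v.z).k (-G.C1u v.r v.m v.z).b -
      v.z * G.nk v.x (G.V3 (v.n * v.xh) v.r v.m v.t).k (G.V3 (v.n * v.xh) v.r v.m v.t).b)
    (-(G.nk v.x (G.C1d v.r v.m v.w).k (G.C1d v.r v.m v.w).b +
      G.nk v.x (-G.C1u v.r v.m v.z).k (-G.C1u v.r v.m v.z).b -
      G.nk v.x (G.V3 (v.n * v.xh) v.r v.m v.t).k (G.V3 (v.n * v.xh) v.r v.m v.t).b)) 0
    ((1 + G.LAM v.x * G.mu v.x) * ((G.x2 v.w v.r + G.x2 v.z v.r) / 2 +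
      (v.t * E0.G.xi1 v.w v.r - v.w * (v.n * v.xh)) / 2) +
      G.mu v.x * G.LAM v.x * v.m * G.q1 v.x / (2 * G.eh v.x) * (v.t / 2))
    (-(G.mu v.x * (((1 + v.r * v.z) * (G.C1d v.r v.m v.w).c v.r -
      (1 + v.r * v.w) * (-G.C1u v.r v.m v.z).c v.r) / 2 -
      (2 - v.x - v.r * v.t) / 2 * |(G.C1d v.r v.m v.w).c v.r + (-G.C1u v.r v.m v.z).c v.r -
        (G.V3 (v.n * v.xh) v.r v.m v.t).c v.r|)))

theorem g_n230 : v.n230 = G.nk v.x v.k230 v.b230 := by rw [g.ok.eN230, nk_nkf]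

theorem g_n130 : v.n130 = G.nk v.x v.k130 v.b130 := by rw [g.ok.eN130, nk_nkf]

theorem g_n23 : G.nk v.x (-G.C1u v.r v.m v.z).k (-G.C1u v.r v.m v.z).b =
    v.n230 + (v.z0 - v.z) * v.nz v.hz := by
  rw [g_k23 g, g_b23 g, nk_lin, g_n230 g]
  unfold Vl.nz
  rw [nk_nkf]

theorem g_n13 : G.nk v.x (G.V3 (v.n * v.xh) v.r v.m v.t).k (G.V3 (v.n * v.xh) v.r v.m v.t).b =
    v.n130 + (v.z0 - v.z) * v.n13 v.hy := by
  rw [g_k13 g, g_b13 g, nk_lin, g_n130 g]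
  unfold Vl.n13
  rw [nk_nkf]

theorem g_dn : G.nk v.x (G.C1d v.r v.m v.w).k (G.C1d v.r v.m v.w).b + v.n230 - v.n130 = 0 := by
  have h1 := g_dk g
  have h2 := g_db g
  rw [g_n230 g, g_n130 g]
  unfold G.nk
  linear_combination (1 + G.LAM v.x * G.mu v.x) * h1 + G.mu v.x * h2

theorem g_gn : G.be v.x * (v.n * v.v0h / 2) + v.r * (v.t0 * v.n230 - v.z0 * v.n130) = 0 := by
  have h1 := g_gk g
  have h2 := g_gb g
  rw [g_n230 g, g_n130 g]
  unfold G.nk G.be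
  linear_combination (1 + G.LAM v.x * G.mu v.x) * h1 + G.mu v.x * h2

theorem g_x : 0 < v.x ∧ v.x ≤ 1 / 40 := by
  have := g.x1
  rw [g_ex g]
  exact ⟨mul_pos g.m0 g.r0, this⟩

/-- The base of the near vertex. -/
theorem g_E : G.be v.x * (v.n * v.v0h / 2) / v.r +
    ((1 + G.LAM v.x * G.mu v.x) * -(v.n * v.v0h / 2 / v.r) +
      G.mu v.x * G.LAM v.x * v.m * G.q1 v.x / (2 * G.eh v.x) * (v.t0 / 2)) =
    G.mu v.x * G.LAM v.x * (v.n ^ 2 * (D1 v.w v.r ^ 2 + 3 / 4)) / 4 := by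
  obtain ⟨x0, x1⟩ := g_x g
  have h1 := one_sub_eh' x0.le (by linarith : v.x ≤ 1)
  have h2 := (eh_pos' x0 (by linarith)).ne'
  have h3 : v.n * v.v0h = v.r * (v.n ^ 2 * (D1 v.w v.r ^ 2 + 3 / 4)) := by
    rw [g_v0h g]
    ring
  have hr := g.r0.ne'
  rw [g.ok.eT0, h3]
  generalize v.n ^ 2 * (D1 v.w v.r ^ 2 + 3 / 4) = Q
  unfold G.be G.B0
  have ex := g_ex g
  have h4 : v.r * v.m * G.q1 v.x = 1 - G.eh v.x := by rw [h1, ex]; ring
  field_simp
  linear_combination (-4 * (Q * G.mu v.x * G.LAM v.x)) * h4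

/-- The levels at the base. -/
theorem g_lev0 : v.n < 1 → G.bL v.x v.r v.m v.s0 = 0 ∧
    G.aL v.x v.r v.m v.s0 - G.bL v.x v.r v.m v.s0 = 0 := by
  intro hn
  have hm : v.m = 1 := by
    rcases g.nm with h1 | h1
    · linarith
    · exact h1
  have h1 := g_s0le g
  have h2 := ab_s (t := v.s0) g.r0 g.m0 g.x1 (by rw [hm]; linarith)
  rw [← g_ex g] at h2
  obtain ⟨a1, a2, a3, a4⟩ := h2
  rw [a4] at a2 a3
  constructor <;> linarith

theorem g_et : v.n ^ 2 * v.et = G.mu v.x * G.LAM v.x * (v.n ^ 2 * (D1 v.w v.r ^ 2 + 3 / 4)) / 4 +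
    G.mu v.x * ((1 + v.r * v.z0) * (G.LAM v.x * G.bL v.x v.r v.m v.s0) +
      (1 + v.r * v.w) * (G.LAM v.x * (G.aL v.x v.r v.m v.s0 - G.bL v.x v.r v.m v.s0))) / 2 := by
  have e1 : D1 (-v.n) v.r = D1 v.w v.r := by rw [g.ew]
  have e2 : l1m.v (-v.n) v.m v.r v.x = G.LAM v.x * G.bL v.x v.r v.m v.s0 := by
    rw [← g.ew, g_ex g, l1m_val g.Hw]
    unfold G.C1d
    simp only
    rw [g_sw g]
  have e3 : l1p.v v.z0 v.m v.r v.x =
      G.LAM v.x * (G.aL v.x v.r v.m v.s0 - G.bL v.x v.r v.m v.s0) := by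
    rw [g_ex g, l1p_val g.Hz0]
    unfold G.C1u
    simp only
    rw [← sg1_val, ← g.ok.eS0]
  unfold Vl.et
  rw [et_val, e1, e2, e3]
  have e4 := g.ew
  generalize D1 v.w v.r = D at *
  rcases le_or_gt 1 v.n with h | h
  · rw [max_eq_left h, e4]
    have hn : v.n * v.n⁻¹ = 1 := mul_inv_cancel₀ g.n0.ne'
    generalize G.aL v.x v.r v.m v.s0 = a at *
    generalize G.bL v.x v.r v.m v.s0 = b at *
    linear_combination (G.mu v.x * ((1 + v.r * v.z0) * (G.LAM v.x * b) +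
      (1 - v.r * v.n) * (G.LAM v.x * (a - b))) / 2 * (v.n * v.n⁻¹ + 1)) * hn
  · obtain ⟨a1, a2⟩ := g_lev0 g h
    rw [a2, a1]
    ring

/-- The level at the near vertex. -/
theorem g_lvn : -(G.mu v.x * (((1 + v.r * v.z) * (G.C1d v.r v.m v.w).c v.r -
      (1 + v.r * v.w) * (-G.C1u v.r v.m v.z).c v.r) / 2 -
      (2 - v.x - v.r * v.t) / 2 * |(G.C1d v.r v.m v.w).c v.r + (-G.C1u v.r v.m v.z).c v.r -
        (G.V3 (v.n * v.xh) v.r v.m v.t).c v.r|)) =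
    G.mu v.x * (((1 + v.r * v.w) * ((v.z0 - v.z) * v.lz) -
      (1 + v.r * v.z) * (G.LAM v.x * G.bL v.x v.r v.m v.s0) -
      (1 + v.r * v.w) * (G.LAM v.x * (G.aL v.x v.r v.m v.s0 - G.bL v.x v.r v.m v.s0))) / 2 +
      (2 - v.x - v.r * v.t) / 2 * |(v.z0 - v.z) * (v.lz - (v.la / v.r + v.lb))|) := by
  rw [g_A g, g_c12 g, g_c23 g]
  ring

/-- The base of the near vertex and its level. -/
theorem g_Elev : G.be v.x * (v.n * v.v0h / 2) / v.r +
    ((1 + G.LAM v.x * G.mu v.x) * -(v.n * v.v0h / 2 / v.r) +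
      G.mu v.x * G.LAM v.x * v.m * G.q1 v.x / (2 * G.eh v.x) * (v.t0 / 2)) =
    v.n ^ 2 * v.et - G.mu v.x * ((1 + v.r * v.z0) * (G.LAM v.x * G.bL v.x v.r v.m v.s0) +
      (1 + v.r * v.w) * (G.LAM v.x * (G.aL v.x v.r v.m v.s0 - G.bL v.x v.r v.m v.s0))) / 2 := by
  rw [g_E g, g_et g]
  ring

theorem g_bn : (1 + G.LAM v.x * G.mu v.x) * ((G.x2 v.w v.r + G.x2 v.z v.r) / 2 +
      (v.t * E0.G.xi1 v.w v.r - v.w * (v.n * v.xh)) / 2) +
      G.mu v.x * G.LAM v.x * v.m * G.q1 v.x / (2 * G.eh v.x) * (v.t / 2) =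
    ((1 + G.LAM v.x * G.mu v.x) * -(v.n * v.v0h / 2 / v.r) +
      G.mu v.x * G.LAM v.x * v.m * G.q1 v.x / (2 * G.eh v.x) * (v.t0 / 2)) +
      (v.z0 - v.z) * v.bsN := by
  have h := g_bs g
  have h2 := g_t0 g
  have e : v.bsN = (1 + G.LAM v.x * G.mu v.x) * v.bs -
      G.mu v.x * G.LAM v.x * (v.m * (G.q1 v.x * (2 * G.eh v.x)⁻¹)) / 2 := by
    unfold Vl.bsN Vl.bs
    rw [bsn_val]
  rw [h, h2, e, div_eq_mul_inv _ (2 * G.eh v.x)]
  ring

theorem slN_zero (hz : v.z0 - v.z = 0) (het : 0 ≤ v.et) : SlN v := by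
  have h0 := g_gn g
  have k1 := g_dn g
  have e1 := g_v2 g
  have e2 := g_n23 g
  have e3 := g_n13 g
  have e4 := g_bn g
  have e5 := g_lvn g
  have e6 := g_t0 g
  have e8 := g_Elev g
  rw [hz] at e1 e2 e3 e4 e5 e6
  unfold SlN
  have e7 : v.z = v.z0 := by linarith
  refine slk_at0 g.r0 g.m0 g.x1 g.zn g.v0.le g.n0 g.rn ?_ ?_ ?_
  · rw [e1, e2, e3, e7]
    rw [e6] at h0
    linear_combination h0
  · rw [e2, e3]
    linear_combination (-1) * k1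
  · rw [e5, e4, e1]
    simp only [zero_mul, abs_zero, add_zero]
    rw [e8, e7]
    have := mul_nonneg (sq_nonneg v.n) het
    refine le_of_le_of_eq this ?_
    ring

/-- **The near vertex.** -/
theorem slN_pos (hz : 0 < v.z0 - v.z) (h : v.RN v.hz v.hy) : SlN v := by
  have e1 := g_v2 g
  have e2 := g_n23 g
  have e3 := g_n13 g
  have e5 := g_lvn g
  have e6 := g_t0 g
  have k1 := g_dn g
  have hds : v.dsN v.hz v.hy = -(0 + v.nz v.hz - v.n13 v.hy) * (1 - v.r * v.n) := by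
    unfold Vl.dsN
    rw [dsf_v, shf_v, dln_v]
  have hnf : v.nfN = G.be v.x / 2 := by
    unfold Vl.nfN
    rw [nfn_val]
  have hgp : v.gpN v.hz v.hy = v.nfN + v.r * v.gmN v.hz v.hy := by
    unfold Vl.gpN
    rw [gpf_v]
  have hgm : v.gmN v.hz v.hy = v.t * v.nz v.hz - v.z * v.n13 v.hy - v.n230 + v.n130 := by
    unfold Vl.gmN
    rw [gd_val]
  have hze := g_ze g
  have hsp : 0 < v.r * v.sp := by
    rw [hze] at hz
    exact (mul_pos_iff_of_pos_left (pow_pos g.n0 2)).1 hz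
  have het : (v.z0 - v.z) * (v.et / (v.r * v.sp)) = v.n ^ 2 * v.et := by
    rw [hze, mul_assoc, mul_div_assoc', mul_comm (v.r * v.sp), mul_div_assoc, div_self hsp.ne',
      mul_one]
  unfold Vl.RN Vl.foN Vl.bnN at h
  rw [hds, hgp, hgm, hnf] at h
  unfold SlN
  refine slk_slope (N0 := G.be v.x * (v.n * v.v0h / 2)) (G0 := v.t0 * v.n230 - v.z0 * v.n130)
    (b0 := (1 + G.LAM v.x * G.mu v.x) * -(v.n * v.v0h / 2 / v.r) +
      G.mu v.x * G.LAM v.x * v.m * G.q1 v.x / (2 * G.eh v.x) * (v.t0 / 2))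
    (ζ := v.z0 - v.z) (dl := -(0 + v.nz v.hz - v.n13 v.hy))
    (nf := G.be v.x / 2) (gm := v.t * v.nz v.hz - v.z * v.n13 v.hy - v.n230 + v.n130)
    (bs := v.bsN)
    g.r0 g.m0 (g_ex g) g.x1 g.zn g.v0.le g.n0 g.rn hz (g_gn g) ?_ ?_ (g_bn g) ?_ h ?_
  · rw [e1]
    ring
  · rw [e2, e3, e6]
    ring
  · rw [e2, e3]
    linear_combination (-1) * k1
  · intro F h1 h2
    rw [e5, g_Elev g]
    rw [mul_add, het] at h1 h2
    unfold Vl.v1aN Vl.v1bN at h1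
    unfold Vl.v2aN Vl.v2bN at h2
    rw [na1_val, nb1_val] at h1
    rw [na2_val, nb2_val] at h2
    have hc : v.c12 = G.LAM v.x * G.bL v.x v.r v.m v.s0 := by
      rw [g.ok.eC12, g_ex g, l1m_val g.Hw]
      unfold G.C1d
      simp only
      rw [g_sw g]
    rw [hc] at h1 h2
    have hw : v.r * v.z0 = v.r * v.z + v.r * (v.z0 - v.z) := by ring
    rcases abs_cases ((v.z0 - v.z) * (v.lz - (v.la / v.r + v.lb))) with ⟨h, _⟩ | ⟨h, _⟩ <;>
      rw [h]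
    · refine le_of_le_of_eq h2 ?_
      ring
    · refine le_of_le_of_eq h1 ?_
      ring

end

end Pool.Agent.Strip051.LC.E1.V3
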