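import Pool.Agent.Strip051.LC.E1.V3.Sl

/-! # Rests near the full period: the row next to the circle of radius `√3`, values -/

set_option linter.unusedVariables false
set_option linter.unusedSimpArgs false

namespace Pool.Agent.Strip051.LC.E1.V3

open Pool.Agent.Strip051.PB
open Pool.Agent.Strip051.LC.E1.Ch
open Pool.Agent.Strip051.LC.E1.G (hg)

theorem mx_r {r a b : ℝ} (hr : 0 < r) : max (r * a - r * b) 0 = r * hg (a - b) := by
  unfold hg
  rw [mul_max_of_nonneg _ _ hr.le, mul_zero, mul_sub]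

theorem mx_T {r s a b : ℝ} (hr : 0 < r) (hb : 0 < b) :
    max (r * (Real.sqrt 3 / 2 * s) - a / b) 0 = r * hg (Real.sqrt 3 / 2 * s - a / (b * r)) := by
  rw [hg_T hr hb]
  field_simp

theorem kdk_val {r m s : ℝ} (hr : 0 < r) : kdk.v (r * s) (m * r) = r * G.kU' r m s := by
  have h1 := mx_r (a := s) (b := m) hr
  have h2 := mx_r (a := s) (b := 8 / 5 * m) hr
  have h3 := mx_r (a := s) (b := 11 / 5 * m) hr
  have h4 := mx_r (a := s) (b := 5 / 2 * m) hr
  have h5 := mx_T (s := s) (a := 1) (b := 16) hr (by norm_num)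
  have h6 := mx_T (s := s) (a := 1) (b := 10) hr (by norm_num)
  have h7 := mx_T (s := s) (a := 1) (b := 5) hr (by norm_num)
  simp only [kdk, kdk_3, kdk_5, kdk_8, kdk_38, u2k, u2k_3, u4k, u4k_2, prf_val, eh_val]
  push_cast
  rw [show r * s - m * r = r * s - r * m by ring,
    show r * s - 8 / 5 * (m * r) = r * s - r * (8 / 5 * m) by ring,
    show r * s - 11 / 5 * (m * r) = r * s - r * (11 / 5 * m) by ring,
    show r * s - 5 / 2 * (m * r) = r * s - r * (5 / 2 * m) by ring,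
    show Real.sqrt 3 / 2 * (r * s) = r * (Real.sqrt 3 / 2 * s) by ring, h1, h2, h3, h4, h5, h6, h7]
  unfold G.kU' G.kU G.uR
  simp only [G.u1, G.u2, G.u3, G.u4, G.u5, G.u6, G.u7]
  ring

theorem kdb_val {r m s : ℝ} (hr : 0 < r) : kdb.v (r * s) (m * r) = r * G.bU' r m s := by
  have h1 := mx_r (a := s) (b := m) hr
  have h2 := mx_r (a := s) (b := 8 / 5 * m) hr
  have h3 := mx_r (a := s) (b := 11 / 5 * m) hr
  have h4 := mx_r (a := s) (b := 5 / 2 * m) hr
  have h5 := mx_T (s := s) (a := 1) (b := 16) hr (by norm_num)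
  have h6 := mx_T (s := s) (a := 1) (b := 10) hr (by norm_num)
  have h7 := mx_T (s := s) (a := 1) (b := 5) hr (by norm_num)
  simp only [kdb, kdb_34, kdb_39, kdb_44, u1b, u2b, u3b, u4b, u5b, pbf_val, eh_val, b0f_val]
  push_cast
  rw [show r * s - m * r = r * s - r * m by ring,
    show r * s - 8 / 5 * (m * r) = r * s - r * (8 / 5 * m) by ring,
    show r * s - 11 / 5 * (m * r) = r * s - r * (11 / 5 * m) by ring,
    show r * s - 5 / 2 * (m * r) = r * s - r * (5 / 2 * m) by ring,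
    show Real.sqrt 3 / 2 * (r * s) = r * (Real.sqrt 3 / 2 * s) by ring, h1, h2, h3, h4, h5, h6, h7]
  unfold G.bU' G.bU G.uR
  simp only [G.u1, G.u2, G.u3, G.u4, G.u5, G.u6, G.u7]
  ring

theorem kap_val {r m y t : ℝ} (hr : 0 < r) : kap.v (r * y) t r (m * r) =
    (1 + r * G.kU' r m (2 / 3 * y)) * (2 + r * t / 2)⁻¹ := by
  simp only [kap]
  push_cast
  rw [show (2 : ℝ) / 3 * (r * y) = r * (2 / 3 * y) by ring, kdk_val hr]

theorem bap_val {r m y t : ℝ} (hr : 0 < r) : bap.v (r * y) t r (m * r) =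
    (G.B0 (m * r) + r * G.bU' r m (2 / 3 * y)) * (2 + r * t / 2)⁻¹ := by
  simp only [bap, b0f_val]
  push_cast
  rw [show (2 : ℝ) / 3 * (r * y) = r * (2 / 3 * y) by ring, kdb_val hr]

/-- The slope of the positive part between `v` and `0`. -/
theorem hs_v {v k : ℝ} (hv : 0 ≤ v) (hk : 0 ≤ k) : v * v3hs.v (v - k) (-k) = hg (v - k) := by
  have h := hs_eq (a := v - k) (b := -k) (by linarith)
  rw [max_eq_right (by linarith : -k ≤ 0)] at h
  unfold hg
  linear_combination -h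

theorem vw3_val (x : ℝ) : vw3.v x = G.vW3 x := by
  simp only [vw3, prf_val, tpf_val, qo_val, dwf_val]
  unfold G.vW3
  rw [div_eq_mul_inv _ (G.eh x + 1)]

theorem ok_val {t m r : ℝ} (hm : 0 < m) (ht : t ≤ 0) :
    -t * v3ok.v t m (m * r) = G.wK3 r m (-t) := by
  have h1 := hs_v (v := -t) (k := m / 2) (by linarith) (by linarith)
  have h2 := hs_v (v := -t) (k := m) (by linarith) (by linarith)
  have h3 := hs_v (v := -t) (k := 5 / 2 * m) (by linarith) (by linarith)
  simp only [v3ok, v3ok_3, v3ok_6, v3ok_12, v3ok_28, vw3_val]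
  push_cast
  unfold G.wK3 G.tl
  rw [← h1, ← h2, ← h3]
  ring

theorem ob_val {t m r : ℝ} (hm : 0 < m) (ht : t ≤ 0) :
    -t * v3ob.v t m (m * r) = G.wB3 r m (-t) := by
  have h1 := hs_v (v := -t) (k := m / 2) (by linarith) (by linarith)
  have h2 := hs_v (v := -t) (k := m) (by linarith) (by linarith)
  have h3 := hs_v (v := -t) (k := 5 / 2 * m) (by linarith) (by linarith)
  simp only [v3ob, v3ob_3, v3ob_6, v3ob_17]
  push_cast
  unfold G.wB3 G.tl
  rw [← h1, ← h2, ← h3]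
  ring

/-! ### Values of the other functions -/

theorem ty_val (s r : ℝ) : v3ty.v s r = r * (Real.sqrt 3 / 2 * s) := by
  simp only [v3ty]
  push_cast
  rfl

theorem ks_val (a b c d e f g h : ℝ) : v3ks.v a b c d e f g h =
    a / 2 - 3 / 4 * ((b * e + d * c) * h + d * f * (g * a)) := by
  simp only [v3ks]
  push_cast
  ring

theorem r1_val (r d : ℝ) : v3r1.v r d = 1 + r * d := by
  simp only [v3r1]
  push_cast
  ring

theorem r2_val (x r d : ℝ) : v3r2.v x r d = G.B0 x + r * d := by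
  simp only [v3r2, b0f_val]

theorem y0_val (n r : ℝ) : v3y0.v n r = 3 / 2 * (D1 (-n) r + 1 / 2) := by
  simp only [v3y0, dd1_val]
  push_cast
  ring

theorem yh_val (n p r : ℝ) : v3yh.v n p r = 3 / 2 * (D1 (-n) r + 1 / 2) + 5 / 2 * p := by
  simp only [v3yh, y0_val]
  push_cast
  ring

theorem cq_val (q : ℝ) : v3cq.v q = 2 / 3 * (1 + Real.sqrt (1 - 1 / 3 * q ^ 2))⁻¹ := by
  simp only [v3cq]
  push_cast
  ring

theorem vy_val (q : ℝ) : v3vy.v q = q * v3cq.v q := by
  simp only [v3vy]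

theorem v0_val (n r : ℝ) : v3v0.v n r = r * n * (D1 (-n) r ^ 2 + 3 / 4) := by
  simp only [v3v0, dd1_val]
  push_cast
  ring

theorem ee_val (n yh y0 vs r : ℝ) : v3ee.v n yh y0 vs r =
    (3 - 3 / 4 * (r * (n * vs))) * (yh + y0)⁻¹ := by
  simp only [v3ee]
  push_cast
  ring

theorem xh_val (n zh z r : ℝ) : v3xh.v n zh z r = D1 (-n) r + zh * D1 z r := by
  simp only [v3xh, dd1_val]

theorem uh_val (xh yh vh t r : ℝ) : v3uh.v xh yh vh t r =
    xh - 3 / 5 * yh - 2 / 5 * (D1 t r * vh) := by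
  simp only [v3uh, dd1_val]
  push_cast
  ring

theorem gk_val (q t m r x : ℝ) : v3gk.v q t m r x =
    (v3ok.v t m x - kap.v q t r x * D1 t r) * (1 - D1 t r * v3vy.v q)⁻¹ := by
  simp only [v3gk, dd1_val]
  push_cast
  rfl

theorem gb_val (q t m r x : ℝ) : v3gb.v q t m r x =
    (v3ob.v t m x - bap.v q t r x * D1 t r) * (1 - D1 t r * v3vy.v q)⁻¹ := by
  simp only [v3gb, dd1_val]
  push_cast
  rfl

theorem p2_val (e yh q s1 : ℝ) : v3p2.v e yh q s1 = e * (yh * v3cq.v q) - s1 * v3vy.v q := by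
  simp only [v3p2]

theorem p1_val (xh e ks n t r k0 s1 : ℝ) : v3p1.v xh e ks n t r k0 s1 =
    (2 / 3 * (xh * e) * ks + r * (n * xh) * k0 / 2) * (2 + r * t / 2)⁻¹ + k0 * s1 := by
  simp only [v3p1]
  push_cast
  ring

theorem kd_val (a b c : ℝ) : v3kd.v a b c = a + b * c := by
  simp only [v3kd]

theorem gd_val (t z a b c d : ℝ) : v3gd.v t z a b c d = t * a - z * b - c + d := by
  simp only [v3gd]

theorem bsf_val (w z z0 r s1 : ℝ) : v3bsf.v w z z0 r s1 =
    (s1 * (E0.G.xi1 z r + E0.G.xi1 z0 r) + 3 / 4 * (z + z0) - E0.G.xi1 w r - w * s1) / 2 := by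
  simp only [v3bsf, xi1_val]
  push_cast
  ring

theorem bsn_val (w z z0 m r x s1 : ℝ) : v3bsn.v w z z0 m r x s1 =
    (1 + G.LAM x * G.mu x) * v3bsf.v w z z0 r s1 -
      G.mu x * G.LAM x * (m * (G.q1 x * (2 * G.eh x)⁻¹)) / 2 := by
  simp only [v3bsn, n1f_val, mu_val', lmf_val, qo_val, eh_val]
  push_cast
  ring

theorem y1_val (y t r : ℝ) : v3y1.v y t r = y - E0.G.xi1 t r := by
  simp only [v3y1, xi1_val]

theorem la_val (e n ls q33 : ℝ) : v3la.v e n ls q33 =
    e * (max n (1 / 2))⁻¹ * (2 / 3 * ls - 5 / 2 * q33) := by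
  simp only [v3la]
  push_cast
  ring

theorem hh_val (q t r : ℝ) : v3hh.v q t r =
    D1 t r * v3vy.v q * (1 - D1 t r * v3vy.v q)⁻¹ := by
  simp only [v3hh, v3hh_5, dd1_val]
  push_cast
  ring

theorem v6h_val (yh y q t r x : ℝ) : v3v6.v yh y q t r x =
    G.LAM x * (2028 / 125 * x + 611 / 6250) * (yh * (y * v3cq.v q) * (v3hh.v q t r + 3 / 5)) := by
  simp only [v3v6, lmf_val]
  push_cast
  ring

theorem lb_val (v6 e s1 n r q33 : ℝ) : v3lb.v v6 e s1 n r q33 =
    5 / 2 * (v6 * (e - s1 * (n * r)) + s1 * q33) := by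
  simp only [v3lb]
  push_cast
  ring

theorem fa1_val (a : ℝ) : v3fa1.v a = a / 2 := by
  simp only [v3fa1]
  try push_cast
  try ring

theorem fa2_val (a : ℝ) : v3fa2.v a = -(a / 2) := by
  simp only [v3fa2]
  try push_cast
  try ring

theorem fb1_val (a b : ℝ) : v3fb1.v a b = -((a - b) / 2) := by
  simp only [v3fb1]
  try push_cast
  try ring

theorem fb2_val (a b : ℝ) : v3fb2.v a b = (a - b) / 2 := by
  simp only [v3fb2]
  try push_cast
  try ring

theorem na1_val (t r x a : ℝ) : v3na1.v t r x a = -(G.mu x * ((2 - x - r * t) * a) / 2) := by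
  simp only [v3na1, mu_val']
  push_cast
  ring

theorem na2_val (t r x a : ℝ) : v3na2.v t r x a = G.mu x * ((2 - x - r * t) * a) / 2 := by
  simp only [v3na2, mu_val']
  push_cast
  ring

theorem nb1_val (w t r x c l b : ℝ) : v3nb1.v w t r x c l b =
    G.mu x * (-(r * c) - (1 + r * w) * l + (2 - x - r * t) * (l - b)) / 2 := by
  simp only [v3nb1, mu_val']
  push_cast
  ring

theorem nb2_val (w t r x c l b : ℝ) : v3nb2.v w t r x c l b =
    G.mu x * (-(r * c) - (1 + r * w) * l - (2 - x - r * t) * (l - b)) / 2 := by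
  simp only [v3nb2, mu_val']
  push_cast
  ring

theorem et_val (n z0 m r x : ℝ) : v3et.v n z0 m r x =
    G.mu x * G.LAM x * (D1 (-n) r ^ 2 + 3 / 4) / 4 +
      G.mu x * ((1 + r * z0) * l1m.v (-n) m r x + (1 - r * n) * l1p.v z0 m r x) *
        ((max n 1)⁻¹) ^ 2 / 2 := by
  simp only [v3et, v3et_8, mu_val', lmf_val, dd1_val]
  push_cast
  ring

theorem sg_val (p e : ℝ) : v3sg.v p e = 5 / 2 * p * e⁻¹ := by
  simp only [v3sg]
  push_cast
  ring

theorem nfn_val (x : ℝ) : v3nfn.v x = G.be x / 2 := by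
  simp only [v3nfn, bef_val]
  try push_cast
  try ring

theorem dsf_v (a b : ℝ) : dsf.v a b = a * b := by
  simp only [dsf]

theorem dln_v (a b c : ℝ) : dln.v a b c = -(a + b - c) := by
  simp only [dln]
  ring

theorem shf_v (r l : ℝ) : shf.v r l = 1 - r * l := by
  simp only [shf]
  push_cast
  ring

theorem gpf_v (r n g : ℝ) : gpf.v r n g = n + r * g := by
  simp only [gpf]

theorem q33_val {y t m r x : ℝ} : v3q33.v y t m r x =
    if 2 / 3 * y - 167 / 50 * m ≤ 0 then 0 else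
      v3l3.v (2 / 3 * y) m r x * (v3y1.v y t r)⁻¹ := by
  simp only [v3q33, v3q33_5]
  push_cast
  rfl

end Pool.Agent.Strip051.LC.E1.V3
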